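import Pool.Agent.Lib_MP_f1937f_tb.Defs

/-!
# The semicircle weight
-/

set_option autoImplicit false

namespace Pool.Agent.TB

open Finset

/-- the semicircle weight -/
noncomputable def sw (p : ℕ) (a : ℤ) : ℝ := √(4 * (p : ℝ) - (a : ℝ) ^ 2) / (2 * Real.pi * p)

/-- PIECE [TB-C1b] (30 lines). PROOF. `|a| ≤ N = 2 √p`; `√(4 p - a ^ 2) ≤ 2 √p` gives the upper bound `1 / (π √p)`; if `|a| ≤ √p / 2`
then `√(4 p - a ^ 2) ≥ √(15 p / 4) ≥ 1.9 √p`. -/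
theorem sw_bounds (p : ℕ) (hp : 1 ≤ p) (a : ℤ) :
    0 ≤ sw p a ∧ sw p a ≤ 1 / √(p : ℝ) ∧ (|(a : ℝ)| ≤ √(p : ℝ) / 2 → 3 / 10 / √(p : ℝ) ≤ sw p a) := by
  have hp' : (1 : ℝ) ≤ (p : ℝ) := by exact_mod_cast hp
  have hp0 : (0 : ℝ) < (p : ℝ) := by linarith
  have hpi := Real.pi_gt_three
  have hpi' := Real.pi_lt_d2
  set r : ℝ := √(p : ℝ) with hr
  have hr0 : 0 < r := Real.sqrt_pos.2 hp0
  have hr2 : r ^ 2 = (p : ℝ) := Real.sq_sqrt hp0.le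
  unfold sw
  rw [← hr2]
  refine ⟨by positivity, ?_, fun ha => ?_⟩
  · have h1 : √(4 * r ^ 2 - (a : ℝ) ^ 2) ≤ 2 * r := by
      rw [Real.sqrt_le_left (by positivity)]
      nlinarith [sq_nonneg (a : ℝ)]
    rw [div_le_div_iff₀ (by positivity) hr0]
    calc √(4 * r ^ 2 - (a : ℝ) ^ 2) * r ≤ 2 * r * r := by gcongr
      _ ≤ 1 * (2 * Real.pi * r ^ 2) := by nlinarith [sq_nonneg r, mul_pos hr0 hr0]
  · have h2 : (a : ℝ) ^ 2 ≤ r ^ 2 / 4 := by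
      rw [← sq_abs]
      nlinarith [abs_nonneg (a : ℝ)]
    have h1 : 19 / 10 * r ≤ √(4 * r ^ 2 - (a : ℝ) ^ 2) := by
      apply Real.le_sqrt_of_sq_le
      nlinarith [sq_nonneg r]
    rw [div_div, div_le_div_iff₀ (by positivity) (by positivity)]
    have h3 : 3 * (2 * Real.pi * r ^ 2) ≤ 19 / 10 * r * (10 * r) := by
      nlinarith [mul_pos hr0 hr0]
    calc 3 * (2 * Real.pi * r ^ 2) ≤ 19 / 10 * r * (10 * r) := h3
      _ ≤ √(4 * r ^ 2 - (a : ℝ) ^ 2) * (10 * r) := by gcongr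

end Pool.Agent.TB
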