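import Pool.Agent.Lib_MP_f1937f_tb.SumInv

/-!
# Slowly varying functions at spaced frequencies
-/

set_option autoImplicit false

namespace Pool.Agent.TB

open Finset Pool.Agent.LibLS

private lemma G2_reindex (W : ℕ) (f : ℤ → ℂ) :
    ∑ x ∈ Icc (-(W : ℤ)) W, f x = ∑ n ∈ range (2 * W + 1), f ((n : ℤ) - W) := by
  refine sum_nbij' (fun x => (x + W).toNat) (fun n => (n : ℤ) - W) ?_ ?_ ?_ ?_ ?_
  · intro x hx
    rw [mem_Icc] at hx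
    rw [mem_range]
    omega
  · intro n hn
    rw [mem_range] at hn
    rw [mem_Icc]
    omega
  · intro x hx
    rw [mem_Icc] at hx
    omega
  · intro n hn
    omega
  · intro x hx
    rw [mem_Icc] at hx
    congr 1
    omega

private lemma G2_ident (W : ℕ) (g : ℤ → ℝ) (hg : ∀ x : ℤ, (W : ℤ) ≤ |x| → g x = 0) (ξ : ℝ) :
    (1 - e ξ) * (∑ x ∈ Icc (-(W : ℤ)) W, (g x : ℂ) * e ((x : ℝ) * ξ)) =
      ∑ n ∈ range (2 * W), ((g ((n : ℤ) - W + 1) - g ((n : ℤ) - W) : ℝ) : ℂ) *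
        (e ((1 - (W : ℝ)) * ξ) * e ((n : ℝ) * ξ)) := by
  have hlast : g (((2 * W : ℕ) : ℤ) - W) = 0 := by
    apply hg
    have h : (((2 * W : ℕ) : ℤ) - W) = W := by push_cast; ring
    rw [h]
    exact le_abs_self _
  have hfirst : g (((0 : ℕ) : ℤ) - W) = 0 := by
    apply hg
    have h : (((0 : ℕ) : ℤ) - W) = -(W : ℤ) := by push_cast; ring
    rw [h, abs_neg]
    exact le_abs_self _
  have hA : (∑ x ∈ Icc (-(W : ℤ)) W, (g x : ℂ) * e ((x : ℝ) * ξ)) =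
      ∑ n ∈ range (2 * W), (g ((n : ℤ) - W) : ℂ) * e ((((n : ℤ) - W : ℤ) : ℝ) * ξ) := by
    rw [G2_reindex W (fun x => (g x : ℂ) * e ((x : ℝ) * ξ)), sum_range_succ, hlast]
    simp
  have hB : (∑ x ∈ Icc (-(W : ℤ)) W, (g x : ℂ) * e ((x : ℝ) * ξ)) =
      ∑ n ∈ range (2 * W), (g ((n : ℤ) - W + 1) : ℂ) * e ((((n : ℤ) - W + 1 : ℤ) : ℝ) * ξ) := by
    rw [G2_reindex W (fun x => (g x : ℂ) * e ((x : ℝ) * ξ)), sum_range_succ', hfirst]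
    simp only [Complex.ofReal_zero, zero_mul, add_zero]
    refine sum_congr rfl fun n _ => ?_
    have h : (((n + 1 : ℕ) : ℤ) - W) = (n : ℤ) - W + 1 := by push_cast; ring
    rw [h]
  have h1 : (1 - e ξ) * (∑ x ∈ Icc (-(W : ℤ)) W, (g x : ℂ) * e ((x : ℝ) * ξ)) =
      (∑ x ∈ Icc (-(W : ℤ)) W, (g x : ℂ) * e ((x : ℝ) * ξ)) -
        e ξ * (∑ x ∈ Icc (-(W : ℤ)) W, (g x : ℂ) * e ((x : ℝ) * ξ)) := by ring
  rw [h1]
  nth_rewrite 1 [hB]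
  rw [hA, mul_sum, ← sum_sub_distrib]
  refine sum_congr rfl fun n _ => ?_
  have e1 : e ((((n : ℤ) - W + 1 : ℤ) : ℝ) * ξ) = e ((1 - (W : ℝ)) * ξ) * e ((n : ℝ) * ξ) := by
    rw [← e_add]
    congr 1
    push_cast
    ring
  have e2 : e ξ * e ((((n : ℤ) - W : ℤ) : ℝ) * ξ) = e ((1 - (W : ℝ)) * ξ) * e ((n : ℝ) * ξ) := by
    rw [← e_add, ← e_add]
    congr 1
    push_cast
    ring
  rw [e1, mul_left_comm (e ξ), e2]
  push_cast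
  ring

/-- PIECE [TB-G2] (about 120 lines). PROOF. Write `ĝ(ξ) = ∑ x, g x e(x ξ)`, `g₁ x = g x - g (x - 1)` (zero outside
`-W + 1 ≤ x ≤ W`, `|g₁| ≤ D`). Then `(1 - e(ξ)) ĝ(ξ) = ∑ x, g₁ x e(x ξ)` and `|1 - e(ξ j)| ≥ 4 |t j|`, `t j = ξ j - round (ξ j)`
(`four_mul_abs_le`, `e_add_int`; not zero by `hfar`). Choose `b j` with `b j * (∑ x, g₁ x e(x ξ j)) = |ĝ(ξ j)|` and
`|b j| = 1 / |1 - e(ξ j)| ≤ 1 / (4 |t j|)`. Then `∑ j, |ĝ(ξ j)| = ∑ x, g₁ x * ∑ j, b j e(x ξ j) ≤`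
`(∑ x, g₁ x ^ 2) ^ (1/2) (∑ -W+1 ≤ x ≤ W, |∑ j, b j e(x ξ j)| ^ 2) ^ (1/2) ≤ (2 W D ^ 2) ^ (1/2) (18 W ∑ |b j| ^ 2) ^ (1/2)` by `dual_ineq` with
`M = 2 W` after the shift `x = n - W + 1` (absorbed into `b j`). `= 6 W D (∑ |b j| ^ 2) ^ (1/2)`, and by `sum_inv_sq`
`∑ |b j| ^ 2 ≤ (1 / 8) (1 / σ ^ 2 + 1 / (δ σ))`, whose root is `≤ (1 / 2) (1 / σ + 1 / √(δ σ))`. -/
theorem nonres {ι : Type*} (J : Finset ι) (ξ : ι → ℝ) (δ σ D : ℝ) (hδ : 0 < δ) (hσ : 0 < σ)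
    (hsp : Spaced J ξ δ) (hfar : ∀ j ∈ J, ∀ z : ℤ, σ ≤ |ξ j - z|) (W : ℕ) (hW : 1 / δ ≤ W) (g : ℤ → ℝ)
    (hg : ∀ x : ℤ, (W : ℤ) ≤ |x| → g x = 0) (hD : ∀ x : ℤ, |g (x + 1) - g x| ≤ D) :
    ∑ j ∈ J, ‖∑ x ∈ Icc (-(W : ℤ)) W, (g x : ℂ) * e ((x : ℝ) * ξ j)‖ ≤ 3 * D * W * (1 / σ + 1 / √(δ * σ)) := by
  have hWpos : 0 < (W : ℝ) := lt_of_lt_of_le (by positivity) hW
  have hD0 : 0 ≤ D := (abs_nonneg _).trans (hD 0)
  have hδσ : 0 < δ * σ := mul_pos hδ hσ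
  obtain ⟨gh, hgh⟩ : ∃ gh : ι → ℂ, gh = fun j => ∑ x ∈ Icc (-(W : ℤ)) W, (g x : ℂ) * e ((x : ℝ) * ξ j) :=
    ⟨_, rfl⟩
  obtain ⟨G, hG⟩ : ∃ G : ℕ → ℝ, G = fun n : ℕ => g ((n : ℤ) - W + 1) - g ((n : ℤ) - W) := ⟨_, rfl⟩
  have hGD : ∀ n, |G n| ≤ D := by
    intro n
    rw [hG]
    exact hD ((n : ℤ) - W)
  -- the distance to the integers
  have hb : ∀ j ∈ J, 4 * |ξ j - round (ξ j)| ≤ ‖1 - e (ξ j)‖ := by
    intro j _
    have h1 := four_mul_abs_le (abs_sub_round (ξ j))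
    have h2 : e (ξ j - round (ξ j)) = e (ξ j) := by
      have h3 := e_add_int (ξ j - round (ξ j)) (round (ξ j))
      rw [sub_add_cancel] at h3
      exact h3.symm
    rw [h2] at h1
    rw [norm_sub_rev]
    exact h1
  have htpos : ∀ j ∈ J, 0 < |ξ j - round (ξ j)| := fun j hj => lt_of_lt_of_le hσ (hfar j hj (round (ξ j)))
  have hne : ∀ j ∈ J, (1 - e (ξ j)) ≠ 0 := by
    intro j hj h0
    have h1 := hb j hj
    rw [h0, norm_zero] at h1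
    linarith [htpos j hj]
  -- the coefficients
  obtain ⟨b, hbdef⟩ : ∃ b : ι → ℂ, b = fun j =>
      ((starRingEnd ℂ) (gh j) / (‖gh j‖ : ℂ)) / (1 - e (ξ j)) * e ((1 - (W : ℝ)) * ξ j) := ⟨_, rfl⟩
  have hbn : ∀ j ∈ J, ‖b j‖ ^ 2 ≤ 1 / 16 * (1 / (ξ j - round (ξ j)) ^ 2) := by
    intro j hj
    have h1 : ‖b j‖ ≤ 1 / ‖1 - e (ξ j)‖ := by
      rw [hbdef]
      simp only [norm_mul, norm_div, norm_e, mul_one, RCLike.norm_conj, Complex.norm_real, norm_norm]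
      gcongr
      exact div_self_le_one _
    have h2 : 1 / ‖1 - e (ξ j)‖ ≤ 1 / (4 * |ξ j - round (ξ j)|) :=
      one_div_le_one_div_of_le (by linarith [htpos j hj]) (hb j hj)
    calc ‖b j‖ ^ 2 ≤ (1 / (4 * |ξ j - round (ξ j)|)) ^ 2 := by
          gcongr
          exact h1.trans h2
      _ = 1 / 16 * (1 / |ξ j - round (ξ j)| ^ 2) := by
          field_simp
          norm_num
      _ = 1 / 16 * (1 / (ξ j - round (ξ j)) ^ 2) := by rw [sq_abs]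
  have hB : ∑ j ∈ J, ‖b j‖ ^ 2 ≤ 1 / 8 * (1 / σ ^ 2 + 1 / (δ * σ)) := by
    calc ∑ j ∈ J, ‖b j‖ ^ 2 ≤ ∑ j ∈ J, 1 / 16 * (1 / (ξ j - round (ξ j)) ^ 2) := sum_le_sum hbn
      _ = 1 / 16 * ∑ j ∈ J, 1 / (ξ j - round (ξ j)) ^ 2 := by rw [mul_sum]
      _ ≤ 1 / 16 * (2 * (1 / σ ^ 2 + 1 / (δ * σ))) := by
          gcongr
          exact sum_inv_sq J ξ δ σ hδ hσ hsp hfar
      _ = 1 / 8 * (1 / σ ^ 2 + 1 / (δ * σ)) := by ring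
  -- duality
  obtain ⟨T, hT⟩ : ∃ T : ℕ → ℂ, T = fun n : ℕ => ∑ j ∈ J, b j * e ((n : ℝ) * ξ j) := ⟨_, rfl⟩
  have hval : ∀ j ∈ J, ((‖gh j‖ : ℝ) : ℂ) = ∑ n ∈ range (2 * W), (G n : ℂ) * (b j * e ((n : ℝ) * ξ j)) := by
    intro j hj
    have h1 := G2_ident W g hg (ξ j)
    have h2 : (∑ x ∈ Icc (-(W : ℤ)) W, (g x : ℂ) * e ((x : ℝ) * ξ j)) = gh j := by rw [hgh]
    rw [h2] at h1
    have h3 : ((starRingEnd ℂ) (gh j) / (‖gh j‖ : ℂ)) / (1 - e (ξ j)) * ((1 - e (ξ j)) * gh j) =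
        ((‖gh j‖ : ℝ) : ℂ) := by
      have h4 := hne j hj
      have h5 : ((starRingEnd ℂ) (gh j) / (‖gh j‖ : ℂ)) / (1 - e (ξ j)) * ((1 - e (ξ j)) * gh j) =
          ((starRingEnd ℂ) (gh j) * gh j) / (‖gh j‖ : ℂ) := by
        field_simp
      rw [h5, mul_comm, Complex.mul_conj, Complex.normSq_eq_norm_sq]
      by_cases h0 : gh j = 0
      · rw [h0]
        simp
      · have h6 : (‖gh j‖ : ℂ) ≠ 0 := by
          rw [Ne, Complex.ofReal_eq_zero, norm_eq_zero]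
          exact h0
        rw [div_eq_iff h6]
        push_cast
        ring
    rw [← h3, h1, mul_sum]
    refine sum_congr rfl fun n _ => ?_
    rw [hG, hbdef]
    ring
  have hQ : ((∑ j ∈ J, ‖gh j‖ : ℝ) : ℂ) = ∑ n ∈ range (2 * W), (G n : ℂ) * T n := by
    rw [Complex.ofReal_sum, sum_congr rfl hval, sum_comm]
    refine sum_congr rfl fun n _ => ?_
    rw [hT, mul_sum]
  have hdual := dual_ineq J ξ b hδ hsp (2 * W) (by push_cast; linarith)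
  have hQ0 : 0 ≤ ∑ j ∈ J, ‖gh j‖ := sum_nonneg fun _ _ => norm_nonneg _
  have hle : ∑ j ∈ J, ‖gh j‖ ≤ ∑ n ∈ range (2 * W), |G n| * ‖T n‖ := by
    calc ∑ j ∈ J, ‖gh j‖ = ‖((∑ j ∈ J, ‖gh j‖ : ℝ) : ℂ)‖ := by
          rw [Complex.norm_real, Real.norm_of_nonneg hQ0]
      _ ≤ ∑ n ∈ range (2 * W), ‖(G n : ℂ) * T n‖ := by
          rw [hQ]
          exact norm_sum_le _ _
      _ = ∑ n ∈ range (2 * W), |G n| * ‖T n‖ := by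
          refine sum_congr rfl fun n _ => ?_
          rw [norm_mul, Complex.norm_real, Real.norm_eq_abs]
  have hsq : (∑ j ∈ J, ‖gh j‖) ^ 2 ≤ (3 * D * W * (1 / σ + 1 / √(δ * σ))) ^ 2 := by
    have h1 : (∑ n ∈ range (2 * W), |G n| * ‖T n‖) ^ 2 ≤
        (∑ n ∈ range (2 * W), |G n| ^ 2) * ∑ n ∈ range (2 * W), ‖T n‖ ^ 2 :=
      sum_mul_sq_le_sq_mul_sq _ _ _
    have h2 : ∑ n ∈ range (2 * W), |G n| ^ 2 ≤ 2 * W * D ^ 2 := by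
      calc ∑ n ∈ range (2 * W), |G n| ^ 2 ≤ ∑ n ∈ range (2 * W), D ^ 2 := by
            refine sum_le_sum fun n _ => ?_
            have := hGD n
            gcongr
        _ = 2 * W * D ^ 2 := by
            rw [sum_const, card_range, nsmul_eq_mul]
            push_cast
            ring
    have h3 : ∑ n ∈ range (2 * W), ‖T n‖ ^ 2 ≤ 18 * W * (1 / 8 * (1 / σ ^ 2 + 1 / (δ * σ))) := by
      rw [hT]
      refine hdual.trans ?_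
      push_cast
      have h4 : 9 * (2 * (W : ℝ)) * ∑ r ∈ J, ‖b r‖ ^ 2 = 18 * W * ∑ r ∈ J, ‖b r‖ ^ 2 := by ring
      rw [h4]
      gcongr
    have h5 : (√(δ * σ)) ^ 2 = δ * σ := Real.sq_sqrt hδσ.le
    have h6 : 0 < √(δ * σ) := Real.sqrt_pos.mpr hδσ
    calc (∑ j ∈ J, ‖gh j‖) ^ 2 ≤ (∑ n ∈ range (2 * W), |G n| * ‖T n‖) ^ 2 := by gcongr
      _ ≤ (∑ n ∈ range (2 * W), |G n| ^ 2) * ∑ n ∈ range (2 * W), ‖T n‖ ^ 2 := h1
      _ ≤ (2 * W * D ^ 2) * (18 * W * (1 / 8 * (1 / σ ^ 2 + 1 / (δ * σ)))) := by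
          have : 0 ≤ ∑ n ∈ range (2 * W), ‖T n‖ ^ 2 := sum_nonneg fun _ _ => by positivity
          gcongr
      _ = 9 / 2 * (D ^ 2 * W ^ 2) * (1 / σ ^ 2 + 1 / (δ * σ)) := by ring
      _ ≤ 9 * (D ^ 2 * W ^ 2) * (1 / σ ^ 2 + 1 / (δ * σ)) := by
          have h7 : 0 ≤ D ^ 2 * (W : ℝ) ^ 2 := by positivity
          gcongr
          norm_num
      _ = 9 * (D ^ 2 * W ^ 2) * ((1 / σ) ^ 2 + (1 / √(δ * σ)) ^ 2) := by
          rw [div_pow, div_pow, h5, one_pow]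
      _ ≤ 9 * (D ^ 2 * W ^ 2) * (1 / σ + 1 / √(δ * σ)) ^ 2 := by
          have h8 : 0 ≤ 1 / σ * (1 / √(δ * σ)) := by positivity
          gcongr
          nlinarith
      _ = (3 * D * W * (1 / σ + 1 / √(δ * σ))) ^ 2 := by ring
  have hR : 0 ≤ 3 * D * W * (1 / σ + 1 / √(δ * σ)) := by positivity
  have hfin := abs_le_of_sq_le_sq hsq hR
  rw [hgh] at hfin
  exact (abs_le.mp hfin).2

end Pool.Agent.TB
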