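import Pool.Agent.Lib_MP_f1937f_tb.RamExp

/-!
# Bounds for Ramanujan sums
-/

set_option autoImplicit false

namespace Pool.Agent.TB

open Finset Pool.Agent.LibLS

/-- PIECE [TB-F3] (about 60 lines, two lemmas). From `ram_exp`: `φ(q)` terms of absolute value one. -/
theorem ram_le_totient (q : ℕ) (hq : 0 < q) (x : ℤ) : |ram q x| ≤ q.totient := by
  have h1 : |ram q x| = ‖((ram q x : ℝ) : ℂ)‖ := by
    rw [Complex.norm_real, Real.norm_eq_abs]
  rw [h1, ram_exp q hq x]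
  refine (norm_sum_le _ _).trans ?_
  have h2 : ∑ b ∈ (range q).filter (fun b => b.Coprime q), ‖e ((x : ℝ) * ((b : ℝ) / q))‖ =
      (((range q).filter (fun b => b.Coprime q)).card : ℝ) := by
    rw [Finset.sum_congr rfl (fun b _ => norm_e _), Finset.sum_const, nsmul_eq_mul, mul_one]
  rw [h2]
  have h3 : (range q).filter (fun b => b.Coprime q) = (range q).filter (fun b => q.Coprime b) := by
    refine Finset.filter_congr fun b _ => ?_
    rw [Nat.coprime_comm]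
  rw [h3]
  exact le_of_eq rfl

/-- `|ram q x|` is at most the sum of the common divisors of `q` and `x` -/
theorem ramBd_abs_le (q : ℕ) (hq : 0 < q) (x : ℤ) (hx : x ≠ 0) :
    |ram q x| ≤ ∑ d ∈ x.natAbs.divisors, if d ∣ q then (d : ℝ) else 0 := by
  have h1 : |ram q x| ≤ ∑ d ∈ q.divisors.filter (fun d : ℕ => (d : ℤ) ∣ x), (d : ℝ) := by
    unfold ram
    refine (Finset.abs_sum_le_sum_abs _ _).trans (Finset.sum_le_sum fun d _ => ?_)
    rw [abs_mul, abs_of_nonneg (Nat.cast_nonneg d)]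
    have h2 : |((ArithmeticFunction.moebius (q / d) : ℤ) : ℝ)| ≤ 1 := by
      rw [← Int.cast_abs]
      exact_mod_cast ArithmeticFunction.abs_moebius_le_one
    calc (d : ℝ) * |((ArithmeticFunction.moebius (q / d) : ℤ) : ℝ)| ≤ (d : ℝ) * 1 :=
          mul_le_mul_of_nonneg_left h2 (Nat.cast_nonneg d)
      _ = d := mul_one _
  refine h1.trans (le_of_eq ?_)
  rw [← Finset.sum_filter]
  refine Finset.sum_congr ?_ fun _ _ => rfl
  ext d
  rw [Finset.mem_filter, Finset.mem_filter, Nat.mem_divisors, Nat.mem_divisors,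
    Int.natCast_dvd]
  have hx' : x.natAbs ≠ 0 := Int.natAbs_ne_zero.2 hx
  constructor
  · rintro ⟨⟨h3, _⟩, h4⟩
    exact ⟨⟨h4, hx'⟩, h3⟩
  · rintro ⟨⟨h3, _⟩, h4⟩
    exact ⟨⟨h4, hq.ne'⟩, h3⟩

/-- PROOF. `|ram q x| ≤ ∑ d ∣ q, d ∣ x, d`. Exchange the sums: for `d ∣ x` (`d ≥ 1`) the number of `q` in `[2 ^ i, 2 ^ (i + 1))`
divisible by `d` is `0` if `d ≥ 2 ^ (i + 1)` and at most `2 ^ i / d + 1` otherwise, so it contributes at most
`d (2 ^ i / d + 1) = 2 ^ i + d ≤ 3 * 2 ^ i`. -/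
theorem ram_dyadic (i : ℕ) (x : ℤ) (hx : x ≠ 0) :
    ∑ q ∈ Ico (2 ^ i) (2 ^ (i + 1)), |ram q x| ≤ 3 * 2 ^ i * (x.natAbs.divisors.card : ℝ) := by
  have hpos : 0 < 2 ^ i := Nat.pos_of_ne_zero (pow_ne_zero i two_ne_zero)
  have h1 : ∑ q ∈ Ico (2 ^ i) (2 ^ (i + 1)), |ram q x| ≤
      ∑ q ∈ Ico (2 ^ i) (2 ^ (i + 1)), ∑ d ∈ x.natAbs.divisors, if d ∣ q then (d : ℝ) else 0 := by
    refine Finset.sum_le_sum fun q hq => ramBd_abs_le q ?_ x hx
    have := (Finset.mem_Ico.1 hq).1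
    omega
  refine h1.trans ?_
  rw [Finset.sum_comm]
  have h2 : ∀ d ∈ x.natAbs.divisors,
      ∑ q ∈ Ico (2 ^ i) (2 ^ (i + 1)), (if d ∣ q then (d : ℝ) else 0) ≤ 3 * 2 ^ i := by
    intro d _
    rw [← Finset.sum_filter, Finset.sum_const, nsmul_eq_mul]
    have h3 : ((Ico (2 ^ i) (2 ^ (i + 1))).filter (fun q => d ∣ q)).card ≤
        (2 ^ (i + 1) - 1) / d := by
      rw [← Nat.Ioc_filter_dvd_card_eq_div]
      refine Finset.card_le_card fun q hq => ?_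
      rw [Finset.mem_filter, Finset.mem_Ico] at hq
      rw [Finset.mem_filter, Finset.mem_Ioc]
      refine ⟨⟨?_, ?_⟩, hq.2⟩
      · omega
      · omega
    have h4 : ((Ico (2 ^ i) (2 ^ (i + 1))).filter (fun q => d ∣ q)).card * d ≤ 3 * 2 ^ i := by
      calc ((Ico (2 ^ i) (2 ^ (i + 1))).filter (fun q => d ∣ q)).card * d
          ≤ (2 ^ (i + 1) - 1) / d * d := Nat.mul_le_mul_right d h3
        _ ≤ 2 ^ (i + 1) - 1 := Nat.div_mul_le_self _ _
        _ ≤ 3 * 2 ^ i := by rw [pow_succ]; omega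
    exact_mod_cast h4
  calc ∑ d ∈ x.natAbs.divisors,
      ∑ q ∈ Ico (2 ^ i) (2 ^ (i + 1)), (if d ∣ q then (d : ℝ) else 0)
      ≤ ∑ _d ∈ x.natAbs.divisors, (3 * 2 ^ i : ℝ) := Finset.sum_le_sum h2
    _ = 3 * 2 ^ i * (x.natAbs.divisors.card : ℝ) := by
        rw [Finset.sum_const, nsmul_eq_mul]
        ring

end Pool.Agent.TB
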