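import Pool.Agent.Lib_MP_f1937f_tb.Defs

/-!
# The triangular window
-/

set_option autoImplicit false

namespace Pool.Agent.TB

open Finset

/-- triangular window -/
noncomputable def tri (W : ℕ) (x : ℤ) : ℝ := max 0 ((W : ℝ) - |(x : ℝ)|) / (W : ℝ) ^ 2

private theorem Tri_low (W N : ℕ) (hN : N ≤ W) :
    ∑ m ∈ range N, max 0 ((W : ℝ) - m) = N * W - N * (N - 1) / 2 := by
  induction N with
  | zero => simp
  | succ N ih =>
    have h1 : (0 : ℝ) ≤ (W : ℝ) - N := by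
      have : ((N + 1 : ℕ) : ℝ) ≤ W := by exact_mod_cast hN
      push_cast at this
      linarith
    rw [sum_range_succ, ih (by omega), max_eq_right h1]
    push_cast
    ring

private theorem Tri_all (W X : ℕ) (hX : W ≤ X) :
    ∑ m ∈ range (X + 1), max 0 ((W : ℝ) - m) = (W : ℝ) * (W + 1) / 2 := by
  obtain ⟨k, rfl⟩ := Nat.exists_eq_add_of_le hX
  rw [add_assoc, sum_range_add, Tri_low W W le_rfl, sum_eq_zero]
  · ring
  · intro m _
    apply max_eq_left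
    push_cast
    have : (0 : ℝ) ≤ m := Nat.cast_nonneg m
    linarith

/-- PIECE [TB-H1] (about 60 lines, the two lemmas `tri_sum`, `tri_facts`). `W + 2 ∑_{x < W, x ≥ 1} (W - x) = W ^ 2`. -/
theorem tri_sum (W X : ℕ) (hW : 1 ≤ W) (hX : W ≤ X) : ∑ x ∈ Icc (-(X : ℤ)) X, tri W x = 1 := by
  have hW0 : (W : ℝ) ≠ 0 := by
    have : (1 : ℝ) ≤ W := by exact_mod_cast hW
    linarith
  have hev : Function.Even (fun x : ℤ => max 0 ((W : ℝ) - |(x : ℝ)|)) := by
    intro x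
    simp
  have h1 := sum_Icc_of_even_eq_range hev X
  have h2 : ∑ m ∈ range (X + 1), max 0 ((W : ℝ) - |(((m : ℕ) : ℤ) : ℝ)|) =
      (W : ℝ) * (W + 1) / 2 := by
    rw [← Tri_all W X hX]
    refine sum_congr rfl fun m _ => ?_
    rw [Int.cast_natCast, abs_of_nonneg (Nat.cast_nonneg m)]
  have h3 : max 0 ((W : ℝ) - |((0 : ℤ) : ℝ)|) = W := by
    rw [Int.cast_zero, abs_zero, sub_zero]
    exact max_eq_right (Nat.cast_nonneg W)
  have h4 : ∑ x ∈ Icc (-(X : ℤ)) X, max 0 ((W : ℝ) - |(x : ℝ)|) = (W : ℝ) ^ 2 := by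
    rw [h1, h2, h3]
    ring
  unfold tri
  rw [← sum_div, h4]
  exact div_self (pow_ne_zero 2 hW0)

theorem tri_facts (W : ℕ) (hW : 1 ≤ W) (x : ℤ) : 0 ≤ tri W x ∧ tri W x ≤ 1 / W ∧ ((W : ℤ) ≤ |x| → tri W x = 0) ∧
    |tri W (x + 1) - tri W x| ≤ 1 / (W : ℝ) ^ 2 := by
  have hW0 : (0 : ℝ) < W := by
    have : (1 : ℝ) ≤ W := by exact_mod_cast hW
    linarith
  have hW2 : (0 : ℝ) < (W : ℝ) ^ 2 := by positivity
  refine ⟨div_nonneg (le_max_left _ _) hW2.le, ?_, ?_, ?_⟩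
  · unfold tri
    rw [div_le_div_iff₀ hW2 hW0]
    have h1 : max 0 ((W : ℝ) - |(x : ℝ)|) ≤ W := max_le hW0.le (by linarith [abs_nonneg (x : ℝ)])
    nlinarith
  · intro h
    unfold tri
    have h1 : (W : ℝ) ≤ |(x : ℝ)| := by exact_mod_cast h
    rw [max_eq_left (by linarith), zero_div]
  · unfold tri
    rw [← sub_div, abs_div, abs_of_pos hW2]
    refine div_le_div_of_nonneg_right ?_ hW2.le
    rw [max_comm 0 _, max_comm 0 _]
    refine (abs_max_sub_max_le_abs _ _ _).trans ?_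
    have h1 : ((W : ℝ) - |((x + 1 : ℤ) : ℝ)|) - ((W : ℝ) - |(x : ℝ)|) =
      |(x : ℝ)| - |((x + 1 : ℤ) : ℝ)| := by ring
    rw [h1]
    refine (abs_abs_sub_abs_le _ _).trans ?_
    push_cast
    have h2 : (x : ℝ) - (x + 1) = -1 := by ring
    rw [h2, abs_neg, abs_one]

end Pool.Agent.TB
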