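import Pool.Agent.Lib_MP_f1937f_tb.Fourier
import Pool.Agent.Lib_MP_f1937f_tb.Nonres
import Pool.Agent.Lib_MP_f1937f_tb.RamBd
import Pool.Agent.Lib_MP_f1937f_tb.Tri

/-!
# One dyadic block of the spike
-/

set_option autoImplicit false

namespace Pool.Agent.TB

open Finset Pool.Agent.LibLS

private theorem window_step (W : ℕ) (hW : 1 ≤ W) (F : ℤ → ℝ) (lam : ℝ)
    (hF : ∀ x : ℤ, |x| ≤ W → |F x| ≤ 2)
    (hL : ∀ x : ℤ, |x| ≤ W → |x + 1| ≤ W → |F (x + 1) - F x| ≤ lam) (hlam : 0 ≤ lam) (x : ℤ) :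
    |tri W (x + 1) * F (x + 1) - tri W x * F x| ≤ 2 / (W : ℝ) ^ 2 + lam / W := by
  have hW0 : (0 : ℝ) < W := by exact_mod_cast hW
  by_cases h1 : |x| ≤ (W : ℤ) ∧ |x + 1| ≤ (W : ℤ)
  · obtain ⟨ha, hb⟩ := h1
    have e1 : tri W (x + 1) * F (x + 1) - tri W x * F x =
        (tri W (x + 1) - tri W x) * F (x + 1) + tri W x * (F (x + 1) - F x) := by ring
    rw [e1]
    refine (abs_add_le _ _).trans ?_
    rw [abs_mul, abs_mul]
    obtain ⟨t0, t1, -, t3⟩ := tri_facts W hW x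
    have h2 : |tri W (x + 1) - tri W x| * |F (x + 1)| ≤ 1 / (W : ℝ) ^ 2 * 2 :=
      mul_le_mul t3 (hF _ hb) (abs_nonneg _) (by positivity)
    have h3 : |tri W x| * |F (x + 1) - F x| ≤ 1 / (W : ℝ) * lam := by
      rw [abs_of_nonneg t0]
      exact mul_le_mul t1 (hL x ha hb) (abs_nonneg _) (by positivity)
    refine (add_le_add h2 h3).trans (le_of_eq ?_)
    ring
  · have h2 : (W : ℤ) ≤ |x| ∧ (W : ℤ) ≤ |x + 1| := by
      rw [not_and_or, not_le, not_le] at h1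
      have h3 : |x + 1| ≤ |x| + 1 := by
        refine (abs_add_le _ _).trans ?_
        simp
      have h4 : |x| ≤ |x + 1| + 1 := by
        have h5 : x = (x + 1) + (-1) := by ring
        calc |x| = |(x + 1) + (-1)| := by rw [← h5]
          _ ≤ |x + 1| + |(-1 : ℤ)| := abs_add_le _ _
          _ = |x + 1| + 1 := by simp
      omega
    have h3 := (tri_facts W hW x).2.2.1 h2.1
    have h4 := (tri_facts W hW (x + 1)).2.2.1 h2.2
    rw [h3, h4]
    simp only [zero_mul, sub_self, abs_zero]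
    positivity

private theorem window_lip (W : ℕ) (F : ℤ → ℝ) (lam : ℝ)
    (hL : ∀ x : ℤ, |x| ≤ W → |x + 1| ≤ W → |F (x + 1) - F x| ≤ lam) (n : ℕ) (hn : n ≤ W) :
    |F n - F 0| ≤ n * lam ∧ |F (-(n : ℤ)) - F 0| ≤ n * lam := by
  induction n with
  | zero => simp
  | succ n ih =>
    obtain ⟨h1, h2⟩ := ih (by omega)
    constructor
    · have h3 := hL (n : ℤ) (by rw [abs_of_nonneg (by positivity)]; omega)
        (by rw [abs_of_nonneg (by positivity)]; omega)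
      have e1 : F ((n + 1 : ℕ) : ℤ) - F 0 = (F ((n : ℤ) + 1) - F n) + (F n - F 0) := by
        push_cast
        ring
      rw [e1]
      refine (abs_add_le _ _).trans ((add_le_add h3 h1).trans (le_of_eq ?_))
      push_cast
      ring
    · have e0 : -((n + 1 : ℕ) : ℤ) + 1 = -(n : ℤ) := by push_cast; ring
      have h3 := hL (-((n + 1 : ℕ) : ℤ)) (by rw [abs_neg, abs_of_nonneg (by positivity)]; omega)
        (by rw [e0, abs_neg, abs_of_nonneg (by positivity)]; omega)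
      rw [e0] at h3
      have e1 : F (-((n + 1 : ℕ) : ℤ)) - F 0 =
          -(F (-(n : ℤ)) - F (-((n + 1 : ℕ) : ℤ))) + (F (-(n : ℤ)) - F 0) := by ring
      rw [e1]
      refine (abs_add_le _ _).trans ?_
      rw [abs_neg]
      refine (add_le_add h3 h2).trans (le_of_eq ?_)
      push_cast
      ring

private theorem window_dist (W : ℕ) (F : ℤ → ℝ) (lam : ℝ) (hlam : 0 ≤ lam)
    (hL : ∀ x : ℤ, |x| ≤ W → |x + 1| ≤ W → |F (x + 1) - F x| ≤ lam) (x : ℤ)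
    (hx : |x| ≤ (W : ℤ)) : |F x - F 0| ≤ W * lam := by
  have h1 : x.natAbs ≤ W := by
    rw [Int.abs_eq_natAbs] at hx
    exact_mod_cast hx
  have h2 := window_lip W F lam hL x.natAbs h1
  have h3 : (x.natAbs : ℝ) * lam ≤ W * lam :=
    mul_le_mul_of_nonneg_right (by exact_mod_cast h1) hlam
  rcases Int.natAbs_eq x with h | h
  · have h4 := h2.1
    rw [← h] at h4
    exact h4.trans h3
  · have h4 := h2.2
    rw [← h] at h4
    exact h4.trans h3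

private theorem window_sum (W X : ℕ) (hW : 1 ≤ W) (hWX : W ≤ X) (F : ℤ → ℝ) (lam : ℝ)
    (hlam : 0 ≤ lam)
    (hL : ∀ x : ℤ, |x| ≤ W → |x + 1| ≤ W → |F (x + 1) - F x| ≤ lam) :
    |∑ x ∈ Icc (-(X : ℤ)) X, tri W x * F x - F 0| ≤ W * lam := by
  have h1 : ∑ x ∈ Icc (-(X : ℤ)) X, tri W x * F x - F 0 =
      ∑ x ∈ Icc (-(X : ℤ)) X, tri W x * (F x - F 0) := by
    have h2 : ∑ x ∈ Icc (-(X : ℤ)) X, tri W x * (F x - F 0) =
        ∑ x ∈ Icc (-(X : ℤ)) X, tri W x * F x - (∑ x ∈ Icc (-(X : ℤ)) X, tri W x) * F 0 := by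
      rw [Finset.sum_mul, ← Finset.sum_sub_distrib]
      exact Finset.sum_congr rfl fun x _ => by ring
    rw [h2, tri_sum W X hW hWX, one_mul]
  rw [h1]
  have h3 : ∀ x ∈ Icc (-(X : ℤ)) X, |tri W x * (F x - F 0)| ≤ tri W x * (W * lam) := by
    intro x _
    obtain ⟨t0, -, t2, -⟩ := tri_facts W hW x
    rw [abs_mul, abs_of_nonneg t0]
    by_cases hx : |x| ≤ (W : ℤ)
    · exact mul_le_mul_of_nonneg_left (window_dist W F lam hlam hL x hx) t0
    · rw [t2 (by omega), zero_mul, zero_mul]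
  refine (Finset.abs_sum_le_sum_abs _ _).trans ((Finset.sum_le_sum h3).trans (le_of_eq ?_))
  rw [← Finset.sum_mul, tri_sum W X hW hWX, one_mul]

private theorem window_sqrt (r : ℕ) (hr : 1 ≤ r) (i : ℕ) :
    1 / (1 / ((r : ℝ) * 2 ^ (i + 1))) +
      1 / √((1 / (4 : ℝ) ^ (i + 1)) * (1 / ((r : ℝ) * 2 ^ (i + 1)))) ≤
      5 * r * √((8 : ℝ) ^ i) := by
  have hr1 : (1 : ℝ) ≤ r := by exact_mod_cast hr
  have hr0 : (0 : ℝ) < r := by linarith
  have h1 : 1 / (1 / ((r : ℝ) * 2 ^ (i + 1))) = 2 * r * 2 ^ i := by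
    rw [one_div_one_div, pow_succ]
    ring
  have h2 : (2 : ℝ) ^ i ≤ √((8 : ℝ) ^ i) := by
    refine Real.le_sqrt_of_sq_le ?_
    rw [← pow_mul, mul_comm i 2, pow_mul]
    exact pow_le_pow_left₀ (by norm_num) (by norm_num) i
  have h3 : 1 / √((1 / (4 : ℝ) ^ (i + 1)) * (1 / ((r : ℝ) * 2 ^ (i + 1)))) =
      √((r : ℝ) * 8 * 8 ^ i) := by
    rw [one_div_mul_one_div, one_div, ← Real.sqrt_inv, one_div, inv_inv]
    congr 1
    have h4 : (8 : ℝ) ^ i = 4 ^ i * 2 ^ i := by rw [← mul_pow]; norm_num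
    rw [h4, pow_succ, pow_succ]
    ring
  have h5 : √((r : ℝ) * 8 * 8 ^ i) ≤ 3 * r * √((8 : ℝ) ^ i) := by
    rw [Real.sqrt_mul (by positivity)]
    refine mul_le_mul_of_nonneg_right ?_ (Real.sqrt_nonneg _)
    rw [Real.sqrt_le_left (by positivity)]
    nlinarith
  rw [h1, h3]
  have h6 : 2 * (r : ℝ) * 2 ^ i ≤ 2 * r * √((8 : ℝ) ^ i) :=
    mul_le_mul_of_nonneg_left h2 (by positivity)
  linarith

/-- PIECE [TB-H2] (about 120 lines). PROOF. `fourier` with `f x = tri W x * F x` (we may replace `F` by `0` outside `|x| ≤ W`,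
nothing changes). For `|x|, |x + 1| ≤ W`: `|f (x + 1) - f x| ≤ |tri (x + 1) - tri x| |F (x + 1)| + tri x |F (x + 1) - F x| ≤`
`2 / W ^ 2 + λ / W`; outside both values are `0` or one of them is `tri = 0` (same bound). For every `l` apply `nonres` with `δ = 1 / 4 ^ (i + 1)`,
`σ = 1 / (r 2 ^ (i + 1))`, `D = 2 / W ^ 2 + λ / W` (`QI_spaced`, `QI_far`; the sums over `Icc (-X) X` and `Icc (-W) W` agree, as `f` vanishes for
`|x| ≥ W`), so the right side of `fourier` is at most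
`3 (2 / W + λ) (r 2 ^ (i + 1) + √r √8 ^ (i + 1)) ≤ 3 (2 / W + λ) (2 r √8 ^ i + 3 r √8 ^ i)`. The resonant part:
`|∑ x, tri W x F x - F 0| ≤ ∑ tri W x |F x - F 0| ≤ W λ` (`|F x - F 0| ≤ |x| λ` by induction), times
`|ram q s| ≤ φ(q)` (`ram_le_totient`). -/
theorem block_est (r : ℕ) (hr : 1 ≤ r) (s : ℤ) (i W X : ℕ) (hWX : W ≤ X) (hW : 4 ^ (i + 1) ≤ W) (F : ℤ → ℝ) (lam : ℝ)
    (hF : ∀ x : ℤ, |x| ≤ W → |F x| ≤ 2) (hL : ∀ x : ℤ, |x| ≤ W → |x + 1| ≤ W → |F (x + 1) - F x| ≤ lam) (hlam : 0 ≤ lam) :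
    |∑ x ∈ (Icc (-(X : ℤ)) X).filter (fun x => (r : ℤ) ∣ x - s),
        tri W x * F x * ∑ q ∈ Ico (2 ^ i) (2 ^ (i + 1)), ram q x -
        (∑ q ∈ (Ico (2 ^ i) (2 ^ (i + 1))).filter (· ∣ r), ram q s) / r * F 0| ≤
      15 * r * √((8 : ℝ) ^ i) * (2 / W + lam) +
        (∑ q ∈ (Ico (2 ^ i) (2 ^ (i + 1))).filter (· ∣ r), (q.totient : ℝ)) / r * (W * lam) := by
  have hr1 : (1 : ℝ) ≤ r := by exact_mod_cast hr
  have hr0 : (0 : ℝ) < r := by linarith
  have hW1 : 1 ≤ W := le_trans (Nat.one_le_pow _ _ (by norm_num)) hW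
  have hW0 : (0 : ℝ) < W := by exact_mod_cast hW1
  have hfour := fourier r hr s i X (fun x => tri W x * F x)
  have hD := window_step W hW1 F lam hF hL hlam
  have hzero : ∀ x : ℤ, (W : ℤ) ≤ |x| → tri W x * F x = 0 := fun x hx => by
    rw [(tri_facts W hW1 x).2.2.1 hx, zero_mul]
  -- the nonresonant part
  have hnon : ∀ l : ℕ, ∑ y ∈ QI r l i,
      ‖∑ x ∈ Icc (-(X : ℤ)) X, ((tri W x * F x : ℝ) : ℂ) *
        e ((x : ℝ) * ((l : ℝ) / r + (y.2 : ℝ) / y.1))‖ ≤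
      15 * r * √((8 : ℝ) ^ i) * (2 / W + lam) := by
    intro l
    have h1 := nonres (QI r l i) (fun y => (l : ℝ) / r + (y.2 : ℝ) / y.1) (1 / 4 ^ (i + 1))
      (1 / ((r : ℝ) * 2 ^ (i + 1))) (2 / (W : ℝ) ^ 2 + lam / W) (by positivity) (by positivity)
      (QI_spaced r l i hr) (fun y hy z => QI_far r l i hr y hy z) W
      (by rw [one_div_one_div]; exact_mod_cast hW) (fun x => tri W x * F x) hzero hD
    have h2 : ∀ y : ℕ × ℕ, ∑ x ∈ Icc (-(X : ℤ)) X, ((tri W x * F x : ℝ) : ℂ) *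
        e ((x : ℝ) * ((l : ℝ) / r + (y.2 : ℝ) / y.1)) =
        ∑ x ∈ Icc (-(W : ℤ)) W, ((tri W x * F x : ℝ) : ℂ) *
        e ((x : ℝ) * ((l : ℝ) / r + (y.2 : ℝ) / y.1)) := by
      intro y
      symm
      refine Finset.sum_subset (Finset.Icc_subset_Icc (by omega) (by omega)) ?_
      intro x _ hx
      have h3 : (W : ℤ) ≤ |x| := by
        rw [Finset.mem_Icc] at hx
        by_contra h4
        rw [not_le, abs_lt] at h4
        exact hx ⟨by omega, by omega⟩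
      rw [hzero x h3, Complex.ofReal_zero, zero_mul]
    rw [Finset.sum_congr rfl fun y _ => by rw [h2 y]]
    refine h1.trans ?_
    have h3 := window_sqrt r hr i
    have h4 : 3 * (2 / (W : ℝ) ^ 2 + lam / W) * W = 3 * (2 / W + lam) := by
      field_simp
    rw [h4]
    have h5 : (0 : ℝ) ≤ 3 * (2 / W + lam) := by positivity
    refine (mul_le_mul_of_nonneg_left h3 h5).trans (le_of_eq ?_)
    ring
  have hnon2 : 1 / (r : ℝ) * ∑ l ∈ range r, ∑ y ∈ QI r l i,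
      ‖∑ x ∈ Icc (-(X : ℤ)) X, ((tri W x * F x : ℝ) : ℂ) *
        e ((x : ℝ) * ((l : ℝ) / r + (y.2 : ℝ) / y.1))‖ ≤
      15 * r * √((8 : ℝ) ^ i) * (2 / W + lam) := by
    have h1 := Finset.sum_le_sum (s := range r) fun l _ => hnon l
    rw [Finset.sum_const, card_range, nsmul_eq_mul] at h1
    refine (mul_le_mul_of_nonneg_left h1 (by positivity)).trans (le_of_eq ?_)
    field_simp
  -- the resonant part
  have hA : |∑ q ∈ (Ico (2 ^ i) (2 ^ (i + 1))).filter (· ∣ r), ram q s| ≤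
      ∑ q ∈ (Ico (2 ^ i) (2 ^ (i + 1))).filter (· ∣ r), (q.totient : ℝ) := by
    refine (Finset.abs_sum_le_sum_abs _ _).trans (Finset.sum_le_sum fun q hq => ?_)
    refine ram_le_totient q ?_ s
    have h1 := (Finset.mem_Ico.1 (Finset.mem_filter.1 hq).1).1
    exact lt_of_lt_of_le (pow_pos (by norm_num) i) h1
  have hres : |(∑ q ∈ (Ico (2 ^ i) (2 ^ (i + 1))).filter (· ∣ r), ram q s) / r *
      (∑ x ∈ Icc (-(X : ℤ)) X, tri W x * F x - F 0)| ≤
      (∑ q ∈ (Ico (2 ^ i) (2 ^ (i + 1))).filter (· ∣ r), (q.totient : ℝ)) / r * (W * lam) := by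
    rw [abs_mul, abs_div, abs_of_pos hr0]
    refine mul_le_mul ?_ (window_sum W X hW1 hWX F lam hlam hL) (abs_nonneg _) ?_
    · exact div_le_div_of_nonneg_right hA hr0.le
    · exact div_nonneg (Finset.sum_nonneg fun _ _ => Nat.cast_nonneg _) hr0.le
  obtain ⟨A, hAdef⟩ : ∃ A, A = ∑ q ∈ (Ico (2 ^ i) (2 ^ (i + 1))).filter (· ∣ r), ram q s :=
    ⟨_, rfl⟩
  obtain ⟨S, hSdef⟩ : ∃ S, S = ∑ x ∈ (Icc (-(X : ℤ)) X).filter (fun x => (r : ℤ) ∣ x - s),
        tri W x * F x * ∑ q ∈ Ico (2 ^ i) (2 ^ (i + 1)), ram q x := ⟨_, rfl⟩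
  obtain ⟨T, hTdef⟩ : ∃ T, T = ∑ x ∈ Icc (-(X : ℤ)) X, tri W x * F x := ⟨_, rfl⟩
  have hfour' := hfour.trans hnon2
  rw [← hAdef, ← hTdef] at hres
  change |∑ x ∈ (Icc (-(X : ℤ)) X).filter (fun x => (r : ℤ) ∣ x - s),
        tri W x * F x * ∑ q ∈ Ico (2 ^ i) (2 ^ (i + 1)), ram q x -
        (∑ q ∈ (Ico (2 ^ i) (2 ^ (i + 1))).filter (· ∣ r), ram q s) / r *
          ∑ x ∈ Icc (-(X : ℤ)) X, tri W x * F x| ≤ _ at hfour'
  rw [← hAdef, ← hSdef, ← hTdef] at hfour'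
  rw [← hAdef, ← hSdef]
  have e1 : S - A / r * F 0 = (S - A / r * T) + A / r * (T - F 0) := by ring
  rw [e1]
  exact (abs_add_le _ _).trans (add_le_add hfour' hres)

end Pool.Agent.TB
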