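import Pool.Agent.Lib_MP_f1937f_tb.SpikeDef
import Pool.Agent.Lib_MP_f1937f_tb.Window

/-!
# The spike: main estimate
-/

set_option autoImplicit false

namespace Pool.Agent.TB

open Finset Pool.Agent.LibLS

/-- the dyadic blocks partition the small divisors -/
theorem spikeMain_part (r : ℕ) (hr : 1 ≤ r) (g : ℕ → ℝ) (J : ℕ) :
    ∑ q ∈ r.divisors.filter (· < 2 ^ J), g q =
      ∑ i ∈ range J, ∑ q ∈ (Ico (2 ^ i) (2 ^ (i + 1))).filter (· ∣ r), g q := by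
  induction J with
  | zero =>
    rw [range_zero, sum_empty]
    apply sum_eq_zero
    intro q hq
    rw [mem_filter, Nat.mem_divisors] at hq
    have h1 : q = 0 := by simpa using hq.2
    rw [h1, zero_dvd_iff] at hq
    omega
  | succ J ih =>
    rw [sum_range_succ, ← ih, ← sum_union]
    · refine sum_congr ?_ fun _ _ => rfl
      ext q
      have h2 : (2 : ℕ) ^ J ≤ 2 ^ (J + 1) := Nat.pow_le_pow_right (by norm_num) (by omega)
      simp only [mem_union, mem_filter, Nat.mem_divisors, mem_Ico]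
      constructor
      · rintro ⟨⟨h3, h4⟩, h5⟩
        by_cases h6 : q < 2 ^ J
        · exact Or.inl ⟨⟨h3, h4⟩, h6⟩
        · exact Or.inr ⟨⟨not_lt.1 h6, h5⟩, h3⟩
      · rintro (⟨⟨h3, h4⟩, h5⟩ | ⟨⟨h3, h4⟩, h5⟩)
        · exact ⟨⟨h3, h4⟩, h5.trans_le h2⟩
        · exact ⟨⟨h5, by omega⟩, h4⟩
    · rw [disjoint_left]
      intro q hq hq'
      rw [mem_filter] at hq hq'
      rw [mem_Ico] at hq'
      omega

/-- PIECE [TB-H5] (about 120 lines). PROOF. Exchange the sums over `x` and `i ≤ I`; for every `i` apply `block_est` with `W = Wi R Y i`, `X = ⌊Y⌋₊`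
(`Wi ≤ Y`), `lam = κ / Y`. The sets `{q ∣ r : 2 ^ i ≤ q < 2 ^ (i + 1)}`, `i ≤ I`, partition `{q ∣ r : q < 2 ^ (I + 1)}`. Errors:
(1) `∑ i ≤ I, 15 r √(8 ^ i) (2 / Wi + κ / Y) ≤ ∑ i ≤ I, 15 r (4 R / Y + κ R / Y) ≤ (I + 1) 75 r κ R / Y ≤ 75 / 64 * r κ / R ≤ 2 r √r κ / R`
(`I + 1 ≤ 1 + log R`, `hY`). (2) `∑ i ≤ I, (∑ q ∣ r, q ~ 2 ^ i, φ(q)) / r * (Wi κ / Y) ≤ ∑ i, (∑ q ∣ r, q ~ 2 ^ i, φ(q)) / r * √(8 ^ i) κ / R`, and
`√(8 ^ i) ≤ √(q ^ 3) ≤ √(r ^ 3) = r √r` for `q ∣ r`, `q ≥ 2 ^ i`; `∑ q ∣ r, φ(q) = r` (`Nat.sum_totient`): at most `r √r κ / R`. -/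
theorem nu_main {R Y : ℝ} {I : ℕ} (h : SpikeHyp R Y I) (κ : ℝ) (F : ℤ → ℝ) (hκ : 1 ≤ κ)
    (hF : ∀ x : ℤ, |(x : ℝ)| ≤ Y → |F x| ≤ 2)
    (hL : ∀ x : ℤ, |(x : ℝ)| ≤ Y → |((x + 1 : ℤ) : ℝ)| ≤ Y → |F (x + 1) - F x| ≤ κ / Y) (r : ℕ) (s : ℤ) (hr : 1 ≤ r) :
    |∑ x ∈ (Icc (-(⌊Y⌋₊ : ℤ)) ⌊Y⌋₊).filter (fun x => (r : ℤ) ∣ x - s), nu R Y I x * F x -
        (∑ q ∈ r.divisors.filter (· < 2 ^ (I + 1)), ram q s) / r * F 0| ≤ 3 * (r * √(r : ℝ)) * κ / R := by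
  classical
  have hR := h.one_le
  have hR0 : 0 < R := by linarith
  have hlog : 0 ≤ Real.log R := Real.log_nonneg hR
  have hY := h.hY
  have hY0 : 0 < Y := lt_of_lt_of_le (by positivity) hY
  have hκ0 : 0 < κ := by linarith
  have hr0 : (0 : ℝ) < r := by exact_mod_cast hr
  have hr1 : (1 : ℝ) ≤ r := by exact_mod_cast hr
  have hlam : 0 ≤ κ / Y := by positivity
  set S := (Icc (-(⌊Y⌋₊ : ℤ)) ⌊Y⌋₊).filter (fun x => (r : ℤ) ∣ x - s) with hS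
  have e1 : ∑ x ∈ S, nu R Y I x * F x = ∑ i ∈ range (I + 1), ∑ x ∈ S,
      tri (Wi R Y i) x * F x * ∑ q ∈ Ico (2 ^ i) (2 ^ (i + 1)), ram q x := by
    unfold nu
    rw [sum_comm]
    refine sum_congr rfl fun x _ => ?_
    rw [sum_mul]
    refine sum_congr rfl fun i _ => ?_
    ring
  have e2 := spikeMain_part r hr (fun q => ram q s) (I + 1)
  have e3 : ∑ i ∈ range (I + 1), ∑ q ∈ (Ico (2 ^ i) (2 ^ (i + 1))).filter (· ∣ r), (q.totient : ℝ) ≤ r := by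
    rw [← spikeMain_part r hr (fun q => (q.totient : ℝ)) (I + 1)]
    calc _ ≤ ∑ q ∈ r.divisors, (q.totient : ℝ) :=
          sum_le_sum_of_subset_of_nonneg (filter_subset _ _) fun _ _ _ => Nat.cast_nonneg _
      _ = ((∑ q ∈ r.divisors, q.totient : ℕ) : ℝ) := by rw [Nat.cast_sum]
      _ = r := by rw [Nat.sum_totient]
  have hsq : 0 ≤ √(r : ℝ) := Real.sqrt_nonneg _
  have hsq1 : 1 ≤ √(r : ℝ) := Real.one_le_sqrt.2 hr1
  have hb : ∀ i ∈ range (I + 1), |∑ x ∈ S, tri (Wi R Y i) x * F x * ∑ q ∈ Ico (2 ^ i) (2 ^ (i + 1)), ram q x -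
      (∑ q ∈ (Ico (2 ^ i) (2 ^ (i + 1))).filter (· ∣ r), ram q s) / r * F 0| ≤
      75 * r * κ * R / Y +
        (∑ q ∈ (Ico (2 ^ i) (2 ^ (i + 1))).filter (· ∣ r), (q.totient : ℝ)) * (√(r : ℝ) * κ / R) := by
    intro i hi
    obtain ⟨w1, w2, w3, w4, w5⟩ := h.Wi_facts i (Nat.lt_succ_iff.1 (mem_range.1 hi))
    have hs8 : 0 < √((8 : ℝ) ^ i) := Real.sqrt_pos.2 (by positivity)
    have hle : ∀ x : ℤ, |x| ≤ (Wi R Y i : ℤ) → |(x : ℝ)| ≤ Y := by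
      intro x hx
      have h1 : |(x : ℝ)| ≤ (Wi R Y i : ℝ) := by exact_mod_cast hx
      exact h1.trans w4
    have hb := block_est r hr s i (Wi R Y i) ⌊Y⌋₊ (Nat.le_floor w4) w2 F (κ / Y)
      (fun x hx => hF x (hle x hx)) (fun x hx hx' => hL x (hle x hx) (hle (x + 1) hx')) hlam
    refine hb.trans (add_le_add ?_ ?_)
    · have h1 : √((8 : ℝ) ^ i) * (2 / (Wi R Y i : ℝ)) ≤ 4 * R / Y := by
        have : 2 / (Wi R Y i : ℝ) = 2 * (1 / (Wi R Y i : ℝ)) := by ring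
        rw [this]
        calc √((8 : ℝ) ^ i) * (2 * (1 / (Wi R Y i : ℝ)))
            ≤ √((8 : ℝ) ^ i) * (2 * (2 * R / (Y * √((8 : ℝ) ^ i)))) := by gcongr
          _ = 4 * R / Y := by
            field_simp
            ring
      have h2 : √((8 : ℝ) ^ i) * (κ / Y) ≤ R * (κ / Y) := by gcongr
      have h3 : 4 * R / Y ≤ 4 * κ * R / Y := by
        gcongr
        nlinarith
      calc 15 * (r : ℝ) * √((8 : ℝ) ^ i) * (2 / (Wi R Y i : ℝ) + κ / Y)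
          = 15 * r * (√((8 : ℝ) ^ i) * (2 / (Wi R Y i : ℝ)) + √((8 : ℝ) ^ i) * (κ / Y)) := by ring
        _ ≤ 15 * r * (4 * κ * R / Y + R * (κ / Y)) := by
          gcongr
          exact h1.trans h3
        _ = 75 * r * κ * R / Y := by ring
    · rw [div_mul_eq_mul_div, div_le_iff₀ hr0, mul_assoc, sum_mul, sum_mul]
      refine sum_le_sum fun q hq => ?_
      rw [mem_filter, mem_Ico] at hq
      refine mul_le_mul_of_nonneg_left ?_ (Nat.cast_nonneg _)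
      have hq1 : ((2 : ℝ) ^ i) ≤ r := by
        have : 2 ^ i ≤ r := hq.1.1.trans (Nat.le_of_dvd (by omega) hq.2)
        exact_mod_cast this
      have h8 : √((8 : ℝ) ^ i) ≤ r * √(r : ℝ) := by
        have h9 : (8 : ℝ) ^ i ≤ (r * √(r : ℝ)) ^ 2 := by
          rw [mul_pow, Real.sq_sqrt hr0.le]
          calc (8 : ℝ) ^ i = ((2 : ℝ) ^ i) ^ 3 := by
                rw [← pow_mul, mul_comm, pow_mul]
                norm_num
            _ ≤ (r : ℝ) ^ 3 := pow_le_pow_left₀ (by positivity) hq1 3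
            _ = (r : ℝ) ^ 2 * r := by ring
        exact (Real.sqrt_le_left (by positivity)).2 h9
      have hW : (Wi R Y i : ℝ) * (κ / Y) ≤ √((8 : ℝ) ^ i) * κ / R := by
        calc (Wi R Y i : ℝ) * (κ / Y) ≤ (Y * √((8 : ℝ) ^ i) / R) * (κ / Y) := by gcongr
          _ = √((8 : ℝ) ^ i) * κ / R := by field_simp
      refine hW.trans ?_
      calc √((8 : ℝ) ^ i) * κ / R ≤ (r * √(r : ℝ)) * κ / R := by gcongr
        _ = √(r : ℝ) * κ / R * r := by ring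
  have e4 : ∑ x ∈ S, nu R Y I x * F x - (∑ q ∈ r.divisors.filter (· < 2 ^ (I + 1)), ram q s) / r * F 0 =
      ∑ i ∈ range (I + 1), (∑ x ∈ S, tri (Wi R Y i) x * F x * ∑ q ∈ Ico (2 ^ i) (2 ^ (i + 1)), ram q x -
      (∑ q ∈ (Ico (2 ^ i) (2 ^ (i + 1))).filter (· ∣ r), ram q s) / r * F 0) := by
    rw [e1, e2, sum_sub_distrib, ← sum_mul, ← sum_div]
  rw [e4]
  refine (abs_sum_le_sum_abs _ _).trans ((sum_le_sum hb).trans ?_)
  rw [sum_add_distrib, sum_const, card_range, nsmul_eq_mul, ← sum_mul]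
  have hI := h.I_le
  have f1 : ((I + 1 : ℕ) : ℝ) * (75 * r * κ * R / Y) ≤ 2 * (r * √(r : ℝ)) * κ / R := by
    have g1 : ((I + 1 : ℕ) : ℝ) ≤ 1 + Real.log R := by
      push_cast
      exact hI
    have g2 : (1 + Real.log R) * (75 * r * κ * R / Y) ≤ 2 * r * κ / R := by
      rw [mul_div_assoc', div_le_div_iff₀ hY0 hR0]
      have g3 : (2 * r * κ) * (64 * R ^ 2 * (1 + Real.log R)) ≤ (2 * r * κ) * Y :=
        mul_le_mul_of_nonneg_left hY (by positivity)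
      have g4 : 0 ≤ (r : ℝ) * κ * R ^ 2 * (1 + Real.log R) := by positivity
      nlinarith [g3, g4]
    have g5 : 2 * r * κ / R ≤ 2 * (r * √(r : ℝ)) * κ / R := by
      gcongr
      nlinarith
    have g6 : 0 ≤ 75 * r * κ * R / Y := by positivity
    exact (mul_le_mul_of_nonneg_right g1 g6).trans (g2.trans g5)
  have f2 : (∑ i ∈ range (I + 1), ∑ q ∈ (Ico (2 ^ i) (2 ^ (i + 1))).filter (· ∣ r), (q.totient : ℝ)) *
      (√(r : ℝ) * κ / R) ≤ (r * √(r : ℝ)) * κ / R := by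
    calc _ ≤ (r : ℝ) * (√(r : ℝ) * κ / R) := mul_le_mul_of_nonneg_right e3 (by positivity)
      _ = (r * √(r : ℝ)) * κ / R := by ring
  calc _ ≤ 2 * (r * √(r : ℝ)) * κ / R + (r * √(r : ℝ)) * κ / R := add_le_add f1 f2
    _ = 3 * (r * √(r : ℝ)) * κ / R := by ring

end Pool.Agent.TB
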