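import Pool.Agent.Lib_MP_f1937f_tb.Ram

/-!
# Sum of the Ramanujan sums over the divisors
-/

set_option autoImplicit false

namespace Pool.Agent.TB

open Finset Pool.Agent.LibLS

/-- PIECE [TB-F2] (about 40 lines). PROOF. `∑ q ∣ r, ∑ d ∣ q, [d ∣ x] d μ(q / d) = ∑ d ∣ r, [d ∣ x] d ∑ e ∣ r / d, μ e`, and the last sum is
`[r = d]`. -/
theorem ram_sum (r : ℕ) (hr : 0 < r) (x : ℤ) :
    ∑ q ∈ r.divisors, ram q x = if (r : ℤ) ∣ x then (r : ℝ) else 0 := by
  have h := (ArithmeticFunction.sum_eq_iff_sum_mul_moebius_eq (R := ℝ) (f := fun q => ram q x)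
    (g := fun n : ℕ => if (n : ℤ) ∣ x then (n : ℝ) else 0)).2 (by
      intro n _
      rw [Nat.sum_divisorsAntidiagonal' (n := n)
        (fun a b : ℕ => (ArithmeticFunction.moebius a : ℝ) * if (b : ℤ) ∣ x then (b : ℝ) else 0)]
      unfold ram
      rw [sum_filter]
      refine sum_congr rfl fun d _ => ?_
      split_ifs
      · rw [mul_comm]
      · rw [mul_zero])
  exact h r hr

end Pool.Agent.TB
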