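import Pool.Agent.Lib_MP_f1937f_tb.SpikeDef
import Pool.Agent.Lib_MP_f1937f_tb.RamBd
import Pool.Agent.Lib_MP_f1937f_tb.RamSum

/-!
# The spike: main term
-/

set_option autoImplicit false

namespace Pool.Agent.TB

open Finset Pool.Agent.LibLS

/-- PIECE [TB-H6] (about 60 lines). PROOF. If `r < 2 ^ (I + 1)` all divisors of `r` occur and the difference is `0` (`ram_sum`). Otherwise
`r ^ 3 ≥ 8 ^ (I + 1) > R ^ 2`, so `r √r ≥ R`, and the difference is at most `|F 0| (1 + (1 / r) ∑ q ∣ r, φ(q)) ≤ 4` (`ram_le_totient`,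
`Nat.sum_totient`). -/
theorem nu_triv {R Y : ℝ} {I : ℕ} (h : SpikeHyp R Y I) (F0 : ℝ) (hF : |F0| ≤ 2) (r : ℕ) (s : ℤ) (hr : 1 ≤ r) :
    |(if (r : ℤ) ∣ s then F0 else 0) - (∑ q ∈ r.divisors.filter (· < 2 ^ (I + 1)), ram q s) / r * F0| ≤
      4 * (r * √(r : ℝ)) / R := by
  have hR : (0 : ℝ) < R := lt_of_lt_of_le one_pos h.one_le
  have hr0 : (0 : ℝ) < (r : ℝ) := by exact_mod_cast hr
  have hrhs : 0 ≤ 4 * (r * √(r : ℝ)) / R := by positivity
  rcases lt_or_ge r (2 ^ (I + 1)) with hlt | hge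
  · have hfil : r.divisors.filter (· < 2 ^ (I + 1)) = r.divisors := by
      apply Finset.filter_true_of_mem
      intro q hq
      exact lt_of_le_of_lt (Nat.divisor_le hq) hlt
    rw [hfil, ram_sum r hr s]
    have h0 : (if (r : ℤ) ∣ s then F0 else 0) - (if (r : ℤ) ∣ s then (r : ℝ) else 0) / r * F0 = 0 := by
      split_ifs with hd
      · field_simp
        ring
      · simp
    rw [h0, abs_zero]
    exact hrhs
  · have hge' : (2 : ℝ) ^ (I + 1) ≤ (r : ℝ) := by exact_mod_cast hge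
    have h8 : (8 : ℝ) ^ (I + 1) ≤ (r : ℝ) ^ 3 := by
      have : (8 : ℝ) ^ (I + 1) = ((2 : ℝ) ^ (I + 1)) ^ 3 := by
        rw [← pow_mul, mul_comm, pow_mul]
        norm_num
      rw [this]
      exact pow_le_pow_left₀ (by positivity) hge' 3
    have hsq : R ^ 2 ≤ ((r : ℝ) * √(r : ℝ)) ^ 2 := by
      rw [mul_pow, Real.sq_sqrt hr0.le]
      nlinarith [h.hI']
    have hRle : R ≤ (r : ℝ) * √(r : ℝ) := by
      exact le_of_sq_le_sq hsq (by positivity) 
    have h4 : (4 : ℝ) ≤ 4 * (r * √(r : ℝ)) / R := by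
      rw [le_div_iff₀ hR]
      linarith
    refine le_trans ?_ h4
    have h1 : |(if (r : ℤ) ∣ s then F0 else 0)| ≤ 2 := by
      split_ifs
      · exact hF
      · simp
    have h2 : |∑ q ∈ r.divisors.filter (· < 2 ^ (I + 1)), ram q s| ≤ (r : ℝ) := by
      calc |∑ q ∈ r.divisors.filter (· < 2 ^ (I + 1)), ram q s|
          ≤ ∑ q ∈ r.divisors.filter (· < 2 ^ (I + 1)), |ram q s| := Finset.abs_sum_le_sum_abs _ _
        _ ≤ ∑ q ∈ r.divisors, |ram q s| :=
            Finset.sum_le_sum_of_subset_of_nonneg (Finset.filter_subset _ _) (fun _ _ _ => abs_nonneg _)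
        _ ≤ ∑ q ∈ r.divisors, (q.totient : ℝ) := by
            apply Finset.sum_le_sum
            intro q hq
            exact ram_le_totient q (Nat.pos_of_mem_divisors hq) s
        _ = (r : ℝ) := by
            have := Nat.sum_totient r
            exact_mod_cast this
    have h3 : |(∑ q ∈ r.divisors.filter (· < 2 ^ (I + 1)), ram q s) / r * F0| ≤ 2 := by
      rw [abs_mul, abs_div, abs_of_pos hr0]
      have h5 : |∑ q ∈ r.divisors.filter (· < 2 ^ (I + 1)), ram q s| / r ≤ 1 := by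
        rw [div_le_one hr0]
        exact h2
      calc |∑ q ∈ r.divisors.filter (· < 2 ^ (I + 1)), ram q s| / r * |F0| ≤ 1 * 2 :=
            mul_le_mul h5 hF (abs_nonneg _) zero_le_one
        _ = 2 := by norm_num
    calc |(if (r : ℤ) ∣ s then F0 else 0) - (∑ q ∈ r.divisors.filter (· < 2 ^ (I + 1)), ram q s) / r * F0|
        ≤ |(if (r : ℤ) ∣ s then F0 else 0)| + |(∑ q ∈ r.divisors.filter (· < 2 ^ (I + 1)), ram q s) / r * F0| :=
          abs_sub _ _
      _ ≤ 4 := by linarith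

end Pool.Agent.TB
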