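import Pool.Agent.Lib_MP_f1937f_tb.SpikeSize
import Pool.Agent.Lib_MP_f1937f_tb.SpikeMain
import Pool.Agent.Lib_MP_f1937f_tb.SpikeTriv

/-!
# The spike
-/

set_option autoImplicit false

namespace Pool.Agent.TB

open Finset Pool.Agent.LibLS

/-- There are signed weights `ν` on `|x| ≤ Y`, of size `R / Y` up to the number of divisors, which imitate the point mass at `0` in all
residue classes and against all slowly varying functions. -/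
theorem spike (Y R : ℝ) (hR : 1 ≤ R) (hY : 64 * R ^ 2 * (1 + Real.log R) ≤ Y) : ∃ ν : ℤ → ℝ,
    (∀ x : ℤ, Y < |(x : ℝ)| → ν x = 0) ∧
    (∀ x : ℤ, x ≠ 0 → |ν x| ≤ 24 * (R / Y) * (x.natAbs.divisors.card : ℝ)) ∧ |ν 0| ≤ 1 / 2 ∧
    ∀ (κ : ℝ) (F : ℤ → ℝ), 1 ≤ κ → (∀ x : ℤ, |(x : ℝ)| ≤ Y → |F x| ≤ 2) →
      (∀ x : ℤ, |(x : ℝ)| ≤ Y → |((x + 1 : ℤ) : ℝ)| ≤ Y → |F (x + 1) - F x| ≤ κ / Y) →
      ∀ (r : ℕ) (s : ℤ), 1 ≤ r →
        |(if (r : ℤ) ∣ s then F 0 else 0) -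
            ∑ x ∈ (Icc (-(⌊Y⌋₊ : ℤ)) ⌊Y⌋₊).filter (fun x => (r : ℤ) ∣ x - s), ν x * F x| ≤
          7 * (r * √(r : ℝ)) * κ / R := by
  obtain ⟨I, h⟩ := spikeHyp_exists R Y hR hY
  have hY0 : 0 ≤ Y := by
    have h1 := Real.log_nonneg hR
    exact le_trans (by positivity) hY
  refine ⟨nu R Y I, fun x hx => nu_supp h x hx, fun x hx => nu_size h x hx, nu_zero h, ?_⟩
  intro κ F hκ hF hL r s hr
  have h1 := nu_main h κ F hκ hF hL r s hr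
  have h2 := nu_triv h (F 0) (hF 0 (by simpa using hY0)) r s hr
  have hR0 : 0 < R := by linarith
  have hrr : (0 : ℝ) ≤ r * √(r : ℝ) := by positivity
  have h3 : 4 * (r * √(r : ℝ)) / R ≤ 4 * (r * √(r : ℝ)) * κ / R := by
    exact div_le_div_of_nonneg_right (le_mul_of_one_le_right (by positivity) hκ) hR0.le
  calc _ ≤ |(if (r : ℤ) ∣ s then F 0 else 0) -
          (∑ q ∈ r.divisors.filter (· < 2 ^ (I + 1)), ram q s) / r * F 0| +
        |∑ x ∈ (Icc (-(⌊Y⌋₊ : ℤ)) ⌊Y⌋₊).filter (fun x => (r : ℤ) ∣ x - s), nu R Y I x * F x -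
          (∑ q ∈ r.divisors.filter (· < 2 ^ (I + 1)), ram q s) / r * F 0| := by
        rw [abs_sub_comm (∑ x ∈ (Icc (-(⌊Y⌋₊ : ℤ)) ⌊Y⌋₊).filter (fun x => (r : ℤ) ∣ x - s), nu R Y I x * F x)]
        refine le_trans (le_of_eq ?_) (abs_add_le _ _)
        congr 1
        ring
    _ ≤ 4 * (r * √(r : ℝ)) * κ / R + 3 * (r * √(r : ℝ)) * κ / R := add_le_add (h2.trans h3) h1
    _ = _ := by ring

end Pool.Agent.TB
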