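import Pool.Agent.Lib_MP_f1937f_tb.Defs
import Pool.Agent.Lib_MP_db34dc_nt.Basic

/-!
# Choice of the parameters for large primes
-/

set_option autoImplicit false

namespace Pool.Agent.TB

open Finset

/-- eventually in the reals -/
private theorem spike_asym_ev (M : ℕ) (hM : 0 < M) (a₀ : ℤ) (ε : ℝ) (hε : 0 < ε) (D c : ℝ) (hc : 0 < c) :
    ∀ᶠ x : ℝ in Filter.atTop, 1 ≤ x ∧ 256 * (M : ℝ) * (1 + Real.log x) ≤ x ^ (2 * ε) ∧
      |(a₀ : ℝ)| ≤ √x / 4 ∧ D ≤ c * x ^ ε := by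
  have h1 : ∀ᶠ x : ℝ in Filter.atTop, (1 : ℝ) ≤ x := Filter.eventually_ge_atTop 1
  have hM' : (0 : ℝ) < M := by exact_mod_cast hM
  have hl : (fun x : ℝ => 1 + Real.log x) =o[Filter.atTop] fun x : ℝ => x ^ (2 * ε) := by
    refine Asymptotics.IsLittleO.add ?_ (isLittleO_log_rpow_atTop (by positivity))
    rw [Asymptotics.isLittleO_const_left]
    right
    have := tendsto_rpow_atTop (y := 2 * ε) (by positivity)
    exact tendsto_norm_atTop_atTop.comp this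
  have h2 : ∀ᶠ x : ℝ in Filter.atTop, 256 * (M : ℝ) * (1 + Real.log x) ≤ x ^ (2 * ε) := by
    have := hl.def (c := 1 / (256 * M)) (by positivity)
    filter_upwards [this, h1] with x hx hx1
    have hlog : 0 ≤ Real.log x := Real.log_nonneg hx1
    rw [Real.norm_of_nonneg (by positivity), Real.norm_of_nonneg (by positivity)] at hx
    rw [div_mul_eq_mul_div, one_mul, le_div_iff₀ (by positivity)] at hx
    linarith
  have h3 : ∀ᶠ x : ℝ in Filter.atTop, |(a₀ : ℝ)| ≤ √x / 4 := by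
    have := (Real.tendsto_sqrt_atTop).eventually_ge_atTop (4 * |(a₀ : ℝ)|)
    filter_upwards [this] with x hx
    linarith
  have h4 : ∀ᶠ x : ℝ in Filter.atTop, D ≤ c * x ^ ε := by
    have := (tendsto_rpow_atTop hε).eventually_ge_atTop (D / c)
    filter_upwards [this] with x hx
    rw [div_le_iff₀ hc] at hx
    linarith
  filter_upwards [h1, h2, h3, h4] with x a b d e
  exact ⟨a, b, d, e⟩

/-- PIECE [TB-I5a] (about 100 lines). PROOF. `R = p ^ (1 / 4 - ε)`, `R ^ 2 = p ^ (1 / 2 - 2 ε)`, `log R ≤ log p`: the second claim is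
`64 p ^ (- 2 ε) (1 + log p) ≤ 1 / (4 M)` for large `p`. Last claim: `Pool.Agent.MP_db34dc_nt.divisor_bound ε` gives `τ(n) ≤ K n ^ ε ≤ K p ^ ε`, and
`C p ^ (1 / 2 - 2 ε) K p ^ ε / p = C K p ^ (- ε) / √p ≤ c / √p` for large `p`. -/
theorem spike_asym (M : ℕ) (hM : 0 < M) (a₀ : ℤ) (ε : ℝ) (hε : 0 < ε) (hε' : ε ≤ 1 / 8) (C c : ℝ) (hC : 0 ≤ C) (hc : 0 < c) :
    ∃ p₀ : ℕ, ∀ p : ℕ, p₀ ≤ p → 1 ≤ (p : ℝ) ^ (1 / 4 - ε) ∧
      64 * ((p : ℝ) ^ (1 / 4 - ε)) ^ 2 * (1 + Real.log ((p : ℝ) ^ (1 / 4 - ε))) ≤ √(p : ℝ) / (4 * M) ∧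
      |(a₀ : ℝ)| ≤ √(p : ℝ) / 4 ∧
      ∀ n : ℕ, n ≠ 0 → (n : ℝ) ≤ √(p : ℝ) →
        C * ((p : ℝ) ^ (1 / 4 - ε)) ^ 2 * (n.divisors.card : ℝ) / p ≤ c / √(p : ℝ) := by
  obtain ⟨K, hK1, hK⟩ := Pool.Agent.MP_db34dc_nt.divisor_bound ε hε
  have hM' : (0 : ℝ) < M := by exact_mod_cast hM
  have hev := (tendsto_natCast_atTop_atTop (R := ℝ)).eventually
    (spike_asym_ev M hM a₀ ε hε (C * K) c hc)
  rw [Filter.eventually_atTop] at hev
  obtain ⟨p₀, hp₀⟩ := hev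
  refine ⟨p₀, fun p hp => ?_⟩
  obtain ⟨hx1, h2, h3, h4⟩ := hp₀ p hp
  set x : ℝ := (p : ℝ) with hx
  have hx0 : 0 < x := lt_of_lt_of_le one_pos hx1
  have hsq : √x = x ^ (1 / 2 : ℝ) := Real.sqrt_eq_rpow x
  have hR2 : (x ^ (1 / 4 - ε)) ^ 2 = x ^ (1 / 2 - 2 * ε) := by
    rw [← Real.rpow_natCast, ← Real.rpow_mul hx0.le]
    congr 1
    push_cast
    ring
  refine ⟨Real.one_le_rpow hx1 (by linarith), ?_, h3, ?_⟩
  · rw [hR2, Real.log_rpow hx0]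
    have hlog : 0 ≤ Real.log x := Real.log_nonneg hx1
    have e1 : x ^ (1 / 2 : ℝ) = x ^ (1 / 2 - 2 * ε) * x ^ (2 * ε) := by
      rw [← Real.rpow_add hx0]
      congr 1
      ring
    rw [hsq, e1, le_div_iff₀ (by positivity)]
    have hpos : 0 < x ^ (1 / 2 - 2 * ε) := Real.rpow_pos_of_pos hx0 _
    have h5 : 64 * (1 + (1 / 4 - ε) * Real.log x) * (4 * M) ≤ x ^ (2 * ε) := by
      refine le_trans ?_ h2
      have : (1 / 4 - ε) * Real.log x ≤ Real.log x := by nlinarith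
      nlinarith
    calc 64 * x ^ (1 / 2 - 2 * ε) * (1 + (1 / 4 - ε) * Real.log x) * (4 * M)
        = x ^ (1 / 2 - 2 * ε) * (64 * (1 + (1 / 4 - ε) * Real.log x) * (4 * M)) := by ring
      _ ≤ x ^ (1 / 2 - 2 * ε) * x ^ (2 * ε) := mul_le_mul_of_nonneg_left h5 hpos.le
  · intro n hn hnx
    have hn1 : (n : ℝ) ^ ε ≤ x ^ ε := by
      refine Real.rpow_le_rpow (by positivity) ?_ hε.le
      refine hnx.trans ?_
      rw [Real.sqrt_le_left hx0.le]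
      nlinarith
    have hd : (n.divisors.card : ℝ) ≤ K * x ^ ε :=
      (hK n hn).trans (mul_le_mul_of_nonneg_left hn1 (by linarith))
    rw [hR2, hsq, div_le_div_iff₀ hx0 (Real.rpow_pos_of_pos hx0 _)]
    have e1 : x ^ (1 / 2 - 2 * ε) * x ^ ε * x ^ (1 / 2 : ℝ) * x ^ ε = x := by
      rw [← Real.rpow_add hx0, ← Real.rpow_add hx0, ← Real.rpow_add hx0]
      conv_rhs => rw [← Real.rpow_one x]
      congr 1
      ring
    have hpos : 0 < x ^ (1 / 2 - 2 * ε) * x ^ ε * x ^ (1 / 2 : ℝ) := by positivity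
    calc C * x ^ (1 / 2 - 2 * ε) * (n.divisors.card : ℝ) * x ^ (1 / 2 : ℝ)
        ≤ C * x ^ (1 / 2 - 2 * ε) * (K * x ^ ε) * x ^ (1 / 2 : ℝ) := by gcongr
      _ = (C * K) * (x ^ (1 / 2 - 2 * ε) * x ^ ε * x ^ (1 / 2 : ℝ)) := by ring
      _ ≤ (c * x ^ ε) * (x ^ (1 / 2 - 2 * ε) * x ^ ε * x ^ (1 / 2 : ℝ)) :=
          mul_le_mul_of_nonneg_right h4 hpos.le
      _ = c * (x ^ (1 / 2 - 2 * ε) * x ^ ε * x ^ (1 / 2 : ℝ) * x ^ ε) := by ring
      _ = c * x := by rw [e1]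

end Pool.Agent.TB
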