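import Pool.Agent.Lib_MP_f1937f_tb.Cheb

/-!
# The spike moved to the class of `a₀` modulo `M`
-/

set_option autoImplicit false

namespace Pool.Agent.TB

open Finset

/-- PIECE [TB-I5b] (about 150 lines). PROOF. Let `g a` be the bracket. If `M ∤ t - a₀` no `a` with `m ∣ a - t` (so `M ∣ a - t`) lies in the class of `a₀`
modulo `M`, and the sum is `0`. Otherwise put `r = m / M`, `s = (t - a₀) / M`. For `a = a₀ + M x`: `m ∣ a - t` iff `r ∣ x - s`; and `m ∣ a₀ - t` iff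
`r ∣ s`. With `F x = Uk k (xx p (a₀ + M x))`, `Y = √p / (4 M)` the sum is `[r ∣ s] F 0 - ∑ x ∈ Icc (-⌊Y⌋) ⌊Y⌋, r ∣ x - s, ν x * F x`: `a₀ + M x ∈ V p` for
`|x| ≤ Y` (`|a₀ + M x| ≤ √p / 2`), and `ν` vanishes at the other `x`. `|xx p (a₀ + M x)| ≤ 1 / 4` for `|x| ≤ Y`, so `|F x| ≤ 2` (`Uk_le_two`), and
`|F (x + 1) - F x| ≤ 4 (k + 1) M / (2 √p) = (k + 1) / (2 Y)` (`Uk_lip`). Apply `hmain` with `κ = k + 1`; `r ≤ m`. -/
theorem spike_equi (M : ℕ) (hM : 0 < M) (a₀ : ℤ) (p : ℕ) (hp : 2 ≤ p) (ha₀ : |(a₀ : ℝ)| ≤ √(p : ℝ) / 4) (R : ℝ) (hR : 1 ≤ R)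
    (ν : ℤ → ℝ) (hsupp : ∀ x : ℤ, √(p : ℝ) / (4 * M) < |(x : ℝ)| → ν x = 0)
    (hmain : ∀ (κ : ℝ) (F : ℤ → ℝ), 1 ≤ κ → (∀ x : ℤ, |(x : ℝ)| ≤ √(p : ℝ) / (4 * M) → |F x| ≤ 2) →
      (∀ x : ℤ, |(x : ℝ)| ≤ √(p : ℝ) / (4 * M) → |((x + 1 : ℤ) : ℝ)| ≤ √(p : ℝ) / (4 * M) →
        |F (x + 1) - F x| ≤ κ / (√(p : ℝ) / (4 * M))) →
      ∀ (r : ℕ) (s : ℤ), 1 ≤ r →
        |(if (r : ℤ) ∣ s then F 0 else 0) -
            ∑ x ∈ (Icc (-(⌊√(p : ℝ) / (4 * M)⌋₊ : ℤ)) ⌊√(p : ℝ) / (4 * M)⌋₊).filter (fun x => (r : ℤ) ∣ x - s), ν x * F x| ≤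
          7 * (r * √(r : ℝ)) * κ / R)
    (m : ℕ) (hm : 0 < m) (h : M ∣ m) (t : ℤ) (k : ℕ) :
    |∑ a ∈ (V p).filter (fun a => (m : ℤ) ∣ a - t),
        ((if a = a₀ then 1 else 0) - (if (M : ℤ) ∣ a - a₀ then ν ((a - a₀) / M) else 0)) * Uk k (xx p a)| ≤
      7 * (m * √(m : ℝ)) * (k + 1) / R := by
  classical
  have hpp : (0 : ℝ) < √(p : ℝ) := Real.sqrt_pos.2 (by exact_mod_cast (by omega : 0 < p))
  have hMr : (0 : ℝ) < (M : ℝ) := by exact_mod_cast hM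
  have hMz : (M : ℤ) ≠ 0 := by exact_mod_cast hM.ne'
  have hR0 : (0 : ℝ) < R := by linarith
  have hk : (0 : ℝ) ≤ (k : ℝ) := Nat.cast_nonneg k
  obtain ⟨r, rfl⟩ := h
  have hr : 0 < r := Nat.pos_of_ne_zero (by rintro rfl; simp at hm)
  by_cases hc : (M : ℤ) ∣ t - a₀
  swap
  · rw [Finset.sum_eq_zero]
    · rw [abs_zero]
      positivity
    · intro a ha
      rw [mem_filter] at ha
      have h1 : (M : ℤ) ∣ a - t := by
        refine Dvd.dvd.trans ?_ ha.2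
        push_cast
        exact dvd_mul_right _ _
      have h2 : ¬ (M : ℤ) ∣ a - a₀ := fun h => hc (by
        have := dvd_sub h h1
        have e : a - a₀ - (a - t) = t - a₀ := by ring
        rwa [e] at this)
      have h3 : a ≠ a₀ := fun h => h2 (by rw [h, sub_self]; exact dvd_zero _)
      rw [if_neg h2, if_neg h3]
      ring
  obtain ⟨s, hs⟩ := hc
  have ht : t = a₀ + M * s := by linarith
  subst ht
  clear hs
  have habs : ∀ x : ℤ, |(x : ℝ)| ≤ √(p : ℝ) / (4 * M) → |((a₀ + M * x : ℤ) : ℝ)| ≤ √(p : ℝ) / 2 := by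
    intro x hx
    rw [le_div_iff₀ (by positivity)] at hx
    push_cast
    calc |(a₀ : ℝ) + M * x| ≤ |(a₀ : ℝ)| + |(M : ℝ) * x| := abs_add_le _ _
      _ = |(a₀ : ℝ)| + M * |(x : ℝ)| := by rw [abs_mul, abs_of_pos hMr]
      _ ≤ √(p : ℝ) / 2 := by nlinarith
  have hxx : ∀ x : ℤ, |(x : ℝ)| ≤ √(p : ℝ) / (4 * M) → |xx p (a₀ + M * x)| ≤ 1 / 2 := by
    intro x hx
    have h1 := habs x hx
    unfold xx
    rw [abs_div, abs_of_pos (by positivity : 0 < 2 * √(p : ℝ)), div_le_iff₀ (by positivity)]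
    linarith
  have hmn := hmain ((k : ℝ) + 1) (fun x => Uk k (xx p (a₀ + M * x))) (by linarith)
    (fun x hx => Uk_le_two k (hxx x hx))
    (by
      intro x hx hx'
      refine (Uk_lip k (hxx _ hx') (hxx _ hx)).trans ?_
      have e : xx p (a₀ + M * (x + 1)) - xx p (a₀ + M * x) = M / (2 * √(p : ℝ)) := by
        unfold xx
        push_cast
        field_simp
        ring
      rw [e, abs_of_pos (by positivity), ← mul_div_assoc, div_le_div_iff₀ (by positivity) (by positivity)]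
      have h0 : 0 ≤ ((k : ℝ) + 1) * √(p : ℝ) := by positivity
      have e2 : 4 * ((k : ℝ) + 1) * (M : ℝ) * (√(p : ℝ) / (4 * M)) = ((k : ℝ) + 1) * √(p : ℝ) := by
        field_simp
      rw [e2]
      linarith)
    r s hr
  have hV : ∀ a : ℤ, |(a : ℝ)| ≤ √(p : ℝ) / 2 → a ∈ V p := by
    intro a ha
    have h1 : (a : ℝ) ^ 2 ≤ 4 * p := by
      rw [← sq_abs]
      calc |(a : ℝ)| ^ 2 ≤ (√(p : ℝ) / 2) ^ 2 := by gcongr
        _ = (p : ℝ) / 4 := by
          rw [div_pow, Real.sq_sqrt (Nat.cast_nonneg p)]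
          norm_num
        _ ≤ 4 * p := by
          have : (0 : ℝ) ≤ (p : ℝ) := Nat.cast_nonneg p
          linarith
    have h2 : a ^ 2 ≤ 4 * (p : ℤ) := by exact_mod_cast h1
    have h3 : a.natAbs ≤ Nat.sqrt (4 * p) := by
      rw [Nat.le_sqrt]
      have : ((a.natAbs * a.natAbs : ℕ) : ℤ) ≤ ((4 * p : ℕ) : ℤ) := by
        push_cast
        rw [← sq, sq_abs]
        exact h2
      exact_mod_cast this
    unfold V
    rw [mem_Icc]
    omega
  have hdv : ∀ x : ℤ, (((M * r : ℕ) : ℤ) ∣ a₀ + M * x - (a₀ + M * s)) ↔ (r : ℤ) ∣ x - s := by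
    intro x
    have e : a₀ + M * x - (a₀ + M * s) = M * (x - s) := by ring
    rw [e]
    push_cast
    exact mul_dvd_mul_iff_left hMz
  have e : ∑ a ∈ (V p).filter (fun a => ((M * r : ℕ) : ℤ) ∣ a - (a₀ + M * s)),
      ((if a = a₀ then 1 else 0) - (if (M : ℤ) ∣ a - a₀ then ν ((a - a₀) / M) else 0)) * Uk k (xx p a) =
      (if (r : ℤ) ∣ s then Uk k (xx p (a₀ + M * 0)) else 0) -
            ∑ x ∈ (Icc (-(⌊√(p : ℝ) / (4 * M)⌋₊ : ℤ)) ⌊√(p : ℝ) / (4 * M)⌋₊).filter (fun x => (r : ℤ) ∣ x - s),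
              ν x * Uk k (xx p (a₀ + M * x)) := by
    simp_rw [sub_mul]
    rw [sum_sub_distrib]
    congr 1
    · simp only [ite_mul, one_mul, zero_mul]
      rw [Finset.sum_ite_eq']
      have h0 : a₀ ∈ V p := hV a₀ (by linarith [Real.sqrt_nonneg (p : ℝ)])
      have h1 : (a₀ ∈ (V p).filter (fun a => ((M * r : ℕ) : ℤ) ∣ a - (a₀ + M * s))) ↔ (r : ℤ) ∣ s := by
        rw [mem_filter]
        have h2 := hdv 0
        rw [mul_zero, add_zero, zero_sub, dvd_neg] at h2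
        rw [h2]
        exact ⟨fun h => h.2, fun h => ⟨h0, h⟩⟩
      simp only [h1, mul_zero, add_zero]
    · have hinj : Function.Injective (fun x : ℤ => a₀ + M * x) := by
        intro x y hxy
        have : (M : ℤ) * x = M * y := by simpa using hxy
        exact mul_left_cancel₀ hMz this
      have hval : ∀ x : ℤ, (if (M : ℤ) ∣ (a₀ + M * x) - a₀ then ν (((a₀ + M * x) - a₀) / M) else 0) = ν x := by
        intro x
        have e1 : (a₀ + M * x) - a₀ = M * x := by ring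
        rw [e1, if_pos (dvd_mul_right _ _), Int.mul_ediv_cancel_left _ hMz]
      have hfl : ∀ x : ℤ, x ∈ Icc (-(⌊√(p : ℝ) / (4 * M)⌋₊ : ℤ)) ⌊√(p : ℝ) / (4 * M)⌋₊ ↔
          |(x : ℝ)| ≤ √(p : ℝ) / (4 * M) := by
        intro x
        rw [mem_Icc, ← abs_le]
        have e1 : |(x : ℝ)| = (x.natAbs : ℝ) := by
          rw [← Int.cast_abs, Int.abs_eq_natAbs]
          simp
        rw [e1, Int.abs_eq_natAbs]
        have hY : 0 ≤ √(p : ℝ) / (4 * M) := by positivity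
        rw [← Nat.le_floor_iff hY]
        exact_mod_cast Iff.rfl
      have e2 : ∑ x ∈ (Icc (-(⌊√(p : ℝ) / (4 * M)⌋₊ : ℤ)) ⌊√(p : ℝ) / (4 * M)⌋₊).filter (fun x => (r : ℤ) ∣ x - s),
              ν x * Uk k (xx p (a₀ + M * x)) =
          ∑ a ∈ ((Icc (-(⌊√(p : ℝ) / (4 * M)⌋₊ : ℤ)) ⌊√(p : ℝ) / (4 * M)⌋₊).filter
            (fun x => (r : ℤ) ∣ x - s)).image (fun x : ℤ => a₀ + M * x),
            (if (M : ℤ) ∣ a - a₀ then ν ((a - a₀) / M) else 0) * Uk k (xx p a) := by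
        rw [sum_image (fun x _ y _ h => hinj h)]
        exact sum_congr rfl (fun x _ => by rw [hval x])
      rw [e2]
      symm
      refine sum_subset ?_ ?_
      · intro a ha
        rw [mem_image] at ha
        obtain ⟨x, hx, rfl⟩ := ha
        rw [mem_filter, hfl] at hx
        rw [mem_filter, hdv]
        exact ⟨hV _ (habs x hx.1), hx.2⟩
      · intro a ha hna
        by_cases hd : (M : ℤ) ∣ a - a₀
        · obtain ⟨x, hx⟩ := hd
          have ea : a = a₀ + M * x := by linarith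
          subst ea
          rw [mem_filter, hdv] at ha
          rw [hval x]
          have hx' : √(p : ℝ) / (4 * M) < |(x : ℝ)| := by
            by_contra hcon
            rw [not_lt] at hcon
            exact hna (mem_image.2 ⟨x, mem_filter.2 ⟨(hfl x).2 hcon, ha.2⟩, rfl⟩)
          rw [hsupp x hx', zero_mul]
        · rw [if_neg hd, zero_mul]
  rw [e]
  refine hmn.trans ?_
  have hM1 : (1 : ℝ) ≤ M := by exact_mod_cast hM
  have hrm : (r : ℝ) ≤ ((M * r : ℕ) : ℝ) := by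
    push_cast
    have : (0 : ℝ) ≤ (r : ℝ) := Nat.cast_nonneg r
    nlinarith
  gcongr

end Pool.Agent.TB
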