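import Pool.Agent.Lib_MP_f1937f_tb.BaseLaw
import Pool.Agent.Lib_MP_f1937f_tb.LawNorm
import Pool.Agent.Lib_MP_f1937f_tb.Spike
import Pool.Agent.Lib_MP_f1937f_tb.SpikeAsym
import Pool.Agent.Lib_MP_f1937f_tb.SpikeEqui

/-!
# The law with a spike
-/

set_option autoImplicit false

namespace Pool.Agent.TB

open Finset

/-- `log p / √p` is small -/
theorem LawSpike_log (A : ℝ) : ∃ p₀ : ℕ, ∀ p : ℕ, p₀ ≤ p → A * (Real.log p / √(p : ℝ)) ≤ 1 / 2 := by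
  have h1 : Filter.Tendsto (fun x : ℝ => Real.log x / x ^ (1 / 2 : ℝ)) Filter.atTop (nhds 0) :=
    (isLittleO_log_rpow_atTop (by norm_num)).tendsto_div_nhds_zero
  have h2 : Filter.Tendsto (fun p : ℕ => A * (Real.log p / √(p : ℝ))) Filter.atTop (nhds (A * 0)) := by
    refine Filter.Tendsto.const_mul A ?_
    have h3 := h1.comp tendsto_natCast_atTop_atTop
    refine h3.congr fun p => ?_
    simp only [Function.comp]
    rw [Real.sqrt_eq_rpow]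
  rw [mul_zero] at h2
  obtain ⟨p₀, hp₀⟩ := Filter.eventually_atTop.1 ((tendsto_order.1 h2).2 (1 / 2) (by norm_num))
  exact ⟨p₀, fun p hp => (hp₀ p hp).le⟩

/-- the law before the normalisation -/
noncomputable def LawSpike_mu (M : ℕ) (u : ℤ → ℝ) (p : ℕ) (a₀ : ℤ) (η : ℝ) (ν : ℤ → ℝ) (a : ℤ) : ℝ :=
  wt u (PS M p) a * sw p a +
    η * ((if a = a₀ then 1 else 0) - (if (M : ℤ) ∣ a - a₀ then ν ((a - a₀) / M) else 0))

theorem LawSpike_id (s R M τ : ℝ) (hs : s ≠ 0) (hM : M ≠ 0) :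
    R / s * (24 * (R / (s / (4 * M))) * τ) = 96 * M * R ^ 2 * τ / (s * s) := by
  field_simp
  ring

theorem LawSpike_PS (M p : ℕ) : ∀ l ∈ PS M p, l.Prime := fun _ hl => (mem_filter.1 hl).2.1

theorem LawSpike_base (M : ℕ) (u : ℤ → ℝ) (hu : ∀ t, 0 ≤ u t) (p : ℕ) (hp : 1 ≤ p) (a : ℤ) :
    0 ≤ wt u (PS M p) a * sw p a := by
  have h1 := (prod_loc_bounds (PS M p) (LawSpike_PS M p) a).1
  have h2 := (sw_bounds p hp a).1
  unfold wt
  have h3 := hu a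
  have h4 : 0 ≤ ∏ l ∈ PS M p, loc l a := le_trans (by norm_num) h1
  positivity

theorem LawSpike_base_lower (M : ℕ) (u : ℤ → ℝ) (hu : ∀ t, 0 ≤ u t) (p : ℕ) (hp : 1 ≤ p) (a : ℤ)
    (ha : |(a : ℝ)| ≤ √(p : ℝ) / 2) : (3 * u a / 550) / √(p : ℝ) ≤ wt u (PS M p) a * sw p a := by
  have h1 := (prod_loc_bounds (PS M p) (LawSpike_PS M p) a).1
  have h2 := (sw_bounds p hp a).2.2 ha
  have h0 : 0 < √(p : ℝ) := Real.sqrt_pos.2 (by exact_mod_cast hp)
  have h3 := hu a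
  have h5 : 0 ≤ 3 / 10 / √(p : ℝ) := by positivity
  have h6 : u a * (1 / 55) ≤ wt u (PS M p) a := mul_le_mul_of_nonneg_left h1 h3
  calc (3 * u a / 550) / √(p : ℝ) = (u a * (1 / 55)) * (3 / 10 / √(p : ℝ)) := by ring
    _ ≤ wt u (PS M p) a * sw p a := by
      refine mul_le_mul h6 h2 h5 ?_
      exact le_trans (by positivity) h6

theorem LawSpike_nonneg (M : ℕ) (hM : 0 < M) (u : ℤ → ℝ) (hu : ∀ t, 0 ≤ u t)
    (hper : ∀ t t' : ℤ, (M : ℤ) ∣ t - t' → u t = u t') (a₀ : ℤ) (p : ℕ) (hp : 1 ≤ p) (R η : ℝ) (hR : 1 ≤ R)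
    (hη : η = R / √(p : ℝ)) (haa : |(a₀ : ℝ)| ≤ √(p : ℝ) / 4) (ν : ℤ → ℝ)
    (hsupp : ∀ x : ℤ, √(p : ℝ) / (4 * M) < |(x : ℝ)| → ν x = 0)
    (hsize : ∀ x : ℤ, x ≠ 0 → |ν x| ≤ 24 * (R / (√(p : ℝ) / (4 * M))) * (x.natAbs.divisors.card : ℝ))
    (hzero : |ν 0| ≤ 1 / 2)
    (hasym : ∀ n : ℕ, n ≠ 0 → (n : ℝ) ≤ √(p : ℝ) →
      96 * M * R ^ 2 * (n.divisors.card : ℝ) / p ≤ (3 * u a₀ / 550) / √(p : ℝ)) :
    (∀ a, 0 ≤ LawSpike_mu M u p a₀ η ν a) ∧ η / 2 ≤ LawSpike_mu M u p a₀ η ν a₀ := by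
  have hM' : (0 : ℝ) < (M : ℝ) := by exact_mod_cast hM
  have hM1 : (1 : ℝ) ≤ (M : ℝ) := by exact_mod_cast hM
  have hMz : (M : ℤ) ≠ 0 := by exact_mod_cast hM.ne'
  have hp0 : (0 : ℝ) < (p : ℝ) := by exact_mod_cast hp
  have hs0 : 0 < √(p : ℝ) := Real.sqrt_pos.2 hp0
  have hs2 : √(p : ℝ) * √(p : ℝ) = p := Real.mul_self_sqrt hp0.le
  have hη0 : 0 < η := by
    rw [hη]
    positivity
  have hc : η / 2 ≤ LawSpike_mu M u p a₀ η ν a₀ := by
    unfold LawSpike_mu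
    rw [if_pos rfl, sub_self, if_pos (dvd_zero _), Int.zero_ediv]
    have h1 := LawSpike_base M u hu p hp a₀
    have h2 := (abs_le.1 hzero).2
    nlinarith
  refine ⟨fun a => ?_, hc⟩
  by_cases h : (M : ℤ) ∣ a - a₀
  · obtain ⟨x, hx⟩ := h
    by_cases ha : a = a₀
    · rw [ha]
      linarith
    · have hx0 : x ≠ 0 := by
        rintro rfl
        rw [mul_zero] at hx
        exact ha (by linarith)
      have hdiv : (a - a₀) / (M : ℤ) = x := by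
        rw [hx]
        exact Int.mul_ediv_cancel_left x hMz
      unfold LawSpike_mu
      rw [if_neg ha, if_pos ⟨x, hx⟩, hdiv]
      have hb := LawSpike_base M u hu p hp a
      by_cases hY : √(p : ℝ) / (4 * M) < |(x : ℝ)|
      · rw [hsupp x hY]
        simpa using hb
      · rw [not_lt] at hY
        have hax : (a : ℝ) = a₀ + M * x := by
          have : (a : ℤ) = a₀ + M * x := by linarith
          exact_mod_cast this
        have hMx : (M : ℝ) * |(x : ℝ)| ≤ √(p : ℝ) / 4 := by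
          have h1 := mul_le_mul_of_nonneg_left hY hM'.le
          have h2 : (M : ℝ) * (√(p : ℝ) / (4 * M)) = √(p : ℝ) / 4 := by
            field_simp
          linarith
        have haY : |(a : ℝ)| ≤ √(p : ℝ) / 2 := by
          rw [hax]
          refine (abs_add_le _ _).trans ?_
          rw [abs_mul, abs_of_pos hM']
          linarith
        have hua : u a = u a₀ := hper a a₀ ⟨x, hx⟩
        have hlow := LawSpike_base_lower M u hu p hp a haY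
        rw [hua] at hlow
        have hxn : ((x.natAbs : ℕ) : ℝ) = |(x : ℝ)| := by
          rw [Nat.cast_natAbs, Int.cast_abs]
        have hxs : ((x.natAbs : ℕ) : ℝ) ≤ √(p : ℝ) := by
          rw [hxn]
          have : |(x : ℝ)| ≤ M * |(x : ℝ)| := le_mul_of_one_le_left (abs_nonneg _) hM1
          linarith
        have hn := hasym x.natAbs (Int.natAbs_ne_zero.2 hx0) hxs
        have hsz := hsize x hx0
        have key : η * ν x ≤ 96 * M * R ^ 2 * (x.natAbs.divisors.card : ℝ) / p := by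
          have h1 : η * ν x ≤ η * (24 * (R / (√(p : ℝ) / (4 * M))) * (x.natAbs.divisors.card : ℝ)) :=
            mul_le_mul_of_nonneg_left ((le_abs_self _).trans hsz) hη0.le
          refine h1.trans (le_of_eq ?_)
          rw [hη, LawSpike_id _ _ _ _ hs0.ne' hM'.ne', hs2]
        linarith
  · have ha : a ≠ a₀ := by
      rintro rfl
      exact h (by simp)
    unfold LawSpike_mu
    rw [if_neg ha, if_neg h]
    simpa using LawSpike_base M u hu p hp a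

/-- PIECE [TB-I5c] (about 120 lines). The law with a spike at `a₀`. PROOF. Put `R = p ^ (1 / 4 - ε)`, `Y = √p / (4 M)`, `η = R / √p`
(`= p ^ (- 1 / 4 - ε)`); `p` large. `spike` gives `ν` (conditions by `spike_asym`). Let
`μ a = wt u (PS M p) a * sw p a + η * ([a = a₀] - [M ∣ a - a₀] ν ((a - a₀) / M))`.
(1) `μ ≥ 0`. If `M ∤ a - a₀` or `ν = 0` there and `a ≠ a₀` this is clear (`wt`, `sw ≥ 0`; `loc ≥ 0`). Let `a = a₀ + M x`, `|x| ≤ Y`, so
`|a| ≤ √p / 4 + √p / 4`; `u a = u a₀ > 0` and the base mass is `≥ (u a₀ / 55) (3 / 10) / √p` (`prod_loc_bounds`, `sw_bounds`). If `x ≠ 0`: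
`η |ν x| ≤ η 24 (R / Y) τ(|x|) = 96 M R ^ 2 τ / p`, at most the base mass by `spike_asym` (`C = 96 M`, `c = 3 u a₀ / 550`, `|x| ≤ √p`). If
`x = 0`: `η (1 - ν 0) ≥ η / 2`; so also `μ a₀ ≥ η / 2`.
(2) Hypothesis of `law_norm`: `base_law` and `spike_equi` (`η / R = 1 / √p ≤ (1 / log 2) log p / √p`), `E = E_base + 7 / log 2 ≤ E_base + 14`; `hsmall` for large `p`
(`log p / √p → 0`).
(3) `law_norm`; `ρ a₀ ≥ μ a₀ / 2 ≥ η / 4`. -/
theorem law_spike (M : ℕ) (hM : 0 < M) (u : ℤ → ℝ) (B : ℝ) (hu : ∀ t, 0 ≤ u t ∧ u t ≤ B)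
    (hper : ∀ t t' : ℤ, (M : ℤ) ∣ t - t' → u t = u t') (hB : B ≤ M)
    (hδM : ∑ t ∈ range M, dl M u M (t : ℤ) = 1)
    (a₀ : ℤ) (ha₀ : 0 < u a₀) (ε : ℝ) (hε : 0 < ε) (hε' : ε ≤ 1 / 8) :
    ∃ (C : ℝ) (p₀ : ℕ), ∀ p : ℕ, p₀ ≤ p → ∃ ρ : ℤ → ℝ, GoodLaw M (dl M u) C p ρ ∧ (p : ℝ) ^ (-(1 / 4) - ε) / 4 ≤ ρ a₀ := by
  obtain ⟨E, hE0, hE⟩ := base_law M hM u B hu hper
  obtain ⟨p₁, hp₁⟩ := spike_asym M hM a₀ ε hε hε' (96 * M) (3 * u a₀ / 550) (by positivity) (by positivity)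
  obtain ⟨p₂, hp₂⟩ := LawSpike_log ((E + 14) * (M : ℝ) ^ 2 * √(M : ℝ))
  refine ⟨2 * (E + 14) + 110 * (E + 14) * (M : ℝ) ^ 3 * √(M : ℝ), max 2 (max p₁ p₂), fun p hp => ?_⟩
  have hp2 : 2 ≤ p := le_trans (le_max_left _ _) hp
  have hp1 : 1 ≤ p := by omega
  have hpp₁ : p₁ ≤ p := le_trans (le_trans (le_max_left _ _) (le_max_right _ _)) hp
  have hpp₂ : p₂ ≤ p := le_trans (le_trans (le_max_right _ _) (le_max_right _ _)) hp
  have hp0 : (0 : ℝ) < (p : ℝ) := by exact_mod_cast hp1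
  have hs0 : 0 < √(p : ℝ) := Real.sqrt_pos.2 hp0
  obtain ⟨hR1, hRY, haa, hasym⟩ := hp₁ p hpp₁
  have hη : (p : ℝ) ^ (-(1 / 4) - ε) = (p : ℝ) ^ (1 / 4 - ε) / √(p : ℝ) := by
    rw [Real.sqrt_eq_rpow, ← Real.rpow_sub hp0]
    congr 1
    ring
  obtain ⟨R, hR⟩ : ∃ R, R = (p : ℝ) ^ (1 / 4 - ε) := ⟨_, rfl⟩
  obtain ⟨η, hη'⟩ : ∃ η, η = (p : ℝ) ^ (-(1 / 4) - ε) := ⟨_, rfl⟩
  rw [← hR] at hR1 hRY hasym hη
  rw [← hη'] at hη ⊢
  have hη0 : 0 < η := by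
    rw [hη]
    positivity
  obtain ⟨ν, hsupp, hsize, hzero, hmain⟩ := spike (√(p : ℝ) / (4 * M)) R hR1 hRY
  obtain ⟨hn, hc⟩ := LawSpike_nonneg M hM u (fun t => (hu t).1) hper a₀ p hp1 R η hR1 hη haa ν hsupp hsize hzero
    (fun n hn0 hns => hasym n hn0 hns)
  have hμ : ∀ m : ℕ, 0 < m → M ∣ m → ∀ (t : ℤ) (k : ℕ),
      |∑ a ∈ (V p).filter (fun a => (m : ℤ) ∣ a - t), LawSpike_mu M u p a₀ η ν a * Uk k (xx p a) -
          (if k = 0 then dl M u m t else 0)| ≤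
        (E + 14) * (m * √(m : ℝ)) * (k + 1) * (Real.log p / √(p : ℝ)) := by
    intro m hm hMm t k
    have h1 := hE p hp2 m hm hMm t k
    have h2 := spike_equi M hM a₀ p hp2 haa R hR1 ν hsupp hmain m hm hMm t k
    have e1 : ∑ a ∈ (V p).filter (fun a => (m : ℤ) ∣ a - t), LawSpike_mu M u p a₀ η ν a * Uk k (xx p a) =
        ∑ a ∈ (V p).filter (fun a => (m : ℤ) ∣ a - t), wt u (PS M p) a * sw p a * Uk k (xx p a) +
          η * ∑ a ∈ (V p).filter (fun a => (m : ℤ) ∣ a - t),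
            ((if a = a₀ then 1 else 0) - (if (M : ℤ) ∣ a - a₀ then ν ((a - a₀) / M) else 0)) * Uk k (xx p a) := by
      rw [mul_sum, ← sum_add_distrib]
      refine sum_congr rfl fun a _ => ?_
      unfold LawSpike_mu
      ring
    have hX0 : 0 ≤ (m : ℝ) * √(m : ℝ) * (k + 1) := by positivity
    have hlog : 1 / 2 ≤ Real.log p := by
      have h3 : Real.log 2 ≤ Real.log p := Real.log_le_log (by norm_num) (by exact_mod_cast hp2)
      have := Real.log_two_gt_d9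
      linarith
    have h4 : η * (7 * (m * √(m : ℝ)) * (k + 1) / R) ≤ 14 * (m * √(m : ℝ)) * (k + 1) * (Real.log p / √(p : ℝ)) := by
      have e2 : η * (7 * (m * √(m : ℝ)) * (k + 1) / R) = 7 * ((m * √(m : ℝ) * (k + 1)) / √(p : ℝ)) := by
        rw [hη]
        field_simp
      have e3 : 14 * (m * √(m : ℝ)) * (k + 1) * (Real.log p / √(p : ℝ)) =
          14 * Real.log p * ((m * √(m : ℝ) * (k + 1)) / √(p : ℝ)) := by ring
      rw [e2, e3]
      have h5 : 0 ≤ (m * √(m : ℝ) * (k + 1)) / √(p : ℝ) := by positivity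
      exact mul_le_mul_of_nonneg_right (by linarith) h5
    rw [e1, add_sub_right_comm]
    refine (abs_add_le _ _).trans ?_
    rw [abs_mul, abs_of_pos hη0]
    have h6 := mul_le_mul_of_nonneg_left h2 hη0.le
    calc _ ≤ E * (m * √(m : ℝ)) * (k + 1) * (Real.log p / √(p : ℝ)) +
          14 * (m * √(m : ℝ)) * (k + 1) * (Real.log p / √(p : ℝ)) := add_le_add h1 (h6.trans h4)
      _ = _ := by ring
  obtain ⟨ρ, hρ, hρ1, -⟩ := law_norm M hM (dl M u)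
    (fun m t => (dl_le M hM u B hu m t).trans (by linarith)) hδM (E + 14) (by linarith) p hp2
    (hp₂ p hpp₂) (LawSpike_mu M u p a₀ η ν) hn hμ
  refine ⟨ρ, hρ, ?_⟩
  have hmem : a₀ ∈ V p := by
    have h1 : (a₀ : ℝ) ^ 2 ≤ 4 * p := by
      rw [← sq_abs]
      have h2 := pow_le_pow_left₀ (abs_nonneg _) haa 2
      have h3 : (√(p : ℝ) / 4) ^ 2 = p / 16 := by
        rw [div_pow, Real.sq_sqrt hp0.le]
        norm_num
      linarith
    have h2 : a₀ ^ 2 ≤ 4 * (p : ℤ) := by exact_mod_cast h1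
    have h3 : a₀.natAbs ≤ Nat.sqrt (4 * p) := by
      rw [Nat.le_sqrt]
      have h4 : ((a₀.natAbs * a₀.natAbs : ℕ) : ℤ) ≤ ((4 * p : ℕ) : ℤ) := by
        rw [Int.natAbs_mul_self]
        push_cast
        nlinarith
      exact_mod_cast h4
    unfold V
    rw [mem_Icc]
    omega
  have := hρ1 a₀ hmem
  linarith

end Pool.Agent.TB
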