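import Pool.Agent.Lib_MP_f1937f_tb.Defs

/-!
# Chebyshev polynomials of the second kind
-/

set_option autoImplicit false

namespace Pool.Agent.TB

open Finset

/-- PIECE [TB-D1] (about 120 lines, all lemmas of this file). -/
theorem Uk_cos (k : ℕ) (θ : ℝ) : Uk k (Real.cos θ) * Real.sin θ = Real.sin ((k + 1) * θ) := by
  have h := Polynomial.Chebyshev.U_real_cos θ (k : ℤ)
  rw [Uk, h]
  push_cast
  rfl

theorem Uk_zero (y : ℝ) : Uk 0 y = 1 := by
  simp [Uk]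

theorem Uk_neg (k : ℕ) (y : ℝ) : Uk k (-y) = (-1) ^ k * Uk k y := by
  have h := Polynomial.Chebyshev.U_eval_neg (R := ℝ) k y
  rw [Uk, Uk, h]
  congr 1
  rw [Int.negOnePow_def]
  simp

/-- `|T_n| ≤ 1` on `[-1, 1]`. -/
theorem Cheb_T_le (n : ℤ) {y : ℝ} (hy : |y| ≤ 1) : |(Polynomial.Chebyshev.T ℝ n).eval y| ≤ 1 := by
  have hy' := abs_le.1 hy
  have h := Polynomial.Chebyshev.T_real_cos (Real.arccos y) n
  rw [Real.cos_arccos hy'.1 hy'.2] at h
  rw [h]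
  exact Real.abs_cos_le_one _

/-- `|sin ((k + 1) θ)| ≤ (k + 1) |sin θ|` (induction), at `sin θ = 0` use `U_eval_one`, `U_eval_neg_one`. -/
theorem Uk_le (k : ℕ) {y : ℝ} (hy : |y| ≤ 1) : |Uk k y| ≤ k + 1 := by
  induction k using Nat.twoStepInduction with
  | zero => simp [Uk_zero]
  | one =>
    have : Uk 1 y = 2 * y := by simp [Uk]
    rw [this, abs_mul, abs_two]
    push_cast
    linarith
  | more n ih _ =>
    have h : Uk (n + 2) y = 2 * (Polynomial.Chebyshev.T ℝ ((n : ℤ) + 2)).eval y + Uk n y := by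
      have h1 := Polynomial.Chebyshev.U_eq_two_mul_T_add_U ℝ (n : ℤ)
      have h2 := congrArg (Polynomial.eval y) h1
      rw [Uk, Uk]
      push_cast
      rw [h2]
      simp
    have h3 := Cheb_T_le ((n : ℤ) + 2) hy
    rw [h]
    calc |2 * (Polynomial.Chebyshev.T ℝ ((n : ℤ) + 2)).eval y + Uk n y|
        ≤ |2 * (Polynomial.Chebyshev.T ℝ ((n : ℤ) + 2)).eval y| + |Uk n y| := abs_add_le _ _
      _ ≤ 2 * 1 + (n + 1) := by
        rw [abs_mul, abs_two]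
        linarith
      _ = ((n + 2 : ℕ) : ℝ) + 1 := by push_cast; ring

/-- `sin (arccos y) ≥ 4 / 5` for `|y| ≤ 1 / 2`. -/
theorem Cheb_sin_ge {y : ℝ} (hy : |y| ≤ 1 / 2) : 4 / 5 ≤ Real.sin (Real.arccos y) := by
  rw [Real.sin_arccos]
  apply Real.le_sqrt_of_sq_le
  have h := abs_le.1 hy
  nlinarith [h.1, h.2]

theorem Cheb_eq (k : ℕ) {y : ℝ} (hy : |y| ≤ 1 / 2) :
    Uk k y = Real.sin ((k + 1) * Real.arccos y) / Real.sin (Real.arccos y) := by
  have h := abs_le.1 hy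
  have h1 := Uk_cos k (Real.arccos y)
  rw [Real.cos_arccos (by linarith) (by linarith)] at h1
  have h2 := Cheb_sin_ge hy
  rw [eq_div_iff (by linarith)]
  exact h1

/-- `sin θ ≥ √3 / 2` for `|cos θ| ≤ 1 / 2`. -/
theorem Uk_le_two (k : ℕ) {y : ℝ} (hy : |y| ≤ 1 / 2) : |Uk k y| ≤ 2 := by
  have h2 := Cheb_sin_ge hy
  rw [Cheb_eq k hy, abs_div, abs_of_pos (show 0 < Real.sin (Real.arccos y) by linarith),
    div_le_iff₀ (by linarith)]
  have := Real.abs_sin_le_one ((k + 1) * Real.arccos y)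
  linarith

theorem Cheb_arccos_lip {y y' : ℝ} (hy : |y| ≤ 1 / 2) (hy' : |y'| ≤ 1 / 2) :
    |Real.arccos y - Real.arccos y'| ≤ 5 / 4 * |y - y'| := by
  have hconv : Convex ℝ (Set.Icc (-(1 / 2) : ℝ) (1 / 2)) := convex_Icc _ _
  have hd : ∀ x ∈ Set.Icc (-(1 / 2) : ℝ) (1 / 2),
      HasDerivWithinAt Real.arccos (-(1 / √(1 - x ^ 2))) (Set.Icc (-(1 / 2) : ℝ) (1 / 2)) x := by
    intro x hx
    exact (Real.hasDerivAt_arccos (by intro h; linarith [hx.1]) (by intro h; linarith [hx.2])).hasDerivWithinAt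
  have hb : ∀ x ∈ Set.Icc (-(1 / 2) : ℝ) (1 / 2), ‖-(1 / √(1 - x ^ 2))‖ ≤ 5 / 4 := by
    intro x hx
    have h1 : 4 / 5 ≤ √(1 - x ^ 2) := by
      have := Cheb_sin_ge (y := x) (abs_le.2 hx)
      rwa [Real.sin_arccos] at this
    rw [norm_neg, Real.norm_eq_abs, abs_of_nonneg (by positivity), div_le_iff₀ (by linarith)]
    linarith
  have h := hconv.norm_image_sub_le_of_norm_hasDerivWithin_le hd hb (abs_le.1 hy') (abs_le.1 hy)
  simpa [Real.norm_eq_abs] using h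

/-- With `y = cos θ`, `y' = cos θ'`, `K = k + 1`: `U = sin (K θ) / sin θ`, and
`|sin (K θ) / sin θ - sin (K θ') / sin θ'| ≤ |sin (K θ) - sin (K θ')| / sin θ + |sin θ - sin θ'| / (sin θ sin θ')`
`≤ (K * 2 / √3 + 4 / 3) |θ - θ'|`, and `|θ - θ'| ≤ (2 / √3) |y - y'|` (mean value theorem for `cos`, `sin ≥ √3 / 2` between the two
angles, both in `[π / 3, 2 π / 3]`). `(2 / √3) (2 / √3 K + 4 / 3) ≤ 4 K`. (Or: `U_k'` by the derivative.) -/
theorem Uk_lip (k : ℕ) {y y' : ℝ} (hy : |y| ≤ 1 / 2) (hy' : |y'| ≤ 1 / 2) :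
    |Uk k y - Uk k y'| ≤ 4 * (k + 1) * |y - y'| := by
  have hs := Cheb_sin_ge hy
  have hs' := Cheb_sin_ge hy'
  have hl := Cheb_arccos_lip hy hy'
  rw [Cheb_eq k hy, Cheb_eq k hy']
  generalize Real.arccos y = θ at *
  generalize Real.arccos y' = θ' at *
  have hk : (0 : ℝ) ≤ k := Nat.cast_nonneg k
  have e : Real.sin ((k + 1) * θ) / Real.sin θ - Real.sin ((k + 1) * θ') / Real.sin θ' =
      (Real.sin ((k + 1) * θ) - Real.sin ((k + 1) * θ')) / Real.sin θ +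
        Real.sin ((k + 1) * θ') * ((Real.sin θ' - Real.sin θ) / (Real.sin θ * Real.sin θ')) := by
    have h1 : Real.sin θ ≠ 0 := by linarith
    have h2 : Real.sin θ' ≠ 0 := by linarith
    field_simp
    ring
  have hp : 0 < Real.sin θ := by linarith
  have hp' : 0 < Real.sin θ' := by linarith
  have h1 : |(Real.sin ((k + 1) * θ) - Real.sin ((k + 1) * θ')) / Real.sin θ| ≤
      5 / 4 * ((k + 1) * |θ - θ'|) := by
    rw [abs_div, abs_of_pos hp, div_le_iff₀ hp]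
    have h3 := Real.abs_sin_sub_sin_le ((k + 1) * θ) ((k + 1) * θ')
    have h4 : |((k : ℝ) + 1) * θ - (k + 1) * θ'| = (k + 1) * |θ - θ'| := by
      rw [← mul_sub, abs_mul, abs_of_nonneg (by linarith)]
    rw [h4] at h3
    have h5 : 0 ≤ ((k : ℝ) + 1) * |θ - θ'| := by positivity
    nlinarith
  have h2 : |Real.sin ((k + 1) * θ') * ((Real.sin θ' - Real.sin θ) / (Real.sin θ * Real.sin θ'))| ≤
      25 / 16 * |θ - θ'| := by
    have h3 := Real.abs_sin_le_one ((k + 1) * θ')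
    have h4 : |(Real.sin θ' - Real.sin θ) / (Real.sin θ * Real.sin θ')| ≤ 25 / 16 * |θ - θ'| := by
      rw [abs_div, abs_of_pos (mul_pos hp hp'), div_le_iff₀ (mul_pos hp hp')]
      have h5 := Real.abs_sin_sub_sin_le θ' θ
      rw [abs_sub_comm θ' θ] at h5
      have h6 : 16 / 25 ≤ Real.sin θ * Real.sin θ' := by nlinarith
      have h7 : 0 ≤ |θ - θ'| := abs_nonneg _
      nlinarith
    rw [abs_mul]
    calc _ ≤ 1 * (25 / 16 * |θ - θ'|) := mul_le_mul h3 h4 (abs_nonneg _) (by norm_num)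
      _ = _ := one_mul _
  rw [e]
  have h3 := abs_add_le ((Real.sin ((k + 1) * θ) - Real.sin ((k + 1) * θ')) / Real.sin θ)
    (Real.sin ((k + 1) * θ') * ((Real.sin θ' - Real.sin θ) / (Real.sin θ * Real.sin θ')))
  have h4 : 5 / 4 * (((k : ℝ) + 1) * |θ - θ'|) + 25 / 16 * |θ - θ'| =
      (5 / 4 * (k + 1) + 25 / 16) * |θ - θ'| := by ring
  have h5 : (5 / 4 * ((k : ℝ) + 1) + 25 / 16) * |θ - θ'| ≤
      (5 / 4 * (k + 1) + 25 / 16) * (5 / 4 * |y - y'|) :=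
    mul_le_mul_of_nonneg_left hl (by positivity)
  have h6 : (5 / 4 * ((k : ℝ) + 1) + 25 / 16) * (5 / 4 * |y - y'|) ≤ 4 * (k + 1) * |y - y'| := by
    have h7 : (5 / 4 * ((k : ℝ) + 1) + 25 / 16) * (5 / 4) ≤ 4 * (k + 1) := by linarith
    have h8 := mul_le_mul_of_nonneg_right h7 (abs_nonneg (y - y'))
    linarith
  linarith

end Pool.Agent.TB
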