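import Pool.Agent.Lib_MP_f1937f_tb.Defs

/-!
# Chebyshev's upper bound
-/

set_option autoImplicit false

namespace Pool.Agent.TB

open Finset

/-- PIECE [TB-J3] (about 40 lines): from `Chebyshev.pi_le_log4_mul_div` (or any other form in Mathlib's `NumberTheory/Chebyshev.lean`). -/
theorem pi_le : ∃ C : ℝ, 0 ≤ C ∧ ∀ x : ℕ, 2 ≤ x → (Nat.primeCounting x : ℝ) ≤ C * x / Real.log x := by
  refine ⟨2 * Real.log 4 + 2, by have := Real.log_nonneg (show (1 : ℝ) ≤ 4 by norm_num); linarith, ?_⟩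
  intro x hx
  have hx' : (2 : ℝ) ≤ x := by exact_mod_cast hx
  have h := Chebyshev.pi_le_log4_mul_div (x := (x : ℝ)) (by linarith)
  rw [Nat.floor_natCast] at h
  have hl : 0 < Real.log x := Real.log_pos (by linarith)
  have hs : 0 < √(x : ℝ) := Real.sqrt_pos.2 (by linarith)
  have e1 : Real.log √(x : ℝ) = Real.log x / 2 := Real.log_sqrt (by linarith)
  have e2 : √(x : ℝ) * √(x : ℝ) = x := Real.mul_self_sqrt (by linarith)
  have h1 : Real.log √(x : ℝ) ≤ √(x : ℝ) - 1 := Real.log_le_sub_one_of_pos hs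
  rw [e1] at h h1
  have h2 : √(x : ℝ) ≤ 2 * x / Real.log x := by
    rw [le_div_iff₀ hl]
    have h3 : √(x : ℝ) * Real.log x ≤ √(x : ℝ) * (2 * √(x : ℝ)) :=
      mul_le_mul_of_nonneg_left (by linarith) hs.le
    linarith
  have h4 : Real.log 4 * x / (Real.log x / 2) = 2 * Real.log 4 * x / Real.log x := by
    field_simp
  rw [h4] at h
  have h5 : (2 * Real.log 4 + 2) * x / Real.log x = 2 * Real.log 4 * x / Real.log x + 2 * x / Real.log x := by
    ring
  rw [h5]
  linarith

end Pool.Agent.TB
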