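import Pool.Agent.Lib_MP_f1937f_tb.Defs

/-!
# Moments
-/

set_option autoImplicit false

namespace Pool.Agent.TB

open Finset

private theorem moment_fiber (M : ℕ) (hM : 0 < M) (a : ℤ) (t : ℕ) (ht : t ∈ range M) :
    (a % (M : ℤ)).toNat = t ↔ (M : ℤ) ∣ a - t := by
  have hM' : (0 : ℤ) < M := by exact_mod_cast hM
  have h0 : 0 ≤ a % (M : ℤ) := Int.emod_nonneg _ hM'.ne'
  have h1 : a % (M : ℤ) < M := Int.emod_lt_of_pos _ hM'
  have ht' : (t : ℤ) < M := by exact_mod_cast mem_range.1 ht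
  constructor
  · intro h
    have h2 : (a % (M : ℤ)) = t := by omega
    rw [← h2]
    exact Int.dvd_self_sub_emod
  · intro h
    have h3 : a % (M : ℤ) = (t : ℤ) % (M : ℤ) :=
      Int.emod_eq_emod_iff_emod_sub_eq_zero.2 (Int.emod_eq_zero_of_dvd h)
    rw [h3, Int.emod_eq_of_lt (by positivity) ht']
    simp

/-- PIECE [TB-L1] (about 80 lines). PROOF. `∑ p ≤ x, Uk k (xx p (a p)) = ∑ t < M, ∑ p ≤ x, M ∣ a p - t, Uk k (xx p (a p))`; `Info` with `m = M` for every
`t` and `hδ`: the difference with `[k = 0] π x` is at most `M * C (M √M) (k + 1) √x log (k + 2) log (M x) ^ s`, and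
`log (M x) ≤ C_M log x` for `x ≥ 3`. -/
theorem moment (M : ℕ) (hM : 0 < M) (δ : ℕ → ℤ → ℝ) (a : ℕ → ℤ) (s : ℝ) (hs : 0 ≤ s)
    (hδ : ∑ t ∈ range M, δ M (t : ℤ) = 1) (hI : Info M δ a s) :
    ∃ C : ℝ, 0 ≤ C ∧ ∀ (k x : ℕ), 3 ≤ x →
      |∑ p ∈ (range (x + 1)).filter Nat.Prime, Uk k (xx p (a p)) - (if k = 0 then (Nat.primeCounting x : ℝ) else 0)| ≤
        C * (k + 1) * √(x : ℝ) * Real.log (k + 2) * Real.log x ^ s := by
  obtain ⟨C, hC⟩ := hI
  have hM1 : (1 : ℝ) ≤ M := by exact_mod_cast hM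
  have hlM : 0 ≤ Real.log M := Real.log_nonneg hM1
  set D : ℝ := |C| * (M * √(M : ℝ)) with hD
  have hD0 : 0 ≤ D := by positivity
  set L : ℝ := (Real.log M + 1) ^ s with hL
  have hL0 : 0 ≤ L := Real.rpow_nonneg (by linarith) _
  refine ⟨M * (D * L), by positivity, fun k x hx => ?_⟩
  have hx3 : (3 : ℝ) ≤ x := by exact_mod_cast hx
  have hlx : 1 ≤ Real.log x := by
    rw [Real.le_log_iff_exp_le (by linarith)]
    linarith [Real.exp_one_lt_d9]
  have hlog : Real.log (M * x) ^ s ≤ L * Real.log x ^ s := by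
    rw [hL, ← Real.mul_rpow (by linarith) (by linarith)]
    refine Real.rpow_le_rpow (Real.log_nonneg (by nlinarith)) ?_ hs
    rw [Real.log_mul (by linarith) (by linarith)]
    nlinarith
  have hk : 0 ≤ Real.log ((k : ℝ) + 2) := Real.log_nonneg (by
    have : (0 : ℝ) ≤ k := Nat.cast_nonneg k
    linarith)
  have hk1 : (0 : ℝ) ≤ (k : ℝ) + 1 := by positivity
  have hsplit : ∑ p ∈ (range (x + 1)).filter Nat.Prime, Uk k (xx p (a p))
      = ∑ t ∈ range M, ∑ p ∈ ((range (x + 1)).filter Nat.Prime).filter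
        (fun p => (M : ℤ) ∣ a p - (t : ℕ)), Uk k (xx p (a p)) := by
    rw [← Finset.sum_fiberwise_of_maps_to (g := fun p => (a p % (M : ℤ)).toNat) (t := range M)]
    · refine Finset.sum_congr rfl fun t ht => Finset.sum_congr ?_ fun _ _ => rfl
      refine Finset.filter_congr fun p _ => ?_
      exact moment_fiber M hM (a p) t ht
    · intro p _
      have hM' : (0 : ℤ) < M := by exact_mod_cast hM
      have h0 : 0 ≤ a p % (M : ℤ) := Int.emod_nonneg _ hM'.ne'
      have h1 : a p % (M : ℤ) < M := Int.emod_lt_of_pos _ hM'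
      rw [mem_range]
      omega
  have hmain : (if k = 0 then (Nat.primeCounting x : ℝ) else 0)
      = ∑ t ∈ range M, (if k = 0 then δ M (t : ℤ) else 0) * (Nat.primeCounting x : ℝ) := by
    split_ifs with h
    · rw [← Finset.sum_mul, hδ, one_mul]
    · simp
  rw [hsplit, hmain, ← Finset.sum_sub_distrib]
  refine (Finset.abs_sum_le_sum_abs _ _).trans ?_
  have hone : ∀ t ∈ range M, |∑ p ∈ ((range (x + 1)).filter Nat.Prime).filter
        (fun p => (M : ℤ) ∣ a p - (t : ℕ)), Uk k (xx p (a p))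
        - (if k = 0 then δ M (t : ℤ) else 0) * (Nat.primeCounting x : ℝ)|
      ≤ D * L * (k + 1) * √(x : ℝ) * Real.log (k + 2) * Real.log x ^ s := by
    intro t _
    refine (hC M hM (dvd_refl M) (t : ℤ) k x (by omega)).trans ?_
    have h1 : C * (M * √(M : ℝ)) * (k + 1) * √(x : ℝ) * Real.log (k + 2) * Real.log (M * x) ^ s
        ≤ D * (k + 1) * √(x : ℝ) * Real.log (k + 2) * Real.log (M * x) ^ s := by
      have h2 : C * (M * √(M : ℝ)) ≤ D :=
        mul_le_mul_of_nonneg_right (le_abs_self C) (by positivity)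
      have h3 : 0 ≤ Real.log ((M : ℝ) * x) ^ s := Real.rpow_nonneg (Real.log_nonneg (by nlinarith)) _
      gcongr
    refine h1.trans ?_
    have h4 : D * (k + 1) * √(x : ℝ) * Real.log (k + 2) * Real.log (M * x) ^ s
        ≤ D * (k + 1) * √(x : ℝ) * Real.log (k + 2) * (L * Real.log x ^ s) :=
      mul_le_mul_of_nonneg_left hlog (by positivity)
    refine h4.trans (le_of_eq ?_)
    ring
  refine (Finset.sum_le_sum hone).trans (le_of_eq ?_)
  rw [Finset.sum_const, card_range, nsmul_eq_mul]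
  ring

end Pool.Agent.TB
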