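import Pool.Agent.Lib_MP_f1937f_tb.ChebFejer
import Pool.Agent.Lib_MP_f1937f_tb.PiLe
import Pool.Agent.Lib_MP_f1937f_tb.Moment

/-!
# The upper bound
-/

set_option autoImplicit false

namespace Pool.Agent.TB

open Finset

private theorem xx_le_one {p : ℕ} (hp : p.Prime) {a : ℤ} (ha : a ∈ V p) : |xx p a| ≤ 1 := by
  have hp0 : (0 : ℝ) < p := by exact_mod_cast hp.pos
  have h1 : |a| ≤ (Nat.sqrt (4 * p) : ℤ) := by
    unfold V at ha
    rw [Finset.mem_Icc] at ha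
    exact abs_le.2 ha
  have h2 : ((Nat.sqrt (4 * p) : ℕ) : ℝ) ^ 2 ≤ 4 * p := by
    have := Nat.sqrt_le' (4 * p)
    exact_mod_cast this
  have h3 : |(a : ℝ)| ≤ (Nat.sqrt (4 * p) : ℕ) := by exact_mod_cast h1
  have h4 : |(a : ℝ)| ≤ 2 * √(p : ℝ) := by
    have h5 : |(a : ℝ)| ^ 2 ≤ (2 * √(p : ℝ)) ^ 2 := by
      rw [mul_pow, Real.sq_sqrt hp0.le]
      have : |(a : ℝ)| ^ 2 ≤ ((Nat.sqrt (4 * p) : ℕ) : ℝ) ^ 2 := by gcongr
      linarith
    exact abs_le_of_sq_le_sq' h5 (by positivity) |>.2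
  unfold xx
  rw [abs_div, abs_of_pos (show (0 : ℝ) < 2 * √(p : ℝ) by positivity)]
  exact (div_le_one (by positivity)).2 h4

private theorem xx_le_small {p L : ℕ} (hL : 1 ≤ L) {b : ℤ} (hp : b.natAbs ^ 2 * L ^ 2 < p) :
    |xx p b| ≤ 1 / (2 * (L : ℝ)) := by
  have hp0 : (0 : ℝ) < p := by exact_mod_cast (Nat.zero_le _).trans_lt hp
  have hL0 : (0 : ℝ) < L := by exact_mod_cast hL
  have h1 : (|(b : ℝ)| * L) ^ 2 ≤ p := by
    have h2 : ((b.natAbs : ℕ) : ℝ) = |(b : ℝ)| := by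
      rw [Nat.cast_natAbs, Int.cast_abs]
    have h3 : ((b.natAbs ^ 2 * L ^ 2 : ℕ) : ℝ) ≤ p := by exact_mod_cast hp.le
    push_cast [h2] at h3
    rw [mul_pow]
    exact h3
  have h2 : |(b : ℝ)| * L ≤ √(p : ℝ) := Real.le_sqrt_of_sq_le h1
  unfold xx
  rw [abs_div, abs_of_pos (show (0 : ℝ) < 2 * √(p : ℝ) by positivity),
    div_le_div_iff₀ (by positivity) (by positivity)]
  nlinarith

/-- PIECE [TB-L2] (about 150 lines). PROOF. It suffices to treat `x ≥ x₀(b)` (for smaller `x` the count is at most `x₀ + 1` and the right side is at least `C`).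
Put `L = ⌈x ^ (1 / 4) / log x⌉₊` (`1 ≤ L ≤ 2 x ^ (1 / 4) / log x`, `L ≤ x`). Let `c` be the coefficients of `fejer L`. For
`p > b ^ 2 L ^ 2`, `a p = b`: `|xx p b| = |b| / (2 √p) ≤ 1 / (2 L)`. So the count is at most
`b ^ 2 L ^ 2 + (5 / 2) ∑ p ≤ x, ∑ i < L, c i / L * Uk (2 i) (xx p (a p))` (all terms `≥ 0`, `|xx| ≤ 1` by `ha`), and by `moment` the double sum is at most
`(2 / L) π x + ∑ i < L, (2 / L) C (2 i + 1) √x log (2 i + 2) (log x) ^ s ≤ (2 / L) π x + 4 C L √x log (2 x) (log x) ^ s`. With `pi_le`: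
`π x / L ≤ C x / (L log x) ≤ C x ^ (3 / 4)`, `L √x log (2 x) ≤ 4 x ^ (3 / 4)`, `L ^ 2 ≤ 4 √x`. -/
theorem upper (M : ℕ) (hM : 0 < M) (δ : ℕ → ℤ → ℝ) (a : ℕ → ℤ) (ha : ∀ p : ℕ, p.Prime → a p ∈ V p) (s : ℝ) (hs : 0 ≤ s)
    (hδ : ∑ t ∈ range M, δ M (t : ℤ) = 1) (hI : Info M δ a s) (b : ℤ) :
    ∃ C : ℝ, ∀ x : ℕ, 3 ≤ x →
      ((((range (x + 1)).filter Nat.Prime).filter (fun p => a p = b)).card : ℝ) ≤
        C * (x : ℝ) ^ (3 / 4 : ℝ) * Real.log x ^ s := by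
  obtain ⟨C1, hC1, hmom⟩ := moment M hM δ a s hs hδ hI
  obtain ⟨C2, hC2, hpi⟩ := pi_le
  refine ⟨25 * (b : ℝ) ^ 2 + 5 * C2 + 200 * C1, fun x hx => ?_⟩
  set X : ℝ := (x : ℝ) with hXdef
  have hX : (3 : ℝ) ≤ X := by rw [hXdef]; exact_mod_cast hx
  have hX0 : (0 : ℝ) < X := by linarith
  set l : ℝ := Real.log X with hl
  have hl1 : 1 ≤ l := by
    rw [hl, Real.le_log_iff_exp_le hX0]
    linarith [Real.exp_one_lt_d9]
  have hl0 : 0 < l := by linarith
  set q : ℝ := X ^ (1 / 4 : ℝ) with hq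
  have hq0 : 0 < q := Real.rpow_pos_of_pos hX0 _
  have hq1 : 1 ≤ q := Real.one_le_rpow (by linarith) (by norm_num)
  have hq4 : q ^ 4 = X := by
    rw [hq, ← Real.rpow_natCast, ← Real.rpow_mul hX0.le]; norm_num
  have hq3 : X ^ (3 / 4 : ℝ) = q ^ 3 := by
    rw [hq, ← Real.rpow_natCast, ← Real.rpow_mul hX0.le]; norm_num
  have hq2 : √X = q ^ 2 := by
    rw [Real.sqrt_eq_rpow, hq, ← Real.rpow_natCast, ← Real.rpow_mul hX0.le]; norm_num
  have hlq : l ≤ 4 * q := by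
    have h1 : l = 4 * Real.log q := by rw [hl, ← hq4, Real.log_pow]; norm_num
    have h2 := Real.log_le_sub_one_of_pos hq0
    linarith
  have hls : 1 ≤ l ^ s := Real.one_le_rpow hl1 hs
  set L : ℕ := ⌈q / l⌉₊ with hLdef
  have hL1 : 1 ≤ L := Nat.ceil_pos.2 (by positivity)
  have hL1' : (1 : ℝ) ≤ L := by exact_mod_cast hL1
  have hLge : q / l ≤ L := Nat.le_ceil _
  have hLlt : (L : ℝ) < q / l + 1 := Nat.ceil_lt_add_one (by positivity)
  have hql : 1 / 4 ≤ q / l := by rw [div_le_div_iff₀ (by norm_num) hl0]; linarith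
  have hL5 : (L : ℝ) ≤ 5 * (q / l) := by linarith
  have hLl : L * l ≤ 5 * q := by
    calc L * l ≤ 5 * (q / l) * l := by gcongr
      _ = 5 * q := by field_simp
  have hLq : (L : ℝ) ≤ 5 * q := by nlinarith
  have hlog10 : Real.log 10 ≤ 3 := by
    have h1 : Real.log 10 ≤ Real.log (2 ^ 4) := Real.log_le_log (by norm_num) (by norm_num)
    rw [Real.log_pow] at h1
    have := Real.log_two_lt_d9
    push_cast at h1
    linarith
  have hlogi : ∀ i ∈ range L, Real.log (((2 * i : ℕ) : ℝ) + 2) ≤ 4 * l := by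
    intro i hi
    have h1 : (i : ℝ) + 1 ≤ L := by exact_mod_cast Finset.mem_range.1 hi
    have h2 : ((2 * i : ℕ) : ℝ) + 2 ≤ 10 * q := by push_cast; linarith
    have h3 : Real.log (((2 * i : ℕ) : ℝ) + 2) ≤ Real.log (10 * q) :=
      Real.log_le_log (by positivity) h2
    rw [Real.log_mul (by norm_num) hq0.ne'] at h3
    have h4 : l = 4 * Real.log q := by rw [hl, ← hq4, Real.log_pow]; norm_num
    linarith
  obtain ⟨c, hc2, hcpos, hclow⟩ := fejer L hL1
  set P : Finset ℕ := (range (x + 1)).filter Nat.Prime with hP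
  set G : ℕ → ℝ := fun p => ∑ i ∈ range L, c i / L * Uk (2 * i) (xx p (a p)) with hG
  have hG0 : ∀ p ∈ P, 0 ≤ G p := by
    intro p hp
    have hpp : p.Prime := (Finset.mem_filter.1 hp).2
    exact hcpos _ (xx_le_one hpp (ha p hpp))
  set S : Finset ℕ := P.filter (fun p => a p = b) with hS
  set B : ℕ := b.natAbs ^ 2 * L ^ 2 with hB
  have hsplit : S.card ≤ B + (S.filter (fun p => B < p)).card := by
    have h1 : S ⊆ (S.filter (fun p => B < p)) ∪ Finset.Icc 1 B := by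
      intro p hp
      rw [Finset.mem_union, Finset.mem_filter, Finset.mem_Icc]
      have hpp : p.Prime := (Finset.mem_filter.1 (Finset.mem_filter.1 hp).1).2
      rcases lt_or_ge B p with h | h
      · exact Or.inl ⟨hp, h⟩
      · exact Or.inr ⟨hpp.one_le, h⟩
    have h2 := (Finset.card_le_card h1).trans (Finset.card_union_le _ _)
    rw [Nat.card_Icc] at h2
    omega
  have hsub : (2 / 5 : ℝ) * (S.filter (fun p => B < p)).card ≤ ∑ p ∈ P, G p := by
    have h1 : (2 / 5 : ℝ) * (S.filter (fun p => B < p)).card ≤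
        ∑ p ∈ S.filter (fun p => B < p), G p := by
      rw [mul_comm, ← nsmul_eq_mul]
      refine Finset.card_nsmul_le_sum _ _ _ ?_
      intro p hp
      rw [Finset.mem_filter] at hp
      have h2 : a p = b := (Finset.mem_filter.1 hp.1).2
      refine hclow _ ?_
      rw [h2]
      exact xx_le_small hL1 hp.2
    refine h1.trans (Finset.sum_le_sum_of_subset_of_nonneg ?_ ?_)
    · intro p hp
      exact (Finset.mem_filter.1 (Finset.mem_filter.1 hp).1).1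
    · intro p hp _
      exact hG0 p hp
  have hswap : ∑ p ∈ P, G p = ∑ i ∈ range L, c i / L * ∑ p ∈ P, Uk (2 * i) (xx p (a p)) := by
    rw [hG, Finset.sum_comm]
    refine Finset.sum_congr rfl fun i _ => ?_
    rw [Finset.mul_sum]
  set K : ℝ := C1 * (2 * L) * q ^ 2 * (4 * l) * l ^ s with hK
  have hK0 : 0 ≤ K := by positivity
  have hterm : ∀ i ∈ range L, c i / L * ∑ p ∈ P, Uk (2 * i) (xx p (a p)) ≤
      2 / L * ((if i = 0 then (Nat.primeCounting x : ℝ) else 0) + K) := by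
    intro i hi
    have h1 := hmom (2 * i) x hx
    have hi1 : (i : ℝ) + 1 ≤ L := by exact_mod_cast Finset.mem_range.1 hi
    have h2 : C1 * (((2 * i : ℕ) : ℝ) + 1) * √X * Real.log (((2 * i : ℕ) : ℝ) + 2) * l ^ s ≤ K := by
      rw [hK, hq2]
      have h3 : ((2 * i : ℕ) : ℝ) + 1 ≤ 2 * L := by push_cast; linarith
      have h4 := hlogi i hi
      have h5 : 0 ≤ Real.log (((2 * i : ℕ) : ℝ) + 2) := by
        apply Real.log_nonneg
        have : (0 : ℝ) ≤ ((2 * i : ℕ) : ℝ) := Nat.cast_nonneg _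
        linarith
      gcongr
    have h3 : |∑ p ∈ P, Uk (2 * i) (xx p (a p))| ≤
        (if i = 0 then (Nat.primeCounting x : ℝ) else 0) + K := by
      have h4 := h1.trans h2
      have h5 : (if 2 * i = 0 then (Nat.primeCounting x : ℝ) else 0) =
          (if i = 0 then (Nat.primeCounting x : ℝ) else 0) := by
        rcases Nat.eq_zero_or_pos i with rfl | h
        · simp
        · rw [if_neg (by omega), if_neg (by omega)]
      rw [h5] at h4
      have h6 : 0 ≤ (if i = 0 then (Nat.primeCounting x : ℝ) else 0) := by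
        split_ifs
        · exact Nat.cast_nonneg _
        · exact le_refl _
      rw [abs_le] at h4 ⊢
      constructor <;> linarith [h4.1, h4.2]
    have h4 : c i / L * ∑ p ∈ P, Uk (2 * i) (xx p (a p)) ≤
        |c i / L| * |∑ p ∈ P, Uk (2 * i) (xx p (a p))| := by
      rw [← abs_mul]; exact le_abs_self _
    have h5 : |c i / L| ≤ 2 / L := by
      rw [abs_div, abs_of_pos (show (0 : ℝ) < L by linarith)]
      have := hc2 i
      gcongr
    refine h4.trans ?_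
    gcongr
  have hsum : ∑ p ∈ P, G p ≤ 2 / L * (Nat.primeCounting x + L * K) := by
    rw [hswap]
    refine (Finset.sum_le_sum hterm).trans ?_
    rw [← Finset.mul_sum, Finset.sum_add_distrib, Finset.sum_const, Finset.card_range,
      nsmul_eq_mul]
    have h1 : ∑ i ∈ range L, (if i = 0 then (Nat.primeCounting x : ℝ) else 0) =
        Nat.primeCounting x := by
      rw [Finset.sum_ite_eq' (range L) 0 (fun _ => (Nat.primeCounting x : ℝ)),
        if_pos (Finset.mem_range.2 hL1)]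
    rw [h1]
  have hpix := hpi x (by omega)
  have hfirst : 2 / L * (Nat.primeCounting x : ℝ) ≤ 2 * C2 * q ^ 3 := by
    have h1 : (Nat.primeCounting x : ℝ) ≤ C2 * q ^ 4 / l := by rw [hq4]; exact hpix
    have h2 : q ≤ L * l := by rwa [div_le_iff₀ hl0] at hLge
    rw [div_mul_eq_mul_div, div_le_iff₀ (by linarith)]
    calc 2 * (Nat.primeCounting x : ℝ) ≤ 2 * (C2 * q ^ 4 / l) := by gcongr
      _ = 2 * C2 * q ^ 3 * (q / l) := by ring
      _ ≤ 2 * C2 * q ^ 3 * L := by gcongr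
  have hsecond : 2 / L * (L * K) ≤ 80 * C1 * q ^ 3 * l ^ s := by
    have h1 : 2 / L * (L * K) = 2 * K := by field_simp
    rw [h1, hK]
    calc 2 * (C1 * (2 * L) * q ^ 2 * (4 * l) * l ^ s) =
        16 * C1 * q ^ 2 * l ^ s * (L * l) := by ring
      _ ≤ 16 * C1 * q ^ 2 * l ^ s * (5 * q) := by gcongr
      _ = 80 * C1 * q ^ 3 * l ^ s := by ring
  have hBle : (B : ℝ) ≤ 25 * (b : ℝ) ^ 2 * q ^ 3 := by
    have h1 : (B : ℝ) = (b : ℝ) ^ 2 * (L : ℝ) ^ 2 := by
      have h2 : ((b.natAbs : ℕ) : ℝ) = |(b : ℝ)| := by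
        rw [Nat.cast_natAbs, Int.cast_abs]
      rw [hB, Nat.cast_mul, Nat.cast_pow, Nat.cast_pow, h2, sq_abs]
    rw [h1]
    have h2 : (L : ℝ) ^ 2 ≤ (5 * q) ^ 2 := by gcongr
    have h3 : q ^ 2 ≤ q ^ 3 := pow_le_pow_right₀ hq1 (by norm_num)
    calc (b : ℝ) ^ 2 * (L : ℝ) ^ 2 ≤ (b : ℝ) ^ 2 * (5 * q) ^ 2 := by gcongr
      _ = 25 * (b : ℝ) ^ 2 * q ^ 2 := by ring
      _ ≤ 25 * (b : ℝ) ^ 2 * q ^ 3 := by gcongr
  have hcard : (S.card : ℝ) ≤ B + (S.filter (fun p => B < p)).card := by exact_mod_cast hsplit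
  rw [hq3]
  have hq3p : 0 ≤ q ^ 3 := by positivity
  have e1 : 25 * (b : ℝ) ^ 2 * q ^ 3 ≤ 25 * (b : ℝ) ^ 2 * q ^ 3 * l ^ s :=
    le_mul_of_one_le_right (by positivity) hls
  have e2 : 5 * C2 * q ^ 3 ≤ 5 * C2 * q ^ 3 * l ^ s :=
    le_mul_of_one_le_right (by positivity) hls
  rw [mul_add] at hsum
  have e3 : ((S.filter (fun p => B < p)).card : ℝ) ≤ 5 / 2 * (2 * C2 * q ^ 3 + 80 * C1 * q ^ 3 * l ^ s) := by
    linarith
  calc (S.card : ℝ) ≤ B + (S.filter (fun p => B < p)).card := hcard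
    _ ≤ 25 * (b : ℝ) ^ 2 * q ^ 3 * l ^ s + 5 / 2 * (2 * C2 * q ^ 3 + 80 * C1 * q ^ 3 * l ^ s) := by
        linarith
    _ ≤ (25 * (b : ℝ) ^ 2 + 5 * C2 + 200 * C1) * q ^ 3 * l ^ s := by linarith

end Pool.Agent.TB
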