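import Pool.Agent.Lib_MP_f1937f_tb.Cheb
import Pool.Agent.Lib_MP_f1937f_tb.Sw

/-!
# The semicircle law in arithmetic progressions
-/

set_option autoImplicit false

namespace Pool.Agent.TB

open Finset

/-- the clipped function -/
private noncomputable def pf (p k : ℕ) (y : ℝ) : ℝ :=
  Real.sin ((k + 1) * Real.arccos (y / (2 * √(p : ℝ)))) / (Real.pi * √(p : ℝ))

private theorem pf_cont (p k : ℕ) : Continuous (pf p k) := by
  unfold pf
  exact (Real.continuous_sin.comp (continuous_const.mul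
    (Real.continuous_arccos.comp (continuous_id.div_const _)))).div_const _

private theorem pf_zero_right (p k : ℕ) (hp : 1 ≤ p) (y : ℝ) (hy : 2 * √(p : ℝ) ≤ y) : pf p k y = 0 := by
  have hN : 0 < 2 * √(p : ℝ) := by
    have : (0 : ℝ) < p := by exact_mod_cast hp
    positivity
  have h1 : 1 ≤ y / (2 * √(p : ℝ)) := by
    rw [le_div_iff₀ hN]; linarith
  unfold pf
  rw [Real.arccos_of_one_le h1]
  simp

private theorem pf_zero_left (p k : ℕ) (hp : 1 ≤ p) (y : ℝ) (hy : y ≤ -(2 * √(p : ℝ))) : pf p k y = 0 := by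
  have hN : 0 < 2 * √(p : ℝ) := by
    have : (0 : ℝ) < p := by exact_mod_cast hp
    positivity
  have h1 : y / (2 * √(p : ℝ)) ≤ -1 := by
    rw [div_le_iff₀ hN]; linarith
  unfold pf
  rw [Real.arccos_of_le_neg_one h1]
  have h2 : Real.sin (((k : ℝ) + 1) * Real.pi) = 0 := by
    have := Real.sin_nat_mul_pi (k + 1)
    push_cast at this
    exact this
  rw [h2, zero_div]

private theorem pf_lip (p k : ℕ) (x y : ℝ) (hxy : x ≤ y) :
    |pf p k x - pf p k y| ≤ (k + 1) / (Real.pi * √(p : ℝ)) *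
      (Real.arccos (x / (2 * √(p : ℝ))) - Real.arccos (y / (2 * √(p : ℝ)))) := by
  have h0 : 0 ≤ Real.pi * √(p : ℝ) := by positivity
  have hmono : Real.arccos (y / (2 * √(p : ℝ))) ≤ Real.arccos (x / (2 * √(p : ℝ))) := by
    apply Real.antitone_arccos
    exact div_le_div_of_nonneg_right hxy (by positivity)
  unfold pf
  rw [← sub_div, abs_div, abs_of_nonneg h0]
  have h1 : |Real.sin (((k : ℝ) + 1) * Real.arccos (x / (2 * √(p : ℝ)))) -
      Real.sin (((k : ℝ) + 1) * Real.arccos (y / (2 * √(p : ℝ))))| ≤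
      (k + 1) * (Real.arccos (x / (2 * √(p : ℝ))) - Real.arccos (y / (2 * √(p : ℝ)))) := by
    have h2 := Real.abs_sin_sub_sin_le (((k : ℝ) + 1) * Real.arccos (x / (2 * √(p : ℝ))))
      (((k : ℝ) + 1) * Real.arccos (y / (2 * √(p : ℝ))))
    refine h2.trans (le_of_eq ?_)
    rw [← mul_sub, abs_mul, abs_of_nonneg (by positivity : (0 : ℝ) ≤ (k : ℝ) + 1),
      abs_of_nonneg (sub_nonneg.2 hmono)]
  calc _ ≤ ((k + 1) * (Real.arccos (x / (2 * √(p : ℝ))) - Real.arccos (y / (2 * √(p : ℝ))))) /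
        (Real.pi * √(p : ℝ)) := div_le_div_of_nonneg_right h1 h0
    _ = _ := by ring

private theorem dsin (c θ : ℝ) : HasDerivAt (fun θ : ℝ => Real.sin (c * θ)) (Real.cos (c * θ) * c) θ := by
  have h := (hasDerivAt_id θ).const_mul c
  simp only [id, mul_one] at h
  exact h.sin

private theorem pf_int (p : ℕ) (hp : 1 ≤ p) (k : ℕ) :
    ∫ y in (-(2 * √(p : ℝ)))..(2 * √(p : ℝ)), pf p k y = if k = 0 then 1 else 0 := by
  have hp' : (0 : ℝ) < p := by exact_mod_cast hp
  have hs : 0 < √(p : ℝ) := Real.sqrt_pos.2 hp'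
  set N : ℝ := 2 * √(p : ℝ) with hN
  have hNpos : 0 < N := by positivity
  -- substitution
  have h1 : ∫ θ in (0 : ℝ)..Real.pi, (pf p k ∘ fun θ => N * Real.cos θ) θ * (-(N * Real.sin θ)) =
      ∫ y in (N * Real.cos 0)..(N * Real.cos Real.pi), pf p k y := by
    apply intervalIntegral.integral_comp_mul_deriv
    · intro θ _
      have := (Real.hasDerivAt_cos θ).const_mul N
      rw [mul_neg] at this
      exact this
    · exact (by fun_prop : Continuous fun θ : ℝ => -(N * Real.sin θ)).continuousOn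
    · exact pf_cont p k
  rw [Real.cos_zero, Real.cos_pi, mul_one, mul_neg_one] at h1
  rw [intervalIntegral.integral_symm, ← h1, ← intervalIntegral.integral_neg]
  have h2 : ∫ θ in (0 : ℝ)..Real.pi, -((pf p k ∘ fun θ => N * Real.cos θ) θ * (-(N * Real.sin θ))) =
      ∫ θ in (0 : ℝ)..Real.pi, (2 / Real.pi) * (Real.sin ((k + 1) * θ) * Real.sin θ) := by
    apply intervalIntegral.integral_congr
    intro θ hθ
    rw [Set.uIcc_of_le Real.pi_pos.le] at hθ
    show -((pf p k (N * Real.cos θ)) * (-(N * Real.sin θ))) = _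
    unfold pf
    rw [← hN, mul_div_cancel_left₀ _ hNpos.ne', Real.arccos_cos hθ.1 hθ.2, hN]
    have hpi := Real.pi_pos
    field_simp
  rw [h2, intervalIntegral.integral_const_mul]
  by_cases hk : k = 0
  · subst hk
    simp only [Nat.cast_zero, zero_add, one_mul, if_true]
    have h3 : ∫ θ in (0 : ℝ)..Real.pi, Real.sin θ * Real.sin θ = Real.pi / 2 := by
      have h4 := @integral_sin_sq 0 Real.pi
      simp only [pow_two, Real.sin_zero, Real.sin_pi, zero_mul, sub_zero, zero_add] at h4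
      rw [h4]
    rw [h3]
    have hpi := Real.pi_pos
    field_simp
  · rw [if_neg hk]
    have hk0 : (0 : ℝ) < k := by exact_mod_cast Nat.pos_of_ne_zero hk
    have h3 : ∫ θ in (0 : ℝ)..Real.pi, Real.sin ((k + 1) * θ) * Real.sin θ = 0 := by
      have h4 : ∀ θ ∈ Set.uIcc (0 : ℝ) Real.pi, HasDerivAt
          (fun θ : ℝ => Real.sin (k * θ) / (2 * k) - Real.sin ((k + 2) * θ) / (2 * (k + 2)))
          (Real.sin ((k + 1) * θ) * Real.sin θ) θ := by
        intro θ _
        have h5 := dsin (k : ℝ) θ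
        have h6 := dsin ((k : ℝ) + 2) θ
        have h7 := (h5.div_const (2 * (k : ℝ))).sub (h6.div_const (2 * ((k : ℝ) + 2)))
        refine HasDerivAt.congr_deriv h7 ?_
        have e1 : (k : ℝ) * θ = ((k : ℝ) + 1) * θ - θ := by ring
        have e2 : ((k : ℝ) + 2) * θ = ((k : ℝ) + 1) * θ + θ := by ring
        have e3 : (k : ℝ) + 2 ≠ 0 := by positivity
        have e4 : Real.cos ((k : ℝ) * θ) * k / (2 * k) = Real.cos ((k : ℝ) * θ) / 2 := by
          field_simp
        have e5 : Real.cos (((k : ℝ) + 2) * θ) * (k + 2) / (2 * (k + 2)) =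
            Real.cos (((k : ℝ) + 2) * θ) / 2 := by
          field_simp
        rw [e4, e5, e1, e2, Real.cos_sub, Real.cos_add]
        ring
      rw [intervalIntegral.integral_eq_sub_of_hasDerivAt h4
        ((by fun_prop : Continuous fun θ : ℝ =>
          Real.sin ((k + 1) * θ) * Real.sin θ).intervalIntegrable _ _)]
      have e6 : Real.sin ((k : ℝ) * Real.pi) = 0 := Real.sin_nat_mul_pi k
      have e7 : Real.sin (((k : ℝ) + 2) * Real.pi) = 0 := by
        have := Real.sin_nat_mul_pi (k + 2)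
        push_cast at this
        exact this
      simp [e6, e7]
    rw [h3, mul_zero]

private theorem pf_int' (p : ℕ) (hp : 1 ≤ p) (k : ℕ) (A B : ℝ) (hA : A ≤ -(2 * √(p : ℝ)))
    (hB : 2 * √(p : ℝ) ≤ B) : ∫ y in A..B, pf p k y = if k = 0 then 1 else 0 := by
  rw [← pf_int p hp k]
  have hI : ∀ a b : ℝ, IntervalIntegrable (pf p k) MeasureTheory.volume a b :=
    fun a b => (pf_cont p k).intervalIntegrable a b
  rw [← intervalIntegral.integral_add_adjacent_intervals (hI A (-(2 * √(p : ℝ)))) (hI _ B),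
    ← intervalIntegral.integral_add_adjacent_intervals (hI (-(2 * √(p : ℝ))) (2 * √(p : ℝ))) (hI _ B)]
  have h1 : ∫ y in A..(-(2 * √(p : ℝ))), pf p k y = 0 := by
    rw [intervalIntegral.integral_congr (g := fun _ => (0 : ℝ))]
    · simp
    · intro y hy
      rw [Set.uIcc_of_le hA] at hy
      exact pf_zero_left p k hp y hy.2
  have h2 : ∫ y in (2 * √(p : ℝ))..B, pf p k y = 0 := by
    rw [intervalIntegral.integral_congr (g := fun _ => (0 : ℝ))]
    · simp
    · intro y hy
      rw [Set.uIcc_of_le hB] at hy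
      exact pf_zero_right p k hp y hy.1
  rw [h1, h2]
  ring

private theorem mem_V_iff (p : ℕ) (a : ℤ) : a ∈ V p ↔ |(a : ℝ)| ≤ 2 * √(p : ℝ) := by
  unfold V
  rw [Finset.mem_Icc, ← abs_le]
  have h1 : (2 * √(p : ℝ)) = √((4 * p : ℕ) : ℝ) := by
    push_cast
    rw [Real.sqrt_mul (by norm_num), show (4 : ℝ) = 2 ^ 2 by norm_num, Real.sqrt_sq (by norm_num)]
  rw [h1]
  constructor
  · intro h
    apply Real.le_sqrt_of_sq_le
    have h2 : |a| ^ 2 ≤ ((Nat.sqrt (4 * p) : ℕ) : ℤ) ^ 2 := by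
      gcongr
    have h3 : ((Nat.sqrt (4 * p) : ℕ) : ℤ) ^ 2 ≤ ((4 * p : ℕ) : ℤ) := by
      have := Nat.sqrt_le' (4 * p)
      exact_mod_cast this
    have h4 := h2.trans h3
    exact_mod_cast h4
  · intro h
    have h2 : |(a : ℝ)| ^ 2 ≤ ((4 * p : ℕ) : ℝ) := by
      have h3 := Real.sq_sqrt (by positivity : (0 : ℝ) ≤ ((4 * p : ℕ) : ℝ))
      rw [← h3]
      gcongr
    have h3 : a.natAbs ^ 2 ≤ 4 * p := by
      have h4 : ((a.natAbs : ℕ) : ℝ) = |(a : ℝ)| := by
        rw [Nat.cast_natAbs, Int.cast_abs]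
      rw [← h4] at h2
      exact_mod_cast h2
    have h5 : a.natAbs ≤ Nat.sqrt (4 * p) := Nat.le_sqrt'.2 h3
    rw [← Int.natCast_natAbs]
    exact_mod_cast h5

private theorem pf_eq (p : ℕ) (hp : 1 ≤ p) (k : ℕ) (a : ℤ) (ha : a ∈ V p) :
    sw p a * Uk k (xx p a) = pf p k a := by
  have hp' : (0 : ℝ) < p := by exact_mod_cast hp
  have hs : 0 < √(p : ℝ) := Real.sqrt_pos.2 hp'
  rw [mem_V_iff] at ha
  have ha1 := abs_le.1 ha
  have hN : (0 : ℝ) < 2 * √(p : ℝ) := by positivity
  have h1 : -1 ≤ (a : ℝ) / (2 * √(p : ℝ)) := by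
    rw [le_div_iff₀ hN]; linarith [ha1.1]
  have h2 : (a : ℝ) / (2 * √(p : ℝ)) ≤ 1 := by
    rw [div_le_iff₀ hN]; linarith [ha1.2]
  set θ := Real.arccos ((a : ℝ) / (2 * √(p : ℝ))) with hθ
  have hcos : Real.cos θ = (a : ℝ) / (2 * √(p : ℝ)) := Real.cos_arccos h1 h2
  have hsin : Real.sin θ = √(1 - ((a : ℝ) / (2 * √(p : ℝ))) ^ 2) := Real.sin_arccos _
  have hU := Uk_cos k θ
  unfold pf
  rw [← hθ, ← hU, hcos]
  unfold sw xx
  have h3 : √(4 * (p : ℝ) - (a : ℝ) ^ 2) = (2 * √(p : ℝ)) * Real.sin θ := by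
    rw [hsin]
    rw [show (4 * (p : ℝ) - (a : ℝ) ^ 2) = (2 * √(p : ℝ)) ^ 2 * (1 - ((a : ℝ) / (2 * √(p : ℝ))) ^ 2) by
      rw [div_pow, mul_pow, Real.sq_sqrt hp'.le]
      field_simp
      ring]
    rw [Real.sqrt_mul (by positivity), Real.sqrt_sq hN.le]
  rw [h3]
  have h4 : (2 * √(p : ℝ)) * Real.sin θ / (2 * Real.pi * p) = Real.sin θ / (Real.pi * √(p : ℝ)) := by
    have h5 : (p : ℝ) = √(p : ℝ) * √(p : ℝ) := (Real.mul_self_sqrt hp'.le).symm
    rw [div_eq_div_iff (by positivity) (by positivity)]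
    calc 2 * √(p : ℝ) * Real.sin θ * (Real.pi * √(p : ℝ)) =
        Real.sin θ * (2 * Real.pi * (√(p : ℝ) * √(p : ℝ))) := by ring
      _ = _ := by rw [← h5]
  rw [h4]
  ring

/-- PIECE [TB-C1] (about 150 lines). PROOF. Put `N = 2 √p` and `f y = sin ((k + 1) arccos (y / N)) / (π √p)` for real `y`. Mathlib's
`arccos` is clipped (`0` for arguments `≥ 1`, `π` for arguments `≤ -1`), so `f` is continuous on `ℝ` and `f y = 0` for `|y| ≥ N`.
For `a ∈ V p`: `|a| ≤ N`, `cos θ = a / N` with `θ = arccos (a / N)`, `√(4 p - a ^ 2) = N sin θ`, so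
`sw p a * Uk k (xx p a) = sin θ * Uk k (cos θ) / (π √p) = f a` (`Uk_cos`). Choose a natural number `J` with
`c - r J ≤ -N - 1` and `N + 1 ≤ c + r J`; the integers `a ≡ c mod r` of `V p` are among `c + r j`, `-J ≤ j < J`, and `f`
vanishes at the other ones. So the sum is `∑ -J ≤ j < J, f (c + r j)`.
`|f (c + r j) - (1 / r) ∫_{c + r j}^{c + r (j + 1)} f| ≤ (k + 1) / (π √p) (arccos ((c + r j) / N) - arccos ((c + r (j + 1)) / N))`
(`|sin a - sin b| ≤ |a - b|`, `arccos` is antitone). The right sides telescope: total `≤ (k + 1) / (π √p) * π`. And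
`∫_{c - r J}^{c + r J} f = ∫_{-N}^{N} f = (N / (π √p)) ∫_0^π sin ((k + 1) θ) sin θ dθ` (`y = N cos θ`), which is `1` for `k = 0` and `0` for
`k ≥ 1` (`2 sin ((k + 1) θ) sin θ = cos (k θ) - cos ((k + 2) θ)`). -/
theorem prog_sum (p : ℕ) (hp : 1 ≤ p) (r : ℕ) (hr : 1 ≤ r) (c : ℤ) (k : ℕ) :
    |∑ a ∈ (V p).filter (fun a => (r : ℤ) ∣ a - c), sw p a * Uk k (xx p a) - (if k = 0 then 1 / (r : ℝ) else 0)| ≤
      (k + 1) / √(p : ℝ) := by
  have hp' : (0 : ℝ) < p := by exact_mod_cast hp
  have hs : 0 < √(p : ℝ) := Real.sqrt_pos.2 hp'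
  have hr' : (0 : ℝ) < r := by exact_mod_cast hr
  have hr1 : (1 : ℝ) ≤ r := by exact_mod_cast hr
  set N : ℝ := 2 * √(p : ℝ) with hN
  have hNpos : 0 < N := by positivity
  obtain ⟨J, hJ⟩ := exists_nat_ge (N + 1 + |(c : ℝ)|)
  have hrJ : N + 1 + |(c : ℝ)| ≤ r * J := by
    have : (J : ℝ) ≤ r * J := by
      have h0 : (0 : ℝ) ≤ J := Nat.cast_nonneg J
      nlinarith
    linarith
  -- the points
  set z : ℕ → ℤ := fun j => c - r * J + r * j with hz
  set x : ℕ → ℝ := fun j => (z j : ℝ) with hx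
  have hx' : ∀ j, x j = (c : ℝ) - r * J + r * j := by
    intro j; simp [hx, hz]
  have hstep : ∀ j, x (j + 1) = x j + r := by
    intro j; rw [hx', hx']; push_cast; ring
  have hx0 : x 0 ≤ -N := by
    rw [hx']; push_cast
    have := le_abs_self (c : ℝ)
    linarith
  have hx2 : N ≤ x (2 * J) := by
    rw [hx']; push_cast
    have := neg_abs_le (c : ℝ)
    linarith
  -- Step 1 : sum as sum over range
  have hinj : Function.Injective z := by
    intro i j hij
    simp only [hz] at hij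
    have h1 : (r : ℤ) * i = r * j := by linarith
    have h2 : (r : ℤ) ≠ 0 := by
      have : 0 < r := hr
      exact_mod_cast this.ne'
    have h3 := mul_left_cancel₀ h2 h1
    exact_mod_cast h3
  have hsum : ∑ a ∈ (V p).filter (fun a => (r : ℤ) ∣ a - c), sw p a * Uk k (xx p a) =
      ∑ j ∈ range (2 * J), pf p k (x j) := by
    have h1 : ∑ j ∈ range (2 * J), pf p k (x j) = ∑ a ∈ (range (2 * J)).image z, pf p k (a : ℝ) := by
      rw [Finset.sum_image (fun i _ j _ h => hinj h)]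
    rw [h1]
    have h2 : (V p).filter (fun a => (r : ℤ) ∣ a - c) ⊆ (range (2 * J)).image z := by
      intro a ha
      rw [Finset.mem_filter] at ha
      obtain ⟨haV, ⟨t, ht⟩⟩ := ha
      rw [mem_V_iff] at haV
      rw [← hN] at haV
      have hac : (a : ℝ) - c = r * t := by exact_mod_cast ht
      have hab := abs_le.1 haV
      have hcb := abs_le.1 (le_refl |(c : ℝ)|)
      -- -J ≤ t < J
      have ht1 : -(J : ℝ) < t := by
        have : (r : ℝ) * (-J) < r * t := by linarith [hab.1, hcb.2]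
        exact lt_of_mul_lt_mul_left this hr'.le
      have ht2 : (t : ℝ) < J := by
        have : (r : ℝ) * t < r * J := by linarith [hab.2, hcb.1]
        exact lt_of_mul_lt_mul_left this hr'.le
      have ht1' : -(J : ℤ) < t := by exact_mod_cast ht1
      have ht2' : t < (J : ℤ) := by exact_mod_cast ht2
      rw [Finset.mem_image]
      refine ⟨(t + J).toNat, ?_, ?_⟩
      · rw [Finset.mem_range]
        omega
      · simp only [hz]
        have h3 : (((t + J).toNat : ℕ) : ℤ) = t + J := Int.toNat_of_nonneg (by omega)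
        rw [h3]
        linarith
    rw [← Finset.sum_subset h2]
    · apply Finset.sum_congr rfl
      intro a ha
      exact pf_eq p hp k a (Finset.mem_filter.1 ha).1
    · intro a ha hna
      rw [Finset.mem_image] at ha
      obtain ⟨j, _, rfl⟩ := ha
      have h3 : (r : ℤ) ∣ z j - c := ⟨(j : ℤ) - J, by simp only [hz]; ring⟩
      have h4 : z j ∉ V p := fun h => hna (Finset.mem_filter.2 ⟨h, h3⟩)
      rw [mem_V_iff, not_le, lt_abs] at h4
      rcases h4 with h4 | h4
      · exact pf_zero_right p k hp _ h4.le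
      · exact pf_zero_left p k hp _ (by linarith)
  rw [hsum]
  -- Step 2 : integral
  have hint : ∑ j ∈ range (2 * J), ∫ y in x j..x (j + 1), pf p k y = if k = 0 then 1 else 0 := by
    rw [intervalIntegral.sum_integral_adjacent_intervals]
    · exact pf_int' p hp k _ _ hx0 hx2
    · intro j _
      exact (pf_cont p k).intervalIntegrable _ _
  have hint2 : (if k = 0 then 1 / (r : ℝ) else 0) =
      ∑ j ∈ range (2 * J), (1 / (r : ℝ)) * ∫ y in x j..x (j + 1), pf p k y := by
    rw [← Finset.mul_sum, hint]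
    split_ifs <;> simp
  rw [hint2, ← Finset.sum_sub_distrib]
  have hterm : ∀ j, |pf p k (x j) - (1 / (r : ℝ)) * ∫ y in x j..x (j + 1), pf p k y| ≤
      (k + 1) / (Real.pi * √(p : ℝ)) *
        (Real.arccos (x j / (2 * √(p : ℝ))) - Real.arccos (x (j + 1) / (2 * √(p : ℝ)))) := by
    intro j
    have hxj : x j ≤ x (j + 1) := by rw [hstep]; linarith
    have hI : ∫ y in x j..x (j + 1), (pf p k (x j) - pf p k y) =
        r * pf p k (x j) - ∫ y in x j..x (j + 1), pf p k y := by
      rw [intervalIntegral.integral_sub (by simp) ((pf_cont p k).intervalIntegrable _ _),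
        intervalIntegral.integral_const, hstep]
      simp
    have hE : pf p k (x j) - (1 / (r : ℝ)) * ∫ y in x j..x (j + 1), pf p k y =
        (1 / (r : ℝ)) * ∫ y in x j..x (j + 1), (pf p k (x j) - pf p k y) := by
      rw [hI]
      field_simp
    rw [hE, abs_mul, abs_of_nonneg (by positivity : (0 : ℝ) ≤ 1 / (r : ℝ))]
    have hB := intervalIntegral.norm_integral_le_of_norm_le_const (a := x j) (b := x (j + 1))
      (f := fun y => pf p k (x j) - pf p k y)
      (C := (k + 1) / (Real.pi * √(p : ℝ)) *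
        (Real.arccos (x j / (2 * √(p : ℝ))) - Real.arccos (x (j + 1) / (2 * √(p : ℝ))))) (by
        intro y hy
        rw [Set.uIoc_of_le hxj] at hy
        rw [Real.norm_eq_abs]
        refine (pf_lip p k (x j) y hy.1.le).trans ?_
        have h5 : Real.arccos (x (j + 1) / (2 * √(p : ℝ))) ≤ Real.arccos (y / (2 * √(p : ℝ))) := by
          apply Real.antitone_arccos
          exact div_le_div_of_nonneg_right hy.2 (by positivity)
        have h6 : (0 : ℝ) ≤ (k + 1) / (Real.pi * √(p : ℝ)) := by positivity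
        exact mul_le_mul_of_nonneg_left (by linarith) h6)
    rw [Real.norm_eq_abs] at hB
    have h7 : |x (j + 1) - x j| = r := by
      rw [hstep]; simp
    rw [h7] at hB
    calc (1 / (r : ℝ)) * |∫ y in x j..x (j + 1), (pf p k (x j) - pf p k y)| ≤
        (1 / (r : ℝ)) * ((k + 1) / (Real.pi * √(p : ℝ)) *
        (Real.arccos (x j / (2 * √(p : ℝ))) - Real.arccos (x (j + 1) / (2 * √(p : ℝ)))) * r) :=
          mul_le_mul_of_nonneg_left hB (by positivity)
      _ = _ := by field_simp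
  refine (Finset.abs_sum_le_sum_abs _ _).trans ((Finset.sum_le_sum (fun j _ => hterm j)).trans ?_)
  rw [← Finset.mul_sum, Finset.sum_range_sub' (fun j => Real.arccos (x j / (2 * √(p : ℝ))))]
  have h8 : Real.arccos (x 0 / (2 * √(p : ℝ))) - Real.arccos (x (2 * J) / (2 * √(p : ℝ))) ≤ Real.pi := by
    have h9 := Real.arccos_le_pi (x 0 / (2 * √(p : ℝ)))
    have h10 := Real.arccos_nonneg (x (2 * J) / (2 * √(p : ℝ)))
    linarith
  calc (k + 1) / (Real.pi * √(p : ℝ)) *
      (Real.arccos (x 0 / (2 * √(p : ℝ))) - Real.arccos (x (2 * J) / (2 * √(p : ℝ)))) ≤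
      (k + 1) / (Real.pi * √(p : ℝ)) * Real.pi :=
        mul_le_mul_of_nonneg_left h8 (by positivity)
    _ = _ := by
      have hpi := Real.pi_pos
      field_simp

end Pool.Agent.TB
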