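import Pool.Agent.Lib_MP_f1937f_tb.Defs

/-!
# Abel summation
-/

set_option autoImplicit false

namespace Pool.Agent.TB

open Finset

private theorem abel_aux (d f H : ℕ → ℝ) (S : Finset ℕ) :
    (∀ x : ℕ, |∑ p ∈ S.filter (· ≤ x), d p| ≤ 1) →
    (∀ p ∈ S, ∀ q ∈ S, p ≤ q → H q ≤ H p) → (∀ p ∈ S, ∀ q ∈ S, |f p - f q| ≤ |H p - H q|) → S.Nonempty →
    ∃ p0 ∈ S, ∃ q ∈ S, (∀ r ∈ S, r ≤ q) ∧ |∑ p ∈ S, d p * f p - (∑ p ∈ S, d p) * f q| ≤ H p0 - H q := by
  induction S using Finset.induction_on_max with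
  | empty => intro _ _ _ h; exact absurd h Finset.not_nonempty_empty
  | insert a s ha ih =>
    intro hd hH hfH _
    have has : a ∉ s := fun h => lt_irrefl _ (ha a h)
    rcases s.eq_empty_or_nonempty with rfl | hs
    · refine ⟨a, by simp, a, by simp, by simp, ?_⟩
      simp
    · have hd' : ∀ x : ℕ, |∑ p ∈ s.filter (· ≤ x), d p| ≤ 1 := by
        intro x
        obtain ⟨b, hb⟩ := hs
        have hab := ha b hb
        have h1 := hd (min x (a - 1))
        have h2 : (insert a s).filter (· ≤ min x (a - 1)) = s.filter (· ≤ x) := by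
          ext p
          simp only [mem_filter, mem_insert]
          constructor
          · rintro ⟨rfl | hp, hx⟩
            · omega
            · exact ⟨hp, by omega⟩
          · rintro ⟨hp, hx⟩
            have := ha p hp
            exact ⟨Or.inr hp, by omega⟩
        rwa [h2] at h1
      obtain ⟨p0, hp0, q, hq, hmax, hle⟩ := ih hd' (fun p hp q hq => hH p (mem_insert_of_mem hp) q (mem_insert_of_mem hq))
        (fun p hp q hq => hfH p (mem_insert_of_mem hp) q (mem_insert_of_mem hq)) hs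
      refine ⟨p0, mem_insert_of_mem hp0, a, mem_insert_self _ _, ?_, ?_⟩
      · intro r hr
        rcases mem_insert.mp hr with rfl | hr
        · exact le_rfl
        · exact (ha r hr).le
      · rw [sum_insert has, sum_insert has]
        have h3 : |∑ p ∈ s, d p| ≤ 1 := by
          have h4 := hd' q
          have h5 : s.filter (· ≤ q) = s := filter_true_of_mem hmax
          rwa [h5] at h4
        have h6 : H a ≤ H q := hH q (mem_insert_of_mem hq) a (mem_insert_self _ _) (ha q hq).le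
        have h7 : |f q - f a| ≤ H q - H a := by
          have h8 := hfH q (mem_insert_of_mem hq) a (mem_insert_self _ _)
          rwa [abs_of_nonneg (sub_nonneg.mpr h6)] at h8
        have h9 : d a * f a + ∑ p ∈ s, d p * f p - (d a + ∑ p ∈ s, d p) * f a =
            (∑ p ∈ s, d p * f p - (∑ p ∈ s, d p) * f q) + (∑ p ∈ s, d p) * (f q - f a) := by ring
        rw [h9]
        refine (abs_add_le _ _).trans ?_
        have h10 : |(∑ p ∈ s, d p) * (f q - f a)| ≤ 1 * (H q - H a) := by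
          rw [abs_mul]
          exact mul_le_mul h3 h7 (abs_nonneg _) zero_le_one
        linarith

/-- PIECE [TB-K1] (about 80 lines). PROOF. Replace `S` by `S.filter (· ≤ x)`. Induction with `Finset.induction_on_max`: if `S = {p_1 < ... < p_n}` and
`D_j = ∑ i ≤ j, d p_i` then `∑ d p f p = D_n f p_n + ∑ j < n, D_j (f p_j - f p_(j+1))`, and `∑ j < n, |f p_j - f p_(j+1)| ≤`
`∑ (H p_j - H p_(j+1)) = H p_1 - H p_n ≤ B`. -/
theorem abel_bv (S : Finset ℕ) (d f H : ℕ → ℝ) (B B' : ℝ) (hB : 0 ≤ B) (hB' : 0 ≤ B')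
    (hd : ∀ x : ℕ, |∑ p ∈ S.filter (· ≤ x), d p| ≤ 1)
    (hH : ∀ p ∈ S, ∀ q ∈ S, p ≤ q → H q ≤ H p) (hHb : ∀ p ∈ S, 0 ≤ H p ∧ H p ≤ B) (hf : ∀ p ∈ S, |f p| ≤ B')
    (hfH : ∀ p ∈ S, ∀ q ∈ S, |f p - f q| ≤ |H p - H q|) (x : ℕ) :
    |∑ p ∈ S.filter (· ≤ x), d p * f p| ≤ B' + B := by
  rcases (S.filter (· ≤ x)).eq_empty_or_nonempty with h0 | hne
  · rw [h0]
    simp only [sum_empty, abs_zero]
    linarith
  · have hd' : ∀ y : ℕ, |∑ p ∈ (S.filter (· ≤ x)).filter (· ≤ y), d p| ≤ 1 := by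
      intro y
      have h1 := hd (min x y)
      have h2 : (S.filter (· ≤ x)).filter (· ≤ y) = S.filter (· ≤ min x y) := by
        ext p
        simp only [mem_filter, le_min_iff, and_assoc]
      rwa [h2]
    obtain ⟨p0, hp0, q, hq, -, hle⟩ := abel_aux d f H (S.filter (· ≤ x)) hd'
      (fun p hp q hq => hH p (mem_filter.mp hp).1 q (mem_filter.mp hq).1)
      (fun p hp q hq => hfH p (mem_filter.mp hp).1 q (mem_filter.mp hq).1) hne
    have h3 := (hHb p0 (mem_filter.mp hp0).1).2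
    have h4 := (hHb q (mem_filter.mp hq).1).1
    have h5 : |(∑ p ∈ S.filter (· ≤ x), d p) * f q| ≤ 1 * B' := by
      rw [abs_mul]
      exact mul_le_mul (hd x) (hf q (mem_filter.mp hq).1) (abs_nonneg _) zero_le_one
    have h6 : ∑ p ∈ S.filter (· ≤ x), d p * f p =
        (∑ p ∈ S.filter (· ≤ x), d p * f p - (∑ p ∈ S.filter (· ≤ x), d p) * f q) +
          (∑ p ∈ S.filter (· ≤ x), d p) * f q := by ring
    rw [h6]
    refine (abs_add_le _ _).trans ?_
    linarith

end Pool.Agent.TB
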