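import Pool.Agent.Lib_MP_f1937f_tb.Defs

/-!
# Counting in the Hasse interval
-/

set_option autoImplicit false

namespace Pool.Agent.TB

open Finset

/-- PIECE [TB-K2] (about 50 lines). The integers `a ≡ t mod m` in an interval of length `2 ⌊√(4 X)⌋ ≤ 4 √X` are at most
`4 √X / m + 1` many. (`Int.Ioc_filter_modEq_card` or similar in Mathlib `Data/Int/CardIntervalMod.lean`.) -/
theorem card_V_prog (X m : ℕ) (hm : 0 < m) (t : ℤ) :
    (((V X).filter (fun a => (m : ℤ) ∣ a - t)).card : ℝ) ≤ 4 * √(X : ℝ) / m + 1 := by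
  set s := Nat.sqrt (4 * X) with hs
  have hmz : (0 : ℤ) < m := by exact_mod_cast hm
  have hcard : ((V X).filter (fun a => (m : ℤ) ∣ a - t)).card ≤ (range (2 * s / m + 1)).card := by
    apply Finset.card_le_card_of_injOn (fun a : ℤ => ((a + s) / m).toNat)
    · intro a ha
      have ha' := Finset.mem_filter.mp (Finset.mem_coe.mp ha)
      have h1 := Finset.mem_Icc.mp ha'.1
      rw [← hs] at h1
      apply Finset.mem_coe.mpr
      rw [Finset.mem_range]
      have h2 : (a + s) / (m : ℤ) ≤ ((2 * s / m : ℕ) : ℤ) := by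
        push_cast
        apply Int.ediv_le_ediv hmz
        linarith [h1.2]
      have h3 : (0 : ℤ) ≤ (a + s) / (m : ℤ) := Int.ediv_nonneg (by linarith [h1.1]) hmz.le
      show ((a + s) / (m : ℤ)).toNat < _
      omega
    · intro a ha b hb hab
      have ha' := Finset.mem_filter.mp (Finset.mem_coe.mp ha)
      have hb' := Finset.mem_filter.mp (Finset.mem_coe.mp hb)
      have h1 := Finset.mem_Icc.mp ha'.1
      have h2 := Finset.mem_Icc.mp hb'.1
      rw [← hs] at h1 h2
      have h3 : (0 : ℤ) ≤ (a + s) / (m : ℤ) := Int.ediv_nonneg (by linarith [h1.1]) hmz.le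
      have h4 : (0 : ℤ) ≤ (b + s) / (m : ℤ) := Int.ediv_nonneg (by linarith [h2.1]) hmz.le
      have hab' : ((a + s) / (m : ℤ)).toNat = ((b + s) / (m : ℤ)).toNat := hab
      have hq : (a + s) / (m : ℤ) = (b + s) / (m : ℤ) := by omega
      have hd : (m : ℤ) ∣ (a + s) - (b + s) := by
        have : (a + s : ℤ) - (b + s) = (a - t) - (b - t) := by ring
        rw [this]
        exact dvd_sub ha'.2 hb'.2
      have hr : (a + s) % (m : ℤ) = (b + s) % (m : ℤ) :=
        Int.emod_eq_emod_iff_emod_sub_eq_zero.mpr (Int.emod_eq_zero_of_dvd hd)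
      have e1 := Int.mul_ediv_add_emod (a + s) m
      have e2 := Int.mul_ediv_add_emod (b + s) m
      rw [hq, hr] at e1
      linarith
  rw [Finset.card_range] at hcard
  have h1 : ((2 * s / m : ℕ) : ℝ) ≤ (2 * s : ℕ) / (m : ℝ) := Nat.cast_div_le
  have h2 : (s : ℝ) ≤ 2 * √(X : ℝ) := by
    have h3 : (s : ℝ) ≤ √((4 * X : ℕ) : ℝ) := by
      rw [hs]; exact Real.nat_sqrt_le_real_sqrt
    have h4 : √((4 * X : ℕ) : ℝ) = 2 * √(X : ℝ) := by
      push_cast
      rw [Real.sqrt_mul (by norm_num : (0 : ℝ) ≤ 4)]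
      congr 1
      rw [show (4 : ℝ) = 2 ^ 2 by norm_num]
      exact Real.sqrt_sq (by norm_num)
    rw [← h4]; exact h3
  have h5 : ((2 * s : ℕ) : ℝ) / (m : ℝ) ≤ 4 * √(X : ℝ) / m := by
    apply div_le_div_of_nonneg_right _ (by positivity)
    push_cast
    linarith
  calc (((V X).filter (fun a => (m : ℤ) ∣ a - t)).card : ℝ) ≤ ((2 * s / m + 1 : ℕ) : ℝ) := by
        exact_mod_cast hcard
    _ = ((2 * s / m : ℕ) : ℝ) + 1 := by push_cast; ring
    _ ≤ _ := by linarith

end Pool.Agent.TB
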