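import Pool.Agent.Lib_MP_f1937f_tb.Quota
import Pool.Agent.Lib_MP_f1937f_tb.Abel
import Pool.Agent.Lib_MP_f1937f_tb.CardV
import Pool.Agent.Lib_MP_f1937f_tb.Cheb

/-!
# Realisation in one dyadic block
-/

set_option autoImplicit false

namespace Pool.Agent.TB

open Finset

/-- the primes of the `i`-th dyadic block -/
def blk (i : ℕ) : Finset ℕ := (Ico (2 ^ i) (2 ^ (i + 1))).filter Nat.Prime

theorem Block_V_mono {p X : ℕ} (h : p ≤ X) : V p ⊆ V X := by
  intro a ha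
  unfold V at ha ⊢
  rw [Finset.mem_Icc] at ha ⊢
  have h1 : (Nat.sqrt (4 * p) : ℤ) ≤ (Nat.sqrt (4 * X) : ℤ) := by
    exact_mod_cast Nat.sqrt_le_sqrt (Nat.mul_le_mul_left 4 h)
  constructor <;> linarith [ha.1, ha.2]

theorem Block_abs_le {p : ℕ} {b : ℤ} (h : b ∈ V p) : |(b : ℝ)| ≤ 2 * √(p : ℝ) := by
  unfold V at h
  rw [Finset.mem_Icc] at h
  have h1 : |b| ≤ (Nat.sqrt (4 * p) : ℤ) := abs_le.2 ⟨by linarith [h.1], h.2⟩
  have h2 : |(b : ℝ)| ≤ (Nat.sqrt (4 * p) : ℝ) := by exact_mod_cast h1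
  refine h2.trans ?_
  have h3 : (Nat.sqrt (4 * p) : ℝ) ≤ √((4 * p : ℕ) : ℝ) := Real.nat_sqrt_le_real_sqrt
  refine h3.trans (le_of_eq ?_)
  push_cast
  rw [Real.sqrt_mul (by norm_num : (0 : ℝ) ≤ 4)]
  congr 1
  rw [show (4 : ℝ) = 2 ^ 2 by norm_num, Real.sqrt_sq (by norm_num)]

theorem Block_blk {i p : ℕ} (h : p ∈ blk i) : 0 < p ∧ p ≤ 2 ^ (i + 1) := by
  unfold blk at h
  rw [Finset.mem_filter, Finset.mem_Ico] at h
  exact ⟨h.2.pos, h.1.2.le⟩

/-- the sum for one value `b` -/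
theorem Block_one (C₀ : ℝ) (hC₀ : 0 ≤ C₀) (k : ℕ)
    (hmaj : ∃ H : ℝ → ℝ, MonotoneOn H (Set.Icc 0 1) ∧
      (∀ y ∈ Set.Icc (0 : ℝ) 1, 0 ≤ H y ∧ H y ≤ C₀ * (k + 1) * Real.log (k + 2)) ∧
      ∀ y ∈ Set.Icc (0 : ℝ) 1, ∀ y' ∈ Set.Icc (0 : ℝ) 1, |Uk k y - Uk k y'| ≤ |H y - H y'|)
    (i : ℕ) (b : ℤ) (d : ℕ → ℝ) (hd0 : ∀ p ∈ blk i, b ∉ V p → d p = 0)
    (hd : ∀ x : ℕ, |∑ p ∈ (blk i).filter (· ≤ x), d p| ≤ 1) (x : ℕ) :
    |∑ p ∈ (blk i).filter (· ≤ x), d p * Uk k (xx p b)| ≤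
      (k + 1) + C₀ * (k + 1) * Real.log (k + 2) := by
  classical
  obtain ⟨H, hmono, hHb, hUH⟩ := hmaj
  obtain ⟨S, hS⟩ : ∃ S, S = (blk i).filter (fun p => b ∈ V p) := ⟨_, rfl⟩
  have hred : ∀ (f : ℕ → ℝ) (x : ℕ), ∑ p ∈ (blk i).filter (· ≤ x), d p * f p =
      ∑ p ∈ S.filter (· ≤ x), d p * f p := by
    intro f x
    symm
    apply Finset.sum_subset
    · intro p hp
      rw [hS] at hp
      simp only [Finset.mem_filter] at hp ⊢
      exact ⟨hp.1.1, hp.2⟩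
    · intro p hp hp'
      rw [hS] at hp'
      simp only [Finset.mem_filter, not_and] at hp hp'
      have : b ∉ V p := fun hb => hp' ⟨hp.1, hb⟩ hp.2
      rw [hd0 p hp.1 this, zero_mul]
  have hlog : 0 ≤ Real.log ((k : ℝ) + 2) := Real.log_nonneg (by
    have : (0 : ℝ) ≤ k := Nat.cast_nonneg k
    linarith)
  have hk : (0 : ℝ) ≤ (k : ℝ) + 1 := by positivity
  -- the absolute value of the normalised trace
  obtain ⟨y, hy⟩ : ∃ y : ℕ → ℝ, y = fun p : ℕ => |(b : ℝ)| / (2 * √(p : ℝ)) := ⟨_, rfl⟩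
  have hpos : ∀ p ∈ S, (0 : ℝ) < 2 * √(p : ℝ) := by
    intro p hp
    rw [hS, Finset.mem_filter] at hp
    have h1 : (0 : ℝ) < p := by exact_mod_cast (Block_blk hp.1).1
    have := Real.sqrt_pos.2 h1
    linarith
  have hyI : ∀ p ∈ S, y p ∈ Set.Icc (0 : ℝ) 1 := by
    intro p hp
    have h1 := hpos p hp
    rw [hS, Finset.mem_filter] at hp
    rw [hy]
    refine ⟨by positivity, ?_⟩
    show |(b : ℝ)| / (2 * √(p : ℝ)) ≤ 1
    rw [div_le_one h1]
    exact Block_abs_le hp.2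
  have hyanti : ∀ p ∈ S, ∀ q ∈ S, p ≤ q → y q ≤ y p := by
    intro p hp q hq hpq
    rw [hy]
    show |(b : ℝ)| / (2 * √(q : ℝ)) ≤ |(b : ℝ)| / (2 * √(p : ℝ))
    apply div_le_div_of_nonneg_left (abs_nonneg _) (hpos p hp)
    have : √(p : ℝ) ≤ √(q : ℝ) := Real.sqrt_le_sqrt (by exact_mod_cast hpq)
    linarith
  obtain ⟨s, hs1, hs⟩ : ∃ s : ℝ, |s| = 1 ∧ ∀ p, Uk k (xx p b) = s * Uk k (y p) := by
    rcases le_or_gt 0 b with hb | hb
    · refine ⟨1, abs_one, fun p => ?_⟩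
      have hb' : (0 : ℝ) ≤ b := by exact_mod_cast hb
      rw [one_mul, hy]
      simp only [xx]
      rw [abs_of_nonneg hb']
    · refine ⟨(-1) ^ k, by rw [abs_pow, abs_neg, abs_one, one_pow], fun p => ?_⟩
      have hb' : (b : ℝ) < 0 := by exact_mod_cast hb
      rw [← Uk_neg, hy]
      simp only [xx]
      rw [abs_of_neg hb', neg_div, neg_neg]
  have key := abel_bv S d (fun p => Uk k (xx p b)) (fun p => H (y p))
    (C₀ * (k + 1) * Real.log (k + 2)) (k + 1) (by positivity) hk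
    (by
      intro z
      have h1 := hred (fun _ => 1) z
      simp only [mul_one] at h1
      rw [← h1]
      exact hd z)
    (by
      intro p hp q hq hpq
      exact hmono (hyI q hq) (hyI p hp) (hyanti p hp q hq hpq))
    (fun p hp => hHb _ (hyI p hp))
    (by
      intro p hp
      show |Uk k (xx p b)| ≤ k + 1
      rw [hs, abs_mul, hs1, one_mul]
      apply Uk_le
      have := hyI p hp
      rw [abs_of_nonneg this.1]
      exact this.2)
    (by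
      intro p hp q hq
      show |Uk k (xx p b) - Uk k (xx q b)| ≤ |H (y p) - H (y q)|
      rw [hs, hs, ← mul_sub, abs_mul, hs1, one_mul]
      exact hUH _ (hyI p hp) _ (hyI q hq)) x
  rw [hred (fun p => Uk k (xx p b)) x]
  exact key

/-- PIECE [TB-K3] (about 150 lines). PROOF. `quota` with `S = blk i`, `A = V (2 ^ (i + 1))` (`V p ⊆ A` for `p ∈ blk i`, and `ρ p` vanishes outside `V p`) gives
`v`. For `b ∉ A` both terms of the second claim vanish. Third claim: the difference is `∑ b ∈ A, m ∣ b - t, ∑ p ∈ S_b, p ≤ x, d p * f p` with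
`S_b = {p ∈ blk i : b ∈ V p}` (for the other `p` both `[v p = b]` and `ρ p b` vanish: `0 < ρ p (v p)` and `supp`), `d p = [v p = b] - ρ p b`,
`f p = Uk k (xx p b)`. `|∑ p ∈ S_b, p ≤ x, d p| ≤ 1` by the second claim. If `b ≥ 0` then `xx p b ∈ [0, 1]` decreases with `p ∈ S_b`; with `H` from
`Uk_major` the function `p ↦ H (xx p b)` is antitone; `abel_bv` with `B' = k + 1` (`Uk_le`), `B = C₀ (k + 1) log (k + 2)`. If `b < 0` use `Uk_neg`
(`xx p b = - xx p (- b)`). Number of the `b`: `card_V_prog`. -/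
theorem block (M : ℕ) (δ : ℕ → ℤ → ℝ) (C₀ : ℝ) (hC₀ : 0 ≤ C₀)
    (hmaj : ∀ k : ℕ, ∃ H : ℝ → ℝ, MonotoneOn H (Set.Icc 0 1) ∧
      (∀ y ∈ Set.Icc (0 : ℝ) 1, 0 ≤ H y ∧ H y ≤ C₀ * (k + 1) * Real.log (k + 2)) ∧
      ∀ y ∈ Set.Icc (0 : ℝ) 1, ∀ y' ∈ Set.Icc (0 : ℝ) 1, |Uk k y - Uk k y'| ≤ |H y - H y'|)
    (C : ℝ) (ρ : ℕ → ℤ → ℝ) (i : ℕ) (h : ∀ p ∈ blk i, GoodLaw M δ C p (ρ p)) :
    ∃ v : ℕ → ℤ, (∀ p ∈ blk i, 0 < ρ p (v p)) ∧
      (∀ (b : ℤ) (x : ℕ), |∑ p ∈ (blk i).filter (· ≤ x), ((if v p = b then (1 : ℝ) else 0) - ρ p b)| ≤ 1) ∧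
      ∀ m : ℕ, 0 < m → ∀ (t : ℤ) (k x : ℕ),
        |∑ p ∈ (blk i).filter (· ≤ x), ((if (m : ℤ) ∣ v p - t then Uk k (xx p (v p)) else 0) -
            ∑ a ∈ (V p).filter (fun a => (m : ℤ) ∣ a - t), ρ p a * Uk k (xx p a))| ≤
          (4 * √((2 : ℝ) ^ (i + 1)) / m + 1) * ((k + 1) + C₀ * (k + 1) * Real.log (k + 2)) := by
  classical
  obtain ⟨A, hA⟩ : ∃ A, A = V (2 ^ (i + 1)) := ⟨_, rfl⟩
  have hVA : ∀ p ∈ blk i, V p ⊆ A := by
    intro p hp
    rw [hA]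
    exact Block_V_mono (Block_blk hp).2
  -- the laws, extended by zero
  obtain ⟨r, hr⟩ : ∃ r : ℕ → ℤ → ℝ, r = fun p a => if p ∈ blk i then ρ p a else 0 := ⟨_, rfl⟩
  have hrp : ∀ p ∈ blk i, ∀ a, r p a = ρ p a := by
    intro p hp a
    rw [hr]
    simp only [if_pos hp]
  have hsum : ∀ p ∈ blk i, ∀ g : ℤ → ℝ, ∀ P : ℤ → Prop, ∀ _ : DecidablePred P,
      ∑ a ∈ (V p).filter P, ρ p a * g a = ∑ a ∈ A.filter P, ρ p a * g a := by
    intro p hp g P _
    apply Finset.sum_subset (Finset.filter_subset_filter _ (hVA p hp))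
    intro a ha ha'
    by_cases h0 : ρ p a = 0
    · rw [h0, zero_mul]
    · exact absurd (Finset.mem_filter.2 ⟨(h p hp).supp a h0, (Finset.mem_filter.1 ha).2⟩) ha'
  obtain ⟨v, hv1, hv2⟩ := quota (blk i) A r
    (by
      intro p a
      rw [hr]
      simp only
      split_ifs with hp
      · exact (h p hp).nonneg a
      · exact le_rfl)
    (by
      intro p hp
      rw [Finset.sum_congr rfl (fun a _ => hrp p hp a), ← (h p hp).total]
      symm
      apply Finset.sum_subset (hVA p hp)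
      intro a _ ha'
      by_contra h0
      exact ha' ((h p hp).supp a h0))
  have hv2' : ∀ (b : ℤ) (x : ℕ),
      |∑ p ∈ (blk i).filter (· ≤ x), ((if v p = b then (1 : ℝ) else 0) - ρ p b)| ≤ 1 := by
    intro b x
    by_cases hb : b ∈ A
    · refine le_of_eq_of_le (congrArg abs (Finset.sum_congr rfl fun p hp => ?_)) (hv2 b hb x)
      rw [hrp p (Finset.mem_filter.1 hp).1]
    · rw [Finset.sum_eq_zero, abs_zero]
      · exact zero_le_one
      · intro p hp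
        have hp1 := (Finset.mem_filter.1 hp).1
        have h1 : v p ≠ b := fun hvb => hb (hvb ▸ (hv1 p hp1).1)
        have h2 : ρ p b = 0 := by
          by_contra h0
          exact hb (hVA p hp1 ((h p hp1).supp b h0))
        rw [if_neg h1, h2, sub_zero]
  have hvpos : ∀ p ∈ blk i, 0 < ρ p (v p) := fun p hp => by
    have := (hv1 p hp).2
    rwa [hrp p hp] at this
  refine ⟨v, hvpos, hv2', ?_⟩
  intro m hm t k x
  have hlog : 0 ≤ Real.log ((k : ℝ) + 2) := Real.log_nonneg (by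
    have : (0 : ℝ) ≤ k := Nat.cast_nonneg k
    linarith)
  -- rewriting as a sum over the values
  have hrew : ∑ p ∈ (blk i).filter (· ≤ x),
      ((if (m : ℤ) ∣ v p - t then Uk k (xx p (v p)) else 0) -
        ∑ a ∈ (V p).filter (fun a => (m : ℤ) ∣ a - t), ρ p a * Uk k (xx p a)) =
      ∑ b ∈ A.filter (fun a => (m : ℤ) ∣ a - t), ∑ p ∈ (blk i).filter (· ≤ x),
        ((if v p = b then (1 : ℝ) else 0) - ρ p b) * Uk k (xx p b) := by
    rw [Finset.sum_comm]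
    refine Finset.sum_congr rfl fun p hp => ?_
    have hp1 := (Finset.mem_filter.1 hp).1
    rw [hsum p hp1 (fun a => Uk k (xx p a)) (fun a => (m : ℤ) ∣ a - t) inferInstance]
    simp only [sub_mul, Finset.sum_sub_distrib]
    congr 1
    simp only [ite_mul, one_mul, zero_mul]
    rw [Finset.sum_ite_eq]
    by_cases hd : (m : ℤ) ∣ v p - t
    · rw [if_pos hd, if_pos (Finset.mem_filter.2 ⟨(hv1 p hp1).1, hd⟩)]
    · have hn : v p ∉ A.filter (fun a => (m : ℤ) ∣ a - t) := fun hmem =>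
        hd (Finset.mem_filter.1 hmem).2
      rw [if_neg hd, if_neg hn]
  rw [hrew]
  have hone : ∀ b : ℤ, |∑ p ∈ (blk i).filter (· ≤ x),
      ((if v p = b then (1 : ℝ) else 0) - ρ p b) * Uk k (xx p b)| ≤
      (k + 1) + C₀ * (k + 1) * Real.log (k + 2) := by
    intro b
    refine Block_one C₀ hC₀ k (hmaj k) i b (fun p => (if v p = b then (1 : ℝ) else 0) - ρ p b)
      ?_ (hv2' b) x
    intro p hp hb
    have h2 : ρ p b = 0 := by
      by_contra h0
      exact hb ((h p hp).supp b h0)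
    have h1 : v p ≠ b := by
      intro hvb
      have := hvpos p hp
      rw [hvb, h2] at this
      exact lt_irrefl _ this
    show (if v p = b then (1 : ℝ) else 0) - ρ p b = 0
    rw [if_neg h1, h2, sub_zero]
  refine (Finset.abs_sum_le_sum_abs _ _).trans ?_
  refine (Finset.sum_le_sum fun b _ => hone b).trans ?_
  rw [Finset.sum_const, nsmul_eq_mul]
  have hcard := card_V_prog (2 ^ (i + 1)) m hm t
  rw [← hA] at hcard
  push_cast at hcard
  exact mul_le_mul_of_nonneg_right hcard (by positivity)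

end Pool.Agent.TB
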