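import Pool.Agent.Lib_MP_f1937f_tb.Cheb

/-!
# A monotone majorant of the variation of the Chebyshev polynomials
-/

set_option autoImplicit false

namespace Pool.Agent.TB

open Finset

/-- the function `φ ↦ U_k (cos φ)` -/
private noncomputable def fk (k : ℕ) (φ : ℝ) : ℝ := Uk k (Real.cos φ)

private theorem fk_rec (k : ℕ) (φ : ℝ) : fk (k + 2) φ = fk k φ + 2 * Real.cos ((k + 2) * φ) := by
  have h := Polynomial.Chebyshev.two_mul_T_eq_U_sub_U ℝ (k : ℤ)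
  have h2 := congrArg (fun p => Polynomial.eval (Real.cos φ) p) h
  have h3 := Polynomial.Chebyshev.T_real_cos φ ((k : ℤ) + 2)
  simp only [Polynomial.eval_mul, Polynomial.eval_sub, Polynomial.eval_ofNat] at h2
  rw [h3] at h2
  unfold fk Uk
  push_cast at h2 ⊢
  linarith

private theorem fk_sin (k : ℕ) (φ : ℝ) : fk k φ * Real.sin φ = Real.sin ((k + 1) * φ) := by
  have h := Polynomial.Chebyshev.U_real_cos φ (k : ℤ)
  unfold fk Uk
  rw [h]
  push_cast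
  rfl

private theorem fk_zero (φ : ℝ) : fk 0 φ = 1 := by
  unfold fk Uk
  simp

private theorem fk_one (φ : ℝ) : fk 1 φ = 2 * Real.cos φ := by
  unfold fk Uk
  simp

private theorem fk_diff (k : ℕ) : Differentiable ℝ (fk k) := by
  unfold fk Uk
  exact (Polynomial.differentiable _).comp Real.differentiable_cos

private theorem fk_bd (k : ℕ) : ∀ φ : ℝ, |fk k φ| ≤ k + 1 ∧ |deriv (fk k) φ| ≤ ((k : ℝ) + 1) ^ 2 := by
  induction k using Nat.twoStepInduction with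
  | zero =>
    intro φ
    have h : fk 0 = fun _ => (1 : ℝ) := funext fk_zero
    rw [h]
    simp
  | one =>
    intro φ
    have h : fk 1 = fun φ => 2 * Real.cos φ := funext fk_one
    rw [h]
    constructor
    · rw [abs_mul, abs_of_pos (by norm_num : (0 : ℝ) < 2)]
      have := Real.abs_cos_le_one φ
      push_cast
      linarith
    · have hd : HasDerivAt (fun φ => 2 * Real.cos φ) (2 * (-Real.sin φ)) φ :=
        (Real.hasDerivAt_cos φ).const_mul 2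
      rw [hd.deriv, abs_mul, abs_neg, abs_of_pos (by norm_num : (0 : ℝ) < 2)]
      have := Real.abs_sin_le_one φ
      push_cast
      linarith
  | more n ih _ =>
    intro φ
    obtain ⟨h1, h2⟩ := ih φ
    have hn : (0 : ℝ) ≤ (n : ℝ) := Nat.cast_nonneg n
    have h : fk (n + 2) = fun φ => fk n φ + 2 * Real.cos ((n + 2) * φ) := funext (fk_rec n)
    constructor
    · rw [fk_rec]
      have h3 := Real.abs_cos_le_one (((n : ℝ) + 2) * φ)
      calc |fk n φ + 2 * Real.cos ((n + 2) * φ)| ≤ |fk n φ| + |2 * Real.cos ((n + 2) * φ)| := abs_add_le _ _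
        _ = |fk n φ| + 2 * |Real.cos ((n + 2) * φ)| := by
          rw [abs_mul, abs_of_pos (by norm_num : (0 : ℝ) < 2)]
        _ ≤ ((n + 2 : ℕ) : ℝ) + 1 := by push_cast; linarith
    · have hd : HasDerivAt (fun φ => fk n φ + 2 * Real.cos ((n + 2) * φ))
          (deriv (fk n) φ + 2 * (-Real.sin ((n + 2) * φ) * (n + 2))) φ := by
        have e1 : HasDerivAt (fun φ : ℝ => ((n : ℝ) + 2) * φ) ((n : ℝ) + 2) φ := by
          simpa using (hasDerivAt_id φ).const_mul ((n : ℝ) + 2)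
        exact ((fk_diff n) φ).hasDerivAt.add ((e1.cos).const_mul 2)
      rw [h, hd.deriv]
      have h3 := Real.abs_sin_le_one (((n : ℝ) + 2) * φ)
      calc |deriv (fk n) φ + 2 * (-Real.sin ((n + 2) * φ) * (n + 2))|
          ≤ |deriv (fk n) φ| + |2 * (-Real.sin ((n + 2) * φ) * (n + 2))| := abs_add_le _ _
        _ = |deriv (fk n) φ| + 2 * (|Real.sin ((n + 2) * φ)| * (n + 2)) := by
          rw [abs_mul, abs_mul, abs_neg, abs_of_pos (by norm_num : (0 : ℝ) < 2),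
            abs_of_pos (by linarith : (0 : ℝ) < (n : ℝ) + 2)]
        _ ≤ ((n : ℝ) + 1) ^ 2 + 2 * (1 * (n + 2)) := by
          gcongr
        _ ≤ (((n + 2 : ℕ) : ℝ) + 1) ^ 2 := by push_cast; nlinarith

/-- derivative of `fk k φ * sin φ = sin ((k + 1) φ)` -/
private theorem fk_deriv_sin (k : ℕ) (φ : ℝ) :
    |deriv (fk k) φ| * |Real.sin φ| ≤ 2 * ((k : ℝ) + 1) := by
  have hk : (0 : ℝ) ≤ (k : ℝ) := Nat.cast_nonneg k
  have h : (fun φ => fk k φ * Real.sin φ) = fun φ => Real.sin (((k : ℝ) + 1) * φ) := funext (fk_sin k)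
  have d1 : HasDerivAt (fun φ => fk k φ * Real.sin φ)
      (deriv (fk k) φ * Real.sin φ + fk k φ * Real.cos φ) φ :=
    ((fk_diff k) φ).hasDerivAt.mul (Real.hasDerivAt_sin φ)
  have e1 : HasDerivAt (fun φ : ℝ => ((k : ℝ) + 1) * φ) ((k : ℝ) + 1) φ := by
    simpa using (hasDerivAt_id φ).const_mul ((k : ℝ) + 1)
  have d2 : HasDerivAt (fun φ => Real.sin (((k : ℝ) + 1) * φ))
      (Real.cos (((k : ℝ) + 1) * φ) * ((k : ℝ) + 1)) φ := e1.sin
  rw [h] at d1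
  have e := d1.unique d2
  have e2 : deriv (fk k) φ * Real.sin φ = Real.cos (((k : ℝ) + 1) * φ) * ((k : ℝ) + 1) - fk k φ * Real.cos φ := by
    linarith
  rw [← abs_mul, e2]
  have h1 := (fk_bd k φ).1
  have h2 := Real.abs_cos_le_one (((k : ℝ) + 1) * φ)
  have h3 := Real.abs_cos_le_one φ
  calc |Real.cos (((k : ℝ) + 1) * φ) * ((k : ℝ) + 1) - fk k φ * Real.cos φ|
      ≤ |Real.cos (((k : ℝ) + 1) * φ) * ((k : ℝ) + 1)| + |fk k φ * Real.cos φ| := abs_sub _ _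
    _ = |Real.cos (((k : ℝ) + 1) * φ)| * ((k : ℝ) + 1) + |fk k φ| * |Real.cos φ| := by
      rw [abs_mul, abs_mul, abs_of_pos (by linarith : (0 : ℝ) < (k : ℝ) + 1)]
    _ ≤ 1 * ((k : ℝ) + 1) + ((k : ℝ) + 1) * 1 := by gcongr
    _ = 2 * ((k : ℝ) + 1) := by ring

private theorem fk_deriv_le (k : ℕ) {φ : ℝ} (h0 : 0 ≤ φ) (h1 : φ ≤ Real.pi / 2) :
    |deriv (fk k) φ| ≤ 7 * ((k : ℝ) + 1) * (((k : ℝ) + 1) / (1 + ((k : ℝ) + 1) * φ)) := by
  have hk : (0 : ℝ) ≤ (k : ℝ) := Nat.cast_nonneg k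
  have hpos : 0 < 1 + ((k : ℝ) + 1) * φ := by positivity
  have hs := Real.mul_le_sin h0 h1
  have hpi := Real.pi_pos
  have hpi4 := Real.pi_le_four
  have a1 := (fk_bd k φ).2
  have a2 := fk_deriv_sin k φ
  have hsn : 0 ≤ Real.sin φ := Real.sin_nonneg_of_nonneg_of_le_pi h0 (by linarith)
  rw [abs_of_nonneg hsn] at a2
  have a3 : |deriv (fk k) φ| * (2 / Real.pi * φ) ≤ 2 * ((k : ℝ) + 1) :=
    (mul_le_mul_of_nonneg_left hs (abs_nonneg _)).trans a2
  have a4 : |deriv (fk k) φ| * φ ≤ Real.pi * ((k : ℝ) + 1) := by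
    have : |deriv (fk k) φ| * φ = Real.pi / 2 * (|deriv (fk k) φ| * (2 / Real.pi * φ)) := by
      field_simp
    rw [this]
    calc Real.pi / 2 * (|deriv (fk k) φ| * (2 / Real.pi * φ)) ≤ Real.pi / 2 * (2 * ((k : ℝ) + 1)) := by gcongr
      _ = Real.pi * ((k : ℝ) + 1) := by ring
  have a5 : |deriv (fk k) φ| * φ ≤ 4 * ((k : ℝ) + 1) :=
    a4.trans (by gcongr)
  rw [← mul_div_assoc, le_div_iff₀ hpos]
  have a6 : ((k : ℝ) + 1) * (|deriv (fk k) φ| * φ) ≤ ((k : ℝ) + 1) * (4 * ((k : ℝ) + 1)) := by gcongr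
  nlinarith

private noncomputable def Ek (k : ℕ) (φ : ℝ) : ℝ := 7 * ((k : ℝ) + 1) * Real.log (1 + ((k : ℝ) + 1) * φ)

private theorem Ek_hasDeriv (k : ℕ) {φ : ℝ} (h0 : 0 ≤ φ) :
    HasDerivAt (Ek k) (7 * ((k : ℝ) + 1) * (((k : ℝ) + 1) / (1 + ((k : ℝ) + 1) * φ))) φ := by
  have hpos : 0 < 1 + ((k : ℝ) + 1) * φ := by positivity
  have e1 : HasDerivAt (fun φ : ℝ => 1 + ((k : ℝ) + 1) * φ) ((k : ℝ) + 1) φ := by
    simpa using ((hasDerivAt_id φ).const_mul ((k : ℝ) + 1)).const_add 1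
  exact (e1.log hpos.ne').const_mul _

private theorem Ek_mono (k : ℕ) : MonotoneOn (Ek k) (Set.Ici 0) := by
  intro a ha b hb hab
  have ha' : 0 ≤ a := ha
  unfold Ek
  have h1 : 0 < 1 + ((k : ℝ) + 1) * a := by positivity
  have h2 : 1 + ((k : ℝ) + 1) * a ≤ 1 + ((k : ℝ) + 1) * b := by gcongr
  exact mul_le_mul_of_nonneg_left (Real.log_le_log h1 h2) (by positivity)

private theorem Ek_add (k : ℕ) (c : ℝ) (hc : |c| ≤ 1) :
    MonotoneOn (fun φ => Ek k φ + c * fk k φ) (Set.Icc 0 (Real.pi / 2)) := by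
  have hd : ∀ φ : ℝ, 0 ≤ φ → HasDerivAt (fun φ => Ek k φ + c * fk k φ)
      (7 * ((k : ℝ) + 1) * (((k : ℝ) + 1) / (1 + ((k : ℝ) + 1) * φ)) + c * deriv (fk k) φ) φ :=
    fun φ h0 => (Ek_hasDeriv k h0).add (((fk_diff k) φ).hasDerivAt.const_mul c)
  refine monotoneOn_of_deriv_nonneg (convex_Icc _ _) ?_ ?_ ?_
  · intro φ hφ
    exact (hd φ hφ.1).continuousAt.continuousWithinAt
  · intro φ hφ
    rw [interior_Icc] at hφ
    exact (hd φ hφ.1.le).differentiableAt.differentiableWithinAt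
  · intro φ hφ
    rw [interior_Icc] at hφ
    rw [(hd φ hφ.1.le).deriv]
    have h1 := fk_deriv_le k hφ.1.le hφ.2.le
    have h2 : |c * deriv (fk k) φ| ≤ |deriv (fk k) φ| := by
      rw [abs_mul]
      exact mul_le_of_le_one_left (abs_nonneg _) hc
    have h3 := neg_abs_le (c * deriv (fk k) φ)
    linarith

private theorem fk_sub_le (k : ℕ) {a b : ℝ} (ha : 0 ≤ a) (hab : a ≤ b) (hb : b ≤ Real.pi / 2) :
    |fk k a - fk k b| ≤ Ek k b - Ek k a := by
  have ha' : a ∈ Set.Icc 0 (Real.pi / 2) := ⟨ha, hab.trans hb⟩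
  have hb' : b ∈ Set.Icc 0 (Real.pi / 2) := ⟨ha.trans hab, hb⟩
  have h1 := Ek_add k 1 (by simp) ha' hb' hab
  have h2 := Ek_add k (-1) (by simp) ha' hb' hab
  simp only at h1 h2
  rw [abs_le]
  constructor <;> linarith

/-- PIECE [TB-D2] (about 120 lines). The total variation of `U_k` on `[0, 1]` is `≤ C (k + 1) log (k + 2)`.
PROOF. For `φ ∈ [0, π / 2]` put `f φ = Uk k (cos φ)`. (i) `f φ = ∑_{j ≤ k} cos ((k - 2 j) φ)` (multiply by `sin φ`, or induction), so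
`|f'| ≤ ∑ |k - 2 j| ≤ (k + 1) ^ 2`. (ii) For `φ > 0`, `f φ = sin ((k + 1) φ) / sin φ` and
`|f' φ| ≤ (k + 1) / sin φ + |sin ((k + 1) φ)| / sin φ ^ 2 ≤ 2 (k + 1) / sin φ ≤ π (k + 1) / φ` (`|sin ((k + 1) φ)| ≤ (k + 1) sin φ`,
`sin φ ≥ 2 φ / π`). Hence `|f' φ| ≤ 7 (k + 1) ^ 2 / (1 + (k + 1) φ)`: if `(k + 1) φ ≤ 1` by (i), otherwise by (ii) (`7 / 2 ≥ π`).
So for `0 ≤ φ ≤ φ' ≤ π / 2`, `|f φ' - f φ| ≤ E φ' - E φ` with `E φ = 7 (k + 1) log (1 + (k + 1) φ)` (both `E ± f` are monotone,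
`monotoneOn_of_deriv_nonneg`). Put `H y = E (π / 2) - E (arccos y)`. It is monotone on `[0, 1]`, `0 ≤ H ≤ E (π / 2)` and
`E (π / 2) ≤ 7 (k + 1) log (1 + 2 (k + 1)) ≤ 14 (k + 1) log (k + 2)` (`2 k + 3 ≤ (k + 2) ^ 2`). -/
theorem Uk_major : ∃ C : ℝ, 0 ≤ C ∧ ∀ k : ℕ, ∃ H : ℝ → ℝ, MonotoneOn H (Set.Icc 0 1) ∧
    (∀ y ∈ Set.Icc (0 : ℝ) 1, 0 ≤ H y ∧ H y ≤ C * (k + 1) * Real.log (k + 2)) ∧
    ∀ y ∈ Set.Icc (0 : ℝ) 1, ∀ y' ∈ Set.Icc (0 : ℝ) 1, |Uk k y - Uk k y'| ≤ |H y - H y'| := by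
  refine ⟨14, by norm_num, fun k => ?_⟩
  have hk : (0 : ℝ) ≤ (k : ℝ) := Nat.cast_nonneg k
  have hpi := Real.pi_pos
  have hac : ∀ y ∈ Set.Icc (0 : ℝ) 1, 0 ≤ Real.arccos y ∧ Real.arccos y ≤ Real.pi / 2 := fun y hy =>
    ⟨Real.arccos_nonneg y, Real.arccos_le_pi_div_two.2 hy.1⟩
  have hmono : MonotoneOn (fun y => Ek k (Real.pi / 2) - Ek k (Real.arccos y)) (Set.Icc 0 1) := by
    intro a ha b hb hab
    have h1 : Real.arccos b ≤ Real.arccos a := Real.antitone_arccos hab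
    have h2 := Ek_mono k (Set.mem_Ici.2 (hac b hb).1) (Set.mem_Ici.2 (hac a ha).1) h1
    simp only
    linarith
  have hEnn : ∀ φ : ℝ, 0 ≤ φ → 0 ≤ Ek k φ := by
    intro φ h0
    unfold Ek
    have h1 : 1 ≤ 1 + ((k : ℝ) + 1) * φ := by
      have : 0 ≤ ((k : ℝ) + 1) * φ := by positivity
      linarith
    exact mul_nonneg (by positivity) (Real.log_nonneg h1)
  have hE : Ek k (Real.pi / 2) ≤ 14 * ((k : ℝ) + 1) * Real.log (k + 2) := by
    unfold Ek
    have hpi4 := Real.pi_le_four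
    have h1 : 1 + ((k : ℝ) + 1) * (Real.pi / 2) ≤ ((k : ℝ) + 2) ^ 2 := by
      have : ((k : ℝ) + 1) * (Real.pi / 2) ≤ ((k : ℝ) + 1) * 2 := by
        gcongr
        linarith
      nlinarith
    have h2 : Real.log (1 + ((k : ℝ) + 1) * (Real.pi / 2)) ≤ 2 * Real.log (k + 2) := by
      have h3 := Real.log_le_log (by positivity) h1
      rw [Real.log_pow] at h3
      exact_mod_cast h3
    calc 7 * ((k : ℝ) + 1) * Real.log (1 + ((k : ℝ) + 1) * (Real.pi / 2))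
        ≤ 7 * ((k : ℝ) + 1) * (2 * Real.log (k + 2)) := by gcongr
      _ = 14 * ((k : ℝ) + 1) * Real.log (k + 2) := by ring
  refine ⟨fun y => Ek k (Real.pi / 2) - Ek k (Real.arccos y), hmono, ?_, ?_⟩
  · intro y hy
    have h1 := Ek_mono k (Set.mem_Ici.2 (hac y hy).1) (Set.mem_Ici.2 (by positivity : 0 ≤ Real.pi / 2))
      (hac y hy).2
    have h2 := hEnn _ (hac y hy).1
    exact ⟨by simp only; linarith, by simp only; linarith⟩
  · have key : ∀ y ∈ Set.Icc (0 : ℝ) 1, ∀ y' ∈ Set.Icc (0 : ℝ) 1, y ≤ y' →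
        |Uk k y - Uk k y'| ≤
          |(Ek k (Real.pi / 2) - Ek k (Real.arccos y)) - (Ek k (Real.pi / 2) - Ek k (Real.arccos y'))| := by
      intro y hy y' hy' hle
      have h1 : Real.arccos y' ≤ Real.arccos y := Real.antitone_arccos hle
      have h2 := fk_sub_le k (hac y' hy').1 h1 (hac y hy).2
      unfold fk at h2
      rw [Real.cos_arccos (by linarith [hy.1]) hy.2, Real.cos_arccos (by linarith [hy'.1]) hy'.2] at h2
      rw [abs_sub_comm]
      refine h2.trans ?_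
      rw [abs_sub_comm]
      refine le_trans ?_ (le_abs_self _)
      linarith
    intro y hy y' hy'
    rcases le_total y y' with h | h
    · exact key y hy y' hy' h
    · rw [abs_sub_comm, abs_sub_comm (Ek k (Real.pi / 2) - Ek k (Real.arccos y))]
      exact key y' hy' y hy h

end Pool.Agent.TB
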