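import Pool.Agent.Lib_MP_f1937f_tb.Defs

/-!
# Sum of log p / sqrt p
-/

set_option autoImplicit false

namespace Pool.Agent.TB

open Finset

/-- `log n` at the primes -/
private noncomputable def SLa (n : ℕ) : ℝ := if n.Prime then Real.log n else 0

/-- the gap in Chebyshev's bound -/
private noncomputable def SLA (x : ℕ) : ℝ :=
  Real.log 4 * x - ∑ n ∈ range (x + 1), SLa n

private theorem SL_gap (x : ℕ) : 0 ≤ SLA x := by
  have h1 := Chebyshev.theta_le_log4_mul_x (Nat.cast_nonneg (α := ℝ) x)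
  rw [Chebyshev.theta_eq_sum_Icc, Nat.floor_natCast] at h1
  have h2 : ∑ n ∈ range (x + 1), SLa n = ∑ p ∈ Icc 0 x with p.Prime, Real.log p := by
    rw [Finset.sum_filter]
    refine Finset.sum_congr ?_ fun n _ => rfl
    ext n
    simp only [mem_range, mem_Icc]
    omega
  unfold SLA
  rw [h2]
  linarith

private theorem SL_step (x : ℕ) : SLA (x + 1) - SLA x = Real.log 4 - SLa (x + 1) := by
  unfold SLA
  rw [Finset.sum_range_succ _ (x + 1)]
  push_cast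
  ring

private theorem SL_abel (x : ℕ) :
    SLA (x + 1) * (1 / √((x + 1 : ℕ) : ℝ)) ≤
      ∑ n ∈ range (x + 1), (Real.log 4 - SLa (n + 1)) * (1 / √((n + 1 : ℕ) : ℝ)) := by
  induction x with
  | zero =>
    have h1 : SLA 0 = 0 := by
      unfold SLA SLa
      simp
    have h2 := SL_step 0
    rw [h1, sub_zero] at h2
    rw [Finset.sum_range_one, zero_add, h2]
  | succ x ih =>
    rw [Finset.sum_range_succ]
    have h1 : 1 / √((x + 1 + 1 : ℕ) : ℝ) ≤ 1 / √((x + 1 : ℕ) : ℝ) := by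
      have h2 : (0 : ℝ) < ((x + 1 : ℕ) : ℝ) := by positivity
      refine one_div_le_one_div_of_le (Real.sqrt_pos.2 h2) (Real.sqrt_le_sqrt ?_)
      push_cast
      linarith
    have h3 := mul_le_mul_of_nonneg_left h1 (SL_gap (x + 1))
    have h4 := SL_step (x + 1)
    have h5 : SLA (x + 1 + 1) = SLA (x + 1) + (Real.log 4 - SLa (x + 1 + 1)) := by linarith
    rw [h5, add_mul]
    linarith

private theorem SL_sqrt (x : ℕ) : ∑ n ∈ range x, (1 / √((n + 1 : ℕ) : ℝ)) ≤ 2 * √(x : ℝ) := by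
  induction x with
  | zero => simp
  | succ x ih =>
    rw [Finset.sum_range_succ]
    have hx : (0 : ℝ) ≤ x := Nat.cast_nonneg x
    have h1 : (0 : ℝ) < ((x + 1 : ℕ) : ℝ) := by positivity
    have h2 : 0 < √((x + 1 : ℕ) : ℝ) := Real.sqrt_pos.2 h1
    have h3 : √((x + 1 : ℕ) : ℝ) * √((x + 1 : ℕ) : ℝ) = x + 1 := by
      rw [Real.mul_self_sqrt h1.le]
      push_cast
      ring
    have h4 : √(x : ℝ) * √(x : ℝ) = x := Real.mul_self_sqrt hx
    have h5 : 2 * √(x : ℝ) * √((x + 1 : ℕ) : ℝ) ≤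
        √(x : ℝ) * √(x : ℝ) + √((x + 1 : ℕ) : ℝ) * √((x + 1 : ℕ) : ℝ) := by
      nlinarith [sq_nonneg (√(x : ℝ) - √((x + 1 : ℕ) : ℝ))]
    have h6 : 1 / √((x + 1 : ℕ) : ℝ) ≤ 2 * √((x + 1 : ℕ) : ℝ) - 2 * √(x : ℝ) := by
      rw [div_le_iff₀ h2]
      nlinarith
    linarith

/-- PIECE [TB-J1] (about 80 lines). PROOF. `log p / √p ≤ 2 ^ (- i / 2) log p` for `2 ^ i ≤ p < 2 ^ (i + 1)`, and
`∑ p < 2 ^ (i + 1), log p ≤ log 4 * 2 ^ (i + 1)` (`Chebyshev.theta_le_log4_mul_x`); geometric series over `i ≤ log₂ x`. (Or Abel summation.) -/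
theorem sum_log_div_sqrt : ∃ C : ℝ, 0 ≤ C ∧ ∀ x : ℕ, 1 ≤ x →
    ∑ p ∈ (range (x + 1)).filter Nat.Prime, Real.log p / √(p : ℝ) ≤ C * √(x : ℝ) := by
  have h4 : 0 ≤ Real.log 4 := Real.log_nonneg (by norm_num)
  refine ⟨2 * Real.log 4, by positivity, fun x hx => ?_⟩
  obtain ⟨y, rfl⟩ : ∃ y, x = y + 1 := ⟨x - 1, by omega⟩
  have h1 := SL_abel y
  have h2 : 0 ≤ SLA (y + 1) * (1 / √((y + 1 : ℕ) : ℝ)) :=
    mul_nonneg (SL_gap _) (by positivity)
  have h3 := SL_sqrt (y + 1)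
  have h5 : ∑ p ∈ (range (y + 1 + 1)).filter Nat.Prime, Real.log p / √(p : ℝ) =
      ∑ n ∈ range (y + 1), SLa (n + 1) * (1 / √((n + 1 : ℕ) : ℝ)) := by
    rw [Finset.sum_filter, Finset.sum_range_succ']
    have h6 : (if Nat.Prime 0 then Real.log ((0 : ℕ) : ℝ) / √((0 : ℕ) : ℝ) else 0) = 0 :=
      if_neg Nat.not_prime_zero
    rw [h6, add_zero]
    refine Finset.sum_congr rfl fun n _ => ?_
    unfold SLa
    split_ifs
    · ring
    · ring
  have h7 : ∑ n ∈ range (y + 1), (Real.log 4 - SLa (n + 1)) * (1 / √((n + 1 : ℕ) : ℝ)) =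
      Real.log 4 * ∑ n ∈ range (y + 1), (1 / √((n + 1 : ℕ) : ℝ)) -
        ∑ n ∈ range (y + 1), SLa (n + 1) * (1 / √((n + 1 : ℕ) : ℝ)) := by
    rw [Finset.mul_sum, ← Finset.sum_sub_distrib]
    exact Finset.sum_congr rfl fun n _ => by ring
  have h8 := mul_le_mul_of_nonneg_left h3 h4
  rw [h5]
  linarith

end Pool.Agent.TB
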