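import Pool.Agent.Lib_MP_f1937f_tb.Block
import Pool.Agent.Lib_MP_f1937f_tb.ChebMajor
import Pool.Agent.Lib_MP_f1937f_tb.SumLog

/-!
# Realisation of laws by a sequence
-/

set_option autoImplicit false

namespace Pool.Agent.TB

open Finset

private lemma K4_sum (f : ℕ → ℝ) (x : ℕ) :
    ∑ p ∈ (range (x + 1)).filter Nat.Prime, f p =
      ∑ i ∈ range (Nat.log 2 x + 1), ∑ p ∈ (blk i).filter (· ≤ x), f p := by
  classical
  rw [← Finset.sum_fiberwise_of_maps_to (g := fun p => Nat.log 2 p)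
    (t := range (Nat.log 2 x + 1))]
  · refine Finset.sum_congr rfl fun i _ => ?_
    refine Finset.sum_congr ?_ fun _ _ => rfl
    ext p
    simp only [mem_filter, mem_range, blk, mem_Ico]
    constructor
    · rintro ⟨⟨h1, h2⟩, h3⟩
      have h4 := (Nat.log_eq_iff (b := 2) (m := i) (n := p) (Or.inr ⟨one_lt_two, h2.ne_zero⟩)).1 h3
      exact ⟨⟨h4, h2⟩, by omega⟩
    · rintro ⟨⟨h1, h2⟩, h3⟩
      exact ⟨⟨by omega, h2⟩,
        (Nat.log_eq_iff (b := 2) (m := i) (n := p) (Or.inr ⟨one_lt_two, h2.ne_zero⟩)).2 h1⟩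
  · intro p hp
    simp only [mem_filter, mem_range] at hp ⊢
    have := Nat.log_mono_right (b := 2) (show p ≤ x by omega)
    omega

private lemma K4_geom (n : ℕ) :
    ∑ i ∈ range (n + 1), √((2 : ℝ) ^ (i + 1)) ≤ 5 * √((2 : ℝ) ^ n) := by
  have hs : √(2 : ℝ) * √(2 : ℝ) = 2 := Real.mul_self_sqrt (by norm_num)
  have hs0 : 0 ≤ √(2 : ℝ) := Real.sqrt_nonneg 2
  induction n with
  | zero =>
    simp only [zero_add, sum_range_one, pow_one, pow_zero, Real.sqrt_one, mul_one]
    nlinarith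
  | succ n ih =>
    rw [Finset.sum_range_succ]
    have e1 : √((2 : ℝ) ^ (n + 1 + 1)) = 2 * √((2 : ℝ) ^ n) := by
      rw [pow_succ, pow_succ, mul_assoc, Real.sqrt_mul (by positivity)]
      rw [show (2 : ℝ) * 2 = 2 ^ 2 by norm_num, Real.sqrt_sq (by norm_num)]
      ring
    have e2 : √((2 : ℝ) ^ (n + 1)) = √2 * √((2 : ℝ) ^ n) := by
      rw [pow_succ, Real.sqrt_mul (by positivity)]
      ring
    have h0 : 0 ≤ √((2 : ℝ) ^ n) := Real.sqrt_nonneg _
    have h1 : (7 : ℝ) ≤ 5 * √2 := by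
      have : (1.4 : ℝ) ≤ √2 := Real.le_sqrt_of_sq_le (by norm_num)
      linarith
    rw [e1, e2]
    nlinarith [mul_le_mul_of_nonneg_right h1 h0]

/-- PIECE [TB-K4] (about 150 lines). PROOF. Choose `v_i` for every `i` by `block` (`Uk_major` gives `C₀`) and put `a p = v_i p` for `p ∈ blk i` (`i = Nat.log 2 p`). Every
sum over the primes `p ≤ x` is the sum over `i ≤ Nat.log 2 x` of the sums over `(blk i).filter (· ≤ x)`. Counts: at most `Nat.log 2 x + 1` blocks,
error `≤ 1` each. `Info`: the difference is at most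
`∑ i ≤ log₂ x, (4 √(2 ^ (i + 1)) / m + 1) C₁ (k + 1) log (k + 2) + ∑ p ≤ x, C (m √m) (k + 1) log p / √p` (by `equi`, summed over `p`; note
`∑ p ≤ x, [k = 0] δ m t = [k = 0] δ m t * π x`), with `(k + 1) ≤ (1 / log 2) (k + 1) log (k + 2)`. The first sum is at most
`C₂ √x (k + 1) log (k + 2)` (geometric, `2 ^ (i + 1) ≤ 2 x`, and the number of `i` is `≤ C √x`), the second one by `sum_log_div_sqrt`. The factor
`log (m x) ^ (0 : ℝ)` is `1`. -/
theorem realize (M : ℕ) (δ : ℕ → ℤ → ℝ) (C : ℝ) (hC : 0 ≤ C) (ρ : ℕ → ℤ → ℝ)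
    (h : ∀ p : ℕ, p.Prime → GoodLaw M δ C p (ρ p)) :
    ∃ a : ℕ → ℤ, (∀ p : ℕ, p.Prime → 0 < ρ p (a p)) ∧ Info M δ a 0 ∧
      ∀ (b : ℤ) (x : ℕ), 1 ≤ x → |((((range (x + 1)).filter Nat.Prime).filter (fun p => a p = b)).card : ℝ) -
        ∑ p ∈ (range (x + 1)).filter Nat.Prime, ρ p b| ≤ Nat.log 2 x + 1 := by
  classical
  obtain ⟨C₀, hC₀, hmaj⟩ := Uk_major
  obtain ⟨C₃, hC₃, hlog⟩ := sum_log_div_sqrt
  have hblk : ∀ i : ℕ, ∀ p ∈ blk i, GoodLaw M δ C p (ρ p) := by
    intro i p hp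
    simp only [blk, mem_filter] at hp
    exact h p hp.2
  choose v hv1 hv2 hv3 using fun i => block M δ C₀ hC₀ hmaj C ρ i (hblk i)
  have hmem : ∀ p : ℕ, p.Prime → p ∈ blk (Nat.log 2 p) := by
    intro p hp
    simp only [blk, mem_filter, mem_Ico]
    exact ⟨⟨Nat.pow_log_le_self 2 hp.ne_zero, Nat.lt_pow_succ_log_self one_lt_two p⟩, hp⟩
  have hlogp : ∀ i : ℕ, ∀ p ∈ blk i, Nat.log 2 p = i := by
    intro i p hp
    simp only [blk, mem_filter, mem_Ico] at hp
    exact (Nat.log_eq_iff (b := 2) (m := i) (n := p) (Or.inr ⟨one_lt_two, hp.2.ne_zero⟩)).2 hp.1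
  refine ⟨fun p => v (Nat.log 2 p) p, ?_, ?_, ?_⟩
  · intro p hp
    exact hv1 _ p (hmem p hp)
  · -- information
    have hlog2 : 0 < Real.log 2 := Real.log_pos one_lt_two
    refine ⟨25 * (1 / Real.log 2 + C₀) + C * C₃ / Real.log 2, ?_⟩
    intro m hm hMm t k x hx
    rw [Real.rpow_zero, mul_one]
    obtain ⟨f, hf⟩ : ∃ f : ℕ → ℝ, f = fun p => if (m : ℤ) ∣ v (Nat.log 2 p) p - t then
      Uk k (xx p (v (Nat.log 2 p) p)) else 0 := ⟨_, rfl⟩
    obtain ⟨g, hg⟩ : ∃ g : ℕ → ℝ, g = fun p =>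
      ∑ a ∈ (V p).filter (fun a => (m : ℤ) ∣ a - t), ρ p a * Uk k (xx p a) := ⟨_, rfl⟩
    obtain ⟨D, hD⟩ : ∃ D : ℝ, D = if k = 0 then δ m t else 0 := ⟨_, rfl⟩
    have hpi : ((Nat.primeCounting x : ℕ) : ℝ) = (((range (x + 1)).filter Nat.Prime).card : ℝ) := by
      rw [Nat.primeCounting, Nat.primeCounting', Nat.count_eq_card_filter_range]
    have e1 : ∑ p ∈ ((range (x + 1)).filter Nat.Prime).filter
        (fun p => (m : ℤ) ∣ v (Nat.log 2 p) p - t), Uk k (xx p (v (Nat.log 2 p) p)) -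
        (if k = 0 then δ m t else 0) * (Nat.primeCounting x : ℝ) =
        ∑ p ∈ (range (x + 1)).filter Nat.Prime, (f p - g p) +
        ∑ p ∈ (range (x + 1)).filter Nat.Prime, (g p - D) := by
      rw [Finset.sum_filter, ← hD, hpi, Finset.sum_sub_distrib, Finset.sum_sub_distrib,
        Finset.sum_const, nsmul_eq_mul, hf]
      ring
    have hW : 0 ≤ ((k : ℝ) + 1) * Real.log (k + 2) :=
      mul_nonneg (by positivity) (Real.log_nonneg (by linarith [Nat.cast_nonneg (α := ℝ) k]))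
    have hk : ((k : ℝ) + 1) ≤ 1 / Real.log 2 * (((k : ℝ) + 1) * Real.log (k + 2)) := by
      have h1 : Real.log 2 ≤ Real.log (k + 2) :=
        Real.log_le_log two_pos (by linarith [Nat.cast_nonneg (α := ℝ) k])
      have h2 : ((k : ℝ) + 1) * Real.log 2 ≤ ((k : ℝ) + 1) * Real.log (k + 2) :=
        mul_le_mul_of_nonneg_left h1 (by positivity)
      rw [one_div, ← div_eq_inv_mul, le_div_iff₀ hlog2]
      exact h2
    have hx0 : x ≠ 0 := by omega
    have hmR : (1 : ℝ) ≤ m := by exact_mod_cast hm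
    have hmm : (1 : ℝ) ≤ m * √(m : ℝ) := by
      have : (1 : ℝ) ≤ √(m : ℝ) := Real.one_le_sqrt.2 hmR
      nlinarith
    have hsx : 0 ≤ √(x : ℝ) := Real.sqrt_nonneg _
    -- first sum
    have h1 : |∑ p ∈ (range (x + 1)).filter Nat.Prime, (f p - g p)| ≤
        25 * √(x : ℝ) * ((1 / Real.log 2 + C₀) * (((k : ℝ) + 1) * Real.log (k + 2))) := by
      rw [K4_sum]
      refine (Finset.abs_sum_le_sum_abs _ _).trans ?_
      have hi : ∀ i ∈ range (Nat.log 2 x + 1), |∑ p ∈ (blk i).filter (· ≤ x), (f p - g p)| ≤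
          (5 * √((2 : ℝ) ^ (i + 1))) *
            ((1 / Real.log 2 + C₀) * (((k : ℝ) + 1) * Real.log (k + 2))) := by
        intro i _
        have h2 := hv3 i m hm t k x
        have h3 : ∑ p ∈ (blk i).filter (· ≤ x), (f p - g p) =
            ∑ p ∈ (blk i).filter (· ≤ x), ((if (m : ℤ) ∣ v i p - t then Uk k (xx p (v i p)) else 0) -
            ∑ a ∈ (V p).filter (fun a => (m : ℤ) ∣ a - t), ρ p a * Uk k (xx p a)) := by
          refine Finset.sum_congr rfl fun p hp => ?_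
          rw [hf, hg]
          simp only [hlogp i p (mem_filter.1 hp).1]
        rw [h3]
        refine h2.trans ?_
        have h4 : 1 ≤ √((2 : ℝ) ^ (i + 1)) := Real.one_le_sqrt.2 (one_le_pow₀ one_le_two)
        have h5 : 4 * √((2 : ℝ) ^ (i + 1)) / m + 1 ≤ 5 * √((2 : ℝ) ^ (i + 1)) := by
          have h6 : 4 * √((2 : ℝ) ^ (i + 1)) / m ≤ 4 * √((2 : ℝ) ^ (i + 1)) :=
            div_le_self (by positivity) hmR
          linarith
        have h7 : ((k : ℝ) + 1) + C₀ * (k + 1) * Real.log (k + 2) ≤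
            (1 / Real.log 2 + C₀) * (((k : ℝ) + 1) * Real.log (k + 2)) := by
          rw [add_mul, mul_assoc C₀]
          linarith
        have h8 : 0 ≤ ((k : ℝ) + 1) + C₀ * (k + 1) * Real.log (k + 2) := by
          rw [mul_assoc C₀]
          have := mul_nonneg hC₀ hW
          positivity
        exact mul_le_mul h5 h7 h8 (by positivity)
      refine (Finset.sum_le_sum hi).trans ?_
      rw [← Finset.sum_mul, ← Finset.mul_sum]
      refine mul_le_mul_of_nonneg_right ?_ (mul_nonneg (by positivity) hW)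
      have h9 := K4_geom (Nat.log 2 x)
      have h10 : √((2 : ℝ) ^ (Nat.log 2 x)) ≤ √(x : ℝ) := by
        refine Real.sqrt_le_sqrt ?_
        exact_mod_cast Nat.pow_log_le_self 2 hx0
      linarith
    -- second sum
    have h2 : |∑ p ∈ (range (x + 1)).filter Nat.Prime, (g p - D)| ≤
        C * (m * √(m : ℝ)) * (k + 1) * (C₃ * √(x : ℝ)) := by
      refine (Finset.abs_sum_le_sum_abs _ _).trans ?_
      have hp : ∀ p ∈ (range (x + 1)).filter Nat.Prime, |g p - D| ≤
          C * (m * √(m : ℝ)) * (k + 1) * (Real.log p / √(p : ℝ)) := by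
        intro p hp
        rw [hg, hD]
        exact (h p (mem_filter.1 hp).2).equi m hm hMm t k
      refine (Finset.sum_le_sum hp).trans ?_
      rw [← Finset.mul_sum]
      exact mul_le_mul_of_nonneg_left (hlog x (by omega)) (by positivity)
    rw [e1]
    refine (abs_add_le _ _).trans ((add_le_add h1 h2).trans ?_)
    have h3 : 25 * √(x : ℝ) * ((1 / Real.log 2 + C₀) * (((k : ℝ) + 1) * Real.log (k + 2))) ≤
        (m * √(m : ℝ)) * (25 * √(x : ℝ) * ((1 / Real.log 2 + C₀) *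
          (((k : ℝ) + 1) * Real.log (k + 2)))) :=
      le_mul_of_one_le_left (mul_nonneg (by positivity) (mul_nonneg (by positivity) hW)) hmm
    have h4 : C * (m * √(m : ℝ)) * (k + 1) * (C₃ * √(x : ℝ)) ≤
        C * (m * √(m : ℝ)) * (1 / Real.log 2 * (((k : ℝ) + 1) * Real.log (k + 2))) *
          (C₃ * √(x : ℝ)) := by
      refine mul_le_mul_of_nonneg_right ?_ (by positivity)
      exact mul_le_mul_of_nonneg_left hk (by positivity)
    refine (add_le_add h3 h4).trans (le_of_eq ?_)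
    ring
  · -- counts
    intro b x hx
    have e1 : ((((range (x + 1)).filter Nat.Prime).filter
        (fun p => v (Nat.log 2 p) p = b)).card : ℝ) -
        ∑ p ∈ (range (x + 1)).filter Nat.Prime, ρ p b =
        ∑ p ∈ (range (x + 1)).filter Nat.Prime,
          ((if v (Nat.log 2 p) p = b then (1 : ℝ) else 0) - ρ p b) := by
      rw [Finset.sum_sub_distrib, Finset.sum_boole]
    rw [e1, K4_sum]
    refine (Finset.abs_sum_le_sum_abs _ _).trans ?_
    have hi : ∀ i ∈ range (Nat.log 2 x + 1), |∑ p ∈ (blk i).filter (· ≤ x),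
        ((if v (Nat.log 2 p) p = b then (1 : ℝ) else 0) - ρ p b)| ≤ 1 := by
      intro i _
      have h3 : ∑ p ∈ (blk i).filter (· ≤ x),
          ((if v (Nat.log 2 p) p = b then (1 : ℝ) else 0) - ρ p b) =
          ∑ p ∈ (blk i).filter (· ≤ x), ((if v i p = b then (1 : ℝ) else 0) - ρ p b) := by
        refine Finset.sum_congr rfl fun p hp => ?_
        rw [hlogp i p (mem_filter.1 hp).1]
      rw [h3]
      exact hv2 i b x
    refine (Finset.sum_le_sum hi).trans ?_
    rw [Finset.sum_const, card_range, nsmul_eq_mul, mul_one]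
    push_cast
    exact le_refl _

end Pool.Agent.TB
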