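import Pool.Agent.Lib_MP_f1937f_tb.Defs

/-!
# Bounds for the local factors
-/

set_option autoImplicit false

namespace Pool.Agent.TB

open Finset

/-- PIECE [TB-C3] (about 80 lines, all four lemmas of this file). `l ^ 2 - l - 1 ≥ l ^ 2 / 4` for `l ≥ 2`. -/
theorem hl_bounds (l : ℕ) (hl2 : 2 ≤ l) : 0 < hl l ∧ hl l ≤ 4 / (l : ℝ) ^ 2 := by
  have h2 : (2 : ℝ) ≤ l := by exact_mod_cast hl2
  have h3 : (l : ℝ) ^ 2 / 4 ≤ (l : ℝ) ^ 2 - l - 1 := by
    nlinarith [mul_nonneg (sub_nonneg.2 h2) (by linarith : (0 : ℝ) ≤ 3 * (l : ℝ) / 4 + 1 / 2)]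
  have h4 : 0 < (l : ℝ) ^ 2 / 4 := by positivity
  unfold hl
  constructor
  · exact one_div_pos.2 (h4.trans_le h3)
  · calc 1 / ((l : ℝ) ^ 2 - l - 1) ≤ 1 / ((l : ℝ) ^ 2 / 4) := one_div_le_one_div_of_le h4 h3
      _ = 4 / (l : ℝ) ^ 2 := by rw [one_div_div]

private theorem HBounds_one_le (S : Finset ℕ) (f : ℕ → ℝ) (h : ∀ l ∈ S, 1 ≤ f l) :
    1 ≤ ∏ l ∈ S, f l := by
  calc (1 : ℝ) = ∏ _l ∈ S, (1 : ℝ) := by rw [prod_const_one]
    _ ≤ ∏ l ∈ S, f l := prod_le_prod (fun _ _ => zero_le_one) h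

private theorem HBounds_sum (n : ℕ) (hn : 1 ≤ n) :
    ∑ l ∈ Ico 2 (n + 1), 1 / (l : ℝ) ^ 2 ≤ 1 - 1 / (n : ℝ) := by
  induction n, hn using Nat.le_induction with
  | base => simp
  | succ n hn ih =>
    have hn0 : (0 : ℝ) < n := by exact_mod_cast hn
    rw [sum_Ico_succ_top (by omega)]
    have h1 : 1 / (((n + 1 : ℕ) : ℝ)) ^ 2 ≤ 1 / (n : ℝ) - 1 / ((n + 1 : ℕ) : ℝ) := by
      push_cast
      rw [div_sub_div _ _ hn0.ne' (by positivity), div_le_div_iff₀ (by positivity) (by positivity)]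
      nlinarith
    linarith

private theorem HBounds_sumS (S : Finset ℕ) (hS : ∀ l ∈ S, l.Prime) : ∑ l ∈ S, hl l ≤ 4 := by
  have h1 : ∑ l ∈ S, hl l ≤ ∑ l ∈ S, 4 * (1 / (l : ℝ) ^ 2) := by
    refine sum_le_sum fun l hl' => ?_
    have := (hl_bounds l (hS l hl').two_le).2
    rw [mul_one_div]
    exact this
  have h2 : ∑ l ∈ S, 4 * (1 / (l : ℝ) ^ 2) ≤
      ∑ l ∈ Ico 2 (S.sup id + 1 + 1), 4 * (1 / (l : ℝ) ^ 2) := by
    refine sum_le_sum_of_subset_of_nonneg ?_ (fun l _ _ => by positivity)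
    intro l hl'
    rw [mem_Ico]
    refine ⟨(hS l hl').two_le, ?_⟩
    have : id l ≤ S.sup id := le_sup hl'
    simp only [id] at this
    omega
  have h3 := HBounds_sum (S.sup id + 1) (by omega)
  rw [← mul_sum] at h1
  rw [← mul_sum, ← mul_sum] at h2
  have h4 : (0 : ℝ) ≤ 1 / ((S.sup id + 1 : ℕ) : ℝ) := by positivity
  linarith

/-- `∏ (1 + hl l) ≤ exp (∑ hl l) ≤ exp (∑_{n ≥ 2} 4 / n ^ 2) ≤ exp 4 ≤ 55` (`∑_{2 ≤ n ≤ N} 1 / n ^ 2 ≤ 1 - 1 / N` by
telescoping). -/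
theorem prod_hl_le (S : Finset ℕ) (hS : ∀ l ∈ S, l.Prime) : ∏ l ∈ S, (1 + hl l) ≤ 55 := by
  have h1 : ∏ l ∈ S, (1 + hl l) ≤ ∏ l ∈ S, Real.exp (hl l) := by
    refine prod_le_prod (fun l hl' => ?_) (fun l _ => ?_)
    · have := (hl_bounds l (hS l hl').two_le).1
      linarith
    · have := Real.add_one_le_exp (hl l)
      linarith
  rw [← Real.exp_sum] at h1
  have h2 := Real.exp_le_exp.2 (HBounds_sumS S hS)
  have h3 : Real.exp 4 ≤ 55 := by
    have e : Real.exp 4 = Real.exp 1 ^ 4 := by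
      rw [← Real.exp_nat_mul]
      norm_num
    rw [e]
    have h5 := Real.exp_one_lt_d9
    have h6 : Real.exp 1 ^ 4 ≤ 2.7182818286 ^ 4 :=
      pow_le_pow_left₀ (Real.exp_pos 1).le h5.le 4
    refine h6.trans ?_
    norm_num
  linarith

theorem prod_hl_div_bounds (S : Finset ℕ) (hS : ∀ l ∈ S, l.Prime) :
    1 ≤ ∏ l ∈ S, (1 + hl l / l) ∧ ∏ l ∈ S, (1 + hl l / l) ≤ 55 := by
  constructor
  · refine HBounds_one_le _ _ fun l hl' => ?_
    have h1 := (hl_bounds l (hS l hl').two_le).1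
    have h2 : 0 ≤ hl l / l := by positivity
    linarith
  · refine le_trans (prod_le_prod (fun l hl' => ?_) (fun l hl' => ?_)) (prod_hl_le S hS)
    · have := (hl_bounds l (hS l hl').two_le).1
      positivity
    · have h1 := (hl_bounds l (hS l hl').two_le).1
      have h2 : (1 : ℝ) ≤ l := by exact_mod_cast (hS l hl').one_le
      have h3 : hl l / l ≤ hl l := div_le_self h1.le h2
      linarith

/-- Consequence of the previous three lemmas: `loc` is a quotient. -/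
theorem prod_loc_bounds (S : Finset ℕ) (hS : ∀ l ∈ S, l.Prime) (t : ℤ) :
    1 / 55 ≤ ∏ l ∈ S, loc l t ∧ ∏ l ∈ S, loc l t ≤ 55 := by
  have e : ∏ l ∈ S, loc l t = (∏ l ∈ S, (1 + if (l : ℤ) ∣ t then hl l else 0)) /
      ∏ l ∈ S, (1 + hl l / l) := by
    rw [← prod_div_distrib]
    rfl
  obtain ⟨d1, d2⟩ := prod_hl_div_bounds S hS
  have n2 : ∏ l ∈ S, (1 + if (l : ℤ) ∣ t then hl l else 0) ≤ 55 := by
    refine le_trans (prod_le_prod (fun l hl' => ?_) (fun l hl' => ?_)) (prod_hl_le S hS)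
    · have := (hl_bounds l (hS l hl').two_le).1
      split_ifs <;> linarith
    · have := (hl_bounds l (hS l hl').two_le).1
      split_ifs <;> linarith
  have n1 : 1 ≤ ∏ l ∈ S, (1 + if (l : ℤ) ∣ t then hl l else 0) := by
    refine HBounds_one_le _ _ fun l hl' => ?_
    have := (hl_bounds l (hS l hl').two_le).1
    split_ifs <;> linarith
  rw [e]
  constructor
  · exact div_le_div₀ (by linarith) n1 (by linarith) d2
  · calc _ ≤ (55 : ℝ) / 1 := div_le_div₀ (by norm_num) n2 zero_lt_one d1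
      _ = 55 := by norm_num

end Pool.Agent.TB
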