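import Pool.Agent.Lib_MP_f1937f_tb.Prog
import Pool.Agent.Lib_MP_f1937f_tb.HBounds

/-!
# The base law
-/

set_option autoImplicit false

namespace Pool.Agent.TB

open Finset

/-- the arithmetic weight, with the primes of the finite set `S` -/
noncomputable def wt (u : ℤ → ℝ) (S : Finset ℕ) (a : ℤ) : ℝ := u a * ∏ l ∈ S, loc l a

/-- the local densities of the two conditions `m ∣ a - t` and `l ∣ a` -/
private noncomputable def psi (m : ℕ) (t : ℤ) (l : ℕ) : ℝ :=
  if l ∣ m then (if (l : ℤ) ∣ t then 1 else 0) else 1 / (l : ℝ)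

private theorem Base_set (m : ℕ) (hm : 0 < m) (t : ℤ) (T : Finset ℕ) (hT : ∀ l ∈ T, l.Prime) :
    (1 / (m : ℝ) * ∏ l ∈ T, psi m t l = 0 ∧
      ∀ a : ℤ, ¬ ((m : ℤ) ∣ a - t ∧ ∀ l ∈ T, (l : ℤ) ∣ a)) ∨
    ∃ (r : ℕ) (c : ℤ), 1 ≤ r ∧ 1 / (m : ℝ) * ∏ l ∈ T, psi m t l = 1 / (r : ℝ) ∧
      (∀ a : ℤ, ((m : ℤ) ∣ a - t ∧ ∀ l ∈ T, (l : ℤ) ∣ a) ↔ (r : ℤ) ∣ a - c) ∧
      ∀ l : ℕ, l.Prime → l ∉ T → (l ∣ r ↔ l ∣ m) := by
  induction T using Finset.induction_on with
  | empty =>
    right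
    refine ⟨m, t, hm, by simp, fun a => by simp, fun l _ _ => Iff.rfl⟩
  | insert l T hlT ih =>
    have hlp : l.Prime := hT l (Finset.mem_insert_self _ _)
    have ih := ih fun l' hl' => hT l' (Finset.mem_insert_of_mem hl')
    rw [Finset.prod_insert hlT]
    rcases ih with ⟨h0, hno⟩ | ⟨r, c, hr, hval, hiff, hpr⟩
    · left
      refine ⟨?_, fun a ha => hno a ⟨ha.1, fun l' hl' => ha.2 l' (Finset.mem_insert_of_mem hl')⟩⟩
      calc 1 / (m : ℝ) * (psi m t l * ∏ l ∈ T, psi m t l) =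
          psi m t l * (1 / (m : ℝ) * ∏ l ∈ T, psi m t l) := by ring
        _ = 0 := by rw [h0, mul_zero]
    · have hlr := hpr l hlp hlT
      have e0 : 1 / (m : ℝ) * (psi m t l * ∏ l ∈ T, psi m t l) = psi m t l * (1 / (r : ℝ)) := by
        rw [← hval]; ring
      rw [e0]
      have hc : (m : ℤ) ∣ c - t := ((hiff c).2 (by simp)).1
      by_cases hlm : l ∣ m
      · have hlr' : (l : ℤ) ∣ (r : ℤ) := by exact_mod_cast hlr.2 hlm
        have hlm' : (l : ℤ) ∣ (m : ℤ) := by exact_mod_cast hlm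
        by_cases hlt : (l : ℤ) ∣ t
        · right
          refine ⟨r, c, hr, ?_, fun a => ⟨fun ha => ?_, fun ha => ?_⟩, fun l' hl' hn => ?_⟩
          · rw [psi, if_pos hlm, if_pos hlt, one_mul]
          · exact (hiff a).1 ⟨ha.1, fun l' hl' => ha.2 l' (Finset.mem_insert_of_mem hl')⟩
          · obtain ⟨h1, h2⟩ := (hiff a).2 ha
            refine ⟨h1, fun l' hl' => ?_⟩
            rcases Finset.mem_insert.1 hl' with rfl | hl''
            · have e : a = (a - c) + (c - t) + t := by ring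
              rw [e]
              exact dvd_add (dvd_add (hlr'.trans ha) (hlm'.trans hc)) hlt
            · exact h2 l' hl''
          · exact hpr l' hl' fun h => hn (Finset.mem_insert_of_mem h)
        · left
          refine ⟨?_, fun a ha => hlt ?_⟩
          · rw [psi, if_pos hlm, if_neg hlt, zero_mul]
          · have h1 : (l : ℤ) ∣ a - t := hlm'.trans ha.1
            have h2 : (l : ℤ) ∣ a := ha.2 l (Finset.mem_insert_self _ _)
            have e : t = a - (a - t) := by ring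
            rw [e]
            exact dvd_sub h2 h1
      · right
        have hlr' : ¬ l ∣ r := fun h => hlm (hlr.1 h)
        have hco : IsCoprime (l : ℤ) (r : ℤ) := by
          rw [Nat.isCoprime_iff_coprime]
          exact (Nat.Prime.coprime_iff_not_dvd hlp).2 hlr'
        obtain ⟨x, y, hxy⟩ := id hco
        set c' : ℤ := c * (x * l) with hc'
        have hc1 : (r : ℤ) ∣ c' - c := by
          refine ⟨-(c * y), ?_⟩
          have : x * (l : ℤ) = 1 - y * r := by linarith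
          rw [hc', this]; ring
        have hc2 : (l : ℤ) ∣ c' := ⟨c * x, by rw [hc']; ring⟩
        refine ⟨r * l, c', Nat.mul_pos hr hlp.pos, ?_, fun a => ⟨fun ha => ?_, fun ha => ?_⟩,
          fun l' hl' hn => ?_⟩
        · rw [psi, if_neg hlm]
          push_cast
          rw [one_div_mul_one_div, mul_comm]
        · have h1 := (hiff a).1 ⟨ha.1, fun l' hl' => ha.2 l' (Finset.mem_insert_of_mem hl')⟩
          have h2 : (l : ℤ) ∣ a := ha.2 l (Finset.mem_insert_self _ _)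
          push_cast
          refine hco.symm.mul_dvd ?_ (dvd_sub h2 hc2)
          have e : a - c' = (a - c) - (c' - c) := by ring
          rw [e]
          exact dvd_sub h1 hc1
        · push_cast at ha
          have h1 : (r : ℤ) ∣ a - c' := (dvd_mul_right _ _).trans ha
          have h2 : (l : ℤ) ∣ a - c' := (dvd_mul_left _ _).trans ha
          have h3 : (r : ℤ) ∣ a - c := by
            have e : a - c = (a - c') + (c' - c) := by ring
            rw [e]
            exact dvd_add h1 hc1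
          obtain ⟨h4, h5⟩ := (hiff a).2 h3
          refine ⟨h4, fun l' hl' => ?_⟩
          rcases Finset.mem_insert.1 hl' with rfl | hl''
          · have e : a = (a - c') + c' := by ring
            rw [e]
            exact dvd_add h2 hc2
          · exact h5 l' hl''
        · have hn1 : l' ≠ l := fun h => hn (h ▸ Finset.mem_insert_self _ _)
          have hn2 : l' ∉ T := fun h => hn (Finset.mem_insert_of_mem h)
          rw [hl'.dvd_mul, hpr l' hl' hn2]
          constructor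
          · rintro (h | h)
            · exact h
            · exact absurd ((Nat.prime_dvd_prime_iff_eq hl' hlp).1 h) hn1
          · exact fun h => Or.inl h

private theorem Base_inner (p : ℕ) (hp : 1 ≤ p) (m : ℕ) (hm : 0 < m) (t : ℤ) (k : ℕ)
    (T : Finset ℕ) (hT : ∀ l ∈ T, l.Prime) :
    |∑ a ∈ (V p).filter (fun a => (m : ℤ) ∣ a - t),
        (if ∀ l ∈ T, (l : ℤ) ∣ a then sw p a * Uk k (xx p a) else 0) -
      (if k = 0 then 1 / (m : ℝ) * ∏ l ∈ T, psi m t l else 0)| ≤ (k + 1) / √(p : ℝ) := by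
  rw [← Finset.sum_filter, Finset.filter_filter]
  rcases Base_set m hm t T hT with ⟨h0, hno⟩ | ⟨r, c, hr, hval, hiff, -⟩
  · rw [h0, Finset.filter_false_of_mem fun a _ => hno a]
    simp only [Finset.sum_empty, ite_self, sub_self, abs_zero]
    positivity
  · rw [hval, Finset.filter_congr fun a _ => hiff a]
    exact prog_sum p hp r hr c k

/-- PIECE [TB-C2] (about 200 lines). PROOF. Put `κ = ∏ l ∈ S, (1 + hl l / l)⁻¹ ≤ 1`. For `T ⊆ S` let `d_T = ∏ l ∈ T, l` and
`h_T = ∏ l ∈ T, hl l`. `∏ l ∈ S, (1 + [l ∣ a] hl l) = ∑ T ⊆ S, [d_T ∣ a] h_T` (`Finset.prod_one_add`). As `M ∣ m`, `u a = u t` for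
`m ∣ a - t`. So the sum is `u t κ ∑ T ⊆ S, h_T ∑ a ∈ V p, m ∣ a - t, d_T ∣ a, sw p a * Uk k (xx p a)`. Let `g = gcd d_T m`. If `g ∤ t`
the inner sum is empty; if `g ∣ t` the two conditions say `a ≡ c mod lcm d_T m` for some `c` (Chinese remainder theorem), and by
`prog_sum` the inner sum is `[k = 0] / lcm d_T m` up to `(k + 1) / √p`. The total error is at most
`u t κ ∑ T, h_T (k + 1) / √p ≤ B ∏ l ∈ S, (1 + hl l) (k + 1) / √p ≤ 55 B (k + 1) / √p` (`prod_hl_le`). Main term: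
`[g ∣ t] / lcm d_T m = (1 / m) ∏ l ∈ T, (if l ∣ m then [l ∣ t] else 1 / l)` (`d_T` is squarefree), so `∑ T, h_T [g ∣ t] / lcm d_T m =`
`(1 / m) ∏ l ∈ S, (1 + hl l * (if l ∣ m then [l ∣ t] else 1 / l))`; times `κ`: the factors with `l ∤ m` cancel, the other ones are
`loc l t`, and `{l ∈ S : l ∣ m} = m.primeFactors \ M.primeFactors` (`hS`, `hmS`). -/
theorem base_equi (M : ℕ) (hM : 0 < M) (u : ℤ → ℝ) (B : ℝ) (hu : ∀ t, 0 ≤ u t ∧ u t ≤ B)
    (hper : ∀ t t' : ℤ, (M : ℤ) ∣ t - t' → u t = u t') (S : Finset ℕ) (hS : ∀ l ∈ S, l.Prime ∧ ¬ l ∣ M)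
    (p : ℕ) (hp : 1 ≤ p) (m : ℕ) (hm : 0 < m) (h : M ∣ m) (hmS : ∀ l ∈ m.primeFactors \ M.primeFactors, l ∈ S)
    (t : ℤ) (k : ℕ) :
    |∑ a ∈ (V p).filter (fun a => (m : ℤ) ∣ a - t), wt u S a * sw p a * Uk k (xx p a) -
        (if k = 0 then dl M u m t else 0)| ≤ 55 * B * (k + 1) / √(p : ℝ) := by
  have hu0 := (hu t).1
  have huB := (hu t).2
  have hB : 0 ≤ B := hu0.trans huB
  have hSp : ∀ l ∈ S, l.Prime := fun l hl' => (hS l hl').1
  set A := (V p).filter (fun a => (m : ℤ) ∣ a - t) with hA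
  set κ : ℝ := (∏ l ∈ S, (1 + hl l / l))⁻¹ with hκ
  have hκ1 : κ ≤ 1 := inv_le_one_of_one_le₀ (prod_hl_div_bounds S hSp).1
  have hprod0 : 0 < ∏ l ∈ S, (1 + hl l / l) := by
    have := (prod_hl_div_bounds S hSp).1
    linarith
  have hκ0 : 0 ≤ κ := (inv_pos.2 hprod0).le
  -- the expansion
  have hexp : ∀ a ∈ A, wt u S a * sw p a * Uk k (xx p a) =
      u t * κ * ∑ T ∈ S.powerset, (∏ l ∈ T, hl l) *
        (if ∀ l ∈ T, (l : ℤ) ∣ a then sw p a * Uk k (xx p a) else 0) := by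
    intro a ha
    have ha' : (m : ℤ) ∣ a - t := (Finset.mem_filter.1 ha).2
    have hMm : (M : ℤ) ∣ (m : ℤ) := by exact_mod_cast h
    have hua : u a = u t := hper a t (hMm.trans ha')
    have h1 : ∏ l ∈ S, loc l a = κ * ∑ T ∈ S.powerset,
        (if ∀ l ∈ T, (l : ℤ) ∣ a then ∏ l ∈ T, hl l else 0) := by
      have e1 : ∏ l ∈ S, loc l a = (∏ l ∈ S, (1 + if (l : ℤ) ∣ a then hl l else 0)) /
          ∏ l ∈ S, (1 + hl l / l) := by
        rw [← Finset.prod_div_distrib]
        rfl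
      rw [e1, Finset.prod_one_add, div_eq_inv_mul]
      congr 1
      refine Finset.sum_congr rfl fun T _ => ?_
      rw [Finset.prod_ite_zero]
    have h2 : ∑ T ∈ S.powerset, (∏ l ∈ T, hl l) *
        (if ∀ l ∈ T, (l : ℤ) ∣ a then sw p a * Uk k (xx p a) else 0) =
        (∑ T ∈ S.powerset, (if ∀ l ∈ T, (l : ℤ) ∣ a then ∏ l ∈ T, hl l else 0)) *
          (sw p a * Uk k (xx p a)) := by
      rw [Finset.sum_mul]
      refine Finset.sum_congr rfl fun T _ => ?_
      split_ifs <;> simp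
    rw [wt, hua, h1, h2]
    ring
  have hsum : ∑ a ∈ A, wt u S a * sw p a * Uk k (xx p a) =
      u t * κ * ∑ T ∈ S.powerset, (∏ l ∈ T, hl l) *
        ∑ a ∈ A, (if ∀ l ∈ T, (l : ℤ) ∣ a then sw p a * Uk k (xx p a) else 0) := by
    rw [Finset.sum_congr rfl hexp, ← Finset.mul_sum, Finset.sum_comm]
    congr 1
    refine Finset.sum_congr rfl fun T _ => ?_
    rw [Finset.mul_sum]
  -- the main term
  have hmain : dl M u m t = u t * κ * ∑ T ∈ S.powerset, (∏ l ∈ T, hl l) *
      (1 / (m : ℝ) * ∏ l ∈ T, psi m t l) := by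
    have e1 : ∑ T ∈ S.powerset, (∏ l ∈ T, hl l) * (1 / (m : ℝ) * ∏ l ∈ T, psi m t l) =
        1 / (m : ℝ) * ∏ l ∈ S, (1 + hl l * psi m t l) := by
      rw [Finset.prod_one_add, Finset.mul_sum]
      refine Finset.sum_congr rfl fun T _ => ?_
      rw [Finset.prod_mul_distrib]
      ring
    have e2 : κ * ∏ l ∈ S, (1 + hl l * psi m t l) =
        ∏ l ∈ S, (1 + hl l * psi m t l) / (1 + hl l / l) := by
      rw [Finset.prod_div_distrib, hκ, div_eq_inv_mul]
    have e3 : ∏ l ∈ S, (1 + hl l * psi m t l) / (1 + hl l / l) =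
        ∏ l ∈ S, (if l ∣ m then loc l t else 1) := by
      refine Finset.prod_congr rfl fun l hl' => ?_
      have h1 := (hl_bounds l (hSp l hl').two_le).1
      have h2 : 0 < 1 + hl l / l := by positivity
      unfold psi
      split_ifs with h3 h4
      · rw [mul_one, loc, if_pos h4]
      · rw [mul_zero, loc, if_neg h4]
      · rw [mul_one_div, div_self h2.ne']
    have e4 : ∏ l ∈ S, (if l ∣ m then loc l t else 1) =
        ∏ l ∈ m.primeFactors \ M.primeFactors, loc l t := by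
      rw [← Finset.prod_filter]
      congr 1
      ext l
      simp only [Finset.mem_filter, Finset.mem_sdiff, Nat.mem_primeFactors]
      constructor
      · rintro ⟨h1, h2⟩
        exact ⟨⟨(hS l h1).1, h2, hm.ne'⟩, fun h3 => (hS l h1).2 h3.2.1⟩
      · rintro ⟨h1, h2⟩
        refine ⟨hmS l ?_, h1.2.1⟩
        rw [Finset.mem_sdiff, Nat.mem_primeFactors, Nat.mem_primeFactors]
        exact ⟨h1, h2⟩
    rw [e1]
    unfold dl
    rw [← e4, ← e3, ← e2]
    ring
  have hdiff : ∑ a ∈ A, wt u S a * sw p a * Uk k (xx p a) - (if k = 0 then dl M u m t else 0) =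
      u t * κ * ∑ T ∈ S.powerset, (∏ l ∈ T, hl l) *
        (∑ a ∈ A, (if ∀ l ∈ T, (l : ℤ) ∣ a then sw p a * Uk k (xx p a) else 0) -
          (if k = 0 then 1 / (m : ℝ) * ∏ l ∈ T, psi m t l else 0)) := by
    rw [hsum]
    have e : (if k = 0 then dl M u m t else 0) = u t * κ * ∑ T ∈ S.powerset, (∏ l ∈ T, hl l) *
        (if k = 0 then 1 / (m : ℝ) * ∏ l ∈ T, psi m t l else 0) := by
      split_ifs with hk
      · exact hmain
      · simp
    rw [e, ← mul_sub, ← Finset.sum_sub_distrib]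
    congr 1
    refine Finset.sum_congr rfl fun T _ => ?_
    rw [mul_sub]
  rw [hdiff, abs_mul, abs_of_nonneg (mul_nonneg hu0 hκ0)]
  have hq : (0 : ℝ) ≤ (k + 1) / √(p : ℝ) := by positivity
  have hS1 : |∑ T ∈ S.powerset, (∏ l ∈ T, hl l) *
        (∑ a ∈ A, (if ∀ l ∈ T, (l : ℤ) ∣ a then sw p a * Uk k (xx p a) else 0) -
          (if k = 0 then 1 / (m : ℝ) * ∏ l ∈ T, psi m t l else 0))| ≤ 55 * ((k + 1) / √(p : ℝ)) := by
    refine (Finset.abs_sum_le_sum_abs _ _).trans ?_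
    have h1 : ∀ T ∈ S.powerset, |(∏ l ∈ T, hl l) *
        (∑ a ∈ A, (if ∀ l ∈ T, (l : ℤ) ∣ a then sw p a * Uk k (xx p a) else 0) -
          (if k = 0 then 1 / (m : ℝ) * ∏ l ∈ T, psi m t l else 0))| ≤
        (∏ l ∈ T, hl l) * ((k + 1) / √(p : ℝ)) := by
      intro T hT
      have hTp : ∀ l ∈ T, l.Prime := fun l hl' => hSp l (Finset.mem_powerset.1 hT hl')
      have h2 : 0 ≤ ∏ l ∈ T, hl l :=
        Finset.prod_nonneg fun l hl' => (hl_bounds l (hTp l hl').two_le).1.le
      rw [abs_mul, abs_of_nonneg h2]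
      exact mul_le_mul_of_nonneg_left (Base_inner p hp m hm t k T hTp) h2
    refine (Finset.sum_le_sum h1).trans ?_
    rw [← Finset.sum_mul, ← Finset.prod_one_add]
    exact mul_le_mul_of_nonneg_right (prod_hl_le S hSp) hq
  have huκ : u t * κ ≤ B := by
    calc u t * κ ≤ B * 1 := mul_le_mul huB hκ1 hκ0 hB
      _ = B := mul_one B
  calc u t * κ * _ ≤ B * (55 * ((k + 1) / √(p : ℝ))) :=
        mul_le_mul huκ hS1 (abs_nonneg _) hB
    _ = 55 * B * (k + 1) / √(p : ℝ) := by ring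

end Pool.Agent.TB
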