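import Pool.Agent.Lib_MP_f1937f_tb.HBounds

/-!
# Trivial bound for the densities
-/

set_option autoImplicit false

namespace Pool.Agent.TB

open Finset

/-- PIECE [TB-I4] (about 60 lines). PROOF. `(M : ℤ) ∣ t - t'` periodicity etc. are not needed: `|dl| = u t / m * ∏ loc ≤ B * 55`. -/
theorem dl_le (M : ℕ) (hM : 0 < M) (u : ℤ → ℝ) (B : ℝ) (hu : ∀ t, 0 ≤ u t ∧ u t ≤ B) (m : ℕ) (t : ℤ) :
    |dl M u m t| ≤ 55 * B := by
  have _ := hM
  have hS : ∀ l ∈ m.primeFactors \ M.primeFactors, l.Prime := fun l hl =>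
    Nat.prime_of_mem_primeFactors (mem_sdiff.1 hl).1
  obtain ⟨h1, h2⟩ := prod_loc_bounds _ hS t
  obtain ⟨h3, h4⟩ := hu t
  have h5 : u t / m ≤ B := by
    rcases Nat.eq_zero_or_pos m with hm | hm
    · subst hm
      rw [Nat.cast_zero, div_zero]
      linarith
    · have hm1 : (1 : ℝ) ≤ m := by exact_mod_cast hm
      exact (div_le_self h3 hm1).trans h4
  have h6 : 0 ≤ u t / m := div_nonneg h3 (Nat.cast_nonneg _)
  have h7 : 0 ≤ ∏ l ∈ m.primeFactors \ M.primeFactors, loc l t := by linarith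
  unfold dl
  rw [abs_of_nonneg (mul_nonneg h6 h7), mul_comm]
  exact mul_le_mul h2 h5 h6 (by norm_num)

end Pool.Agent.TB
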