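import Pool.Agent.Lib_MP_f1937f_tb.Base
import Pool.Agent.Lib_MP_f1937f_tb.DlLe

/-!
# The base law for all moduli
-/

set_option autoImplicit false

namespace Pool.Agent.TB

open Finset

/-- the primes up to `p` which do not divide `M` -/
noncomputable def PS (M p : ℕ) : Finset ℕ := (range (p + 1)).filter (fun l => l.Prime ∧ ¬ l ∣ M)

/-- the normalised traces are at most one -/
private lemma i3_xx (p : ℕ) (hp : 2 ≤ p) (a : ℤ) (ha : a ∈ V p) : |xx p a| ≤ 1 := by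
  have hp0 : (0 : ℝ) < (p : ℝ) := by
    have : 0 < p := by omega
    exact_mod_cast this
  have hs : 0 < √(p : ℝ) := Real.sqrt_pos.2 hp0
  unfold V at ha
  rw [Finset.mem_Icc] at ha
  have h1 : |a| ≤ (Nat.sqrt (4 * p) : ℤ) := abs_le.2 ha
  have h2 : (|a| : ℝ) ≤ (Nat.sqrt (4 * p) : ℝ) := by exact_mod_cast h1
  have h3 : ((Nat.sqrt (4 * p) : ℕ) : ℝ) ≤ 2 * √(p : ℝ) := by
    have h4 : Nat.sqrt (4 * p) * Nat.sqrt (4 * p) ≤ 4 * p := Nat.sqrt_le (4 * p)
    have h5 : ((Nat.sqrt (4 * p) : ℕ) : ℝ) * (Nat.sqrt (4 * p) : ℕ) ≤ 4 * p := by exact_mod_cast h4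
    have h6 : √(p : ℝ) * √(p : ℝ) = p := Real.mul_self_sqrt hp0.le
    by_contra h7
    push Not at h7
    have h8 : (0 : ℝ) ≤ 2 * √(p : ℝ) := by positivity
    nlinarith
  unfold xx
  rw [abs_div, abs_of_pos (by positivity : 0 < 2 * √(p : ℝ)), div_le_one (by positivity)]
  exact h2.trans h3

/-- the number of traces -/
private lemma i3_card (p : ℕ) (hp : 2 ≤ p) : ((V p).card : ℝ) ≤ 5 * √(p : ℝ) := by
  have hp0 : (0 : ℝ) < (p : ℝ) := by
    have : 0 < p := by omega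
    exact_mod_cast this
  have hs1 : 1 ≤ √(p : ℝ) := by
    rw [Real.one_le_sqrt]
    have : 1 ≤ p := by omega
    exact_mod_cast this
  have h3 : ((Nat.sqrt (4 * p) : ℕ) : ℝ) ≤ 2 * √(p : ℝ) := by
    have h4 : Nat.sqrt (4 * p) * Nat.sqrt (4 * p) ≤ 4 * p := Nat.sqrt_le (4 * p)
    have h5 : ((Nat.sqrt (4 * p) : ℕ) : ℝ) * (Nat.sqrt (4 * p) : ℕ) ≤ 4 * p := by exact_mod_cast h4
    have h6 : √(p : ℝ) * √(p : ℝ) = p := Real.mul_self_sqrt hp0.le
    by_contra h7
    push Not at h7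
    have h8 : (0 : ℝ) ≤ 2 * √(p : ℝ) := by positivity
    nlinarith
  have h1 : (V p).card = 2 * Nat.sqrt (4 * p) + 1 := by
    unfold V
    rw [Int.card_Icc]
    omega
  rw [h1]
  push_cast
  linarith

/-- the weights are bounded -/
private lemma i3_wt (M : ℕ) (u : ℤ → ℝ) (B : ℝ) (hu : ∀ t, 0 ≤ u t ∧ u t ≤ B) (p : ℕ) (a : ℤ) :
    |wt u (PS M p) a| ≤ 55 * B := by
  have hS : ∀ l ∈ PS M p, l.Prime := fun l hl => by
    unfold PS at hl
    rw [Finset.mem_filter] at hl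
    exact hl.2.1
  obtain ⟨h1, h2⟩ := prod_loc_bounds (PS M p) hS a
  obtain ⟨h3, h4⟩ := hu a
  have h5 : 0 ≤ ∏ l ∈ PS M p, loc l a := le_trans (by norm_num) h1
  unfold wt
  rw [abs_of_nonneg (mul_nonneg h3 h5)]
  calc u a * ∏ l ∈ PS M p, loc l a ≤ B * 55 := mul_le_mul h4 h2 h5 (h3.trans h4)
    _ = 55 * B := by ring

/-- PIECE [TB-I3] (about 100 lines). The base mass `μ₀ a = wt u (PS M p) a * sw p a` satisfies the hypothesis of `law_norm`, for all `m`. PROOF.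
If all primes of `m` outside `M` are `≤ p` this is `base_equi` (`1 / √p ≤ (1 / log 2) log p / √p`). Otherwise `m > p`, and trivially:
`|sum| ≤ (k + 1) ∑ a ∈ V p, μ₀ a`, `∑ a ∈ V p, μ₀ a = M + error ≤ ...` (from `base_equi` with `m = M`, summed over `t < M`; or:
`wt ≤ 55 B`, `sw ≤ 1 / √p`, `#V p ≤ 4 √p + 1 ≤ 5 √p` so the sum is `≤ 275 B`), `|target| ≤ 55 B`
(`dl ≤ B / m * 55`), and `m √m log p / √p ≥ p log 2 ≥ 1`. -/
theorem base_law (M : ℕ) (hM : 0 < M) (u : ℤ → ℝ) (B : ℝ) (hu : ∀ t, 0 ≤ u t ∧ u t ≤ B)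
    (hper : ∀ t t' : ℤ, (M : ℤ) ∣ t - t' → u t = u t') :
    ∃ E : ℝ, 0 ≤ E ∧ ∀ p : ℕ, 2 ≤ p → ∀ m : ℕ, 0 < m → M ∣ m → ∀ (t : ℤ) (k : ℕ),
      |∑ a ∈ (V p).filter (fun a => (m : ℤ) ∣ a - t), wt u (PS M p) a * sw p a * Uk k (xx p a) -
          (if k = 0 then dl M u m t else 0)| ≤ E * (m * √(m : ℝ)) * (k + 1) * (Real.log p / √(p : ℝ)) := by
  have hB : 0 ≤ B := (hu 0).1.trans (hu 0).2
  refine ⟨330 * B, by positivity, fun p hp m hm hMm t k => ?_⟩
  have hp0 : (0 : ℝ) < (p : ℝ) := by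
    have : 0 < p := by omega
    exact_mod_cast this
  have hs : 0 < √(p : ℝ) := Real.sqrt_pos.2 hp0
  have hs1 : 1 ≤ √(p : ℝ) := by
    rw [Real.one_le_sqrt]
    have : 1 ≤ p := by omega
    exact_mod_cast this
  have hm1 : (1 : ℝ) ≤ (m : ℝ) := by exact_mod_cast hm
  have hsm : 1 ≤ √(m : ℝ) := by
    rw [Real.one_le_sqrt]
    exact hm1
  have hlog : 1 / 2 ≤ Real.log (p : ℝ) := by
    have h1 : Real.log 2 ≤ Real.log (p : ℝ) := Real.log_le_log (by norm_num) (by exact_mod_cast hp)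
    have h2 := Real.log_two_gt_d9
    linarith
  have hk : (0 : ℝ) ≤ (k : ℝ) + 1 := by positivity
  by_cases hc : ∀ l ∈ m.primeFactors \ M.primeFactors, l ∈ PS M p
  · have hS : ∀ l ∈ PS M p, l.Prime ∧ ¬ l ∣ M := fun l hl => by
      unfold PS at hl
      rw [Finset.mem_filter] at hl
      exact hl.2
    refine (base_equi M hM u B hu hper (PS M p) hS p (by omega) m hm hMm hc t k).trans ?_
    rw [div_eq_mul_inv, mul_div_assoc', div_eq_mul_inv]
    refine mul_le_mul_of_nonneg_right ?_ (inv_nonneg.2 hs.le)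
    have h1 : (1 : ℝ) ≤ m * √(m : ℝ) := by nlinarith
    have h2 : 55 * B * (k + 1) ≤ 330 * B * (k + 1) * (1 / 2) := by nlinarith [mul_nonneg hB hk]
    have h3 : 330 * B * (k + 1) * (1 / 2) ≤ 330 * B * (k + 1) * Real.log (p : ℝ) :=
      mul_le_mul_of_nonneg_left hlog (by positivity)
    have h4 : 330 * B * (k + 1) * Real.log (p : ℝ) * 1 ≤ 330 * B * (k + 1) * Real.log (p : ℝ) * (m * √(m : ℝ)) :=
      mul_le_mul_of_nonneg_left h1 (mul_nonneg (by positivity) (by linarith))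
    calc 55 * B * (k + 1) ≤ 330 * B * (k + 1) * Real.log (p : ℝ) * (m * √(m : ℝ)) := by linarith
      _ = 330 * B * (m * √(m : ℝ)) * (k + 1) * Real.log (p : ℝ) := by ring
  · push Not at hc
    obtain ⟨l, hl1, hl2⟩ := hc
    rw [Finset.mem_sdiff, Nat.mem_primeFactors, Nat.mem_primeFactors] at hl1
    obtain ⟨⟨hlp, hlm, _⟩, hlM⟩ := hl1
    have hlM' : ¬ l ∣ M := fun h => hlM ⟨hlp, h, hM.ne'⟩
    have hpl : p < l := by
      by_contra h
      push Not at h
      apply hl2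
      unfold PS
      rw [Finset.mem_filter, Finset.mem_range]
      exact ⟨by omega, hlp, hlM'⟩
    have hpm : p ≤ m := hpl.le.trans (Nat.le_of_dvd hm hlm)
    have hpm' : (p : ℝ) ≤ (m : ℝ) := by exact_mod_cast hpm
    have h1 : |∑ a ∈ (V p).filter (fun a => (m : ℤ) ∣ a - t), wt u (PS M p) a * sw p a * Uk k (xx p a)| ≤ 275 * B * (k + 1) := by
      have h2 : ∀ a ∈ (V p).filter (fun a => (m : ℤ) ∣ a - t), |wt u (PS M p) a * sw p a * Uk k (xx p a)| ≤
          55 * B * (1 / √(p : ℝ)) * (k + 1) := fun a ha => by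
        rw [Finset.mem_filter] at ha
        obtain ⟨h3, h4, _⟩ := sw_bounds p (by omega) a
        rw [abs_mul, abs_mul, abs_of_nonneg h3]
        refine mul_le_mul (mul_le_mul (i3_wt M u B hu p a) h4 h3 (by positivity)) (Uk_le k (i3_xx p hp a ha.1))
          (abs_nonneg _) (by positivity)
      refine (Finset.abs_sum_le_sum_abs _ _).trans ((Finset.sum_le_sum h2).trans ?_)
      rw [Finset.sum_const, nsmul_eq_mul]
      have h5 : (((V p).filter (fun a => (m : ℤ) ∣ a - t)).card : ℝ) ≤ 5 * √(p : ℝ) :=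
        le_trans (by exact_mod_cast Finset.card_le_card (Finset.filter_subset _ _)) (i3_card p hp)
      refine (mul_le_mul_of_nonneg_right h5 (by positivity)).trans (le_of_eq ?_)
      field_simp
      ring
    have h2 : |if k = 0 then dl M u m t else 0| ≤ 55 * B * (k + 1) := by
      have h3 : 55 * B ≤ 55 * B * (k + 1) := by
        have : (0 : ℝ) ≤ k := Nat.cast_nonneg k
        nlinarith [mul_nonneg hB this]
      split_ifs
      · exact (dl_le M hM u B hu m t).trans h3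
      · rw [abs_zero]
        positivity
    have h3 : 1 ≤ m * √(m : ℝ) * (Real.log p / √(p : ℝ)) := by
      have h4 : √(p : ℝ) ≤ √(m : ℝ) := Real.sqrt_le_sqrt hpm'
      have h5 : (2 : ℝ) ≤ m := le_trans (by exact_mod_cast hp) hpm'
      rw [← mul_div_assoc, le_div_iff₀ hs, one_mul]
      have h6 : (1 : ℝ) ≤ m * Real.log p := by nlinarith
      calc √(p : ℝ) ≤ √(m : ℝ) * 1 := by linarith
        _ ≤ √(m : ℝ) * (m * Real.log p) := mul_le_mul_of_nonneg_left h6 (by positivity)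
        _ = m * √(m : ℝ) * Real.log p := by ring
    have h7 : 330 * B * (k + 1) * 1 ≤ 330 * B * (k + 1) * (m * √(m : ℝ) * (Real.log p / √(p : ℝ))) :=
      mul_le_mul_of_nonneg_left h3 (by positivity)
    refine (abs_sub _ _).trans ?_
    calc |∑ a ∈ (V p).filter (fun a => (m : ℤ) ∣ a - t), wt u (PS M p) a * sw p a * Uk k (xx p a)| +
          |if k = 0 then dl M u m t else 0| ≤ 275 * B * (k + 1) + 55 * B * (k + 1) := add_le_add h1 h2
      _ = 330 * B * (k + 1) * 1 := by ring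
      _ ≤ 330 * B * (k + 1) * (m * √(m : ℝ) * (Real.log p / √(p : ℝ))) := h7
      _ = 330 * B * (m * √(m : ℝ)) * (k + 1) * (Real.log p / √(p : ℝ)) := by ring

end Pool.Agent.TB
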