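import Pool.Agent.Lib_MP_f1937f_tb.Cheb

/-!
# A Fejer kernel at trace zero
-/

set_option autoImplicit false

namespace Pool.Agent.TB

open Finset

/-- `∑ 2 cos ((2 i + 1) φ) sin φ = sin (2 L φ)`. -/
private theorem fejer_cos_sum (L : ℕ) (φ : ℝ) :
    (∑ i ∈ range L, 2 * Real.cos ((2 * i + 1) * φ)) * Real.sin φ = Real.sin (2 * (L * φ)) := by
  induction L with
  | zero => simp
  | succ L ih =>
    rw [sum_range_succ, add_mul, ih]
    have h1 : 2 * (((L + 1 : ℕ) : ℝ) * φ) = 2 * (L * φ) + φ + φ := by push_cast; ring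
    have h2 : (2 * (L : ℝ) + 1) * φ = 2 * (L * φ) + φ := by ring
    rw [h1, h2, Real.sin_add (2 * (L * φ) + φ) φ, Real.sin_add (2 * (L * φ)) φ,
      Real.cos_add (2 * (L * φ)) φ]
    have h3 := Real.sin_sq_add_cos_sq φ
    linear_combination (-(Real.sin (2 * (L * φ)))) * h3

/-- The Fejer identity. -/
private theorem fejer_ident (L : ℕ) (φ : ℝ) :
    (∑ i ∈ range L, (2 * (L : ℝ) - 2 * i - 1) * Real.cos ((2 * i + 1) * φ)) * Real.sin φ ^ 2 =
      Real.cos φ * Real.sin (L * φ) ^ 2 := by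
  induction L with
  | zero => simp
  | succ L ih =>
    have h1 : ∑ i ∈ range (L + 1), (2 * ((L + 1 : ℕ) : ℝ) - 2 * i - 1) * Real.cos ((2 * i + 1) * φ) =
        ∑ i ∈ range L, (2 * (L : ℝ) - 2 * i - 1) * Real.cos ((2 * i + 1) * φ) +
        ∑ i ∈ range L, 2 * Real.cos ((2 * i + 1) * φ) + Real.cos ((2 * L + 1) * φ) := by
      rw [sum_range_succ, ← sum_add_distrib]
      congr 1
      · apply sum_congr rfl
        intro i _
        push_cast
        ring
      · push_cast
        ring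
    rw [h1, add_mul, add_mul, ih]
    have h2 := fejer_cos_sum L φ
    have h3 : (∑ i ∈ range L, 2 * Real.cos ((2 * i + 1) * φ)) * Real.sin φ ^ 2 =
        Real.sin (2 * (L * φ)) * Real.sin φ := by
      rw [← h2]; ring
    have h4 : ((L + 1 : ℕ) : ℝ) * φ = L * φ + φ := by push_cast; ring
    have h5 : (2 * (L : ℝ) + 1) * φ = 2 * (L * φ) + φ := by ring
    rw [h3, h4, h5, Real.cos_add, Real.sin_add, Real.sin_two_mul, Real.cos_two_mul']
    have h6 := Real.sin_sq_add_cos_sq φ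
    have h7 : Real.cos φ ^ 2 = 1 - Real.sin φ ^ 2 := by linarith
    have h8 : Real.cos φ * (Real.sin (L * φ) * Real.cos φ + Real.cos (L * φ) * Real.sin φ) ^ 2 =
        Real.cos φ * Real.sin (L * φ) ^ 2 * Real.cos φ ^ 2 +
        2 * Real.sin (L * φ) * Real.cos (L * φ) * Real.sin φ * Real.cos φ ^ 2 +
        Real.cos φ * Real.cos (L * φ) ^ 2 * Real.sin φ ^ 2 := by ring
    rw [h8, h7]
    ring

/-- `Uk (2 i)` at `-sin φ`. -/
private theorem fejer_Uk (i : ℕ) (φ : ℝ) :
    Uk (2 * i) (-Real.sin φ) * Real.cos φ = (-1) ^ i * Real.cos ((2 * i + 1) * φ) := by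
  have h := Uk_cos (2 * i) (φ + Real.pi / 2)
  rw [Real.cos_add_pi_div_two, Real.sin_add_pi_div_two] at h
  rw [h]
  have h1 : (((2 * i : ℕ) : ℝ) + 1) * (φ + Real.pi / 2) =
      ((2 * i + 1) * φ + i * Real.pi) + Real.pi / 2 := by push_cast; ring
  rw [h1, Real.sin_add_pi_div_two, Real.cos_add_nat_mul_pi]

/-- The coefficients. -/
private noncomputable def fejer_c (L i : ℕ) : ℝ :=
  if i < L then (-1) ^ i * (2 - (2 * i + 1) / L) else 0

/-- The kernel. -/
private noncomputable def fejer_f (L : ℕ) (y : ℝ) : ℝ :=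
  ∑ i ∈ range L, fejer_c L i / L * Uk (2 * i) y

private theorem fejer_even (L : ℕ) (y : ℝ) : fejer_f L |y| = fejer_f L y := by
  rcases abs_choice y with h | h
  · rw [h]
  · rw [h]
    unfold fejer_f
    apply sum_congr rfl
    intro i _
    rw [Uk_neg, pow_mul]
    norm_num

private theorem fejer_continuous (L : ℕ) : Continuous (fejer_f L) := by
  unfold fejer_f Uk
  fun_prop

private theorem fejer_key {L : ℕ} (hL : 1 ≤ L) {y : ℝ} (h0 : 0 < y) (h1 : y < 1) :
    fejer_f L y * (L ^ 2 * y ^ 2) = Real.sin (L * Real.arcsin y) ^ 2 := by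
  have hL0 : (0 : ℝ) < L := by exact_mod_cast hL
  set φ := Real.arcsin y with hφ
  have hs : Real.sin φ = y := Real.sin_arcsin (by linarith) h1.le
  have hc : 0 < Real.cos φ := by
    rw [hφ, Real.cos_arcsin]
    apply Real.sqrt_pos.2
    nlinarith
  have hf : fejer_f L y * Real.cos φ * L ^ 2 =
      ∑ i ∈ range L, (2 * (L : ℝ) - 2 * i - 1) * Real.cos ((2 * i + 1) * φ) := by
    rw [← fejer_even L y]
    have hy : fejer_f L |y| = fejer_f L (-Real.sin φ) := by
      rw [← fejer_even L (-Real.sin φ), abs_neg, hs]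
    rw [hy]
    unfold fejer_f
    rw [sum_mul, sum_mul]
    apply sum_congr rfl
    intro i hi
    have h2 := fejer_Uk i φ
    have h3 : fejer_c L i / L * Uk (2 * i) (-Real.sin φ) * Real.cos φ * (L : ℝ) ^ 2 =
        fejer_c L i * L * (Uk (2 * i) (-Real.sin φ) * Real.cos φ) := by
      field_simp
    rw [h3, h2]
    unfold fejer_c
    rw [if_pos (mem_range.1 hi)]
    have h4 : ((-1 : ℝ) ^ i) * (-1) ^ i = 1 := by
      rw [← mul_pow]; norm_num
    have h5 : (-1 : ℝ) ^ i * (2 - (2 * i + 1) / L) * L * ((-1) ^ i * Real.cos ((2 * i + 1) * φ)) =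
        ((-1 : ℝ) ^ i * (-1) ^ i) * (((2 - (2 * i + 1) / L) * L) * Real.cos ((2 * i + 1) * φ)) := by
      ring
    rw [h5, h4, one_mul]
    congr 1
    field_simp
    ring
  have h6 := fejer_ident L φ
  rw [← hf, hs] at h6
  have h7 : Real.cos φ * (fejer_f L y * (L ^ 2 * y ^ 2)) = Real.cos φ * Real.sin (L * φ) ^ 2 := by
    rw [← h6]; ring
  exact mul_left_cancel₀ hc.ne' h7

/-- PIECE [TB-D3] (about 120 lines). PROOF. `c i = (-1) ^ i (2 - (2 i + 1) / L)` (for `i < L`, `0` otherwise). Write `y = -sin φ`,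
`|φ| ≤ π / 2`, i.e. `y = cos (φ + π / 2)`. For `cos φ ≠ 0`: `Uk (2 i) y = sin ((2 i + 1) (φ + π / 2)) / sin (φ + π / 2) =`
`(-1) ^ i cos ((2 i + 1) φ) / cos φ`, so `∑ i < L, c i / L * Uk (2 i) y = (1 / L ^ 2) ∑ i < L, (2 L - 2 i - 1) cos ((2 i + 1) φ) / cos φ`.
Identity: `(∑ i < L, (2 L - 2 i - 1) cos ((2 i + 1) φ)) * sin φ ^ 2 = cos φ * sin (L φ) ^ 2` (induction over `L`, with
`∑ i < L, 2 cos ((2 i + 1) φ) sin φ = sin (2 L φ)`; check `L = 1`: `cos φ sin φ ^ 2`). So the sum is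
`(sin (L φ) / (L sin φ)) ^ 2 ≥ 0` if `φ ≠ 0`, `cos φ ≠ 0`; the remaining points `y = 0, ± 1` follow by continuity (the sum is a
polynomial in `y`; a continuous function which is `≥ 0` on a dense subset), or directly. If `|y| = |sin φ| ≤ 1 / (2 L)` then
`|φ| ≤ (π / 2) |sin φ| ≤ π / (4 L)`, `|L φ| ≤ π / 4 ≤ π / 2`, `|sin (L φ)| ≥ (2 / π) L |φ| ≥ (2 / π) L |sin φ|`, and
`(2 / π) ^ 2 ≥ 2 / 5` (`π ^ 2 ≤ 10`). At `y = 0` again by continuity. -/
theorem fejer (L : ℕ) (hL : 1 ≤ L) : ∃ c : ℕ → ℝ, (∀ i, |c i| ≤ 2) ∧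
    (∀ y : ℝ, |y| ≤ 1 → 0 ≤ ∑ i ∈ range L, c i / L * Uk (2 * i) y) ∧
    (∀ y : ℝ, |y| ≤ 1 / (2 * L) → 2 / 5 ≤ ∑ i ∈ range L, c i / L * Uk (2 * i) y) := by
  have hL0 : (0 : ℝ) < L := by exact_mod_cast hL
  have hL1 : (1 : ℝ) ≤ L := by exact_mod_cast hL
  have hcont := fejer_continuous L
  refine ⟨fejer_c L, ?_, ?_, ?_⟩
  · intro i
    unfold fejer_c
    split_ifs with h
    · rw [abs_mul, abs_pow, abs_neg, abs_one, one_pow, one_mul]
      have h1 : ((i : ℝ) + 1) ≤ L := by exact_mod_cast h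
      have h2 : (2 * (i : ℝ) + 1) / L ≤ 2 := by
        rw [div_le_iff₀ hL0]; linarith
      have h3 : 0 ≤ (2 * (i : ℝ) + 1) / L := by positivity
      rw [abs_le]
      constructor <;> linarith
    · simp
  · intro y hy
    change 0 ≤ fejer_f L y
    rw [← fejer_even]
    have hcl : IsClosed {z : ℝ | 0 ≤ fejer_f L z} := isClosed_le continuous_const hcont
    have hsub : Set.Ioo (0 : ℝ) 1 ⊆ {z : ℝ | 0 ≤ fejer_f L z} := by
      intro z hz
      have h1 := fejer_key hL hz.1 hz.2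
      have h2 : 0 ≤ fejer_f L z * (L ^ 2 * z ^ 2) := by rw [h1]; positivity
      have h3 : 0 < (L : ℝ) ^ 2 * z ^ 2 := by
        have := hz.1
        positivity
      exact nonneg_of_mul_nonneg_left h2 h3
    have h4 := closure_minimal hsub hcl
    rw [closure_Ioo (by norm_num)] at h4
    exact h4 ⟨abs_nonneg y, hy⟩
  · intro y hy
    change 2 / 5 ≤ fejer_f L y
    rw [← fejer_even]
    have hcl : IsClosed {z : ℝ | 2 / 5 ≤ fejer_f L z} := isClosed_le continuous_const hcont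
    have hd : (0 : ℝ) < 1 / (2 * L) := by positivity
    have hsub : Set.Ioo (0 : ℝ) (1 / (2 * L)) ⊆ {z : ℝ | 2 / 5 ≤ fejer_f L z} := by
      intro z hz
      have hz0 := hz.1
      have hz1 : z < 1 := by
        refine hz.2.trans_le ?_
        rw [div_le_one (by positivity)]
        linarith
      have h1 := fejer_key hL hz0 hz1
      have hpi := Real.pi_pos
      have hs : Real.sin (Real.arcsin z) = z := Real.sin_arcsin (by linarith) hz1.le
      have ha0 : 0 ≤ Real.arcsin z := Real.arcsin_nonneg.2 hz0.le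
      have ha1 : Real.arcsin z ≤ Real.pi / 2 := Real.arcsin_le_pi_div_two z
      have hj := Real.mul_le_sin ha0 ha1
      rw [hs] at hj
      have hzL : z * (2 * L) < 1 := by
        have := hz.2
        rwa [lt_div_iff₀ (by positivity)] at this
      have hLa : L * Real.arcsin z ≤ Real.pi / 2 := by
        have h2 : Real.arcsin z ≤ Real.pi / 2 * z := by
          have h3 : 2 / Real.pi * Real.arcsin z * (Real.pi / 2) ≤ z * (Real.pi / 2) :=
            mul_le_mul_of_nonneg_right hj (by positivity)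
          have h4 : 2 / Real.pi * Real.arcsin z * (Real.pi / 2) = Real.arcsin z := by
            field_simp
          linarith
        calc L * Real.arcsin z ≤ L * (Real.pi / 2 * z) := by gcongr
          _ = Real.pi / 4 * (z * (2 * L)) := by ring
          _ ≤ Real.pi / 4 * 1 := by gcongr
          _ ≤ Real.pi / 2 := by linarith
      have h5 := Real.mul_le_sin (by positivity : 0 ≤ L * Real.arcsin z) hLa
      have h6 : z ≤ Real.arcsin z := by
        have := Real.sin_le ha0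
        rwa [hs] at this
      have h7 : 2 / Real.pi * (L * z) ≤ Real.sin (L * Real.arcsin z) := by
        refine le_trans ?_ h5
        gcongr
      have h8 : (2 / Real.pi * (L * z)) ^ 2 ≤ Real.sin (L * Real.arcsin z) ^ 2 :=
        pow_le_pow_left₀ (by positivity) h7 2
      have h9 : (2 : ℝ) / 5 ≤ (2 / Real.pi) ^ 2 := by
        rw [div_pow, div_le_div_iff₀ (by norm_num) (by positivity)]
        have := Real.pi_lt_d2
        nlinarith
      have h10 : 0 < (L : ℝ) ^ 2 * z ^ 2 := by positivity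
      have h11 : 2 / 5 * ((L : ℝ) ^ 2 * z ^ 2) ≤ fejer_f L z * (L ^ 2 * z ^ 2) := by
        rw [h1]
        refine le_trans ?_ h8
        have h12 : (2 / Real.pi * (L * z)) ^ 2 = (2 / Real.pi) ^ 2 * ((L : ℝ) ^ 2 * z ^ 2) := by ring
        rw [h12]
        gcongr
      exact le_of_mul_le_mul_right h11 h10
    have h4 := closure_minimal hsub hcl
    rw [closure_Ioo hd.ne] at h4
    exact h4 ⟨abs_nonneg y, hy⟩

end Pool.Agent.TB
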