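import Mathlib

/-!
# Trace barrier for the Lang-Trotter conjecture: definitions

`V p` is the set of the integers `a` with `a ^ 2 ≤ 4 p` (Hasse interval), `Uk k y` the value of the Chebyshev polynomial of
the second kind, `dens M m h G t` the proportion of the elements of trace `t` among the matrices of `GL₂(ℤ/m)` which reduce
into `G` modulo `M`, and `dl M u m t` its closed form.
-/

set_option autoImplicit false

namespace Pool.Agent.TB

open Finset

/-- value of the `k`-th Chebyshev polynomial of the second kind -/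
noncomputable def Uk (k : ℕ) (y : ℝ) : ℝ := (Polynomial.Chebyshev.U ℝ (k : ℤ)).eval y

/-- the integers `a` with `a ^ 2 ≤ 4 p` -/
noncomputable def V (p : ℕ) : Finset ℤ := Finset.Icc (-(Nat.sqrt (4 * p) : ℤ)) (Nat.sqrt (4 * p) : ℤ)

/-- the normalised trace `a / (2 √p)` -/
noncomputable def xx (p : ℕ) (a : ℤ) : ℝ := (a : ℝ) / (2 * √(p : ℝ))

/-- the matrices of `GL₂(ℤ/m)` which reduce into `G` modulo `M` -/
def liftG (M m : ℕ) (h : M ∣ m) (G : Subgroup (GL (Fin 2) (ZMod M))) : Set (GL (Fin 2) (ZMod m)) :=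
  {g | Matrix.GeneralLinearGroup.map (ZMod.castHom h (ZMod M)) g ∈ G}

/-- proportion of the elements of trace `t` in `liftG M m h G` -/
noncomputable def dens (M m : ℕ) (h : M ∣ m) (G : Subgroup (GL (Fin 2) (ZMod M))) (t : ZMod m) : ℝ :=
  (Nat.card {g : GL (Fin 2) (ZMod m) // g ∈ liftG M m h G ∧ g.val.trace = t} : ℝ) /
    (Nat.card {g : GL (Fin 2) (ZMod m) // g ∈ liftG M m h G} : ℝ)

/-- `u(t) = M #{g ∈ G : tr g = t} / #G` -/
noncomputable def uG (M : ℕ) (G : Subgroup (GL (Fin 2) (ZMod M))) (t : ℤ) : ℝ :=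
  (M : ℝ) * (Nat.card {g : GL (Fin 2) (ZMod M) // g ∈ G ∧ g.val.trace = (t : ZMod M)} : ℝ) /
    (Nat.card {g : GL (Fin 2) (ZMod M) // g ∈ G} : ℝ)

/-- `h(ℓ) = 1 / (ℓ² - ℓ - 1)` -/
noncomputable def hl (l : ℕ) : ℝ := 1 / ((l : ℝ) ^ 2 - l - 1)

/-- the local factor of the density at `ℓ` -/
noncomputable def loc (l : ℕ) (t : ℤ) : ℝ := (1 + if (l : ℤ) ∣ t then hl l else 0) / (1 + hl l / l)

/-- closed form of the densities -/
noncomputable def dl (M : ℕ) (u : ℤ → ℝ) (m : ℕ) (t : ℤ) : ℝ :=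
  u t / m * ∏ l ∈ m.primeFactors \ M.primeFactors, loc l t

/-- A law on the Hasse interval of `p` which has the trace densities `δ` and the Sato-Tate distribution with an error of
the strength of GRH. -/
structure GoodLaw (M : ℕ) (δ : ℕ → ℤ → ℝ) (C : ℝ) (p : ℕ) (ρ : ℤ → ℝ) : Prop where
  nonneg : ∀ a, 0 ≤ ρ a
  supp : ∀ a, ρ a ≠ 0 → a ∈ V p
  total : ∑ a ∈ V p, ρ a = 1
  equi : ∀ m : ℕ, 0 < m → M ∣ m → ∀ (t : ℤ) (k : ℕ),
    |∑ a ∈ (V p).filter (fun a => (m : ℤ) ∣ a - t), ρ a * Uk k (xx p a) - (if k = 0 then δ m t else 0)| ≤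
      C * (m * √(m : ℝ)) * (k + 1) * (Real.log p / √(p : ℝ))

/-- The trace information at the strength of GRH, for an integer sequence indexed by the primes. -/
def Info (M : ℕ) (δ : ℕ → ℤ → ℝ) (a : ℕ → ℤ) (s : ℝ) : Prop :=
  ∃ C : ℝ, ∀ m : ℕ, 0 < m → M ∣ m → ∀ (t : ℤ) (k x : ℕ), 2 ≤ x →
    |∑ p ∈ ((range (x + 1)).filter Nat.Prime).filter (fun p => (m : ℤ) ∣ a p - t), Uk k (xx p (a p)) -
        (if k = 0 then δ m t else 0) * (Nat.primeCounting x : ℝ)| ≤
      C * (m * √(m : ℝ)) * (k + 1) * √(x : ℝ) * Real.log (k + 2) * Real.log (m * x) ^ s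

end Pool.Agent.TB
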