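import Pool.Agent.Lib_MP_f1937f_tb.HBounds

/-!
# The densities have sum one
-/

set_option autoImplicit false

namespace Pool.Agent.TB

open Finset

/-- sum over the multiples of `d` -/
theorem dl_sum_mult (d n : ℕ) (hd : 0 < d) (g : ℕ → ℝ) :
    ∑ t ∈ range (d * n), (if d ∣ t then g t else 0) = ∑ t ∈ range n, g (d * t) := by
  induction n with
  | zero => simp
  | succ n ih =>
    rw [Nat.mul_succ, Finset.sum_range_add, ih, Finset.sum_range_succ]
    congr 1
    rw [Finset.sum_eq_single 0]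
    · simp
    · intro b hb hb0
      rw [if_neg]
      intro hdv
      have h1 : d ∣ b := (Nat.dvd_add_right (dvd_mul_right d n)).mp hdv
      have h2 := Nat.le_of_dvd (Nat.pos_of_ne_zero hb0) h1
      have h3 := Finset.mem_range.mp hb
      omega
    · intro h0
      exact absurd (Finset.mem_range.mpr hd) h0

/-- sum of a periodic function over several periods -/
theorem dl_sum_period (M k : ℕ) (f : ℕ → ℝ) (hf : ∀ a b, f (M * a + b) = f b) :
    ∑ t ∈ range (M * k), f t = k * ∑ t ∈ range M, f t := by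
  induction k with
  | zero => simp
  | succ k ih =>
    rw [Nat.mul_succ, Finset.sum_range_add, ih]
    have : ∑ x ∈ range M, f (M * k + x) = ∑ x ∈ range M, f x :=
      Finset.sum_congr rfl (fun x _ => hf k x)
    rw [this]
    push_cast
    ring

/-- multiplication by a number prime to `M` permutes the classes modulo `M` -/
theorem dl_sum_perm (M d : ℕ) (hM : 0 < M) (hco : Nat.Coprime d M) (u : ℤ → ℝ)
    (hper : ∀ t t' : ℤ, (M : ℤ) ∣ t - t' → u t = u t') :
    ∑ t ∈ range M, u ((d * t : ℕ) : ℤ) = ∑ t ∈ range M, u (t : ℤ) := by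
  have himg : (range M).image (fun t => (d * t) % M) = range M := by
    apply Finset.eq_of_subset_of_card_le
    · intro x hx
      obtain ⟨t, _, rfl⟩ := Finset.mem_image.mp hx
      exact Finset.mem_range.mpr (Nat.mod_lt _ hM)
    · rw [Finset.card_image_of_injOn]
      intro a ha b hb hab
      have ha' := Finset.mem_range.mp (Finset.mem_coe.mp ha)
      have hb' := Finset.mem_range.mp (Finset.mem_coe.mp hb)
      have h1 : d * a ≡ d * b [MOD M] := hab
      have h2 : a ≡ b [MOD M] := Nat.ModEq.cancel_left_of_coprime hco.symm h1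
      exact Nat.ModEq.eq_of_lt_of_lt h2 ha' hb'
  have hinj : Set.InjOn (fun t => (d * t) % M) (range M : Finset ℕ) := by
    apply Finset.card_image_iff.mp
    rw [himg]
  calc ∑ t ∈ range M, u ((d * t : ℕ) : ℤ)
      = ∑ t ∈ range M, u (((d * t) % M : ℕ) : ℤ) := by
        apply Finset.sum_congr rfl
        intro t _
        apply hper
        push_cast
        exact Int.dvd_self_sub_emod
    _ = ∑ t ∈ (range M).image (fun t => (d * t) % M), u (t : ℤ) := by
        rw [Finset.sum_image (fun a ha b hb hab => hinj ha hb hab)]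
    _ = ∑ t ∈ range M, u (t : ℤ) := by rw [himg]

/-- sum of `u` over the multiples of `d` -/
theorem dl_sum_dvd (M m d : ℕ) (hM : 0 < M) (h : M ∣ m) (hd : 0 < d) (hdm : d ∣ m)
    (hco : Nat.Coprime d M) (u : ℤ → ℝ)
    (hper : ∀ t t' : ℤ, (M : ℤ) ∣ t - t' → u t = u t') (hsum : ∑ r ∈ range M, u r = M) :
    ∑ t ∈ range m, (if d ∣ t then u (t : ℤ) else 0) = (m : ℝ) / d := by
  obtain ⟨k, hk⟩ := hco.mul_dvd_of_dvd_of_dvd hdm h
  have hd' : (d : ℝ) ≠ 0 := by positivity
  rw [hk, mul_assoc, dl_sum_mult d (M * k) hd (fun t => u (t : ℤ)),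
    dl_sum_period M k (fun t => u ((d * t : ℕ) : ℤ)), dl_sum_perm M d hM hco u hper, hsum]
  · push_cast
    field_simp
  · intro a b
    apply hper
    push_cast
    exact ⟨d * a, by ring⟩

/-- PIECE [TB-B4] (about 80 lines). PROOF. Put `𝒬 = m.primeFactors \ M.primeFactors`. `∏ l ∈ 𝒬, (1 + [l ∣ t] hl l) =`
`∑ T ⊆ 𝒬, [d_T ∣ t] ∏ l ∈ T, hl l` with `d_T = ∏ l ∈ T, l` (`Finset.prod_one_add`; distinct primes). `M d_T ∣ m` and
`d_T` is coprime to `M`, so `∑ t < m, d_T ∣ t, u t = m / (M d_T) ∑ r < M, u r = m / d_T` (write `t = d_T t'`, `t' < m / d_T`;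
`t' ↦ d_T t'` permutes the classes modulo `M`, and `u` has period `M`). Sum: `m ∑ T, ∏ l ∈ T, hl l / l = m ∏ (1 + hl l / l)`.
(`1 + hl l / l ≠ 0`: `hl l > 0` for `l ≥ 2`.) -/
theorem dl_sum (M m : ℕ) (hM : 0 < M) (hm : 0 < m) (h : M ∣ m) (u : ℤ → ℝ)
    (hper : ∀ t t' : ℤ, (M : ℤ) ∣ t - t' → u t = u t') (hsum : ∑ r ∈ range M, u r = M) :
    ∑ t ∈ range m, dl M u m (t : ℤ) = 1 := by
  set Q := m.primeFactors \ M.primeFactors with hQ
  have hQp : ∀ l ∈ Q, l.Prime ∧ l ∣ m ∧ ¬ l ∣ M := by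
    intro l hl'
    rw [hQ, Finset.mem_sdiff, Nat.mem_primeFactors, Nat.mem_primeFactors] at hl'
    refine ⟨hl'.1.1, hl'.1.2.1, fun hd => hl'.2 ⟨hl'.1.1, hd, hM.ne'⟩⟩
  set P : ℝ := ∏ l ∈ Q, (1 + hl l / l) with hP
  have hPpos : 0 < P := by
    apply Finset.prod_pos
    intro l hl'
    have h1 := (hl_bounds l (hQp l hl').1.two_le).1
    positivity
  have hm' : (m : ℝ) ≠ 0 := by positivity
  -- the product of the local numerators
  have hprod : ∀ t : ℕ, ∏ l ∈ Q, (1 + if (l : ℤ) ∣ (t : ℤ) then hl l else 0) =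
      ∑ T ∈ Q.powerset, (∏ l ∈ T, hl l) * (if (∏ l ∈ T, l) ∣ t then 1 else 0) := by
    intro t
    rw [Finset.prod_one_add]
    apply Finset.sum_congr rfl
    intro T hT
    have hTQ := Finset.mem_powerset.mp hT
    by_cases hd : (∏ l ∈ T, l) ∣ t
    · rw [if_pos hd, mul_one]
      apply Finset.prod_congr rfl
      intro l hl'
      rw [if_pos]
      exact Int.natCast_dvd_natCast.mpr ((Finset.dvd_prod_of_mem _ hl').trans hd)
    · rw [if_neg hd, mul_zero]
      have hex : ∃ l ∈ T, ¬ l ∣ t := by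
        by_contra hcon
        push Not at hcon
        exact hd (Finset.prod_primes_dvd t (fun l hl' => (hQp l (hTQ hl')).1.prime) hcon)
      obtain ⟨l, hlT, hlt⟩ := hex
      apply Finset.prod_eq_zero hlT
      rw [if_neg]
      exact fun hd' => hlt (Int.natCast_dvd_natCast.mp hd')
  have hdl : ∀ t : ℕ, dl M u m (t : ℤ) = 1 / (m * P) *
      ∑ T ∈ Q.powerset, (∏ l ∈ T, hl l) * (if (∏ l ∈ T, l) ∣ t then u (t : ℤ) else 0) := by
    intro t
    unfold dl loc
    rw [Finset.prod_div_distrib, ← hQ, ← hP, hprod t]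
    have : ∀ T ∈ Q.powerset, (∏ l ∈ T, hl l) * (if (∏ l ∈ T, l) ∣ t then u (t : ℤ) else 0) =
        u (t : ℤ) * ((∏ l ∈ T, hl l) * (if (∏ l ∈ T, l) ∣ t then 1 else 0)) := by
      intro T _
      split_ifs <;> ring
    rw [Finset.sum_congr rfl this, ← Finset.mul_sum]
    field_simp
  have hT : ∀ T ∈ Q.powerset, ∑ t ∈ range m, (∏ l ∈ T, hl l) *
      (if (∏ l ∈ T, l) ∣ t then u (t : ℤ) else 0) = m * ∏ l ∈ T, (hl l / l) := by
    intro T hT
    have hTQ := Finset.mem_powerset.mp hT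
    rw [← Finset.mul_sum, dl_sum_dvd M m (∏ l ∈ T, l) hM h _ _ _ u hper hsum,
      Finset.prod_div_distrib]
    · push_cast
      ring
    · exact Finset.prod_pos (fun l hl' => (hQp l (hTQ hl')).1.pos)
    · exact Finset.prod_primes_dvd m (fun l hl' => (hQp l (hTQ hl')).1.prime)
        (fun l hl' => (hQp l (hTQ hl')).2.1)
    · apply Nat.Coprime.prod_left
      intro l hl'
      exact ((hQp l (hTQ hl')).1.coprime_iff_not_dvd).mpr (hQp l (hTQ hl')).2.2
  rw [Finset.sum_congr rfl (fun t _ => hdl t), ← Finset.mul_sum, Finset.sum_comm,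
    Finset.sum_congr rfl hT, ← Finset.mul_sum, ← Finset.prod_one_add, ← hP]
  field_simp

end Pool.Agent.TB
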