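import Pool.Agent.Lib_MP_f1937f_tb.SumInv

/-!
# Shifted reduced fractions
-/

set_option autoImplicit false

namespace Pool.Agent.TB

open Finset Pool.Agent.LibLS

/-- the reduced fractions `b / q`, `2 ^ i ≤ q < 2 ^ (i + 1)`, `0 ≤ b < q`, for which `l / r + b / q` is not an integer -/
noncomputable def QI (r l i : ℕ) : Finset (ℕ × ℕ) :=
  by
    classical
    exact ((Ico (2 ^ i) (2 ^ (i + 1))) ×ˢ (range (2 ^ (i + 1)))).filter
      (fun y => y.2 < y.1 ∧ y.2.Coprime y.1 ∧ ∀ z : ℤ, (l : ℝ) / r + (y.2 : ℝ) / y.1 ≠ z)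

theorem mem_QI (r l i : ℕ) (y : ℕ × ℕ) (hy : y ∈ QI r l i) :
    2 ^ i ≤ y.1 ∧ y.1 < 2 ^ (i + 1) ∧ y.2 < y.1 ∧ y.2.Coprime y.1 ∧
      ∀ z : ℤ, (l : ℝ) / r + (y.2 : ℝ) / y.1 ≠ z := by
  classical
  unfold QI at hy
  rw [mem_filter, mem_product, mem_Ico] at hy
  exact ⟨hy.1.1.1, hy.1.1.2, hy.2.1, hy.2.2.1, hy.2.2.2⟩

/-- spacing of reduced fractions with denominators at most `Q` -/
theorem Frac_aux {Q r r' b b' : ℕ} {δ : ℝ} (hδ : δ * (Q : ℝ) ^ 2 ≤ 1) (hδ0 : 0 < δ)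
    (hr : 0 < r) (hr' : 0 < r') (hrQ : r ≤ Q) (hrQ' : r' ≤ Q)
    (hb : b < r) (hb' : b' < r') (hc : b.Coprime r) (hc' : b'.Coprime r')
    (hne : ¬ (r = r' ∧ b = b')) (z : ℤ) :
    δ ≤ |(b : ℝ) / r - b' / r' - z| := by
  have hr0 : (0 : ℝ) < r := by exact_mod_cast hr
  have hr0' : (0 : ℝ) < r' := by exact_mod_cast hr'
  have h3 : (b : ℝ) / r - b' / r' - z =
      (((b : ℤ) * r' - b' * r - z * r * r' : ℤ) : ℝ) / (r * r') := by
    push_cast
    field_simp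
  have h4 : ((b : ℤ) * r' - b' * r - z * r * r') ≠ 0 := by
    intro h0
    apply hne
    have h5 : (r : ℤ) ∣ (b : ℤ) * r' := ⟨b' + z * r', by linear_combination h0⟩
    have h6 : r ∣ b * r' := by exact_mod_cast h5
    have h7 : r ∣ r' := (Nat.Coprime.dvd_of_dvd_mul_left hc.symm h6)
    have h8 : (r' : ℤ) ∣ (b' : ℤ) * r := ⟨b - z * r, by linear_combination -h0⟩
    have h9 : r' ∣ b' * r := by exact_mod_cast h8
    have h10 : r' ∣ r := (Nat.Coprime.dvd_of_dvd_mul_left hc'.symm h9)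
    have h11 : r = r' := Nat.dvd_antisymm h7 h10
    subst h11
    refine ⟨rfl, ?_⟩
    have h12 : (r : ℤ) * ((b : ℤ) - b' - z * r) = 0 := by linear_combination h0
    rcases mul_eq_zero.mp h12 with h13 | h13
    · have : (r : ℤ) ≠ 0 := by exact_mod_cast hr.ne'
      exact absurd h13 this
    · have h14 : (r : ℤ) ∣ (b : ℤ) - b' := ⟨z, by linarith⟩
      have h15 : (b : ℤ) - b' = 0 := by
        apply Int.eq_zero_of_abs_lt_dvd h14
        rw [abs_lt]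
        constructor <;> omega
      omega
  have h5 : (1 : ℝ) ≤ |(((b : ℤ) * r' - b' * r - z * r * r' : ℤ) : ℝ)| := by
    have := Int.one_le_abs h4
    exact_mod_cast this
  rw [h3, abs_div, abs_of_pos (mul_pos hr0 hr0'), le_div_iff₀ (mul_pos hr0 hr0')]
  have hle : (r : ℝ) * r' ≤ (Q : ℝ) ^ 2 := by
    have h1 : (r : ℝ) ≤ Q := by exact_mod_cast hrQ
    have h2 : (r' : ℝ) ≤ Q := by exact_mod_cast hrQ'
    nlinarith
  nlinarith [mul_le_mul_of_nonneg_left hle hδ0.le]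

/-- PIECE [TB-G3] (about 80 lines). PROOF. Two different points differ by `b / q - b' / q' - z = n / (q q')` with a nonzero integer
`n` (if `n = 0` then `q = q'`, as both fractions are reduced, and `b ≡ b' mod q`, so `b = b'`), and `q q' ≤ 4 ^ (i + 1)`.
Compare `frac_spaced` in `Pool/Agent/Lib_MP_f1a94e_q/S1.lean`. -/
theorem QI_spaced (r l i : ℕ) (hr : 1 ≤ r) :
    Spaced (QI r l i) (fun y => (l : ℝ) / r + (y.2 : ℝ) / y.1) (1 / 4 ^ (i + 1)) := by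
  intro y hy y' hy' hne k
  obtain ⟨h1, h2, h3, h4, -⟩ := mem_QI r l i y hy
  obtain ⟨h1', h2', h3', h4', -⟩ := mem_QI r l i y' hy'
  have hδ : (1 / 4 ^ (i + 1) : ℝ) * (((2 ^ (i + 1) : ℕ) : ℝ)) ^ 2 ≤ 1 := by
    have h5 : (((2 ^ (i + 1) : ℕ) : ℝ)) ^ 2 = 4 ^ (i + 1) := by
      push_cast
      rw [← pow_mul, mul_comm, pow_mul]
      norm_num
    rw [h5, one_div, inv_mul_cancel₀ (by positivity)]
  have hne' : ¬ (y.1 = y'.1 ∧ y.2 = y'.2) := fun h => hne (Prod.ext h.1 h.2)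
  have h5 := Frac_aux hδ (by positivity) (by omega) (by omega) h2.le h2'.le h3 h3' h4 h4' hne' k
  refine h5.trans (le_of_eq ?_)
  congr 1
  ring

/-- `l / r + b / q - z = n / (r q)` with a nonzero integer `n`, and `r q ≤ r 2 ^ (i + 1)`. -/
theorem QI_far (r l i : ℕ) (hr : 1 ≤ r) (y : ℕ × ℕ) (hy : y ∈ QI r l i) (z : ℤ) :
    1 / (r * 2 ^ (i + 1) : ℝ) ≤ |((l : ℝ) / r + (y.2 : ℝ) / y.1) - z| := by
  obtain ⟨h1, h2, h3, h4, h5⟩ := mem_QI r l i y hy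
  have hr0 : (0 : ℝ) < r := by exact_mod_cast hr
  have hq0' : 0 < y.1 := by omega
  have hq0 : (0 : ℝ) < y.1 := by exact_mod_cast hq0'
  have h6 : ((l : ℝ) / r + (y.2 : ℝ) / y.1) - z =
      (((l : ℤ) * y.1 + y.2 * r - z * r * y.1 : ℤ) : ℝ) / (r * y.1) := by
    push_cast
    field_simp
  have h7 : ((l : ℤ) * y.1 + y.2 * r - z * r * y.1) ≠ 0 := by
    intro h0
    apply h5 z
    rw [h0, Int.cast_zero, zero_div] at h6
    linarith
  have h8 : (1 : ℝ) ≤ |(((l : ℤ) * y.1 + y.2 * r - z * r * y.1 : ℤ) : ℝ)| := by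
    have := Int.one_le_abs h7
    exact_mod_cast this
  rw [h6, abs_div, abs_of_pos (mul_pos hr0 hq0)]
  have h9 : (y.1 : ℝ) ≤ 2 ^ (i + 1) := by exact_mod_cast h2.le
  have h10 : (r : ℝ) * y.1 ≤ r * 2 ^ (i + 1) := mul_le_mul_of_nonneg_left h9 hr0.le
  exact div_le_div₀ (by linarith) h8 (mul_pos hr0 hq0) h10

end Pool.Agent.TB
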