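import Pool.Agent.Lib_MP_f1937f_tb.RamExp
import Pool.Agent.Lib_MP_f1937f_tb.Frac

/-!
# Ramanujan sums in arithmetic progressions
-/

set_option autoImplicit false

namespace Pool.Agent.TB

open Finset Pool.Agent.LibLS

theorem Fourier_e_eq_one {x : ℝ} (h : e x = 1) : ∃ n : ℤ, x = n := by
  unfold e at h
  rw [Complex.exp_eq_one_iff] at h
  obtain ⟨n, hn⟩ := h
  refine ⟨n, ?_⟩
  have h1 : Complex.I * ((2 * Real.pi * x : ℝ) : ℂ) = Complex.I * ((2 * Real.pi * n : ℝ) : ℂ) := by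
    rw [hn]; push_cast; ring
  have h2 := mul_left_cancel₀ Complex.I_ne_zero h1
  have h3 := Complex.ofReal_injective h2
  have h4 : (2 * Real.pi) ≠ 0 := by positivity
  exact mul_left_cancel₀ h4 h3

theorem Fourier_div_ind (r : ℕ) (hr : 0 < r) (n : ℤ) :
    ∑ l ∈ range r, e ((l : ℝ) * ((n : ℝ) / r)) = if (r : ℤ) ∣ n then (r : ℂ) else 0 := by
  have hr' : (r : ℝ) ≠ 0 := by positivity
  split_ifs with h
  · obtain ⟨k, rfl⟩ := h
    have h1 : ∀ l ∈ range r, e ((l : ℝ) * ((((r : ℤ) * k : ℤ) : ℝ) / r)) = 1 := by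
      intro l _
      have : (l : ℝ) * ((((r : ℤ) * k : ℤ) : ℝ) / r) = (((l : ℤ) * k : ℤ) : ℝ) := by
        push_cast
        field_simp
      rw [this, e_int]
    rw [sum_congr rfl h1]
    simp
  · have h1 := D_mul r ((n : ℝ) / r)
    have h2 : e ((r : ℝ) * ((n : ℝ) / r)) = 1 := by
      have : (r : ℝ) * ((n : ℝ) / r) = (n : ℤ) := by field_simp
      rw [this, e_int]
    rw [h2, sub_self] at h1
    rcases mul_eq_zero.1 h1 with h3 | h3
    · exact h3
    · exfalso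
      obtain ⟨m, hm⟩ := Fourier_e_eq_one (sub_eq_zero.1 h3)
      apply h
      refine ⟨m, ?_⟩
      rw [div_eq_iff hr'] at hm
      have : (n : ℝ) = (((r : ℤ) * m : ℤ) : ℝ) := by rw [hm]; push_cast; ring
      exact_mod_cast this

/-- the pairs `(q, b)` -/
def FourierP (i : ℕ) : Finset (ℕ × ℕ) :=
  ((Ico (2 ^ i) (2 ^ (i + 1))) ×ˢ (range (2 ^ (i + 1)))).filter
      (fun y => y.2 < y.1 ∧ y.2.Coprime y.1)

theorem Fourier_sumP (i : ℕ) (g : ℕ → ℕ → ℂ) :
    ∑ q ∈ Ico (2 ^ i) (2 ^ (i + 1)), ∑ b ∈ (range q).filter (fun b => b.Coprime q), g q b =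
      ∑ y ∈ FourierP i, g y.1 y.2 := by
  unfold FourierP
  rw [sum_filter, sum_product]
  refine sum_congr rfl fun q hq => ?_
  rw [← sum_filter]
  refine sum_congr ?_ fun _ _ => rfl
  ext b
  simp only [mem_filter, mem_range, mem_Ico] at hq ⊢
  constructor
  · rintro ⟨h1, h2⟩
    exact ⟨by omega, h1, h2⟩
  · rintro ⟨_, h1, h2⟩
    exact ⟨h1, h2⟩

theorem Fourier_res_iff {r q : ℕ} (hr : 0 < r) (hq : 0 < q) (l b : ℕ) (z : ℤ) :
    (l : ℝ) / r + (b : ℝ) / q = z ↔ (l : ℤ) * q + b * r = z * (r * q) := by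
  have hr' : (r : ℝ) ≠ 0 := by positivity
  have hq' : (q : ℝ) ≠ 0 := by positivity
  rw [div_add_div _ _ hr' hq', div_eq_iff (mul_ne_zero hr' hq')]
  constructor
  · intro h
    have : (((l : ℤ) * q + b * r : ℤ) : ℝ) = ((z * (r * q) : ℤ) : ℝ) := by
      push_cast
      rw [← h]; ring
    exact_mod_cast this
  · intro h
    have : (((l : ℤ) * q + b * r : ℤ) : ℝ) = ((z * (r * q) : ℤ) : ℝ) := by rw [h]
    push_cast at this
    rw [← this]; ring

open Classical in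
theorem Fourier_count {r q : ℕ} (hr : 0 < r) (hq : 0 < q) (b : ℕ) (hb : b < q)
    (hc : b.Coprime q) :
    (∑ l ∈ range r, if (∃ z : ℤ, (l : ℝ) / r + (b : ℝ) / q = z) then (1 : ℂ) else 0) =
      if q ∣ r then 1 else 0 := by
  have key : ∀ l : ℕ, (∃ z : ℤ, (l : ℝ) / r + (b : ℝ) / q = z) ↔
      ∃ z : ℤ, (l : ℤ) * q + b * r = z * (r * q) := by
    intro l
    exact exists_congr fun z => Fourier_res_iff hr hq l b z
  simp only [key]
  split_ifs with h
  · obtain ⟨k, rfl⟩ := h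
    have hk : 0 < k := Nat.pos_of_mul_pos_left hr |> fun _ => by
      rcases Nat.eq_zero_or_pos k with h0 | h0
      · subst h0; simp at hr
      · exact h0
    have hbk : b * k < q * k := Nat.mul_lt_mul_of_pos_right hb hk
    rw [sum_ite, sum_const_zero, add_zero, sum_const]
    have hcard : ((range (q * k)).filter fun l : ℕ =>
        ∃ z : ℤ, (l : ℤ) * q + b * ((q * k : ℕ) : ℤ) = z * (((q * k : ℕ) : ℤ) * q)).card = 1 := by
      rw [card_eq_one]
      refine ⟨(q * k - b * k) % (q * k), ?_⟩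
      ext l
      simp only [mem_filter, mem_range, mem_singleton]
      constructor
      · rintro ⟨hl, z, hz⟩
        have h1 : (l : ℤ) + b * k = z * (q * k) := by
          have hq0 : (q : ℤ) ≠ 0 := by positivity
          apply mul_left_cancel₀ hq0
          push_cast at hz
          linarith
        have h2 : z = 0 ∨ z = 1 := by
          have h3 : (0 : ℤ) ≤ l + b * k := by positivity
          have h4 : (l : ℤ) + b * k < 2 * (q * k) := by
            have : ((b * k : ℕ) : ℤ) < ((q * k : ℕ) : ℤ) := by exact_mod_cast hbk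
            have : ((l : ℕ) : ℤ) < ((q * k : ℕ) : ℤ) := by exact_mod_cast hl
            push_cast at *
            linarith
          have h5 : (0 : ℤ) < q * k := by positivity
          rw [h1] at h3 h4
          have h6 : z < 2 := lt_of_mul_lt_mul_right h4 h5.le
          have h7 : 0 ≤ z := by
            by_contra hneg
            rw [not_le] at hneg
            nlinarith
          omega
        rcases h2 with h2 | h2
        · subst h2
          have h3 : (l : ℤ) + b * k = 0 := by rw [h1]; ring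
          have h4 : l = 0 ∧ b * k = 0 := by
            have h5 : (l : ℤ) = 0 := by
              have : (0 : ℤ) ≤ (b : ℤ) * k := by positivity
              have : (0 : ℤ) ≤ (l : ℤ) := by positivity
              linarith
            have h6 : ((b * k : ℕ) : ℤ) = 0 := by push_cast; linarith
            exact ⟨by exact_mod_cast h5, by exact_mod_cast h6⟩
          rw [h4.1, h4.2]
          simp
        · subst h2
          have h3 : l + b * k = q * k := by
            have : ((l + b * k : ℕ) : ℤ) = ((q * k : ℕ) : ℤ) := by push_cast; linarith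
            exact_mod_cast this
          have h4 : q * k - b * k = l := by omega
          rw [h4, Nat.mod_eq_of_lt hl]
      · rintro rfl
        refine ⟨Nat.mod_lt _ hr, ?_⟩
        rcases Nat.eq_zero_or_pos (b * k) with h0 | h0
        · refine ⟨0, ?_⟩
          have hb0 : b = 0 := by
            rcases Nat.mul_eq_zero.1 h0 with h1 | h1
            · exact h1
            · omega
          subst hb0
          simp
        · refine ⟨1, ?_⟩
          rw [Nat.mod_eq_of_lt (by omega)]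
          push_cast [Nat.cast_sub hbk.le]
          ring
    rw [hcard]
    simp
  · rw [sum_ite, sum_const_zero, add_zero, sum_const]
    have hcard : ((range r).filter fun l : ℕ =>
        ∃ z : ℤ, (l : ℤ) * q + b * (r : ℤ) = z * ((r : ℤ) * q)) = ∅ := by
      rw [filter_eq_empty_iff]
      rintro l _ ⟨z, hz⟩
      apply h
      have h1 : (q : ℤ) ∣ b * r := by
        refine ⟨z * r - l, ?_⟩
        linarith
      have h2 : q ∣ b * r := by exact_mod_cast h1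
      exact (Nat.Coprime.dvd_of_dvd_mul_left (Nat.coprime_comm.1 hc) h2)
    rw [hcard]
    simp

/-- the Fourier transform of `f` -/
noncomputable def FourierF (X : ℕ) (f : ℤ → ℝ) (α : ℝ) : ℂ :=
  ∑ x ∈ Icc (-(X : ℤ)) X, (f x : ℂ) * e ((x : ℝ) * α)

theorem FourierF_int (X : ℕ) (f : ℤ → ℝ) (z : ℤ) :
    FourierF X f z = ((∑ x ∈ Icc (-(X : ℤ)) X, f x : ℝ) : ℂ) := by
  unfold FourierF
  push_cast
  refine sum_congr rfl fun x _ => ?_
  have : (x : ℝ) * (z : ℝ) = ((x * z : ℤ) : ℝ) := by push_cast; ring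
  rw [this, e_int, mul_one]

theorem Fourier_expand (r : ℕ) (hr : 0 < r) (s : ℤ) (i X : ℕ) (f : ℤ → ℝ) :
    ((∑ x ∈ (Icc (-(X : ℤ)) X).filter (fun x => (r : ℤ) ∣ x - s),
        f x * ∑ q ∈ Ico (2 ^ i) (2 ^ (i + 1)), ram q x : ℝ) : ℂ) =
      1 / r * ∑ l ∈ range r, ∑ y ∈ FourierP i,
        e (-((l : ℝ) * s / r)) * FourierF X f ((l : ℝ) / r + (y.2 : ℝ) / y.1) := by
  have hr0 : (r : ℂ) ≠ 0 := by exact_mod_cast hr.ne'
  have h1 : ∀ x : ℤ, ((∑ q ∈ Ico (2 ^ i) (2 ^ (i + 1)), ram q x : ℝ) : ℂ) =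
      ∑ y ∈ FourierP i, e ((x : ℝ) * ((y.2 : ℝ) / y.1)) := by
    intro x
    rw [← Fourier_sumP i (fun q b => e ((x : ℝ) * ((b : ℝ) / q)))]
    push_cast
    refine sum_congr rfl fun q hq => ?_
    exact ram_exp q (lt_of_lt_of_le (by positivity) (mem_Ico.1 hq).1) x
  push_cast
  rw [sum_filter]
  have h2 : ∀ x : ℤ, (if (r : ℤ) ∣ x - s then (f x : ℂ) * ∑ q ∈ Ico (2 ^ i) (2 ^ (i + 1)),
      (ram q x : ℂ) else 0) =
      1 / r * ∑ l ∈ range r, ∑ y ∈ FourierP i,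
        e (-((l : ℝ) * s / r)) * ((f x : ℂ) * e ((x : ℝ) * ((l : ℝ) / r + (y.2 : ℝ) / y.1))) := by
    intro x
    have h3 := h1 x
    push_cast at h3
    rw [h3]
    have h4 := Fourier_div_ind r hr (x - s)
    have h5 : (if (r : ℤ) ∣ x - s then (f x : ℂ) * ∑ y ∈ FourierP i,
        e ((x : ℝ) * ((y.2 : ℝ) / y.1)) else 0) =
        1 / r * ((if (r : ℤ) ∣ x - s then (r : ℂ) else 0) *
          ((f x : ℂ) * ∑ y ∈ FourierP i, e ((x : ℝ) * ((y.2 : ℝ) / y.1)))) := by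
      split_ifs
      · field_simp
      · simp
    rw [h5, ← h4, sum_mul]
    congr 1
    refine sum_congr rfl fun l _ => ?_
    rw [mul_sum, mul_sum]
    refine sum_congr rfl fun y _ => ?_
    have h6 : e ((l : ℝ) * (((x - s : ℤ) : ℝ) / r)) * e ((x : ℝ) * ((y.2 : ℝ) / y.1)) =
        e (-((l : ℝ) * s / r)) * e ((x : ℝ) * ((l : ℝ) / r + (y.2 : ℝ) / y.1)) := by
      rw [← e_add, ← e_add]
      congr 1
      push_cast
      ring
    calc _ = (f x : ℂ) * (e ((l : ℝ) * (((x - s : ℤ) : ℝ) / r)) *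
          e ((x : ℝ) * ((y.2 : ℝ) / y.1))) := by ring
      _ = _ := by rw [h6]; ring
  rw [sum_congr rfl fun x _ => h2 x, ← mul_sum, sum_comm]
  congr 1
  refine sum_congr rfl fun l _ => ?_
  rw [sum_comm]
  refine sum_congr rfl fun y _ => ?_
  unfold FourierF
  rw [mul_sum]

open Classical in
theorem Fourier_resonant (r : ℕ) (hr : 0 < r) (s : ℤ) (i X : ℕ) (f : ℤ → ℝ) :
    ∑ l ∈ range r, ∑ y ∈ (FourierP i).filter
        (fun y => ∃ z : ℤ, (l : ℝ) / r + (y.2 : ℝ) / y.1 = z),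
        e (-((l : ℝ) * s / r)) * FourierF X f ((l : ℝ) / r + (y.2 : ℝ) / y.1) =
      (((∑ q ∈ (Ico (2 ^ i) (2 ^ (i + 1))).filter (· ∣ r), ram q s) *
        ∑ x ∈ Icc (-(X : ℤ)) X, f x : ℝ) : ℂ) := by
  have h1 : ∀ l ∈ range r, ∀ y ∈ (FourierP i).filter
        (fun y => ∃ z : ℤ, (l : ℝ) / r + (y.2 : ℝ) / y.1 = z),
      e (-((l : ℝ) * s / r)) * FourierF X f ((l : ℝ) / r + (y.2 : ℝ) / y.1) =
        e ((s : ℝ) * ((y.2 : ℝ) / y.1)) * ((∑ x ∈ Icc (-(X : ℤ)) X, f x : ℝ) : ℂ) := by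
    intro l _ y hy
    obtain ⟨_, z, hz⟩ := mem_filter.1 hy
    rw [hz, FourierF_int]
    congr 1
    have : -((l : ℝ) * s / r) = (s : ℝ) * ((y.2 : ℝ) / y.1) + ((-(s * z) : ℤ) : ℝ) := by
      push_cast
      rw [← hz]
      ring
    rw [this, e_add_int]
  rw [sum_congr rfl fun l hl => sum_congr rfl (h1 l hl)]
  have h2 : ∀ l ∈ range r, ∑ y ∈ (FourierP i).filter
        (fun y => ∃ z : ℤ, (l : ℝ) / r + (y.2 : ℝ) / y.1 = z),
      e ((s : ℝ) * ((y.2 : ℝ) / y.1)) * ((∑ x ∈ Icc (-(X : ℤ)) X, f x : ℝ) : ℂ) =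
      ∑ y ∈ FourierP i, (if (∃ z : ℤ, (l : ℝ) / r + (y.2 : ℝ) / y.1 = z) then (1 : ℂ) else 0) *
        (e ((s : ℝ) * ((y.2 : ℝ) / y.1)) * ((∑ x ∈ Icc (-(X : ℤ)) X, f x : ℝ) : ℂ)) := by
    intro l _
    rw [sum_filter]
    refine sum_congr rfl fun y _ => ?_
    split_ifs <;> simp
  rw [sum_congr rfl h2, sum_comm]
  have h3 : ∀ y ∈ FourierP i, ∑ l ∈ range r,
      (if (∃ z : ℤ, (l : ℝ) / r + (y.2 : ℝ) / y.1 = z) then (1 : ℂ) else 0) *
        (e ((s : ℝ) * ((y.2 : ℝ) / y.1)) * ((∑ x ∈ Icc (-(X : ℤ)) X, f x : ℝ) : ℂ)) =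
      (if y.1 ∣ r then 1 else 0) *
        (e ((s : ℝ) * ((y.2 : ℝ) / y.1)) * ((∑ x ∈ Icc (-(X : ℤ)) X, f x : ℝ) : ℂ)) := by
    intro y hy
    unfold FourierP at hy
    simp only [mem_filter, mem_product, mem_Ico, mem_range] at hy
    rw [← sum_mul, Fourier_count hr (by omega) y.2 hy.2.1 hy.2.2]
  rw [sum_congr rfl h3]
  rw [← Fourier_sumP i (fun q b => (if q ∣ r then 1 else 0) *
        (e ((s : ℝ) * ((b : ℝ) / q)) * ((∑ x ∈ Icc (-(X : ℤ)) X, f x : ℝ) : ℂ)))]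
  generalize (∑ x ∈ Icc (-(X : ℤ)) X, f x) = F
  rw [Complex.ofReal_mul, sum_filter, Complex.ofReal_sum, sum_mul]
  refine sum_congr rfl fun q hq => ?_
  rw [← mul_sum, ← sum_mul]
  rw [← ram_exp q (lt_of_lt_of_le (by positivity) (mem_Ico.1 hq).1) s]
  split_ifs <;> simp

/-- PIECE [TB-F4] (about 150 lines). PROOF. For one `q`: by `ram_exp` and `[r ∣ x - s] = (1 / r) ∑ l < r, e (l (x - s) / r)`,
`∑ x, [r ∣ x - s] f x ram q x = (1 / r) ∑ l < r, e (- l s / r) ∑ b (coprime), ∑ x, f x e (x (l / r + b / q))`.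
Resonant pairs `(l, b)`, i.e. `l / r + b / q = z` an integer: as `b / q` is reduced and `= (z r - l) / r`, they exist only if `q ∣ r`; if
`q ∣ r`, for every `b` there is exactly one `l < r` (`l ≡ - b (r / q) mod r`). For them `e (x (l / r + b / q)) = 1` and
`e (- l s / r) = e (s b / q)`, so together they give `(1 / r) ∑ b, e (s b / q) ∑ x, f x = ram q s / r * ∑ x, f x`. The nonresonant
pairs are bounded by the triangle inequality. Sum over `q`; the nonresonant pairs with fixed `l` are the elements of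
`QI r l i`. -/
theorem fourier (r : ℕ) (hr : 1 ≤ r) (s : ℤ) (i X : ℕ) (f : ℤ → ℝ) :
    |∑ x ∈ (Icc (-(X : ℤ)) X).filter (fun x => (r : ℤ) ∣ x - s), f x * ∑ q ∈ Ico (2 ^ i) (2 ^ (i + 1)), ram q x -
        (∑ q ∈ (Ico (2 ^ i) (2 ^ (i + 1))).filter (· ∣ r), ram q s) / r * ∑ x ∈ Icc (-(X : ℤ)) X, f x| ≤
      1 / r * ∑ l ∈ range r, ∑ y ∈ QI r l i,
        ‖∑ x ∈ Icc (-(X : ℤ)) X, (f x : ℂ) * e ((x : ℝ) * ((l : ℝ) / r + (y.2 : ℝ) / y.1))‖ := by
  classical
  have hr0 : 0 < r := hr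
  have hrR : (0 : ℝ) < r := by exact_mod_cast hr0
  have hA := Fourier_expand r hr0 s i X f
  have hB := Fourier_resonant r hr0 s i X f
  have hQ : ∀ l : ℕ, QI r l i = (FourierP i).filter
      (fun y => ¬ ∃ z : ℤ, (l : ℝ) / r + (y.2 : ℝ) / y.1 = z) := by
    intro l
    ext y
    simp only [QI, FourierP, mem_filter, not_exists, ne_eq, and_assoc]
  have hsplit : ∑ l ∈ range r, ∑ y ∈ FourierP i,
        e (-((l : ℝ) * s / r)) * FourierF X f ((l : ℝ) / r + (y.2 : ℝ) / y.1) =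
      ∑ l ∈ range r, ∑ y ∈ (FourierP i).filter
        (fun y => ∃ z : ℤ, (l : ℝ) / r + (y.2 : ℝ) / y.1 = z),
        e (-((l : ℝ) * s / r)) * FourierF X f ((l : ℝ) / r + (y.2 : ℝ) / y.1) +
      ∑ l ∈ range r, ∑ y ∈ QI r l i,
        e (-((l : ℝ) * s / r)) * FourierF X f ((l : ℝ) / r + (y.2 : ℝ) / y.1) := by
    rw [← sum_add_distrib]
    refine sum_congr rfl fun l _ => ?_
    rw [hQ, sum_filter_add_sum_filter_not]
  have hfin : ((∑ x ∈ (Icc (-(X : ℤ)) X).filter (fun x => (r : ℤ) ∣ x - s),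
        f x * ∑ q ∈ Ico (2 ^ i) (2 ^ (i + 1)), ram q x -
        (∑ q ∈ (Ico (2 ^ i) (2 ^ (i + 1))).filter (· ∣ r), ram q s) / r *
          ∑ x ∈ Icc (-(X : ℤ)) X, f x : ℝ) : ℂ) =
      1 / r * ∑ l ∈ range r, ∑ y ∈ QI r l i,
        e (-((l : ℝ) * s / r)) * FourierF X f ((l : ℝ) / r + (y.2 : ℝ) / y.1) := by
    have h1 : ((∑ q ∈ (Ico (2 ^ i) (2 ^ (i + 1))).filter (· ∣ r), ram q s) / r *
          ∑ x ∈ Icc (-(X : ℤ)) X, f x : ℝ) = 1 / r * ((∑ q ∈ (Ico (2 ^ i) (2 ^ (i + 1))).filter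
            (· ∣ r), ram q s) * ∑ x ∈ Icc (-(X : ℤ)) X, f x) := by ring
    rw [Complex.ofReal_sub, hA, h1, Complex.ofReal_mul, ← hB, hsplit]
    push_cast
    ring
  have hn : |∑ x ∈ (Icc (-(X : ℤ)) X).filter (fun x => (r : ℤ) ∣ x - s),
        f x * ∑ q ∈ Ico (2 ^ i) (2 ^ (i + 1)), ram q x -
        (∑ q ∈ (Ico (2 ^ i) (2 ^ (i + 1))).filter (· ∣ r), ram q s) / r *
          ∑ x ∈ Icc (-(X : ℤ)) X, f x| =
      ‖((∑ x ∈ (Icc (-(X : ℤ)) X).filter (fun x => (r : ℤ) ∣ x - s),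
        f x * ∑ q ∈ Ico (2 ^ i) (2 ^ (i + 1)), ram q x -
        (∑ q ∈ (Ico (2 ^ i) (2 ^ (i + 1))).filter (· ∣ r), ram q s) / r *
          ∑ x ∈ Icc (-(X : ℤ)) X, f x : ℝ) : ℂ)‖ := by
    rw [Complex.norm_real, Real.norm_eq_abs]
  rw [hn, hfin, norm_mul]
  have h1 : ‖(1 / r : ℂ)‖ = 1 / r := by simp
  rw [h1]
  refine mul_le_mul_of_nonneg_left ?_ (by positivity)
  refine (norm_sum_le _ _).trans (sum_le_sum fun l _ => ?_)
  refine (norm_sum_le _ _).trans (sum_le_sum fun y _ => ?_)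
  rw [norm_mul, norm_e, one_mul]
  exact le_rfl

end Pool.Agent.TB
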