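import Pool.Agent.Lib_MP_f1937f_tb.Defs

/-!
# The weight of the residue classes modulo M
-/

set_option autoImplicit false

namespace Pool.Agent.TB

open Finset

/-- `uG` has period `M` and mean value one. PIECE [TB-B5] (about 60 lines). PROOF. The first claims are immediate from the
definition (`(t : ZMod M) = (t' : ZMod M)`; the first cardinality is at most the second, which is positive; positivity: the
element `g`). Sum over `r`: the sets `{g ∈ G : tr g = r}`, `r < M`, partition `G`. -/
theorem uG_facts (M : ℕ) (hM : 0 < M) (G : Subgroup (GL (Fin 2) (ZMod M))) :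
    (∀ t t' : ℤ, (M : ℤ) ∣ t - t' → uG M G t = uG M G t') ∧ (∀ t, 0 ≤ uG M G t ∧ uG M G t ≤ M) ∧
      (∑ r ∈ range M, uG M G (r : ℤ) = M) ∧
      (∀ t : ℤ, (∃ g ∈ G, g.val.trace = (t : ZMod M)) → 0 < uG M G t) := by
  classical
  have : NeZero M := ⟨hM.ne'⟩
  have : Finite (GL (Fin 2) (ZMod M)) := inferInstance
  have : Fintype (GL (Fin 2) (ZMod M)) := Fintype.ofFinite _
  have hN : 0 < Nat.card {g : GL (Fin 2) (ZMod M) // g ∈ G} := by
    have : Nonempty {g : GL (Fin 2) (ZMod M) // g ∈ G} := ⟨⟨1, G.one_mem⟩⟩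
    exact Nat.card_pos
  have hN' : (0 : ℝ) < (Nat.card {g : GL (Fin 2) (ZMod M) // g ∈ G} : ℝ) := by
    exact_mod_cast hN
  have hM' : (0 : ℝ) < (M : ℝ) := by exact_mod_cast hM
  refine ⟨?_, ?_, ?_, ?_⟩
  · intro t t' h
    have h1 : (t : ZMod M) = (t' : ZMod M) := by
      rw [← sub_eq_zero, ← Int.cast_sub]
      exact (ZMod.intCast_zmod_eq_zero_iff_dvd _ _).2 h
    unfold uG
    rw [h1]
  · intro t
    unfold uG
    refine ⟨by positivity, ?_⟩
    rw [div_le_iff₀ hN']
    refine mul_le_mul_of_nonneg_left ?_ hM'.le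
    have h2 : Nat.card {g : GL (Fin 2) (ZMod M) // g ∈ G ∧ g.val.trace = (t : ZMod M)} ≤
        Nat.card {g : GL (Fin 2) (ZMod M) // g ∈ G} := by
      refine Nat.card_le_card_of_injective (fun g => ⟨g.1, g.2.1⟩) ?_
      intro a b hab
      exact Subtype.ext (Subtype.mk.inj hab)
    exact_mod_cast h2
  · have h3 : ∑ r ∈ range M,
        Nat.card {g : GL (Fin 2) (ZMod M) // g ∈ G ∧ g.val.trace = (((r : ℕ) : ℤ) : ZMod M)} =
        Nat.card {g : GL (Fin 2) (ZMod M) // g ∈ G} := by
      have h4 : Nat.card {g : GL (Fin 2) (ZMod M) // g ∈ G} =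
          (univ.filter (fun g : GL (Fin 2) (ZMod M) => g ∈ G)).card := by
        rw [Nat.card_eq_fintype_card, Fintype.card_subtype]
      rw [h4, card_eq_sum_card_fiberwise (f := fun g : GL (Fin 2) (ZMod M) => (g.val.trace).val)
        (t := range M) (by
          intro g _
          simp only [coe_range, Set.mem_Iio]
          exact ZMod.val_lt _)]
      refine sum_congr rfl ?_
      intro r hr
      rw [Nat.card_eq_fintype_card, Fintype.card_subtype]
      congr 1
      ext g
      simp only [mem_filter, mem_univ, true_and]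
      refine and_congr_right (fun _ => ?_)
      have hr' : r < M := mem_range.1 hr
      constructor
      · intro h
        rw [h]
        push_cast
        exact ZMod.val_cast_of_lt hr'
      · intro h
        rw [← h]
        push_cast
        exact (ZMod.natCast_zmod_val _).symm
    unfold uG
    rw [← sum_div, ← mul_sum, ← Nat.cast_sum, h3, mul_div_assoc, div_self hN'.ne', mul_one]
  · rintro t ⟨g, hg, hgt⟩
    have h5 : 0 < Nat.card {g : GL (Fin 2) (ZMod M) // g ∈ G ∧ g.val.trace = (t : ZMod M)} := by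
      have : Nonempty {g : GL (Fin 2) (ZMod M) // g ∈ G ∧ g.val.trace = (t : ZMod M)} :=
        ⟨⟨g, hg, hgt⟩⟩
      exact Nat.card_pos
    have h5' : (0 : ℝ) <
        (Nat.card {g : GL (Fin 2) (ZMod M) // g ∈ G ∧ g.val.trace = (t : ZMod M)} : ℝ) := by
      exact_mod_cast h5
    unfold uG
    positivity

end Pool.Agent.TB
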