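import Pool.Agent.Lib_MP_f1937f_tb.GlFiber
import Pool.Agent.Lib_MP_f1937f_tb.DlSum
import Pool.Agent.Lib_MP_f1937f_tb.UG

/-!
# The densities in closed form
-/

set_option autoImplicit false

namespace Pool.Agent.TB

open Finset

private theorem GlDens_trace {M m : ℕ} (h : M ∣ m) (g : GL (Fin 2) (ZMod m)) :
    (Matrix.GeneralLinearGroup.map (ZMod.castHom h (ZMod M)) g).val.trace =
      ZMod.castHom h (ZMod M) g.val.trace := by
  rw [Matrix.trace_fin_two, Matrix.trace_fin_two, map_add]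
  rfl

/-- counting by fibres -/
private theorem GlDens_card (M m : ℕ) (hM : 0 < M) (hm : 0 < m) (h : M ∣ m)
    (G : Subgroup (GL (Fin 2) (ZMod M))) (t : ℤ) :
    (Nat.card {g : GL (Fin 2) (ZMod m) // g ∈ liftG M m h G ∧ g.val.trace = (t : ZMod m)} : ℝ) =
      (Nat.card {g : GL (Fin 2) (ZMod M) // g ∈ G ∧ g.val.trace = (t : ZMod M)} : ℝ) *
        (((m : ℝ) / M) ^ 3 * ∏ l ∈ m.primeFactors \ M.primeFactors,
          (1 - 1 / (l : ℝ) - if (l : ℤ) ∣ t then 0 else 1 / (l : ℝ) ^ 2)) := by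
  classical
  have : NeZero M := ⟨hM.ne'⟩
  have : NeZero m := ⟨hm.ne'⟩
  have key : ∀ g : GL (Fin 2) (ZMod m), g ∈ liftG M m h G ∧ g.val.trace = (t : ZMod m) →
      Matrix.GeneralLinearGroup.map (ZMod.castHom h (ZMod M)) g ∈ G ∧
        (Matrix.GeneralLinearGroup.map (ZMod.castHom h (ZMod M)) g).val.trace = (t : ZMod M) := by
    intro g hg
    refine ⟨hg.1, ?_⟩
    rw [GlDens_trace, hg.2, map_intCast]
  let f : {g : GL (Fin 2) (ZMod m) // g ∈ liftG M m h G ∧ g.val.trace = (t : ZMod m)} →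
      {g : GL (Fin 2) (ZMod M) // g ∈ G ∧ g.val.trace = (t : ZMod M)} :=
    fun g => ⟨Matrix.GeneralLinearGroup.map (ZMod.castHom h (ZMod M)) g.1, key g.1 g.2⟩
  have : Fintype {g : GL (Fin 2) (ZMod M) // g ∈ G ∧ g.val.trace = (t : ZMod M)} :=
    Fintype.ofFinite _
  have h1 : Nat.card {g : GL (Fin 2) (ZMod m) // g ∈ liftG M m h G ∧ g.val.trace = (t : ZMod m)} =
      ∑ y : {g : GL (Fin 2) (ZMod M) // g ∈ G ∧ g.val.trace = (t : ZMod M)},
        Nat.card {x // f x = y} := by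
    rw [← Nat.card_sigma]
    exact (Nat.card_congr (Equiv.sigmaFiberEquiv f)).symm
  have h2 : ∀ y : {g : GL (Fin 2) (ZMod M) // g ∈ G ∧ g.val.trace = (t : ZMod M)},
      (Nat.card {x // f x = y} : ℝ) = (((m : ℝ) / M) ^ 3 * ∏ l ∈ m.primeFactors \ M.primeFactors,
        (1 - 1 / (l : ℝ) - if (l : ℤ) ∣ t then 0 else 1 / (l : ℝ) ^ 2)) := by
    intro y
    rw [← card_fiber M m hm h t y.1 y.2.2]
    congr 1
    refine Nat.card_congr ⟨fun x => ⟨x.1.1, congrArg Subtype.val x.2, x.1.2.2⟩,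
      fun x => ⟨⟨x.1, ?_, x.2.2⟩, Subtype.ext x.2.1⟩, fun x => rfl, fun x => rfl⟩
    show Matrix.GeneralLinearGroup.map (ZMod.castHom h (ZMod M)) x.1 ∈ G
    rw [x.2.1]
    exact y.2.1
  rw [h1, Nat.cast_sum, Finset.sum_congr rfl fun y _ => h2 y, Finset.sum_const, nsmul_eq_mul,
    Finset.card_univ, Nat.card_eq_fintype_card]

/-- the total number -/
private theorem GlDens_total (M m : ℕ) (hm : 0 < m) (h : M ∣ m)
    (G : Subgroup (GL (Fin 2) (ZMod M))) :
    (Nat.card {g : GL (Fin 2) (ZMod m) // g ∈ liftG M m h G} : ℝ) =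
      ∑ t ∈ range m, (Nat.card {g : GL (Fin 2) (ZMod m) // g ∈ liftG M m h G ∧
        g.val.trace = (((t : ℕ) : ℤ) : ZMod m)} : ℝ) := by
  classical
  have : NeZero m := ⟨hm.ne'⟩
  let f : {g : GL (Fin 2) (ZMod m) // g ∈ liftG M m h G} → ZMod m := fun g => g.1.val.trace
  have h1 : Nat.card {g : GL (Fin 2) (ZMod m) // g ∈ liftG M m h G} =
      ∑ y : ZMod m, Nat.card {x // f x = y} := by
    rw [← Nat.card_sigma]
    exact (Nat.card_congr (Equiv.sigmaFiberEquiv f)).symm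
  have h2 : ∀ y : ZMod m, Nat.card {x // f x = y} =
      Nat.card {g : GL (Fin 2) (ZMod m) // g ∈ liftG M m h G ∧ g.val.trace = y} := by
    intro y
    exact Nat.card_congr ⟨fun x => ⟨x.1.1, x.1.2, x.2⟩, fun x => ⟨⟨x.1, x.2.1⟩, x.2.2⟩,
      fun x => rfl, fun x => rfl⟩
  rw [h1, Nat.cast_sum]
  refine Finset.sum_nbij' (fun s => s.val) (fun t => ((t : ℕ) : ZMod m)) ?_ ?_ ?_ ?_ ?_
  · intro s _
    exact Finset.mem_range.2 (ZMod.val_lt s)
  · intro t _
    exact Finset.mem_univ _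
  · intro s _
    exact ZMod.natCast_zmod_val s
  · intro t ht
    exact ZMod.val_natCast_of_lt (Finset.mem_range.1 ht)
  · intro s _
    rw [h2]
    have h3 : (((s.val : ℕ) : ℤ) : ZMod m) = s := by
      rw [Int.cast_natCast, ZMod.natCast_zmod_val]
    rw [h3]

private theorem GlDens_pos {l : ℕ} (hl2 : 2 ≤ l) : 0 < (l : ℝ) ^ 2 - l - 1 := by
  have h : (2 : ℝ) ≤ l := by exact_mod_cast hl2
  nlinarith

private theorem GlDens_one (l : ℕ) (hl2 : 2 ≤ l) (t : ℤ) :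
    (1 - 1 / (l : ℝ) - if (l : ℤ) ∣ t then 0 else 1 / (l : ℝ) ^ 2) =
      ((l : ℝ) ^ 2 - l - 1) / (l : ℝ) ^ 2 * (1 + hl l / l) * loc l t := by
  have h0 : (0 : ℝ) < l := by
    have : 0 < l := by omega
    exact_mod_cast this
  have h1 := GlDens_pos hl2
  have h2 : (0 : ℝ) < 1 + hl l / l := by
    have : 0 < hl l := by unfold hl; positivity
    positivity
  unfold loc
  rw [mul_assoc, mul_div_cancel₀ _ h2.ne']
  obtain ⟨D, hD⟩ : ∃ D : ℝ, D = (l : ℝ) ^ 2 - l - 1 := ⟨_, rfl⟩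
  unfold hl
  rw [← hD] at h1 ⊢
  split_ifs with h3
  · field_simp
    rw [hD]
    ring
  · field_simp
    rw [hD]
    ring

/-- PIECE [TB-B6] (about 120 lines). PROOF. By `card_fiber` (sum over `g₀ ∈ G`; only the `g₀` of trace `t mod M` contribute, the
others have an empty fibre) the number of elements of trace `t` in `liftG M m h G` is
`#{g₀ ∈ G : tr g₀ = t} * (m / M) ^ 3 * ∏ l ∈ 𝒬, (1 - 1 / l - [l ∤ t] / l ^ 2)`, and
`1 - 1 / l - [l ∤ t] / l ^ 2 = ((l ^ 2 - l - 1) / l ^ 2) * (1 + [l ∣ t] hl l)` (`l ^ 2 - l - 1 > 0`). So it is `B * dl M (uG M G) m t` with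
`B = (#G / M) * (m / M) ^ 3 * m * ∏ l ∈ 𝒬, ((l ^ 2 - l - 1) / l ^ 2) * (1 + hl l / l)`, which does not depend on `t` and is
positive. Summing over the residue classes `t` modulo `m` (`dl_sum`, `uG_facts`) the number of elements of `liftG M m h G` is `B`. -/
theorem dens_eq (M m : ℕ) (hM : 0 < M) (hm : 0 < m) (h : M ∣ m) (G : Subgroup (GL (Fin 2) (ZMod M))) (t : ℤ) :
    dens M m h G (t : ZMod m) = dl M (uG M G) m t := by
  have hu := uG_facts M hM G
  have hM' : (0 : ℝ) < M := by exact_mod_cast hM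
  have hm' : (0 : ℝ) < m := by exact_mod_cast hm
  have : NeZero M := ⟨hM.ne'⟩
  have : Nonempty {g : GL (Fin 2) (ZMod M) // g ∈ G} := ⟨⟨1, G.one_mem⟩⟩
  have hG : (0 : ℝ) < (Nat.card {g : GL (Fin 2) (ZMod M) // g ∈ G} : ℝ) := by
    exact_mod_cast Nat.card_pos
  have hprime : ∀ l ∈ m.primeFactors \ M.primeFactors, 2 ≤ l := fun l hl =>
    (Nat.prime_of_mem_primeFactors (Finset.mem_sdiff.1 hl).1).two_le
  obtain ⟨B, hB⟩ : ∃ B : ℝ, B = (Nat.card {g : GL (Fin 2) (ZMod M) // g ∈ G} : ℝ) / M *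
      ((m : ℝ) / M) ^ 3 * m * ∏ l ∈ m.primeFactors \ M.primeFactors,
        (((l : ℝ) ^ 2 - l - 1) / (l : ℝ) ^ 2 * (1 + hl l / l)) := ⟨_, rfl⟩
  have hBpos : 0 < B := by
    rw [hB]
    refine mul_pos (by positivity) (Finset.prod_pos fun l hlm => ?_)
    have h1 := GlDens_pos (hprime l hlm)
    have h2 : (0 : ℝ) < l := by
      have : 0 < l := by have := hprime l hlm; omega
      exact_mod_cast this
    have h3 : 0 < hl l := by
      unfold hl
      positivity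
    positivity
  have hnum : ∀ t : ℤ, (Nat.card {g : GL (Fin 2) (ZMod m) // g ∈ liftG M m h G ∧
      g.val.trace = (t : ZMod m)} : ℝ) = B * dl M (uG M G) m t := by
    intro t
    rw [GlDens_card M m hM hm h G t, Finset.prod_congr rfl fun l hl =>
      GlDens_one l (hprime l hl) t, Finset.prod_mul_distrib, hB]
    unfold dl uG
    field_simp
  have htot : (Nat.card {g : GL (Fin 2) (ZMod m) // g ∈ liftG M m h G} : ℝ) = B := by
    rw [GlDens_total M m hm h G, Finset.sum_congr rfl fun t _ => hnum ((t : ℕ) : ℤ),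
      ← Finset.mul_sum, dl_sum M m hM hm h (uG M G) hu.1 hu.2.2.1, mul_one]
  unfold dens
  rw [htot, hnum t, mul_div_cancel_left₀ _ hBpos.ne']

end Pool.Agent.TB
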