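import Pool.Agent.Lib_MP_f1937f_tb.GlSqfree

/-!
# Matrices of given trace above a given matrix
-/

set_option autoImplicit false

namespace Pool.Agent.TB

open Finset

/-- the preimage of a set under a surjective homomorphism -/
private theorem card_preim {A B : Type} [AddCommGroup A] [AddCommGroup B] [Finite A] [Finite B]
    (φ : A →+ B) (hφ : Function.Surjective φ) (P : B → Prop) :
    Nat.card {a : A // P (φ a)} * Nat.card B = Nat.card {b : B // P b} * Nat.card A := by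
  classical
  have key : ∀ P : B → Prop, Nat.card {a : A // P (φ a)} =
      Nat.card {b : B // P b} * Nat.card φ.ker := by
    intro P
    rw [← Nat.card_prod]
    refine Nat.card_congr
      { toFun := fun a => (⟨φ a.1, a.2⟩, ⟨a.1 - Function.surjInv hφ (φ a.1), ?_⟩)
        invFun := fun b => ⟨Function.surjInv hφ b.1.1 + b.2.1, ?_⟩
        left_inv := ?_
        right_inv := ?_ }
    · rw [AddMonoidHom.mem_ker, map_sub, Function.surjInv_eq hφ, sub_self]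
    · rw [map_add, Function.surjInv_eq hφ, (AddMonoidHom.mem_ker).1 b.2.2, add_zero]
      exact b.1.2
    · rintro ⟨a, ha⟩
      simp
    · rintro ⟨⟨b, hb⟩, ⟨k, hk⟩⟩
      have hk' : φ k = 0 := (AddMonoidHom.mem_ker).1 hk
      have h1 : φ (Function.surjInv hφ b + k) = b := by
        rw [map_add, Function.surjInv_eq hφ, hk', add_zero]
      ext
      · simp [h1]
      · simp [h1]
  have h1 := key P
  have h2 := key (fun _ => True)
  have h3 : Nat.card {a : A // True} = Nat.card A := Nat.card_congr (Equiv.subtypeUnivEquiv fun _ => trivial)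
  have h4 : Nat.card {b : B // True} = Nat.card B := Nat.card_congr (Equiv.subtypeUnivEquiv fun _ => trivial)
  rw [h3, h4] at h2
  rw [h1, h2]
  ring

/-- units modulo `m` are detected modulo divisors -/
private theorem unit_of {M Q m : ℕ} (hm : 0 < m) (hM : M ∣ m) (hQ : Q ∣ m)
    (hp : ∀ p : ℕ, p.Prime → p ∣ m → p ∣ M ∨ p ∣ Q) (d : ZMod m)
    (h1 : IsUnit (ZMod.castHom hM (ZMod M) d)) (h2 : IsUnit (ZMod.castHom hQ (ZMod Q) d)) :
    IsUnit d := by
  have : NeZero m := ⟨hm.ne'⟩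
  have hd : d = ((d.val : ℕ) : ZMod m) := (ZMod.natCast_zmod_val d).symm
  rw [hd, map_natCast, ZMod.isUnit_iff_coprime] at h1 h2
  rw [hd, ZMod.isUnit_iff_coprime]
  by_contra hc
  obtain ⟨p, hpp, hp1, hp2⟩ := Nat.Prime.not_coprime_iff_dvd.1 hc
  rcases hp p hpp hp2 with h | h
  · exact Nat.not_coprime_of_dvd_of_dvd hpp.one_lt hp1 h h1
  · exact Nat.not_coprime_of_dvd_of_dvd hpp.one_lt hp1 h h2

/-- the reduction modulo `M` and `Q` -/
private def red {M Q m : ℕ} (hM : M ∣ m) (hQ : Q ∣ m) : ZMod m →+ ZMod M × ZMod Q :=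
  (ZMod.castHom hM (ZMod M)).toAddMonoidHom.prod (ZMod.castHom hQ (ZMod Q)).toAddMonoidHom

private theorem red_fst {M Q m : ℕ} (hM : M ∣ m) (hQ : Q ∣ m) (x : ZMod m) :
    (red hM hQ x).1 = ZMod.castHom hM (ZMod M) x := rfl

private theorem red_snd {M Q m : ℕ} (hM : M ∣ m) (hQ : Q ∣ m) (x : ZMod m) :
    (red hM hQ x).2 = ZMod.castHom hQ (ZMod Q) x := rfl

private theorem red_surj {M Q m : ℕ} (hm : 0 < m) (hM : M ∣ m) (hQ : Q ∣ m)
    (hc : Nat.Coprime M Q) : Function.Surjective (red hM hQ) := by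
  have : NeZero M := ⟨(Nat.pos_of_dvd_of_pos hM hm).ne'⟩
  have : NeZero Q := ⟨(Nat.pos_of_dvd_of_pos hQ hm).ne'⟩
  rintro ⟨a, b⟩
  obtain ⟨k, hk1, hk2⟩ := Nat.chineseRemainder hc a.val b.val
  refine ⟨(k : ZMod m), ?_⟩
  refine Prod.ext ?_ ?_
  · rw [red_fst, map_natCast]
    have h1 := (ZMod.natCast_eq_natCast_iff k a.val M).2 hk1
    rw [h1, ZMod.natCast_zmod_val]
  · rw [red_snd, map_natCast]
    have h1 := (ZMod.natCast_eq_natCast_iff k b.val Q).2 hk2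
    rw [h1, ZMod.natCast_zmod_val]

/-- the reduction of triples -/
private def red3 {M Q m : ℕ} (hM : M ∣ m) (hQ : Q ∣ m) : ZMod m × ZMod m × ZMod m →+
    (ZMod M × ZMod Q) × (ZMod M × ZMod Q) × (ZMod M × ZMod Q) :=
  (red hM hQ).prodMap ((red hM hQ).prodMap (red hM hQ))

private theorem red3_surj {M Q m : ℕ} (hm : 0 < m) (hM : M ∣ m) (hQ : Q ∣ m)
    (hc : Nat.Coprime M Q) : Function.Surjective (red3 hM hQ) := by
  rintro ⟨a, b, c⟩
  obtain ⟨a', ha⟩ := red_surj hm hM hQ hc a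
  obtain ⟨b', hb⟩ := red_surj hm hM hQ hc b
  obtain ⟨c', hc'⟩ := red_surj hm hM hQ hc c
  refine ⟨(a', b', c'), ?_⟩
  unfold red3
  simp only [AddMonoidHom.coe_prodMap, Prod.map_apply]
  rw [ha, hb, hc']

/-- the condition on the reductions -/
private def PP {M Q : ℕ} (t : ℤ) (g₀ : GL (Fin 2) (ZMod M))
    (b : (ZMod M × ZMod Q) × (ZMod M × ZMod Q) × (ZMod M × ZMod Q)) : Prop :=
  (b.1.1 = g₀ 0 0 ∧ b.2.1.1 = g₀ 0 1 ∧ b.2.2.1 = g₀ 1 0) ∧
    IsUnit (b.1.2 * ((t : ZMod Q) - b.1.2) - b.2.1.2 * b.2.2.2)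

private theorem card_PP {M Q : ℕ} (t : ℤ) (g₀ : GL (Fin 2) (ZMod M)) :
    Nat.card {b // PP (Q := Q) t g₀ b} =
      Nat.card {x : ZMod Q × ZMod Q × ZMod Q // IsUnit (x.1 * ((t : ZMod Q) - x.1) - x.2.1 * x.2.2)} := by
  refine Nat.card_congr
    { toFun := fun b => ⟨(b.1.1.2, b.1.2.1.2, b.1.2.2.2), b.2.2⟩
      invFun := fun x => ⟨((g₀ 0 0, x.1.1), (g₀ 0 1, x.1.2.1), (g₀ 1 0, x.1.2.2)), ⟨rfl, rfl, rfl⟩, x.2⟩
      left_inv := ?_
      right_inv := ?_ }
  · rintro ⟨⟨⟨a1, a2⟩, ⟨b1, b2⟩, ⟨c1, c2⟩⟩, ⟨h1, h2, h3⟩, h4⟩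
    simp only at h1 h2 h3
    subst h1 h2 h3
    rfl
  · rintro ⟨⟨a, b, c⟩, h⟩
    rfl

private theorem det_zero {M : ℕ} (t : ℤ) (g₀ : GL (Fin 2) (ZMod M))
    (ht : g₀.val.trace = (t : ZMod M)) : g₀ 1 1 = (t : ZMod M) - g₀ 0 0 := by
  rw [← ht, Matrix.trace_fin_two]
  ring

private theorem isUnit_two {R : Type} [CommRing R] (g : GL (Fin 2) R) :
    IsUnit (g 0 0 * g 1 1 - g 0 1 * g 1 0) := by
  have h := (Matrix.isUnit_iff_isUnit_det _).1 g.isUnit
  rw [Matrix.det_fin_two] at h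
  exact h

private theorem card_GL {M Q m : ℕ} (hm : 0 < m) (hM : M ∣ m) (hQ : Q ∣ m)
    (hp : ∀ p : ℕ, p.Prime → p ∣ m → p ∣ M ∨ p ∣ Q) (t : ℤ) (g₀ : GL (Fin 2) (ZMod M))
    (ht : g₀.val.trace = (t : ZMod M)) :
    Nat.card {g : GL (Fin 2) (ZMod m) //
        Matrix.GeneralLinearGroup.map (ZMod.castHom hM (ZMod M)) g = g₀ ∧ g.val.trace = (t : ZMod m)} =
      Nat.card {x : ZMod m × ZMod m × ZMod m // PP t g₀ (red3 hM hQ x)} := by
  have hmem : ∀ g : GL (Fin 2) (ZMod m),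
      Matrix.GeneralLinearGroup.map (ZMod.castHom hM (ZMod M)) g = g₀ → g.val.trace = (t : ZMod m) →
      PP t g₀ (red3 hM hQ (g 0 0, g 0 1, g 1 0)) := by
    intro g hg htr
    have h1 : ∀ i j, ZMod.castHom hM (ZMod M) (g i j) = g₀ i j := by
      intro i j
      rw [← hg]
      rfl
    refine ⟨⟨h1 0 0, h1 0 1, h1 1 0⟩, ?_⟩
    have h2 := (isUnit_two g).map (ZMod.castHom hQ (ZMod Q))
    rw [det_zero t g htr] at h2
    simp only [map_sub, map_mul, map_intCast] at h2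
    exact h2
  refine Nat.card_congr (Equiv.ofBijective
    (fun g => ⟨(g.1 0 0, g.1 0 1, g.1 1 0), hmem g.1 g.2.1 g.2.2⟩) ⟨?_, ?_⟩)
  · rintro ⟨g, hg1, hg2⟩ ⟨g', hg1', hg2'⟩ he
    simp only [Subtype.mk.injEq, Prod.mk.injEq] at he
    obtain ⟨e1, e2, e3⟩ := he
    have e4 : g 1 1 = g' 1 1 := by rw [det_zero t g hg2, det_zero t g' hg2', e1]
    apply Subtype.ext
    apply Units.ext
    ext i j
    fin_cases i <;> fin_cases j
    · exact e1
    · exact e2
    · exact e3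
    · exact e4
  · rintro ⟨⟨a, b, c⟩, ⟨h1, h2, h3⟩, h4⟩
    have h1' : ZMod.castHom hM (ZMod M) a = g₀ 0 0 := h1
    have h2' : ZMod.castHom hM (ZMod M) b = g₀ 0 1 := h2
    have h3' : ZMod.castHom hM (ZMod M) c = g₀ 1 0 := h3
    have h4' : IsUnit (ZMod.castHom hQ (ZMod Q) a * ((t : ZMod Q) - ZMod.castHom hQ (ZMod Q) a) -
      ZMod.castHom hQ (ZMod Q) b * ZMod.castHom hQ (ZMod Q) c) := h4
    have hu : IsUnit (a * ((t : ZMod m) - a) - b * c) := by
      apply unit_of hm hM hQ hp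
      · rw [map_sub, map_mul, map_mul, map_sub, map_intCast, h1', h2', h3', ← det_zero t g₀ ht]
        exact isUnit_two g₀
      · rw [map_sub, map_mul, map_mul, map_sub, map_intCast]
        exact h4'
    have hdet : IsUnit (Matrix.det !![a, b; c, (t : ZMod m) - a]) := by
      rw [Matrix.det_fin_two_of]
      exact hu
    refine ⟨⟨Matrix.GeneralLinearGroup.mk'' _ hdet, ?_, ?_⟩, ?_⟩
    · apply Units.ext
      ext i j
      fin_cases i <;> fin_cases j
      · exact h1'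
      · exact h2'
      · exact h3'
      · show ZMod.castHom hM (ZMod M) ((t : ZMod m) - a) = g₀ 1 1
        rw [map_sub, map_intCast, h1', ← det_zero t g₀ ht]
    · show Matrix.trace !![a, b; c, (t : ZMod m) - a] = _
      rw [Matrix.trace_fin_two_of]
      ring
    · rfl

/-- PIECE [TB-B3] (about 150 lines). PROOF. Put `𝒬 = m.primeFactors \ M.primeFactors`, `Q = ∏ l ∈ 𝒬, l`; `Q` is squarefree,
`Q.primeFactors = 𝒬`, coprime to `M`, and `M * Q ∣ m`.
(1) `g ↦ (g 0 0, g 0 1, g 1 0)` is a bijection of the matrices of the left side with the triples `(a, b, c)` in `ZMod m` that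
reduce modulo `M` to the three entries of `g₀` and for which `a (t - a) - b c` is a unit (then the reduction of `t - a` is the
fourth entry of `g₀` by `ht`).
(2) `d ∈ ZMod m` is a unit iff it is nonzero modulo every prime factor of `m`; for the primes dividing `M` this holds
automatically here (the reduction modulo `M` is `det g₀`, a unit); so it is a unit iff its image in `ZMod Q` is a unit.
(3) The ring homomorphism `ZMod m → ZMod M × ZMod Q` (two `ZMod.castHom`s) is surjective (Chinese remainder theorem and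
`M * Q ∣ m`), so every fibre has `m / (M Q)` elements. Therefore the number of triples is `(m / (M Q)) ^ 3` times the number of
triples of `card_sqfree`.
(4) `Q ^ 3 = ∏ l ^ 3`, and `(l ^ 3 - l ^ 2 - [l ∤ t] l) / l ^ 3 = 1 - 1 / l - [l ∤ t] / l ^ 2`. -/
theorem card_fiber (M m : ℕ) (hm : 0 < m) (h : M ∣ m) (t : ℤ) (g₀ : GL (Fin 2) (ZMod M))
    (ht : g₀.val.trace = (t : ZMod M)) :
    (Nat.card {g : GL (Fin 2) (ZMod m) //
        Matrix.GeneralLinearGroup.map (ZMod.castHom h (ZMod M)) g = g₀ ∧ g.val.trace = (t : ZMod m)} : ℝ) =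
      ((m : ℝ) / M) ^ 3 * ∏ l ∈ m.primeFactors \ M.primeFactors,
        (1 - 1 / (l : ℝ) - if (l : ℤ) ∣ t then 0 else 1 / (l : ℝ) ^ 2) := by
  have hM0 : 0 < M := Nat.pos_of_dvd_of_pos h hm
  set 𝒬 := m.primeFactors \ M.primeFactors with h𝒬
  have hpr : ∀ l ∈ 𝒬, l.Prime := fun l hl => Nat.prime_of_mem_primeFactors (mem_sdiff.1 hl).1
  set Q : ℕ := ∏ l ∈ 𝒬, l with hQdef
  have hQ0 : 0 < Q := Finset.prod_pos fun l hl => (hpr l hl).pos
  have hQm : Q ∣ m :=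
    (Finset.prod_dvd_prod_of_subset _ _ _ sdiff_subset).trans (Nat.prod_primeFactors_dvd m)
  have hQf : Q.primeFactors = 𝒬 := Nat.primeFactors_prod hpr
  have hQs : Squarefree Q := by
    refine Finset.squarefree_prod_of_pairwise_isCoprime (fun p hp q hq hpq => ?_)
      fun p hp => (hpr p hp).squarefree
    simp only [← Nat.coprime_iff_isRelPrime]
    exact (Nat.coprime_primes (hpr p hp) (hpr q hq)).2 hpq
  have hcop : Nat.Coprime M Q := by
    refine Nat.Coprime.prod_right fun l hl => ?_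
    refine Nat.Coprime.symm ((Nat.Prime.coprime_iff_not_dvd (hpr l hl)).2 fun hd => ?_)
    exact (mem_sdiff.1 hl).2 (Nat.mem_primeFactors.2 ⟨hpr l hl, hd, hM0.ne'⟩)
  have hp : ∀ p : ℕ, p.Prime → p ∣ m → p ∣ M ∨ p ∣ Q := by
    intro p hp hpm
    by_cases hpM : p ∣ M
    · exact Or.inl hpM
    · right
      have h1 : p ∈ 𝒬 := mem_sdiff.2 ⟨Nat.mem_primeFactors.2 ⟨hp, hpm, hm.ne'⟩, fun h2 =>
        hpM (Nat.mem_primeFactors.1 h2).2.1⟩
      exact Finset.dvd_prod_of_mem _ h1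
  have : NeZero m := ⟨hm.ne'⟩
  have : NeZero M := ⟨hM0.ne'⟩
  have : NeZero Q := ⟨hQ0.ne'⟩
  have hcard := card_preim (red3 h hQm) (red3_surj hm h hQm hcop) (PP t g₀)
  rw [← card_GL hm h hQm hp t g₀ ht, card_PP] at hcard
  simp only [Nat.card_prod, Nat.card_zmod] at hcard
  have hsq := card_sqfree Q hQs t
  rw [hQf] at hsq
  have hcardR : (Nat.card {g : GL (Fin 2) (ZMod m) //
        Matrix.GeneralLinearGroup.map (ZMod.castHom h (ZMod M)) g = g₀ ∧ g.val.trace = (t : ZMod m)} : ℝ) *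
      ((M : ℝ) * Q * (M * Q * (M * Q))) =
      (∏ l ∈ 𝒬, ((l : ℝ) ^ 3 - l ^ 2 - if (l : ℤ) ∣ t then 0 else (l : ℝ))) * ((m : ℝ) * (m * m)) := by
    rw [← hsq]
    exact_mod_cast hcard
  have hQR : (Q : ℝ) ^ 3 = ∏ l ∈ 𝒬, (l : ℝ) ^ 3 := by
    rw [hQdef, Nat.cast_prod, Finset.prod_pow]
  have hprod : ∏ l ∈ 𝒬, ((l : ℝ) ^ 3 - l ^ 2 - if (l : ℤ) ∣ t then 0 else (l : ℝ)) =
      (Q : ℝ) ^ 3 * ∏ l ∈ 𝒬, (1 - 1 / (l : ℝ) - if (l : ℤ) ∣ t then 0 else 1 / (l : ℝ) ^ 2) := by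
    rw [hQR, ← Finset.prod_mul_distrib]
    refine Finset.prod_congr rfl fun l hl => ?_
    have hl0 : (l : ℝ) ≠ 0 := by exact_mod_cast (hpr l hl).ne_zero
    split_ifs
    · field_simp
      ring
    · field_simp
  rw [hprod] at hcardR
  have hMR : (M : ℝ) ≠ 0 := by exact_mod_cast hM0.ne'
  have hQR0 : (Q : ℝ) ≠ 0 := by exact_mod_cast hQ0.ne'
  set X : ℝ := (Nat.card {g : GL (Fin 2) (ZMod m) //
        Matrix.GeneralLinearGroup.map (ZMod.castHom h (ZMod M)) g = g₀ ∧ g.val.trace = (t : ZMod m)} : ℝ)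
  set Y : ℝ := ∏ l ∈ 𝒬, (1 - 1 / (l : ℝ) - if (l : ℤ) ∣ t then 0 else 1 / (l : ℝ) ^ 2)
  rw [div_pow, div_mul_eq_mul_div, eq_div_iff (pow_ne_zero 3 hMR)]
  have h3 : (Q : ℝ) ^ 3 ≠ 0 := pow_ne_zero 3 hQR0
  apply mul_left_cancel₀ h3
  linear_combination hcardR

end Pool.Agent.TB
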