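import Pool.Agent.Lib_MP_f1937f_tb.Defs

/-!
# Matrices of given trace modulo a prime
-/

set_option autoImplicit false

namespace Pool.Agent.TB

open Finset

private theorem GlP_inner (l : ℕ) [Fact l.Prime] (s b : ZMod l) :
    ∑ c : ZMod l, (if IsUnit (s - b * c) then (1 : ℝ) else 0) =
      ((l : ℝ) - 1) + if b = 0 then (if s = 0 then 0 else (l : ℝ)) - ((l : ℝ) - 1) else 0 := by
  by_cases hb : b = 0
  · subst hb
    by_cases hs : s = 0
    · subst hs
      simp
    · have h1 : ∀ c : ZMod l, (if IsUnit (s - 0 * c) then (1 : ℝ) else 0) = 1 := by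
        intro c
        rw [zero_mul, sub_zero, if_pos (isUnit_iff_ne_zero.2 hs)]
      rw [Finset.sum_congr rfl fun c _ => h1 c, if_pos rfl, if_neg hs]
      simp [ZMod.card]
  · have h1 : ∀ c : ZMod l, (if IsUnit (s - b * c) then (1 : ℝ) else 0) =
        1 - if c = s / b then 1 else 0 := by
      intro c
      by_cases hc : c = s / b
      · have h2 : s - b * c = 0 := by
          rw [hc]
          field_simp
          ring
        rw [h2, if_pos hc, if_neg (by simp)]
        ring
      · have h2 : s - b * c ≠ 0 := by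
          intro h
          apply hc
          rw [eq_div_iff hb]
          linear_combination -h
        rw [if_neg hc, if_pos (isUnit_iff_ne_zero.2 h2)]
        ring
    rw [Finset.sum_congr rfl fun c _ => h1 c, Finset.sum_sub_distrib, if_neg hb]
    simp [ZMod.card]

private theorem GlP_mid (l : ℕ) [Fact l.Prime] (s : ZMod l) :
    ∑ b : ZMod l, ∑ c : ZMod l, (if IsUnit (s - b * c) then (1 : ℝ) else 0) =
      ((l : ℝ) - 1) ^ 2 + if s = 0 then 0 else (l : ℝ) := by
  rw [Finset.sum_congr rfl fun b _ => GlP_inner l s b, Finset.sum_add_distrib,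
    Finset.sum_ite_eq' Finset.univ (0 : ZMod l)
      (fun _ => (if s = 0 then 0 else (l : ℝ)) - ((l : ℝ) - 1)), if_pos (Finset.mem_univ _),
    Finset.sum_const, Finset.card_univ, ZMod.card, nsmul_eq_mul]
  ring

private theorem GlP_ind (l : ℕ) [Fact l.Prime] (t a : ZMod l) :
    (if a * (t - a) = 0 then 0 else (l : ℝ)) =
      l - (if a = 0 then (l : ℝ) else 0) - (if a = t then (l : ℝ) else 0) +
        if a = 0 then (if t = 0 then (l : ℝ) else 0) else 0 := by
  by_cases ha : a = 0
  · subst ha
    by_cases ht : t = 0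
    · subst ht
      simp
    · simp [ht, Ne.symm ht]
  · by_cases hat : a = t
    · subst hat
      simp [ha]
    · have h1 : a * (t - a) ≠ 0 := mul_ne_zero ha (sub_ne_zero.2 (Ne.symm hat))
      simp [ha, hat, h1]

/-- PIECE [TB-B1] (about 80 lines). PROOF. `ZMod l` is a field. Count the complement: for fixed `a`, the number of `(b, c)`
with `b c = a (t - a)` is `2 l - 1` if `a (t - a) = 0` and `l - 1` otherwise. `a (t - a) = 0` has the solutions `0, t`: two if
`t ≠ 0`, one if `t = 0`. So the complement has `2 (2 l - 1) + (l - 2) (l - 1) = l ^ 2 + l` elements if `t ≠ 0` and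
`(2 l - 1) + (l - 1) ^ 2 = l ^ 2` if `t = 0`. -/
theorem card_prime (l : ℕ) (hl : l.Prime) (t : ZMod l) :
    (Nat.card {x : ZMod l × ZMod l × ZMod l // IsUnit (x.1 * (t - x.1) - x.2.1 * x.2.2)} : ℝ) =
      (l : ℝ) ^ 3 - l ^ 2 - if t = 0 then 0 else (l : ℝ) := by
  classical
  haveI : Fact l.Prime := ⟨hl⟩
  rw [Nat.card_eq_fintype_card, Fintype.card_subtype, Finset.card_filter]
  push_cast
  rw [Fintype.sum_prod_type]
  have h1 : ∀ a : ZMod l, ∑ y : ZMod l × ZMod l,
      (if IsUnit (a * (t - a) - y.1 * y.2) then (1 : ℝ) else 0) =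
      ((l : ℝ) - 1) ^ 2 + if a * (t - a) = 0 then 0 else (l : ℝ) := by
    intro a
    rw [Fintype.sum_prod_type]
    exact GlP_mid l (a * (t - a))
  rw [Finset.sum_congr rfl fun a _ => h1 a, Finset.sum_add_distrib,
    Finset.sum_congr rfl fun a _ => GlP_ind l t a, Finset.sum_add_distrib,
    Finset.sum_sub_distrib, Finset.sum_sub_distrib, Finset.sum_ite_eq', Finset.sum_ite_eq',
    Finset.sum_ite_eq']
  simp only [Finset.mem_univ, if_true, Finset.sum_const, Finset.card_univ, ZMod.card,
    nsmul_eq_mul]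
  split_ifs <;> ring

end Pool.Agent.TB
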