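import Pool.Agent.Lib_MP_f1937f_tb.GlPrime

/-!
# Matrices of given trace modulo a squarefree number
-/

set_option autoImplicit false

namespace Pool.Agent.TB

open Finset

/-- the number of the matrices modulo `Q` -/
private noncomputable def GlS_N (Q : ℕ) (t : ℤ) : ℕ :=
  Nat.card {x : ZMod Q × ZMod Q × ZMod Q // IsUnit (x.1 * ((t : ZMod Q) - x.1) - x.2.1 * x.2.2)}

private theorem GlS_mul (a b : ℕ) (h : a.Coprime b) (t : ℤ) : GlS_N (a * b) t = GlS_N a t * GlS_N b t := by
  unfold GlS_N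
  rw [← Nat.card_prod]
  let e := ZMod.chineseRemainder h
  let E : (ZMod (a * b) × ZMod (a * b) × ZMod (a * b)) ≃
      ((ZMod a × ZMod a × ZMod a) × (ZMod b × ZMod b × ZMod b)) :=
    { toFun := fun x => (((e x.1).1, (e x.2.1).1, (e x.2.2).1), ((e x.1).2, (e x.2.1).2, (e x.2.2).2))
      invFun := fun y => (e.symm (y.1.1, y.2.1), e.symm (y.1.2.1, y.2.2.1), e.symm (y.1.2.2, y.2.2.2))
      left_inv := fun x => by simp
      right_inv := fun y => by simp }
  have hE : ∀ x : ZMod (a * b) × ZMod (a * b) × ZMod (a * b),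
      IsUnit (x.1 * ((t : ZMod (a * b)) - x.1) - x.2.1 * x.2.2) ↔
      (IsUnit ((E x).1.1 * ((t : ZMod a) - (E x).1.1) - (E x).1.2.1 * (E x).1.2.2) ∧
        IsUnit ((E x).2.1 * ((t : ZMod b) - (E x).2.1) - (E x).2.2.1 * (E x).2.2.2)) := by
    intro x
    have h1 : IsUnit (x.1 * ((t : ZMod (a * b)) - x.1) - x.2.1 * x.2.2) ↔
        IsUnit (e (x.1 * ((t : ZMod (a * b)) - x.1) - x.2.1 * x.2.2)) :=
      (MulEquiv.isUnit_map e).symm
    rw [h1, Prod.isUnit_iff, map_sub, map_mul, map_mul, map_sub, map_intCast]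
    exact Iff.rfl
  exact Nat.card_congr ((E.subtypeEquiv hE).trans (Equiv.subtypeProdEquivProd
    (p := fun y : ZMod a × ZMod a × ZMod a => IsUnit (y.1 * ((t : ZMod a) - y.1) - y.2.1 * y.2.2))
    (q := fun y : ZMod b × ZMod b × ZMod b => IsUnit (y.1 * ((t : ZMod b) - y.1) - y.2.1 * y.2.2))))

private theorem GlS_main (t : ℤ) (Q : ℕ) : Squarefree Q → (GlS_N Q t : ℝ) =
    ∏ l ∈ Q.primeFactors, ((l : ℝ) ^ 3 - l ^ 2 - if (l : ℤ) ∣ t then 0 else (l : ℝ)) := by
  induction Q using Nat.recOnPosPrimePosCoprime with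
  | prime_pow p n hp hn =>
    intro hs
    have h1 : n = 1 := by
      by_contra h
      have h2 : p ^ 2 ∣ p ^ n := pow_dvd_pow p (by omega)
      rw [pow_two] at h2
      exact hp.not_isUnit (hs p h2)
    subst h1
    rw [pow_one, hp.primeFactors, Finset.prod_singleton]
    have h2 := card_prime p hp (t : ZMod p)
    unfold GlS_N
    rw [h2]
    by_cases h3 : (p : ℤ) ∣ t
    · rw [if_pos h3, if_pos ((ZMod.intCast_zmod_eq_zero_iff_dvd t p).2 h3)]
    · rw [if_neg h3, if_neg (fun h4 => h3 ((ZMod.intCast_zmod_eq_zero_iff_dvd t p).1 h4))]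
  | zero => exact fun hs => absurd hs not_squarefree_zero
  | one =>
    intro _
    rw [Nat.primeFactors_one, Finset.prod_empty]
    unfold GlS_N
    have h1 : Nat.card {x : ZMod 1 × ZMod 1 × ZMod 1 // IsUnit (x.1 * ((t : ZMod 1) - x.1) - x.2.1 * x.2.2)} = 1 := by
      rw [Nat.card_eq_one_iff_unique]
      refine ⟨⟨fun x y => Subsingleton.elim x y⟩, ⟨⟨(0, 0, 0), ?_⟩⟩⟩
      exact isUnit_of_subsingleton _
    rw [h1, Nat.cast_one]
  | coprime a b ha hb hab iha ihb =>
    intro hs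
    rw [GlS_mul a b hab, Nat.cast_mul, iha (hs.of_mul_left), ihb (hs.of_mul_right),
      hab.primeFactors_mul, Finset.prod_union hab.disjoint_primeFactors]

/-- PIECE [TB-B2] (about 80 lines). PROOF. Induction over the prime factors (`Nat.recOnPosPrimePosCoprime` or
`induction_on_primes`): for coprime `a, b` the ring isomorphism `ZMod.chineseRemainder` gives a bijection of
the set for `a b` with the product of the sets for `a` and `b` (an element of `ZMod a × ZMod b` is a unit iff both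
components are, `Prod.isUnit_iff`); `Nat.Coprime.primeFactors_mul`. For a prime use `card_prime`, with
`ZMod.intCast_zmod_eq_zero_iff_dvd` / `ZMod.intCast_eq_zero_iff`. For `Q = 1` both sides are `1` (the zero ring: everything is a
unit). -/
theorem card_sqfree (Q : ℕ) (hQ : Squarefree Q) (t : ℤ) :
    (Nat.card {x : ZMod Q × ZMod Q × ZMod Q // IsUnit (x.1 * ((t : ZMod Q) - x.1) - x.2.1 * x.2.2)} : ℝ) =
      ∏ l ∈ Q.primeFactors, ((l : ℝ) ^ 3 - l ^ 2 - if (l : ℤ) ∣ t then 0 else (l : ℝ)) :=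
  GlS_main t Q hQ

end Pool.Agent.TB
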