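import Pool.Agent.Lib_MP_f1937f_tb.BaseLaw
import Pool.Agent.Lib_MP_f1937f_tb.LawNorm

/-!
# The law without small values
-/

set_option autoImplicit false

namespace Pool.Agent.TB

open Finset

/-- the number of the integers `a` with `|a| ≤ x` -/
private theorem card_small (s : Finset ℤ) {x : ℝ} (hx : 0 ≤ x) (hs : ∀ a ∈ s, |(a : ℝ)| ≤ x) :
    (s.card : ℝ) ≤ 2 * x + 1 := by
  have h1 : s ⊆ Finset.Icc (-⌊x⌋) ⌊x⌋ := by
    intro a ha
    have h := abs_le.1 (hs a ha)
    rw [Finset.mem_Icc]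
    constructor
    · have : -a ≤ ⌊x⌋ := by
        rw [Int.le_floor]
        push_cast
        linarith [h.1]
      omega
    · rw [Int.le_floor]
      exact h.2
  have h2 : s.card ≤ (Finset.Icc (-⌊x⌋) ⌊x⌋).card := Finset.card_le_card h1
  rw [Int.card_Icc] at h2
  have h3 : 0 ≤ ⌊x⌋ := Int.floor_nonneg.2 hx
  have h4 : ((⌊x⌋ + 1 - -⌊x⌋).toNat : ℤ) = 2 * ⌊x⌋ + 1 := by
    rw [Int.toNat_of_nonneg (by omega)]
    ring
  have h5 : (s.card : ℤ) ≤ 2 * ⌊x⌋ + 1 := by
    rw [← h4]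
    exact_mod_cast h2
  have h6 : (s.card : ℝ) ≤ 2 * (⌊x⌋ : ℝ) + 1 := by exact_mod_cast h5
  have h7 := Int.floor_le x
  linarith

/-- `log p / √p` tends to zero -/
private theorem tendsto_log_div_sqrt :
    Filter.Tendsto (fun p : ℕ => Real.log p / √(p : ℝ)) Filter.atTop (nhds 0) := by
  have h := (isLittleO_log_rpow_atTop (show (0 : ℝ) < 1 / 2 by norm_num)).tendsto_div_nhds_zero
  have h2 := h.comp tendsto_natCast_atTop_atTop
  refine h2.congr fun p => ?_
  simp only [Function.comp_apply, Real.sqrt_eq_rpow]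

/-- PIECE [TB-I6] (about 120 lines). The law without small values. PROOF. `μ a = wt u (PS M p) a * sw p a` for `|a| > log p` and `0` otherwise.
`|xx p a| ≤ 1 / 2` for `|a| ≤ log p`, `p` large, so `|Uk| ≤ 2` there, and the removed part of the sum is at most
`(2 log p + 1) (55 B / √p) 2 ≤ C log p / √p`. Then `law_norm`. -/
theorem law_empty (M : ℕ) (hM : 0 < M) (u : ℤ → ℝ) (B : ℝ) (hu : ∀ t, 0 ≤ u t ∧ u t ≤ B)
    (hper : ∀ t t' : ℤ, (M : ℤ) ∣ t - t' → u t = u t') (hB : B ≤ M) (hδM : ∑ t ∈ range M, dl M u M (t : ℤ) = 1) :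
    ∃ (C : ℝ) (p₀ : ℕ), ∀ p : ℕ, p₀ ≤ p → ∃ ρ : ℤ → ℝ, GoodLaw M (dl M u) C p ρ ∧
      ∀ a : ℤ, |(a : ℝ)| ≤ Real.log p → ρ a = 0 := by
  classical
  obtain ⟨E, hE0, hE⟩ := base_law M hM u B hu hper
  have hB0 : 0 ≤ B := (hu 0).1.trans (hu 0).2
  have hM1 : (1 : ℝ) ≤ (M : ℝ) := by exact_mod_cast hM
  set E' : ℝ := E + 440 * B with hE'
  have hE'0 : 0 ≤ E' := by positivity
  set Q : ℝ := E' * (M : ℝ) ^ 2 * √(M : ℝ) with hQ
  have hQ0 : 0 ≤ Q := by positivity
  have hη : (0 : ℝ) < 1 / (2 * (Q + 1)) := by positivity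
  obtain ⟨p₁, hp₁⟩ := Filter.eventually_atTop.1 (tendsto_log_div_sqrt.eventually_lt_const hη)
  refine ⟨2 * E' + 110 * E' * (M : ℝ) ^ 3 * √(M : ℝ), max p₁ 2, fun p hp => ?_⟩
  have hp1 : Real.log p / √(p : ℝ) < 1 / (2 * (Q + 1)) := hp₁ p (le_trans (le_max_left _ _) hp)
  have hp2 : 2 ≤ p := le_trans (le_max_right _ _) hp
  have hp2' : (2 : ℝ) ≤ (p : ℝ) := by exact_mod_cast hp2
  have hp0 : (0 : ℝ) < (p : ℝ) := by linarith
  have hs0 : 0 < √(p : ℝ) := Real.sqrt_pos.2 hp0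
  have hlog : 1 / 2 ≤ Real.log p := by
    have h1 := Real.log_two_gt_d9
    have h2 : Real.log 2 ≤ Real.log p := Real.log_le_log (by norm_num) hp2'
    linarith
  set L : ℝ := Real.log p / √(p : ℝ) with hL
  have hL0 : 0 ≤ L := by positivity
  have hL1 : L ≤ 1 := by
    refine hp1.le.trans ?_
    rw [div_le_one (by positivity)]
    linarith
  have hQL : Q * L ≤ 1 / 2 := by
    calc Q * L ≤ Q * (1 / (2 * (Q + 1))) := by gcongr
      _ ≤ 1 / 2 := by
          rw [mul_one_div, div_le_div_iff₀ (by positivity) (by norm_num)]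
          linarith
  have hlog1 : Real.log p ≤ √(p : ℝ) := by
    rw [hL, div_le_one hs0] at hL1
    exact hL1
  -- the weights
  have hPS : ∀ l ∈ PS M p, l.Prime := by
    intro l hl
    unfold PS at hl
    exact (Finset.mem_filter.1 hl).2.1
  have hwt : ∀ a, 0 ≤ wt u (PS M p) a ∧ wt u (PS M p) a ≤ B * 55 := by
    intro a
    obtain ⟨h1, h2⟩ := prod_loc_bounds (PS M p) hPS a
    have h3 : 0 ≤ ∏ l ∈ PS M p, loc l a := le_trans (by norm_num) h1
    unfold wt
    exact ⟨mul_nonneg (hu a).1 h3, mul_le_mul (hu a).2 h2 h3 hB0⟩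
  have hsw : ∀ a, 0 ≤ sw p a ∧ sw p a ≤ 1 / √(p : ℝ) := fun a =>
    ⟨(sw_bounds p (by omega) a).1, (sw_bounds p (by omega) a).2.1⟩
  set μ : ℤ → ℝ := fun a => if |(a : ℝ)| ≤ Real.log p then 0 else wt u (PS M p) a * sw p a with hμdef
  have hμ0 : ∀ a, 0 ≤ μ a := by
    intro a
    simp only [hμdef]
    split_ifs
    · exact le_rfl
    · exact mul_nonneg (hwt a).1 (hsw a).1
  have hμ : ∀ m : ℕ, 0 < m → M ∣ m → ∀ (t : ℤ) (k : ℕ),
      |∑ a ∈ (V p).filter (fun a => (m : ℤ) ∣ a - t), μ a * Uk k (xx p a) -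
          (if k = 0 then dl M u m t else 0)| ≤
        E' * (m * √(m : ℝ)) * (k + 1) * (Real.log p / √(p : ℝ)) := by
    intro m hm hMm t k
    have h1 := hE p hp2 m hm hMm t k
    set F := (V p).filter (fun a => (m : ℤ) ∣ a - t) with hF
    have e1 : ∑ a ∈ F, μ a * Uk k (xx p a) =
        ∑ a ∈ F, wt u (PS M p) a * sw p a * Uk k (xx p a) -
          ∑ a ∈ F.filter (fun a : ℤ => |(a : ℝ)| ≤ Real.log p),
            wt u (PS M p) a * sw p a * Uk k (xx p a) := by
      rw [Finset.sum_filter (fun a : ℤ => |(a : ℝ)| ≤ Real.log p)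
        (fun a => wt u (PS M p) a * sw p a * Uk k (xx p a)), ← Finset.sum_sub_distrib]
      refine Finset.sum_congr rfl fun a _ => ?_
      simp only [hμdef]
      split_ifs <;> ring
    have e2 : |∑ a ∈ F.filter (fun a : ℤ => |(a : ℝ)| ≤ Real.log p),
        wt u (PS M p) a * sw p a * Uk k (xx p a)| ≤ (2 * Real.log p + 1) * (110 * B / √(p : ℝ)) := by
      have h2 : ∀ a ∈ F.filter (fun a : ℤ => |(a : ℝ)| ≤ Real.log p),
          |wt u (PS M p) a * sw p a * Uk k (xx p a)| ≤ 110 * B / √(p : ℝ) := by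
        intro a ha
        have ha' := (Finset.mem_filter.1 ha).2
        have hx : |xx p a| ≤ 1 / 2 := by
          unfold xx
          rw [abs_div, abs_of_pos (by positivity : (0 : ℝ) < 2 * √(p : ℝ)),
            div_le_div_iff₀ (by positivity) (by norm_num)]
          linarith
        have hU := Uk_le_two k hx
        rw [abs_mul, abs_mul, abs_of_nonneg (hwt a).1, abs_of_nonneg (hsw a).1]
        calc wt u (PS M p) a * sw p a * |Uk k (xx p a)| ≤ (B * 55) * (1 / √(p : ℝ)) * 2 := by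
              have := (hwt a).1
              have := (hwt a).2
              have := (hsw a).1
              have := (hsw a).2
              gcongr
          _ = 110 * B / √(p : ℝ) := by ring
      have h3 := card_small (F.filter (fun a : ℤ => |(a : ℝ)| ≤ Real.log p))
        (x := Real.log p) (by linarith) (fun a ha => (Finset.mem_filter.1 ha).2)
      calc |∑ a ∈ F.filter (fun a : ℤ => |(a : ℝ)| ≤ Real.log p),
            wt u (PS M p) a * sw p a * Uk k (xx p a)|
          ≤ ∑ a ∈ F.filter (fun a : ℤ => |(a : ℝ)| ≤ Real.log p),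
            |wt u (PS M p) a * sw p a * Uk k (xx p a)| := Finset.abs_sum_le_sum_abs _ _
        _ ≤ ∑ _a ∈ F.filter (fun a : ℤ => |(a : ℝ)| ≤ Real.log p), 110 * B / √(p : ℝ) :=
            Finset.sum_le_sum h2
        _ = ((F.filter (fun a : ℤ => |(a : ℝ)| ≤ Real.log p)).card : ℝ) * (110 * B / √(p : ℝ)) := by
            rw [Finset.sum_const, nsmul_eq_mul]
        _ ≤ (2 * Real.log p + 1) * (110 * B / √(p : ℝ)) := by gcongr
    have hm1 : (1 : ℝ) ≤ (m : ℝ) := by exact_mod_cast hm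
    have hmk : (1 : ℝ) ≤ (m * √(m : ℝ)) * (k + 1) := by
      have h4 : (1 : ℝ) ≤ √(m : ℝ) := Real.one_le_sqrt.2 hm1
      have h5 : (1 : ℝ) ≤ (k : ℝ) + 1 := by
        have : (0 : ℝ) ≤ (k : ℝ) := Nat.cast_nonneg k
        linarith
      have h6 : (1 : ℝ) ≤ m * √(m : ℝ) := by nlinarith
      nlinarith
    have e3 : (2 * Real.log p + 1) * (110 * B / √(p : ℝ)) ≤
        440 * B * ((m * √(m : ℝ)) * (k + 1)) * L := by
      calc (2 * Real.log p + 1) * (110 * B / √(p : ℝ)) ≤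
            (4 * Real.log p) * (110 * B / √(p : ℝ)) := by
              have : 2 * Real.log p + 1 ≤ 4 * Real.log p := by linarith
              gcongr
        _ = 440 * B * 1 * L := by rw [hL]; ring
        _ ≤ 440 * B * ((m * √(m : ℝ)) * (k + 1)) * L := by gcongr
    rw [e1]
    set A := ∑ a ∈ F, wt u (PS M p) a * sw p a * Uk k (xx p a)
    set R := ∑ a ∈ F.filter (fun a : ℤ => |(a : ℝ)| ≤ Real.log p),
      wt u (PS M p) a * sw p a * Uk k (xx p a)
    have e4 : |A - R - (if k = 0 then dl M u m t else 0)| ≤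
        |A - (if k = 0 then dl M u m t else 0)| + |R| := by
      have : A - R - (if k = 0 then dl M u m t else 0) =
          (A - (if k = 0 then dl M u m t else 0)) - R := by ring
      rw [this]
      exact abs_sub _ _
    have e5 : E' * (m * √(m : ℝ)) * (k + 1) * L =
        E * (m * √(m : ℝ)) * (k + 1) * L + 440 * B * ((m * √(m : ℝ)) * (k + 1)) * L := by
      rw [hE']
      ring
    rw [e5]
    linarith
  obtain ⟨ρ, hρ, -, hz⟩ := law_norm M hM (dl M u)
    (fun m t => (dl_le M hM u B hu m t).trans (by linarith)) hδM E' hE'0 p hp2 hQL μ hμ0 hμ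
  exact ⟨ρ, hρ, fun a ha => hz a (by simp only [hμdef]; exact if_pos ha)⟩

end Pool.Agent.TB
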