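import Pool.Agent.Lib_MP_f1937f_tb.Cheb

/-!
# Laws for the small primes
-/

set_option autoImplicit false

namespace Pool.Agent.TB

open Finset

private lemma ls_zero_mem (p : ℕ) : (0 : ℤ) ∈ V p := by
  unfold V
  rw [Finset.mem_Icc]
  constructor
  · have : (0 : ℤ) ≤ (Nat.sqrt (4 * p) : ℤ) := Int.natCast_nonneg _
    linarith
  · exact Int.natCast_nonneg _

/-- PIECE [TB-I2] (about 60 lines). The trivial law (point mass at `0`) for small primes. PROOF. `|sum - target| ≤ (k + 1) + 55 M`, and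
`log p / √p ≥ log 2 / √p₀` for `2 ≤ p ≤ p₀`. `C = 56 M √p₀ / log 2`. -/
theorem law_small (M : ℕ) (hM : 0 < M) (δ : ℕ → ℤ → ℝ) (hδ : ∀ m t, |δ m t| ≤ 55 * M) (p₀ : ℕ) :
    ∃ C : ℝ, ∀ p : ℕ, 2 ≤ p → p ≤ p₀ → ∃ ρ : ℤ → ℝ, GoodLaw M δ C p ρ := by
  refine ⟨56 * M * √(p₀ : ℝ) / Real.log 2, fun p hp hp0 => ⟨fun a => if a = 0 then 1 else 0, ?_⟩⟩
  have hM1 : (1 : ℝ) ≤ M := by exact_mod_cast hM
  have hl2 : 0 < Real.log 2 := Real.log_pos (by norm_num)
  have hp2 : (2 : ℝ) ≤ p := by exact_mod_cast hp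
  have hpp : (p : ℝ) ≤ p₀ := by exact_mod_cast hp0
  have hs0 : 0 < √(p : ℝ) := Real.sqrt_pos.2 (by linarith)
  have hs : √(p : ℝ) ≤ √(p₀ : ℝ) := Real.sqrt_le_sqrt hpp
  have hs1 : 0 < √(p₀ : ℝ) := lt_of_lt_of_le hs0 hs
  have hlog : Real.log 2 ≤ Real.log p := Real.log_le_log (by norm_num) hp2
  refine ⟨?_, ?_, ?_, ?_⟩
  · intro a
    split_ifs
    · exact zero_le_one
    · exact le_rfl
  · intro a ha
    by_cases h : a = 0
    · rw [h]
      exact ls_zero_mem p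
    · simp [h] at ha
  · rw [Finset.sum_ite_eq', if_pos (ls_zero_mem p)]
  · intro m hm _ t k
    have hk : (1 : ℝ) ≤ (k : ℝ) + 1 := by
      have : (0 : ℝ) ≤ k := Nat.cast_nonneg k
      linarith
    have h1 : |∑ a ∈ (V p).filter (fun a => (m : ℤ) ∣ a - t),
        (if a = 0 then (1 : ℝ) else 0) * Uk k (xx p a)| ≤ k + 1 := by
      have e : ∀ a : ℤ, (if a = 0 then (1 : ℝ) else 0) * Uk k (xx p a) =
          if a = 0 then Uk k 0 else 0 := by
        intro a
        by_cases h : a = 0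
        · subst h
          simp [xx]
        · simp [h]
      simp only [e]
      rw [Finset.sum_ite_eq']
      have h0 : |Uk k 0| ≤ (k : ℝ) + 1 := Uk_le k (by norm_num)
      split_ifs
      · exact h0
      · rw [abs_zero]
        linarith
    have h2 : |(if k = 0 then δ m t else 0)| ≤ 55 * (M : ℝ) := by
      split_ifs
      · exact hδ m t
      · rw [abs_zero]
        linarith
    have h3 : |∑ a ∈ (V p).filter (fun a => (m : ℤ) ∣ a - t),
        (if a = 0 then (1 : ℝ) else 0) * Uk k (xx p a) - (if k = 0 then δ m t else 0)| ≤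
        (k + 1) + 55 * M :=
      (abs_sub _ _).trans (add_le_add h1 h2)
    refine h3.trans ?_
    have h4 : ((k : ℝ) + 1) + 55 * M ≤ 56 * M * (k + 1) := by nlinarith
    refine h4.trans ?_
    have hm1 : (1 : ℝ) ≤ m := by exact_mod_cast hm
    have hms : (1 : ℝ) ≤ √(m : ℝ) := by
      rw [Real.one_le_sqrt]
      exact hm1
    have h5 : (1 : ℝ) ≤ m * √(m : ℝ) := by nlinarith
    have h6 : Real.log 2 / √(p₀ : ℝ) ≤ Real.log p / √(p : ℝ) :=
      div_le_div₀ (hl2.le.trans hlog) hlog hs0 hs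
    have h7 : 56 * (M : ℝ) * (k + 1) =
        56 * M * √(p₀ : ℝ) / Real.log 2 * 1 * (k + 1) * (Real.log 2 / √(p₀ : ℝ)) := by
      field_simp
    rw [h7]
    have h8 : 0 ≤ 56 * (M : ℝ) * √(p₀ : ℝ) / Real.log 2 := by positivity
    have h9 : 0 ≤ Real.log 2 / √(p₀ : ℝ) := by positivity
    refine mul_le_mul ?_ h6 h9 (by positivity)
    exact mul_le_mul_of_nonneg_right (mul_le_mul_of_nonneg_left h5 h8) (by linarith)

end Pool.Agent.TB
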