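import Pool.Agent.Lib_MP_f1937f_tb.LawSpike

/-!
# The law with a spike, with a uniform constant
-/

set_option autoImplicit false

namespace Pool.Agent.TB

open Finset

/-- `law_spike` with a constant that depends neither on `a₀` nor on `ε`. -/
theorem law_spike_unif (M : ℕ) (hM : 0 < M) (u : ℤ → ℝ) (B : ℝ) (hu : ∀ t, 0 ≤ u t ∧ u t ≤ B)
    (hper : ∀ t t' : ℤ, (M : ℤ) ∣ t - t' → u t = u t') (hB : B ≤ M)
    (hδM : ∑ t ∈ range M, dl M u M (t : ℤ) = 1) :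
    ∃ C : ℝ, ∀ a₀ : ℤ, 0 < u a₀ → ∀ ε : ℝ, 0 < ε → ε ≤ 1 / 8 → ∃ p₀ : ℕ, ∀ p : ℕ, p₀ ≤ p →
      ∃ ρ : ℤ → ℝ, GoodLaw M (dl M u) C p ρ ∧ (p : ℝ) ^ (-(1 / 4) - ε) / 4 ≤ ρ a₀ := by
  obtain ⟨E, hE0, hE⟩ := base_law M hM u B hu hper
  obtain ⟨p₂, hp₂⟩ := LawSpike_log ((E + 14) * (M : ℝ) ^ 2 * √(M : ℝ))
  refine ⟨2 * (E + 14) + 110 * (E + 14) * (M : ℝ) ^ 3 * √(M : ℝ), fun a₀ ha₀ ε hε hε' => ?_⟩
  obtain ⟨p₁, hp₁⟩ := spike_asym M hM a₀ ε hε hε' (96 * M) (3 * u a₀ / 550) (by positivity) (by positivity)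
  refine ⟨max 2 (max p₁ p₂), fun p hp => ?_⟩
  have hp2 : 2 ≤ p := le_trans (le_max_left _ _) hp
  have hp1 : 1 ≤ p := by omega
  have hpp₁ : p₁ ≤ p := le_trans (le_trans (le_max_left _ _) (le_max_right _ _)) hp
  have hpp₂ : p₂ ≤ p := le_trans (le_trans (le_max_right _ _) (le_max_right _ _)) hp
  have hp0 : (0 : ℝ) < (p : ℝ) := by exact_mod_cast hp1
  have hs0 : 0 < √(p : ℝ) := Real.sqrt_pos.2 hp0
  obtain ⟨hR1, hRY, haa, hasym⟩ := hp₁ p hpp₁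
  have hη : (p : ℝ) ^ (-(1 / 4) - ε) = (p : ℝ) ^ (1 / 4 - ε) / √(p : ℝ) := by
    rw [Real.sqrt_eq_rpow, ← Real.rpow_sub hp0]
    congr 1
    ring
  obtain ⟨R, hR⟩ : ∃ R, R = (p : ℝ) ^ (1 / 4 - ε) := ⟨_, rfl⟩
  obtain ⟨η, hη'⟩ : ∃ η, η = (p : ℝ) ^ (-(1 / 4) - ε) := ⟨_, rfl⟩
  rw [← hR] at hR1 hRY hasym hη
  rw [← hη'] at hη ⊢
  have hη0 : 0 < η := by
    rw [hη]
    positivity
  obtain ⟨ν, hsupp, hsize, hzero, hmain⟩ := spike (√(p : ℝ) / (4 * M)) R hR1 hRY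
  obtain ⟨hn, hc⟩ := LawSpike_nonneg M hM u (fun t => (hu t).1) hper a₀ p hp1 R η hR1 hη haa ν hsupp hsize hzero
    (fun n hn0 hns => hasym n hn0 hns)
  have hμ : ∀ m : ℕ, 0 < m → M ∣ m → ∀ (t : ℤ) (k : ℕ),
      |∑ a ∈ (V p).filter (fun a => (m : ℤ) ∣ a - t), LawSpike_mu M u p a₀ η ν a * Uk k (xx p a) -
          (if k = 0 then dl M u m t else 0)| ≤
        (E + 14) * (m * √(m : ℝ)) * (k + 1) * (Real.log p / √(p : ℝ)) := by
    intro m hm hMm t k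
    have h1 := hE p hp2 m hm hMm t k
    have h2 := spike_equi M hM a₀ p hp2 haa R hR1 ν hsupp hmain m hm hMm t k
    have e1 : ∑ a ∈ (V p).filter (fun a => (m : ℤ) ∣ a - t), LawSpike_mu M u p a₀ η ν a * Uk k (xx p a) =
        ∑ a ∈ (V p).filter (fun a => (m : ℤ) ∣ a - t), wt u (PS M p) a * sw p a * Uk k (xx p a) +
          η * ∑ a ∈ (V p).filter (fun a => (m : ℤ) ∣ a - t),
            ((if a = a₀ then 1 else 0) - (if (M : ℤ) ∣ a - a₀ then ν ((a - a₀) / M) else 0)) * Uk k (xx p a) := by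
      rw [mul_sum, ← sum_add_distrib]
      refine sum_congr rfl fun a _ => ?_
      unfold LawSpike_mu
      ring
    have hX0 : 0 ≤ (m : ℝ) * √(m : ℝ) * (k + 1) := by positivity
    have hlog : 1 / 2 ≤ Real.log p := by
      have h3 : Real.log 2 ≤ Real.log p := Real.log_le_log (by norm_num) (by exact_mod_cast hp2)
      have := Real.log_two_gt_d9
      linarith
    have h4 : η * (7 * (m * √(m : ℝ)) * (k + 1) / R) ≤ 14 * (m * √(m : ℝ)) * (k + 1) * (Real.log p / √(p : ℝ)) := by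
      have e2 : η * (7 * (m * √(m : ℝ)) * (k + 1) / R) = 7 * ((m * √(m : ℝ) * (k + 1)) / √(p : ℝ)) := by
        rw [hη]
        field_simp
      have e3 : 14 * (m * √(m : ℝ)) * (k + 1) * (Real.log p / √(p : ℝ)) =
          14 * Real.log p * ((m * √(m : ℝ) * (k + 1)) / √(p : ℝ)) := by ring
      rw [e2, e3]
      have h5 : 0 ≤ (m * √(m : ℝ) * (k + 1)) / √(p : ℝ) := by positivity
      exact mul_le_mul_of_nonneg_right (by linarith) h5
    rw [e1, add_sub_right_comm]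
    refine (abs_add_le _ _).trans ?_
    rw [abs_mul, abs_of_pos hη0]
    have h6 := mul_le_mul_of_nonneg_left h2 hη0.le
    calc _ ≤ E * (m * √(m : ℝ)) * (k + 1) * (Real.log p / √(p : ℝ)) +
          14 * (m * √(m : ℝ)) * (k + 1) * (Real.log p / √(p : ℝ)) := add_le_add h1 (h6.trans h4)
      _ = _ := by ring
  obtain ⟨ρ, hρ, hρ1, -⟩ := law_norm M hM (dl M u)
    (fun m t => (dl_le M hM u B hu m t).trans (by linarith)) hδM (E + 14) (by linarith) p hp2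
    (hp₂ p hpp₂) (LawSpike_mu M u p a₀ η ν) hn hμ
  refine ⟨ρ, hρ, ?_⟩
  have hmem : a₀ ∈ V p := by
    have h1 : (a₀ : ℝ) ^ 2 ≤ 4 * p := by
      rw [← sq_abs]
      have h2 := pow_le_pow_left₀ (abs_nonneg _) haa 2
      have h3 : (√(p : ℝ) / 4) ^ 2 = p / 16 := by
        rw [div_pow, Real.sq_sqrt hp0.le]
        norm_num
      linarith
    have h2 : a₀ ^ 2 ≤ 4 * (p : ℤ) := by exact_mod_cast h1
    have h3 : a₀.natAbs ≤ Nat.sqrt (4 * p) := by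
      rw [Nat.le_sqrt]
      have h4 : ((a₀.natAbs * a₀.natAbs : ℕ) : ℤ) ≤ ((4 * p : ℕ) : ℤ) := by
        rw [Int.natAbs_mul_self]
        push_cast
        nlinarith
      exact_mod_cast h4
    unfold V
    rw [mem_Icc]
    omega
  have := hρ1 a₀ hmem
  linarith

end Pool.Agent.TB
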