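import Pool.Agent.Lib_MP_f1937f_tb.GlDens
import Pool.Agent.Lib_MP_f1937f_tb.LawSmall
import Pool.Agent.Lib_MP_f1937f_tb.LawSpike
import Pool.Agent.Lib_MP_f1937f_tb.LawEmpty
import Pool.Agent.Lib_MP_f1937f_tb.SumLower
import Pool.Agent.Lib_MP_f1937f_tb.Realize
import Pool.Agent.Lib_MP_f1937f_tb.Upper

/-!
# Assembly
-/

set_option autoImplicit false

namespace Pool.Agent.TB

open Finset

theorem law_all (M : ℕ) (hM : 0 < M) (δ : ℕ → ℤ → ℝ) (hδ : ∀ m t, |δ m t| ≤ 55 * M) (C : ℝ) (p₀ : ℕ) (P : ℕ → (ℤ → ℝ) → Prop)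
    (h : ∀ p : ℕ, p₀ ≤ p → ∃ ρ : ℤ → ℝ, GoodLaw M δ C p ρ ∧ P p ρ) :
    ∃ (C' : ℝ) (ρ : ℕ → ℤ → ℝ), 0 ≤ C' ∧ (∀ p : ℕ, p.Prime → GoodLaw M δ C' p (ρ p)) ∧ ∀ p : ℕ, p₀ ≤ p → P p (ρ p) := by
  classical
  obtain ⟨C₁, h1⟩ := law_small M hM δ hδ p₀
  have mono : ∀ {A B : ℝ} {p : ℕ} {ρ : ℤ → ℝ}, A ≤ B → GoodLaw M δ A p ρ → GoodLaw M δ B p ρ := by
    intro A B p ρ hAB hg
    refine ⟨hg.nonneg, hg.supp, hg.total, fun m hm hMm t k => (hg.equi m hm hMm t k).trans ?_⟩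
    have h2 : (0 : ℝ) ≤ Real.log p / √(p : ℝ) := div_nonneg (Real.log_natCast_nonneg p) (Real.sqrt_nonneg _)
    gcongr
  have key : ∀ p : ℕ, ∃ ρ : ℤ → ℝ, (p.Prime → GoodLaw M δ (max (max C C₁) 0) p ρ) ∧ (p₀ ≤ p → P p ρ) := by
    intro p
    by_cases hp : p₀ ≤ p
    · obtain ⟨ρ, hρ, hP⟩ := h p hp
      exact ⟨ρ, fun _ => mono ((le_max_left _ _).trans (le_max_left _ _)) hρ, fun _ => hP⟩
    · by_cases hpp : p.Prime
      · obtain ⟨ρ, hρ⟩ := h1 p hpp.two_le (by omega)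
        exact ⟨ρ, fun _ => mono ((le_max_right _ _).trans (le_max_left _ _)) hρ, fun h => absurd h hp⟩
      · exact ⟨0, fun h => absurd h hpp, fun h => absurd h hp⟩
  choose ρ hρ1 hρ2 using key
  exact ⟨max (max C C₁) 0, ρ, le_max_right _ _, hρ1, hρ2⟩

section

variable (M : ℕ) (hM : 0 < M) (G : Subgroup (GL (Fin 2) (ZMod M)))

include hM

theorem delta_facts : (∀ m t, |dl M (uG M G) m t| ≤ 55 * M) ∧ ∑ t ∈ range M, dl M (uG M G) M (t : ℤ) = 1 := by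
  obtain ⟨h1, h2, h3, -⟩ := uG_facts M hM G
  exact ⟨fun m t => dl_le M hM _ M h2 m t, dl_sum M M hM hM dvd_rfl _ h1 h3⟩

theorem part_one (a₀ : ℤ) (ha₀ : ∃ g ∈ G, g.val.trace = (a₀ : ZMod M)) (ε : ℝ) (hε : 0 < ε) :
    ∃ a : ℕ → ℤ, (∀ p : ℕ, p.Prime → a p ∈ V p) ∧ Info M (dl M (uG M G)) a 0 ∧ ∃ x₀ : ℕ, ∀ x : ℕ, x₀ ≤ x →
      (x : ℝ) ^ (3 / 4 - ε) ≤ ((((range (x + 1)).filter Nat.Prime).filter (fun p => a p = a₀)).card : ℝ) := by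
  obtain ⟨h1, h2, h3, h4⟩ := uG_facts M hM G
  obtain ⟨d1, d2⟩ := delta_facts M hM G
  set e : ℝ := min (ε / 2) (1 / 8) with he
  have he0 : 0 < e := lt_min (by linarith) (by norm_num)
  obtain ⟨C, p₀, hl⟩ := law_spike M hM (uG M G) M h2 h1 le_rfl d2 a₀ (h4 a₀ ha₀) e he0 (min_le_right _ _)
  obtain ⟨C', ρ, hC', hρ, hP⟩ := law_all M hM _ d1 C p₀ (fun p ρ => (p : ℝ) ^ (-(1 / 4) - e) / 4 ≤ ρ a₀) hl
  obtain ⟨a, ha, hI, hcount⟩ := realize M _ C' hC' ρ hρ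
  refine ⟨a, fun p hp => (hρ p hp).supp _ (ha p hp).ne', hI, ?_⟩
  obtain ⟨x₀, hx₀⟩ := sum_lower e he0 (min_le_right _ _) p₀
  refine ⟨max x₀ 1, fun x hx => ?_⟩
  have hx1 : 1 ≤ x := (le_max_right _ _).trans hx
  have h5 := hcount a₀ x hx1
  have h6 := hx₀ x ((le_max_left _ _).trans hx)
  have h7 : ∑ p ∈ ((range (x + 1)).filter Nat.Prime).filter (p₀ ≤ ·), (p : ℝ) ^ (-(1 / 4) - e) / 4 ≤
      ∑ p ∈ (range (x + 1)).filter Nat.Prime, ρ p a₀ := by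
    calc _ ≤ ∑ p ∈ ((range (x + 1)).filter Nat.Prime).filter (p₀ ≤ ·), ρ p a₀ := by
          refine sum_le_sum fun p hp => hP p ?_
          exact (mem_filter.mp hp).2
      _ ≤ _ := by
          refine sum_le_sum_of_subset_of_nonneg (filter_subset _ _) fun p hp _ => ?_
          exact (hρ p (mem_filter.mp hp).2).nonneg a₀
  have h8 : (x : ℝ) ^ (3 / 4 - ε) ≤ (x : ℝ) ^ (3 / 4 - 2 * e) := by
    apply Real.rpow_le_rpow_of_exponent_le (by exact_mod_cast hx1)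
    have := min_le_left (ε / 2) (1 / 8 : ℝ)
    linarith
  have h9 := (abs_le.mp h5).1
  linarith

theorem part_two :
    ∃ a : ℕ → ℤ, (∀ p : ℕ, p.Prime → a p ∈ V p) ∧ Info M (dl M (uG M G)) a 0 ∧
      ∀ b : ℤ, {p : ℕ | p.Prime ∧ a p = b}.Finite := by
  obtain ⟨h1, h2, h3, h4⟩ := uG_facts M hM G
  obtain ⟨d1, d2⟩ := delta_facts M hM G
  obtain ⟨C, p₀, hl⟩ := law_empty M hM (uG M G) M h2 h1 le_rfl d2
  obtain ⟨C', ρ, hC', hρ, hP⟩ := law_all M hM _ d1 C p₀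
    (fun p ρ => ∀ a : ℤ, |(a : ℝ)| ≤ Real.log p → ρ a = 0) hl
  obtain ⟨a, ha, hI, -⟩ := realize M _ C' hC' ρ hρ
  refine ⟨a, fun p hp => (hρ p hp).supp _ (ha p hp).ne', hI, fun b => ?_⟩
  obtain ⟨n₀, hn₀⟩ := exists_nat_ge (Real.exp |(b : ℝ)|)
  refine (Set.finite_Iio (max p₀ (n₀ + 1))).subset ?_
  rintro p ⟨hp, hab⟩
  rw [Set.mem_Iio]
  by_contra hlt
  push Not at hlt
  have hp1 : p₀ ≤ p := (le_max_left _ _).trans hlt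
  have hp2 : n₀ + 1 ≤ p := (le_max_right _ _).trans hlt
  have h5 : |(b : ℝ)| ≤ Real.log p := by
    rw [Real.le_log_iff_exp_le (by exact_mod_cast hp.pos)]
    refine hn₀.trans ?_
    exact_mod_cast (by omega : n₀ ≤ p)
  have h6 := hP p hp1 b h5
  have h7 := ha p hp
  rw [hab, h6] at h7
  exact lt_irrefl _ h7

theorem part_three (a : ℕ → ℤ) (s : ℝ) (hs : 0 ≤ s) (ha : ∀ p : ℕ, p.Prime → a p ∈ V p)
    (hI : Info M (dl M (uG M G)) a s) (b : ℤ) :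
    ∃ C : ℝ, ∀ x : ℕ, 3 ≤ x →
      ((((range (x + 1)).filter Nat.Prime).filter (fun p => a p = b)).card : ℝ) ≤
        C * (x : ℝ) ^ (3 / 4 : ℝ) * Real.log x ^ s :=
  upper M hM _ a ha s hs (delta_facts M hM G).2 hI b

end

end Pool.Agent.TB
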