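import Pool.Agent.Lib_MP_f1937f_tb.Defs

/-!
# Primes whose rank has a given 2-adic valuation
-/

set_option autoImplicit false

namespace Pool.Agent.TB

open Finset

/-- the 2-adic valuation of the rank of a prime -/
noncomputable def rk (p : ℕ) : ℕ := padicValNat 2 (Nat.primeCounting p)

theorem primeCounting_nth (n : ℕ) : Nat.primeCounting (Nat.nth Nat.Prime n) = n + 1 := by
  have hp : (Nat.nth Nat.Prime n).Prime := Nat.prime_nth_prime n
  unfold Nat.primeCounting Nat.primeCounting'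
  rw [Nat.count_succ, if_pos hp, Nat.count_nth_of_infinite Nat.infinite_setOf_prime]

theorem rank_count (j x : ℕ) : (Nat.primeCounting x : ℝ) / 2 ^ (j + 1) - 1 ≤
    ((((range (x + 1)).filter Nat.Prime).filter (fun p => rk p = j)).card : ℝ) := by
  set n := Nat.primeCounting x with hn
  have hinj : ∀ s ∈ range ((n / 2 ^ j + 1) / 2), Nat.nth Nat.Prime (2 ^ j * (2 * s + 1) - 1) ∈
      (((range (x + 1)).filter Nat.Prime).filter (fun p => rk p = j)) := by
    intro s hs
    rw [mem_range] at hs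
    have h1 : 2 * s + 1 ≤ n / 2 ^ j := by omega
    have h2 : 2 ^ j * (2 * s + 1) ≤ n := by
      have := Nat.mul_div_le n (2 ^ j)
      exact (Nat.mul_le_mul_left _ h1).trans this
    have h3 : 1 ≤ 2 ^ j * (2 * s + 1) := Nat.one_le_iff_ne_zero.mpr (by positivity)
    rw [mem_filter, mem_filter, mem_range]
    refine ⟨⟨?_, Nat.prime_nth_prime _⟩, ?_⟩
    · apply Nat.nth_lt_of_lt_count
      have h4 : Nat.count Nat.Prime (x + 1) = n := rfl
      omega
    · unfold rk
      rw [primeCounting_nth, Nat.sub_add_cancel h3]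
      rw [padicValNat.mul (by positivity) (by omega), padicValNat.prime_pow,
        padicValNat.eq_zero_of_not_dvd (by omega), add_zero]
  have hcard := card_le_card_of_injOn (fun s => Nat.nth Nat.Prime (2 ^ j * (2 * s + 1) - 1)) hinj (by
    intro s _ s' _ h
    have h1 := Nat.nth_injective Nat.infinite_setOf_prime h
    have h2 : 1 ≤ 2 ^ j * (2 * s + 1) := Nat.one_le_iff_ne_zero.mpr (by positivity)
    have h3 : 1 ≤ 2 ^ j * (2 * s' + 1) := Nat.one_le_iff_ne_zero.mpr (by positivity)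
    have h4 : 2 ^ j * (2 * s + 1) = 2 ^ j * (2 * s' + 1) := by omega
    have h5 := Nat.eq_of_mul_eq_mul_left (by positivity) h4
    omega)
  rw [card_range] at hcard
  have h5 : (n : ℝ) / 2 ^ (j + 1) - 1 ≤ (((n / 2 ^ j + 1) / 2 : ℕ) : ℝ) := by
    have h6 : n < 2 ^ j * (n / 2 ^ j + 1) := Nat.lt_mul_div_succ n (by positivity)
    have h7 : n / 2 ^ j ≤ 2 * ((n / 2 ^ j + 1) / 2) := by omega
    have h8 : n < 2 ^ j * (2 * ((n / 2 ^ j + 1) / 2) + 1) := lt_of_lt_of_le h6 (Nat.mul_le_mul_left _ (by omega))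
    have h9 : (n : ℝ) < 2 ^ j * (2 * (((n / 2 ^ j + 1) / 2 : ℕ) : ℝ) + 1) := by exact_mod_cast h8
    rw [sub_le_iff_le_add, div_le_iff₀ (by positivity), pow_succ]
    have h10 : (0 : ℝ) < 2 ^ j := by positivity
    nlinarith
  exact h5.trans (by exact_mod_cast hcard)

theorem rank_card_ge (j p₀ x : ℕ) : (Nat.primeCounting x : ℝ) / 2 ^ (j + 1) - 1 - p₀ ≤
    (((((range (x + 1)).filter Nat.Prime).filter (fun p => rk p = j)).filter (p₀ ≤ ·)).card : ℝ) := by
  have h1 := rank_count j x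
  have h2 : (((range (x + 1)).filter Nat.Prime).filter (fun p => rk p = j)).card ≤
      ((((range (x + 1)).filter Nat.Prime).filter (fun p => rk p = j)).filter (p₀ ≤ ·)).card + p₀ := by
    calc (((range (x + 1)).filter Nat.Prime).filter (fun p => rk p = j)).card
        ≤ ((((range (x + 1)).filter Nat.Prime).filter (fun p => rk p = j)).filter (p₀ ≤ ·) ∪ range p₀).card := by
          apply Finset.card_le_card
          intro p hp
          rw [Finset.mem_union, Finset.mem_filter, Finset.mem_range]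
          by_cases h : p₀ ≤ p
          · exact Or.inl ⟨hp, h⟩
          · exact Or.inr (not_le.1 h)
      _ ≤ _ := (Finset.card_union_le _ _).trans (by rw [Finset.card_range])
  have h3 : ((((range (x + 1)).filter Nat.Prime).filter (fun p => rk p = j)).card : ℝ) ≤
      (((((range (x + 1)).filter Nat.Prime).filter (fun p => rk p = j)).filter (p₀ ≤ ·)).card : ℝ) + p₀ := by
    exact_mod_cast h2
  linarith

theorem sum_lower_rank (ε : ℝ) (hε : 0 < ε) (hε' : ε ≤ 1 / 8) (j p₀ : ℕ) : ∃ x₀ : ℕ, ∀ x : ℕ, x₀ ≤ x →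
    (x : ℝ) ^ (3 / 4 - 2 * ε) + (Nat.log 2 x + 1) ≤
      ∑ p ∈ (((range (x + 1)).filter Nat.Prime).filter (fun p => rk p = j)).filter (p₀ ≤ ·),
        (p : ℝ) ^ (-(1 / 4) - ε) / 4 := by
  set D : ℝ := 2 ^ (j + 1) with hD
  have hD0 : 0 < D := by positivity
  have hD1 : 1 ≤ D := one_le_pow₀ (by norm_num)
  have e1 : ∀ᶠ x : ℝ in Filter.atTop, 32 * D * Real.log x ≤ x ^ ε := by
    filter_upwards [(isLittleO_log_rpow_atTop hε).def (c := 1 / (32 * D)) (by positivity),
      Filter.eventually_ge_atTop 1] with x h1 h2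
    rw [Real.norm_eq_abs, Real.norm_eq_abs, abs_of_nonneg (Real.log_nonneg h2),
      abs_of_nonneg (Real.rpow_nonneg (by linarith) _)] at h1
    rw [one_div, inv_mul_eq_div, le_div_iff₀ (by positivity)] at h1
    linarith
  have e2 : ∀ᶠ x : ℝ in Filter.atTop, (4 * D * (p₀ + 1) + 20) * Real.log x ≤ x := by
    filter_upwards [Real.isLittleO_log_id_atTop.def (c := 1 / (4 * D * (p₀ + 1) + 20)) (by positivity),
      Filter.eventually_ge_atTop 1] with x h1 h2
    simp only [id] at h1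
    rw [Real.norm_eq_abs, Real.norm_eq_abs, abs_of_nonneg (Real.log_nonneg h2),
      abs_of_nonneg (by linarith : (0 : ℝ) ≤ x)] at h1
    rw [one_div, inv_mul_eq_div, le_div_iff₀ (by positivity)] at h1
    linarith
  have e3 : ∀ᶠ x : ℝ in Filter.atTop, 8 * Real.log x ≤ x ^ (1 / 2 : ℝ) := by
    filter_upwards [(isLittleO_log_rpow_atTop (by norm_num : (0 : ℝ) < 1 / 2)).def (c := 1 / 8)
      (by norm_num), Filter.eventually_ge_atTop 1] with x h1 h2
    rw [Real.norm_eq_abs, Real.norm_eq_abs, abs_of_nonneg (Real.log_nonneg h2),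
      abs_of_nonneg (Real.rpow_nonneg (by linarith) _)] at h1
    linarith
  have e4 : ∀ᶠ x : ℝ in Filter.atTop, 1 ≤ Real.log x :=
    Real.tendsto_log_atTop.eventually_ge_atTop 1
  obtain ⟨x₀, hx₀⟩ := Filter.eventually_atTop.1
    (tendsto_natCast_atTop_atTop.eventually (e1.and (e2.and (e3.and (e4.and
      (Filter.eventually_ge_atTop (100 : ℝ)))))))
  refine ⟨x₀, fun x hx => ?_⟩
  obtain ⟨h1, h2, h3, h4, h5⟩ := hx₀ x hx
  have hx0 : (0 : ℝ) < x := by linarith
  have hx1 : (1 : ℝ) ≤ x := by linarith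
  have hl0 : (0 : ℝ) < Real.log x := by linarith
  -- each term
  have t1 : ∀ p ∈ (((range (x + 1)).filter Nat.Prime).filter (fun p => rk p = j)).filter (p₀ ≤ ·),
      (x : ℝ) ^ (-(1 / 4) - ε) / 4 ≤ (p : ℝ) ^ (-(1 / 4) - ε) / 4 := by
    intro p hp
    rw [Finset.mem_filter, Finset.mem_filter, Finset.mem_filter, Finset.mem_range] at hp
    have hp0 : (0 : ℝ) < p := by exact_mod_cast hp.1.1.2.pos
    have hpx : (p : ℝ) ≤ x := by exact_mod_cast (by omega : p ≤ x)
    have := Real.rpow_le_rpow_of_nonpos hp0 hpx (by linarith : -(1 / 4) - ε ≤ 0)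
    linarith
  have t2 := Finset.card_nsmul_le_sum _ _ _ t1
  rw [nsmul_eq_mul] at t2
  -- number of terms
  have hpi := Chebyshev.pi_ge x
  have hlog1 : Real.log ((x : ℝ) + 1) ≤ x / 10 := by
    have h6 : Real.log ((x : ℝ) + 1) ≤ Real.log (x * x) :=
      Real.log_le_log (by positivity) (by nlinarith)
    rw [Real.log_mul hx0.ne' hx0.ne'] at h6
    have h7 : (20 : ℝ) * Real.log x ≤ (4 * D * (p₀ + 1) + 20) * Real.log x :=
      mul_le_mul_of_nonneg_right (by nlinarith [(Nat.cast_nonneg p₀ : (0 : ℝ) ≤ p₀)]) hl0.le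
    linarith
  have hlog2 := Real.log_two_gt_d9
  have hc1 : (x : ℝ) / 2 / Real.log x ≤ Nat.primeCounting x := by
    refine le_trans ?_ hpi
    apply div_le_div_of_nonneg_right _ hl0.le
    nlinarith
  have hc3 : (x : ℝ) / (4 * D * Real.log x) ≤
      (((((range (x + 1)).filter Nat.Prime).filter (fun p => rk p = j)).filter (p₀ ≤ ·)).card : ℝ) := by
    refine le_trans ?_ (rank_card_ge j p₀ x)
    rw [← hD]
    have h6 : (x : ℝ) / 2 / Real.log x / D ≤ Nat.primeCounting x / D := div_le_div_of_nonneg_right hc1 hD0.le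
    have h7 : (p₀ : ℝ) + 1 ≤ x / (4 * D * Real.log x) := by
      rw [le_div_iff₀ (by positivity)]
      nlinarith
    have h8 : (x : ℝ) / 2 / Real.log x / D = 2 * (x / (4 * D * Real.log x)) := by
      field_simp
      norm_num
    linarith
  -- main term
  have hm : 2 * (x : ℝ) ^ (3 / 4 - 2 * ε) ≤
      (((((range (x + 1)).filter Nat.Prime).filter (fun p => rk p = j)).filter (p₀ ≤ ·)).card : ℝ) *
        ((x : ℝ) ^ (-(1 / 4) - ε) / 4) := by
    have h6 : (0 : ℝ) ≤ (x : ℝ) ^ (-(1 / 4) - ε) / 4 := by positivity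
    refine le_trans ?_ (mul_le_mul_of_nonneg_right hc3 h6)
    have h7 : (x : ℝ) ^ (3 / 4 - 2 * ε) * x ^ ε = x * (x : ℝ) ^ (-(1 / 4) - ε) := by
      rw [← Real.rpow_add hx0]
      nth_rewrite 2 [← Real.rpow_one (x : ℝ)]
      rw [← Real.rpow_add hx0]
      congr 1
      ring
    have h8 : (x : ℝ) / (4 * D * Real.log x) * ((x : ℝ) ^ (-(1 / 4) - ε) / 4) =
        (x : ℝ) ^ (3 / 4 - 2 * ε) * (x ^ ε / (16 * D * Real.log x)) := by
      have h9 : (x : ℝ) / (4 * D * Real.log x) * ((x : ℝ) ^ (-(1 / 4) - ε) / 4) =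
        (x * (x : ℝ) ^ (-(1 / 4) - ε)) / (16 * D * Real.log x) := by
        field_simp
        norm_num
      rw [h9, ← h7]
      ring
    rw [h8, mul_comm]
    apply mul_le_mul_of_nonneg_left _ (by positivity)
    rw [le_div_iff₀ (by positivity)]
    linarith
  have hn : ((Nat.log 2 x : ℝ) + 1) ≤ (x : ℝ) ^ (3 / 4 - 2 * ε) := by
    have h6 : (Nat.log 2 x : ℝ) ≤ Real.logb 2 x := by
      exact_mod_cast Real.natLog_le_logb x 2
    have h7 : Real.logb 2 x ≤ 2 * Real.log x := by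
      rw [Real.logb, div_le_iff₀ (by linarith)]
      nlinarith
    have h8 : (x : ℝ) ^ (1 / 2 : ℝ) ≤ (x : ℝ) ^ (3 / 4 - 2 * ε) :=
      Real.rpow_le_rpow_of_exponent_le hx1 (by linarith)
    linarith
  linarith

end Pool.Agent.TB
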