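import Pool.Agent.Lib_MP_f1937f_tb.Main
import Pool.Agent.Lib_MP_f1937f_tb.LawSpikeU
import Pool.Agent.Lib_MP_f1937f_tb.Rank

/-!
# One sequence for all traces
-/

set_option autoImplicit false

namespace Pool.Agent.TB

open Finset

theorem GoodLaw.mono' {M : ℕ} {δ : ℕ → ℤ → ℝ} {A B : ℝ} {p : ℕ} {ρ : ℤ → ℝ} (hAB : A ≤ B) (hg : GoodLaw M δ A p ρ) :
    GoodLaw M δ B p ρ := by
  refine ⟨hg.nonneg, hg.supp, hg.total, fun m hm hMm t k => (hg.equi m hm hMm t k).trans ?_⟩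
  have h2 : (0 : ℝ) ≤ Real.log p / √(p : ℝ) := div_nonneg (Real.log_natCast_nonneg p) (Real.sqrt_nonneg _)
  gcongr

section

variable (M : ℕ) (hM : 0 < M) (G : Subgroup (GL (Fin 2) (ZMod M)))

include hM

theorem part_one_all :
    ∃ a : ℕ → ℤ, (∀ p : ℕ, p.Prime → a p ∈ V p) ∧ Info M (dl M (uG M G)) a 0 ∧
      ∀ a₀ : ℤ, (∃ g ∈ G, g.val.trace = (a₀ : ZMod M)) → ∀ ε : ℝ, 0 < ε → ∃ x₀ : ℕ, ∀ x : ℕ, x₀ ≤ x →
        (x : ℝ) ^ (3 / 4 - ε) ≤ ((((range (x + 1)).filter Nat.Prime).filter (fun p => a p = a₀)).card : ℝ) := by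
  classical
  obtain ⟨h1, h2, h3, h4⟩ := uG_facts M hM G
  obtain ⟨d1, d2⟩ := delta_facts M hM G
  obtain ⟨C, hC⟩ := law_spike_unif M hM (uG M G) M h2 h1 le_rfl d2
  choose! P hP using hC
  obtain ⟨C₂, p₂, hl⟩ := law_empty M hM (uG M G) M h2 h1 le_rfl d2
  set e : ℕ ≃ ℤ := (Denumerable.eqv ℤ).symm with he
  set Q : ℕ → (ℤ → ℝ) → Prop := fun p ρ => ∀ n : ℕ, 8 ≤ n → n ≤ p → 0 < uG M G (e (rk p)) →
    P (e (rk p)) (1 / (n : ℝ)) ≤ p → (p : ℝ) ^ (-(1 / 4) - 1 / (n : ℝ)) / 4 ≤ ρ (e (rk p)) with hQ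
  have key : ∀ p : ℕ, p₂ ≤ p → ∃ ρ : ℤ → ℝ, GoodLaw M (dl M (uG M G)) (max C C₂) p ρ ∧ Q p ρ := by
    intro p hp
    by_cases hu : 0 < uG M G (e (rk p))
    · set N : Finset ℕ := (Icc 8 p).filter (fun n => P (e (rk p)) (1 / (n : ℝ)) ≤ p) with hN
      rcases N.eq_empty_or_nonempty with hN0 | hN0
      · obtain ⟨ρ, hρ, -⟩ := hl p hp
        refine ⟨ρ, hρ.mono' (le_max_right _ _), fun n hn8 hnp _ hPn => ?_⟩
        have : n ∈ N := mem_filter.mpr ⟨mem_Icc.mpr ⟨hn8, hnp⟩, hPn⟩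
        rw [hN0] at this
        simp at this
      · set n₁ := N.max' hN0 with hn₁
        have hmem : n₁ ∈ N := N.max'_mem hN0
        rw [hN, mem_filter, mem_Icc] at hmem
        obtain ⟨⟨h8, hnp⟩, hPn⟩ := hmem
        have h8' : (8 : ℝ) ≤ n₁ := by exact_mod_cast h8
        obtain ⟨ρ, hρ, hρ1⟩ := hP (e (rk p)) hu (1 / (n₁ : ℝ)) (by positivity)
          (one_div_le_one_div_of_le (by norm_num) h8') p hPn
        refine ⟨ρ, hρ.mono' (le_max_left _ _), fun n hn8 hnp' _ hPn' => le_trans ?_ hρ1⟩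
        have hle : n ≤ n₁ := N.le_max' n (mem_filter.mpr ⟨mem_Icc.mpr ⟨hn8, hnp'⟩, hPn'⟩)
        have hn0 : (0 : ℝ) < n := by exact_mod_cast (by omega : 0 < n)
        have hp1 : (1 : ℝ) ≤ p := by exact_mod_cast (by omega : 1 ≤ p)
        have h5 : 1 / (n₁ : ℝ) ≤ 1 / (n : ℝ) := one_div_le_one_div_of_le hn0 (by exact_mod_cast hle)
        have h6 := Real.rpow_le_rpow_of_exponent_le hp1 (by linarith : -(1 / 4) - 1 / (n : ℝ) ≤ -(1 / 4) - 1 / (n₁ : ℝ))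
        linarith
    · obtain ⟨ρ, hρ, -⟩ := hl p hp
      exact ⟨ρ, hρ.mono' (le_max_right _ _), fun n _ _ h => absurd h hu⟩
  obtain ⟨C', ρ, hC', hρ, hQρ⟩ := law_all M hM _ d1 (max C C₂) p₂ Q key
  obtain ⟨a, ha, hI, hcount⟩ := realize M _ C' hC' ρ hρ
  refine ⟨a, fun p hp => (hρ p hp).supp _ (ha p hp).ne', hI, fun a₀ ha₀ ε hε => ?_⟩
  have hu₀ := h4 a₀ ha₀
  obtain ⟨n₀, hn₀⟩ := exists_nat_ge (max 8 (2 / ε))
  have hn8r : (8 : ℝ) ≤ n₀ := (le_max_left _ _).trans hn₀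
  have hn8 : 8 ≤ n₀ := by exact_mod_cast hn8r
  have hnε : 2 / ε ≤ n₀ := (le_max_right _ _).trans hn₀
  have hn0 : (0 : ℝ) < n₀ := by linarith
  have hε' : 1 / (n₀ : ℝ) ≤ 1 / 8 := one_div_le_one_div_of_le (by norm_num) hn8r
  have hε2 : 2 * (1 / (n₀ : ℝ)) ≤ ε := by
    rw [div_le_iff₀ hε] at hnε
    rw [mul_one_div, div_le_iff₀ hn0]
    linarith
  set j : ℕ := e.symm a₀ with hj
  have hej : e j = a₀ := by rw [hj, Equiv.apply_symm_apply]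
  obtain ⟨x₀, hx₀⟩ := sum_lower_rank (1 / (n₀ : ℝ)) (by positivity) hε' j (max p₂ (max n₀ (P a₀ (1 / (n₀ : ℝ)))))
  refine ⟨max x₀ 1, fun x hx => ?_⟩
  have hx1 : 1 ≤ x := (le_max_right _ _).trans hx
  have h5 := hcount a₀ x hx1
  have h6 := hx₀ x ((le_max_left _ _).trans hx)
  have h7 : ∑ p ∈ (((range (x + 1)).filter Nat.Prime).filter (fun p => rk p = j)).filter
      (max p₂ (max n₀ (P a₀ (1 / (n₀ : ℝ)))) ≤ ·), (p : ℝ) ^ (-(1 / 4) - 1 / (n₀ : ℝ)) / 4 ≤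
      ∑ p ∈ (range (x + 1)).filter Nat.Prime, ρ p a₀ := by
    calc _ ≤ ∑ p ∈ (((range (x + 1)).filter Nat.Prime).filter (fun p => rk p = j)).filter
            (max p₂ (max n₀ (P a₀ (1 / (n₀ : ℝ)))) ≤ ·), ρ p a₀ := by
          refine sum_le_sum fun p hp => ?_
          rw [mem_filter, mem_filter] at hp
          obtain ⟨⟨hp1, hpj⟩, hpm⟩ := hp
          have hq := hQρ p ((le_max_left _ _).trans hpm) n₀ hn8
            ((le_max_left _ _).trans ((le_max_right _ _).trans hpm))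
          rw [hpj, hej] at hq
          exact hq hu₀ ((le_max_right _ _).trans ((le_max_right _ _).trans hpm))
      _ ≤ _ := by
          refine sum_le_sum_of_subset_of_nonneg ((filter_subset _ _).trans (filter_subset _ _)) fun p hp _ => ?_
          exact (hρ p (mem_filter.mp hp).2).nonneg a₀
  have h8 : (x : ℝ) ^ (3 / 4 - ε) ≤ (x : ℝ) ^ (3 / 4 - 2 * (1 / (n₀ : ℝ))) := by
    apply Real.rpow_le_rpow_of_exponent_le (by exact_mod_cast hx1)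
    linarith
  have h9 := (abs_le.mp h5).1
  linarith

end

end Pool.Agent.TB
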