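import Pool.Agent.Lib_MP_f1937f_tb.Defs

/-!
# Quota lemma (rounding of time dependent laws)

PROOF. For `a ∈ A` and a time `p ∈ S` put `s a p = ∑ q ∈ S, q < p, ρ q a` and `T a = ∑ q ∈ S, ρ q a`. Jobs: the pairs
`(a, j)`, `a ∈ A`, `1 ≤ j ≤ ⌈T a⌉`. Weight of the time `p` on the job `(a, j)`: the length of
`(s a p, s a p + ρ p a] ∩ (j - 1, j]`, i.e. `w p (a, j) = max 0 (min (s a p + ρ p a) j - max (s a p) (j - 1))`.
`∑ j, w p (a, j) = ρ p a` (the intervals `(j - 1, j]`, `1 ≤ j ≤ ⌈T a⌉`, cover `(0, T a]`), so `∑_jobs w p = 1`.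
`∑ p ∈ S, w p (a, j) = min (T a) j - (j - 1)` (the intervals `(s a p, s a p + ρ p a]`, `p ∈ S`, tile `(0, T a]`), which is
`1` if `j ≤ T a` and lies in `(0, 1]` for `j = ⌈T a⌉`. Let `n = #S = ∑ a, T a`, `D = #jobs - n` (a natural number). If
`D > 0` add `D` dummy times, each with weight `(1 - ∑ p ∈ S, w p (a, j)) / D` on the job `(a, j)`. Now all times (real or
dummy) have total weight `1` and all jobs have total weight `1`, so by Hall's theorem
(`Finset.all_card_le_biUnion_card_iff_exists_injective`: a set `I` of times has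
`#I = ∑ t ∈ I, ∑ jobs, w ≤ ∑ jobs ∈ N(I), ∑ all times, w = #N(I)`) there is an injective map `f` from the times to the jobs
with `w t (f t) > 0`; it is a bijection as the numbers of times and jobs agree. Put `v p = (f p).1` for `p ∈ S`.
* `w p (a, j) > 0` implies `ρ p a > 0`, `j - 1 < s a p + ρ p a` and `s a p < j`.
* Upper bound: the times `p ≤ x` with `v p = a` have different jobs `(a, j)`, `1 ≤ j`, `j - 1 < s a p + ρ p a ≤`
  `S x := ∑ p ∈ S, p ≤ x, ρ p a`, so their number is at most `⌈S x⌉ < S x + 1`.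
* Lower bound: every job `(a, j)` with `j ≤ S x` (`≤ T a`) is full, so no dummy time can be matched with it (weight `0`);
  it is matched with a real time `p` with `s a p < j ≤ S x`, hence `p ≤ x` (if `p > x` then `s a p ≥ S x`). So the number of
  times `p ≤ x` with `v p = a` is at least `⌊S x⌋ > S x - 1`.
-/

set_option autoImplicit false

namespace Pool.Agent.TB

open Finset

/-- length of `(0, y] ∩ (j, j + 1]` -/
private noncomputable def qL (y : ℝ) (j : ℕ) : ℝ := max 0 (min 1 (y - j))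

private theorem qL_nonneg (y : ℝ) (j : ℕ) : 0 ≤ qL y j := le_max_left _ _

private theorem qL_le_one (y : ℝ) (j : ℕ) : qL y j ≤ 1 := max_le zero_le_one (min_le_left _ _)

private theorem qL_mono {y z : ℝ} (h : y ≤ z) (j : ℕ) : qL y j ≤ qL z j :=
  max_le_max le_rfl (min_le_min le_rfl (by linarith))

private theorem qL_of_le {y : ℝ} {j : ℕ} (h : y ≤ j) : qL y j = 0 :=
  max_eq_left ((min_le_right _ _).trans (by linarith))

private theorem qL_of_ge {y : ℝ} {j : ℕ} (h : (j : ℝ) + 1 ≤ y) : qL y j = 1 := by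
  unfold qL
  rw [min_eq_left (by linarith), max_eq_right zero_le_one]

private theorem qL_sum_aux (m : ℕ) {y : ℝ} (h0 : 0 ≤ y) :
    ∑ j ∈ range m, qL y j = min y m := by
  induction m with
  | zero => simp [h0]
  | succ m ih =>
    rw [Finset.sum_range_succ, ih]
    unfold qL
    push_cast
    rcases le_total y m with h | h
    · rw [min_eq_left h, min_eq_left (by linarith : y ≤ (m : ℝ) + 1),
        max_eq_left ((min_le_right _ _).trans (by linarith)), add_zero]
    · rcases le_total y (m + 1) with h' | h'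
      · rw [min_eq_right h, min_eq_left h', min_eq_right (by linarith), max_eq_right (by linarith)]
        ring
      · rw [min_eq_right h, min_eq_right h', min_eq_left (by linarith), max_eq_right zero_le_one]

private theorem qL_sum (m : ℕ) {y : ℝ} (h0 : 0 ≤ y) (h : y ≤ m) : ∑ j ∈ range m, qL y j = y := by
  rw [qL_sum_aux m h0, min_eq_left h]

/-- PIECE [TB-A] (about 200 lines). Proof in the header of this file. -/
theorem quota (S : Finset ℕ) (A : Finset ℤ) (ρ : ℕ → ℤ → ℝ) (h0 : ∀ p a, 0 ≤ ρ p a)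
    (h1 : ∀ p ∈ S, ∑ a ∈ A, ρ p a = 1) :
    ∃ v : ℕ → ℤ, (∀ p ∈ S, v p ∈ A ∧ 0 < ρ p (v p)) ∧
      ∀ a ∈ A, ∀ x : ℕ, |∑ p ∈ S.filter (· ≤ x), ((if v p = a then (1 : ℝ) else 0) - ρ p a)| ≤ 1 := by
  classical
  obtain ⟨c, hc⟩ : ∃ c : ℤ → ℕ → ℝ, c = fun a x => ∑ q ∈ range x, if q ∈ S then ρ q a else 0 :=
    ⟨_, rfl⟩
  have c_succ : ∀ a x, c a (x + 1) = c a x + if x ∈ S then ρ x a else 0 := by
    intro a x
    rw [hc]
    exact Finset.sum_range_succ _ _
  have c_zero : ∀ a, c a 0 = 0 := by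
    intro a
    rw [hc]
    simp
  have c_mono : ∀ a, Monotone (c a) := by
    intro a
    refine monotone_nat_of_le_succ fun x => ?_
    rw [c_succ]
    split_ifs
    · linarith [h0 x a]
    · linarith
  have c_nonneg : ∀ a x, 0 ≤ c a x := by
    intro a x
    rw [← c_zero a]
    exact c_mono a (Nat.zero_le x)
  obtain ⟨N, hN⟩ := Finset.exists_nat_subset_range S
  have c_filter : ∀ a x, ∑ p ∈ S.filter (· ≤ x), ρ p a = c a (x + 1) := by
    intro a x
    rw [hc]
    simp only
    rw [← Finset.sum_filter]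
    refine Finset.sum_congr ?_ fun _ _ => rfl
    ext q
    simp only [Finset.mem_filter, Finset.mem_range, Nat.lt_succ_iff]
    tauto
  have w_nonneg : ∀ a p j, 0 ≤ qL (c a (p + 1)) j - qL (c a p) j := by
    intro a p j
    have := qL_mono (c_mono a (Nat.le_succ p)) j
    linarith
  have w_col : ∀ a j, ∑ p ∈ S, (qL (c a (p + 1)) j - qL (c a p) j) = qL (c a N) j := by
    intro a j
    have h2 : ∑ p ∈ S, (qL (c a (p + 1)) j - qL (c a p) j) =
        ∑ p ∈ range N, (qL (c a (p + 1)) j - qL (c a p) j) := by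
      refine Finset.sum_subset hN fun p _ hp => ?_
      rw [c_succ, if_neg hp, add_zero, sub_self]
    rw [h2, Finset.sum_range_sub (fun p => qL (c a p) j) N, c_zero,
      qL_of_le (by positivity : (0 : ℝ) ≤ j), sub_zero]
  obtain ⟨J, hJ⟩ : ∃ J : Finset ((_ : ℤ) × ℕ), J = A.sigma fun a => range ⌈c a N⌉₊ := ⟨_, rfl⟩
  have hsumc : ∑ a ∈ A, c a N = S.card := by
    rw [hc]
    simp only
    rw [Finset.sum_comm]
    have h2 : ∀ q ∈ range N, (∑ a ∈ A, if q ∈ S then ρ q a else 0) = if q ∈ S then 1 else 0 := by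
      intro q _
      by_cases hq : q ∈ S
      · simp only [if_pos hq]
        exact h1 q hq
      · simp only [if_neg hq]
        simp
    rw [Finset.sum_congr rfl h2, ← Finset.sum_filter]
    have h3 : (range N).filter (· ∈ S) = S := by
      ext q
      simp only [Finset.mem_filter]
      exact ⟨fun h => h.2, fun h => ⟨hN h, h⟩⟩
    rw [h3]
    simp
  have hceil : ∀ a, c a N ≤ (⌈c a N⌉₊ : ℝ) := fun a => Nat.le_ceil _
  have hJcard : (J.card : ℝ) = ∑ a ∈ A, (⌈c a N⌉₊ : ℝ) := by
    rw [hJ, Finset.card_sigma]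
    simp
  have hSJ : S.card ≤ J.card := by
    have h2 : (S.card : ℝ) ≤ J.card := by
      rw [← hsumc, hJcard]
      exact Finset.sum_le_sum fun a _ => hceil a
    exact_mod_cast h2
  obtain ⟨D, hD⟩ : ∃ D, S.card + D = J.card := ⟨J.card - S.card, by omega⟩
  obtain ⟨W, hW⟩ : ∃ W : (S ⊕ Fin D) → ((_ : ℤ) × ℕ) → ℝ, W = Sum.elim
      (fun (p : S) (b : (_ : ℤ) × ℕ) =>
        qL (c b.1 ((p : ℕ) + 1)) b.2 - qL (c b.1 (p : ℕ)) b.2)
      (fun (_ : Fin D) (b : (_ : ℤ) × ℕ) => (1 - qL (c b.1 N) b.2) / D) := ⟨_, rfl⟩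
  have hWl : ∀ (p : S) b, W (Sum.inl p) b =
      qL (c b.1 ((p : ℕ) + 1)) b.2 - qL (c b.1 (p : ℕ)) b.2 := by
    intro p b
    rw [hW]
    rfl
  have hWr : ∀ (k : Fin D) b, W (Sum.inr k) b = (1 - qL (c b.1 N) b.2) / D := by
    intro k b
    rw [hW]
    rfl
  have hW0 : ∀ i b, 0 ≤ W i b := by
    rintro (p | k) b
    · rw [hWl]
      exact w_nonneg _ _ _
    · rw [hWr]
      have := qL_le_one (c b.1 N) b.2
      exact div_nonneg (by linarith) (by positivity)
  have hrow : ∀ i, ∑ b ∈ J, W i b = 1 := by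
    rintro (p | k)
    · have h2 : ∀ a ∈ A, ∑ j ∈ range ⌈c a N⌉₊, W (Sum.inl p) ⟨a, j⟩ = ρ p a := by
        intro a _
        have hp1 : (p : ℕ) + 1 ≤ N := Finset.mem_range.1 (hN p.2)
        have h3 : c a ((p : ℕ) + 1) ≤ (⌈c a N⌉₊ : ℝ) := (c_mono a hp1).trans (hceil a)
        have h4 : c a (p : ℕ) ≤ (⌈c a N⌉₊ : ℝ) := (c_mono a (Nat.le_succ _)).trans h3
        simp only [hWl]
        rw [Finset.sum_sub_distrib, qL_sum _ (c_nonneg _ _) h3, qL_sum _ (c_nonneg _ _) h4,
          c_succ, if_pos p.2]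
        ring
      rw [hJ, Finset.sum_sigma, Finset.sum_congr rfl h2]
      exact h1 p p.2
    · have hD0 : 0 < D := (Nat.zero_le _).trans_lt k.2
      have hD1 : (0 : ℝ) < D := by exact_mod_cast hD0
      have h2 : ∀ a ∈ A, ∑ j ∈ range ⌈c a N⌉₊, W (Sum.inr k) ⟨a, j⟩ =
          ((⌈c a N⌉₊ : ℝ) - c a N) / D := by
        intro a _
        simp only [hWr]
        rw [← Finset.sum_div, Finset.sum_sub_distrib, qL_sum _ (c_nonneg _ _) (hceil a)]
        simp
      rw [hJ, Finset.sum_sigma, Finset.sum_congr rfl h2, ← Finset.sum_div,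
        Finset.sum_sub_distrib, hsumc, ← hJcard, div_eq_one_iff_eq hD1.ne']
      have h3 : ((S.card + D : ℕ) : ℝ) = J.card := by rw [hD]
      push_cast at h3
      linarith
  have hcol : ∀ b, ∑ i, W i b ≤ 1 := by
    intro b
    rw [Fintype.sum_sum_type]
    simp only [hWl, hWr]
    rw [Finset.sum_coe_sort S (fun p : ℕ => qL (c b.1 (p + 1)) b.2 - qL (c b.1 p) b.2), w_col,
      Finset.sum_const, Finset.card_univ, Fintype.card_fin, nsmul_eq_mul]
    rcases Nat.eq_zero_or_pos D with h | h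
    · rw [h]
      simpa using qL_le_one (c b.1 N) b.2
    · have hD1 : (D : ℝ) ≠ 0 := by
        have : (0 : ℝ) < D := by exact_mod_cast h
        exact this.ne'
      rw [mul_div_cancel₀ _ hD1]
      linarith
  obtain ⟨t, ht⟩ : ∃ t : (S ⊕ Fin D) → Finset ((_ : ℤ) × ℕ), t = fun i => J.filter (0 < W i ·) :=
    ⟨_, rfl⟩
  have htm : ∀ i b, b ∈ t i ↔ b ∈ J ∧ 0 < W i b := by
    intro i b
    rw [ht]
    exact Finset.mem_filter
  obtain ⟨f, hfi, hft⟩ : ∃ f : (S ⊕ Fin D) → ((_ : ℤ) × ℕ), Function.Injective f ∧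
      ∀ i, f i ∈ t i := by
    rw [← Finset.all_card_le_biUnion_card_iff_exists_injective]
    intro s
    have h2 : (s.card : ℝ) ≤ (s.biUnion t).card := by
      calc (s.card : ℝ) = ∑ i ∈ s, ∑ b ∈ J, W i b := by
            rw [Finset.sum_congr rfl fun i _ => hrow i]
            simp
        _ ≤ ∑ i ∈ s, ∑ b ∈ s.biUnion t, W i b := by
            refine Finset.sum_le_sum fun i hi => ?_
            have h3 : ∑ b ∈ J, W i b = ∑ b ∈ t i, W i b := by
              symm
              refine Finset.sum_subset (fun b hb => ((htm i b).1 hb).1) fun b hb hb' => ?_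
              have h4 : ¬ 0 < W i b := fun h => hb' ((htm i b).2 ⟨hb, h⟩)
              exact le_antisymm (not_lt.1 h4) (hW0 i b)
            rw [h3]
            refine Finset.sum_le_sum_of_subset_of_nonneg (fun b hb => ?_) fun b _ _ => hW0 i b
            exact Finset.mem_biUnion.2 ⟨i, hi, hb⟩
        _ = ∑ b ∈ s.biUnion t, ∑ i ∈ s, W i b := Finset.sum_comm
        _ ≤ ∑ b ∈ s.biUnion t, ∑ i, W i b := by
            refine Finset.sum_le_sum fun b _ => ?_
            exact Finset.sum_le_sum_of_subset_of_nonneg (Finset.subset_univ s)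
              fun i _ _ => hW0 i b
        _ ≤ ∑ b ∈ s.biUnion t, (1 : ℝ) := Finset.sum_le_sum fun b _ => hcol b
        _ = (s.biUnion t).card := by simp
    exact_mod_cast h2
  have hfJ : ∀ b ∈ J, ∃ i, f i = b := by
    have h2 : Finset.univ.image f = J := by
      refine Finset.eq_of_subset_of_card_le ?_ ?_
      · intro b hb
        obtain ⟨i, -, hi⟩ := Finset.mem_image.1 hb
        rw [← hi]
        exact ((htm i _).1 (hft i)).1
      · rw [Finset.card_image_of_injective _ hfi, Finset.card_univ, Fintype.card_sum,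
          Fintype.card_coe, Fintype.card_fin, hD]
    intro b hb
    rw [← h2] at hb
    obtain ⟨i, -, hi⟩ := Finset.mem_image.1 hb
    exact ⟨i, hi⟩
  -- facts about the real times
  have hreal : ∀ p : S, (f (Sum.inl p)).1 ∈ A ∧ 0 < ρ p (f (Sum.inl p)).1 ∧
      ((f (Sum.inl p)).2 : ℝ) < c (f (Sum.inl p)).1 ((p : ℕ) + 1) ∧
      c (f (Sum.inl p)).1 (p : ℕ) < ((f (Sum.inl p)).2 : ℝ) + 1 := by
    intro p
    obtain ⟨h2, h3⟩ := (htm _ _).1 (hft (Sum.inl p))
    rw [hWl] at h3
    rw [hJ, Finset.mem_sigma] at h2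
    refine ⟨h2.1, ?_, ?_, ?_⟩
    · by_contra h4
      have h5 : ρ p (f (Sum.inl p)).1 = 0 := le_antisymm (not_lt.1 h4) (h0 _ _)
      rw [c_succ, if_pos p.2, h5, add_zero, sub_self] at h3
      exact lt_irrefl _ h3
    · by_contra h4
      have h5 := qL_of_le (not_lt.1 h4)
      have h6 := qL_nonneg (c (f (Sum.inl p)).1 (p : ℕ)) (f (Sum.inl p)).2
      rw [h5] at h3
      linarith
    · by_contra h4
      have h5 := qL_of_ge (not_lt.1 h4)
      have h6 := qL_le_one (c (f (Sum.inl p)).1 ((p : ℕ) + 1)) (f (Sum.inl p)).2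
      rw [h5] at h3
      linarith
  refine ⟨fun p => if hp : p ∈ S then (f (Sum.inl ⟨p, hp⟩)).1 else 0, ?_, ?_⟩
  · intro p hp
    have h2 := hreal ⟨p, hp⟩
    simp only [dif_pos hp]
    exact ⟨h2.1, h2.2.1⟩
  intro a ha x
  obtain ⟨v, hv⟩ : ∃ v : ℕ → ℤ, v = fun p => if hp : p ∈ S then (f (Sum.inl ⟨p, hp⟩)).1 else 0 :=
    ⟨_, rfl⟩
  have hvp : ∀ (p : ℕ) (hp : p ∈ S), v p = (f (Sum.inl ⟨p, hp⟩)).1 := by
    intro p hp
    rw [hv]
    simp only [dif_pos hp]
  rw [← hv]
  have hsum : ∑ p ∈ S.filter (· ≤ x), ((if v p = a then (1 : ℝ) else 0) - ρ p a) =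
      (((S.filter (· ≤ x)).filter (v · = a)).card : ℝ) - c a (x + 1) := by
    rw [Finset.sum_sub_distrib, c_filter, Finset.card_filter]
    push_cast
    rfl
  rw [hsum]
  have hX0 := c_nonneg a (x + 1)
  -- upper bound
  have hup : ((S.filter (· ≤ x)).filter (v · = a)).card ≤ ⌈c a (x + 1)⌉₊ := by
    have h2 : ((S.filter (· ≤ x)).filter (v · = a)).card ≤ (range ⌈c a (x + 1)⌉₊).card := by
      refine Finset.card_le_card_of_injOn
        (fun p => if hp : p ∈ S then (f (Sum.inl ⟨p, hp⟩)).2 else 0) ?_ ?_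
      · intro p hp
        rw [Finset.mem_coe, Finset.mem_filter, Finset.mem_filter] at hp
        obtain ⟨⟨hpS, hpx⟩, hpa⟩ := hp
        have h3 := (hreal ⟨p, hpS⟩).2.2.1
        rw [hvp p hpS] at hpa
        rw [hpa] at h3
        simp only [dif_pos hpS, Finset.coe_range, Set.mem_Iio]
        rw [Nat.lt_ceil]
        exact h3.trans_le (c_mono a (by simpa using hpx))
      · intro p hp p' hp' h
        rw [Finset.mem_coe, Finset.mem_filter, Finset.mem_filter] at hp hp'
        obtain ⟨⟨hpS, -⟩, hpa⟩ := hp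
        obtain ⟨⟨hpS', -⟩, hpa'⟩ := hp'
        simp only [dif_pos hpS, dif_pos hpS'] at h
        rw [hvp p hpS] at hpa
        rw [hvp p' hpS'] at hpa'
        have h3 : f (Sum.inl ⟨p, hpS⟩) = f (Sum.inl ⟨p', hpS'⟩) :=
          Sigma.ext (hpa.trans hpa'.symm) (heq_of_eq h)
        have h4 := hfi h3
        simpa using h4
    simpa using h2
  -- lower bound
  have hlo : ⌊c a (x + 1)⌋₊ ≤ ((S.filter (· ≤ x)).filter (v · = a)).card := by
    have h2 : ∀ j ∈ range ⌊c a (x + 1)⌋₊, ∃ p : ℕ, ∃ hp : p ∈ S, p ≤ x ∧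
        f (Sum.inl ⟨p, hp⟩) = ⟨a, j⟩ := by
      intro j hj
      have hj1 : (j : ℝ) + 1 ≤ c a (x + 1) := by
        have h3 : j + 1 ≤ ⌊c a (x + 1)⌋₊ := Finset.mem_range.1 hj
        have h4 := (Nat.le_floor_iff hX0).1 h3
        push_cast at h4
        exact h4
      have hcN : c a (x + 1) ≤ c a N := by
        rcases le_total (x + 1) N with h | h
        · exact c_mono a h
        · -- after `N` nothing changes
          have h3 : ∀ y, N ≤ y → c a y = c a N := by
            intro y hy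
            induction y, hy using Nat.le_induction with
            | base => rfl
            | succ y hy ih =>
              rw [c_succ, if_neg, add_zero, ih]
              intro hyS
              exact absurd (Finset.mem_range.1 (hN hyS)) (by omega)
          exact (h3 _ h).le
      have hjJ : (⟨a, j⟩ : (_ : ℤ) × ℕ) ∈ J := by
        rw [hJ, Finset.mem_sigma]
        refine ⟨ha, Finset.mem_range.2 ?_⟩
        rw [Nat.lt_ceil]
        simp only
        linarith
      obtain ⟨i, hi⟩ := hfJ _ hjJ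
      rcases i with p | k
      · refine ⟨p, p.2, ?_, hi⟩
        by_contra hpx
        have h3 := (hreal p).2.2.2
        rw [hi] at h3
        have h4 : c a (x + 1) ≤ c a (p : ℕ) := c_mono a (by omega)
        simp only at h3
        linarith
      · exfalso
        have h3 := ((htm _ _).1 (hft (Sum.inr k))).2
        rw [hWr, hi] at h3
        simp only at h3
        rw [qL_of_ge (by linarith), sub_self, zero_div] at h3
        exact lt_irrefl _ h3
    choose! g hgS hgx hgf using h2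
    have h3 : (range ⌊c a (x + 1)⌋₊).card ≤ ((S.filter (· ≤ x)).filter (v · = a)).card := by
      refine Finset.card_le_card_of_injOn g ?_ ?_
      · intro j hj
        rw [Finset.mem_coe] at hj
        rw [Finset.mem_coe, Finset.mem_filter, Finset.mem_filter]
        refine ⟨⟨hgS j hj, hgx j hj⟩, ?_⟩
        rw [hvp _ (hgS j hj), hgf j hj]
      · intro j hj j' hj' h
        rw [Finset.mem_coe] at hj hj'
        have h4 := hgf j hj
        have h5 := hgf j' hj'
        have h6 : f (Sum.inl ⟨g j, hgS j hj⟩) = f (Sum.inl ⟨g j', hgS j' hj'⟩) := by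
          congr 2
          exact Subtype.ext h
        rw [h4, h5] at h6
        simpa using h6
    simpa using h3
  have h2 : (⌈c a (x + 1)⌉₊ : ℝ) < c a (x + 1) + 1 := Nat.ceil_lt_add_one hX0
  have h3 : c a (x + 1) < (⌊c a (x + 1)⌋₊ : ℝ) + 1 := Nat.lt_floor_add_one _
  have h4 : ((((S.filter (· ≤ x)).filter (v · = a)).card : ℕ) : ℝ) ≤ (⌈c a (x + 1)⌉₊ : ℝ) := by
    exact_mod_cast hup
  have h5 : (⌊c a (x + 1)⌋₊ : ℝ) ≤ ((((S.filter (· ≤ x)).filter (v · = a)).card : ℕ) : ℝ) := by
    exact_mod_cast hlo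
  rw [abs_le]
  constructor <;> linarith

end Pool.Agent.TB
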