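import Pool.Agent.Lib_MP_f1937f_tb.Defs
import Pool.Agent.Lib_MP_c1fc80_nt.LargeSieve

/-!
# Ramanujan sums
-/

set_option autoImplicit false

namespace Pool.Agent.TB

open Finset Pool.Agent.LibLS

/-- Ramanujan sum `∑ d ∣ (q, x), d μ(q / d)` -/
noncomputable def ram (q : ℕ) (x : ℤ) : ℝ :=
  ∑ d ∈ q.divisors.filter (fun d : ℕ => (d : ℤ) ∣ x), (d : ℝ) * (ArithmeticFunction.moebius (q / d) : ℝ)

end Pool.Agent.TB
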