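import Pool.Agent.Lib_MP_f1937f_tb.Ram

/-!
# Ramanujan sums as exponential sums
-/

set_option autoImplicit false

namespace Pool.Agent.TB

open Finset Pool.Agent.LibLS

private lemma RamExp_ind (b r : ℕ) (hr : r ≠ 0) :
    (∑ d ∈ r.divisors, if d ∣ b then ArithmeticFunction.moebius d else 0) =
      if b.Coprime r then 1 else 0 := by
  rw [← Finset.sum_filter]
  have h1 : r.divisors.filter (fun d => d ∣ b) = (Nat.gcd b r).divisors := by
    ext d
    simp only [Finset.mem_filter, Nat.mem_divisors]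
    constructor
    · rintro ⟨⟨h1, _⟩, h3⟩
      exact ⟨Nat.dvd_gcd h3 h1, Nat.gcd_ne_zero_right hr⟩
    · rintro ⟨h1, _⟩
      exact ⟨⟨h1.trans (Nat.gcd_dvd_right b r), hr⟩, h1.trans (Nat.gcd_dvd_left b r)⟩
  rw [h1, ← ArithmeticFunction.coe_mul_zeta_apply, ArithmeticFunction.moebius_mul_coe_zeta,
    ArithmeticFunction.one_apply]

private lemma RamExp_geom (s : ℕ) (hs : s ≠ 0) (x : ℤ) :
    (∑ c ∈ range s, e (c * (x / s : ℝ))) = if (s : ℤ) ∣ x then (s : ℂ) else 0 := by
  have hs' : (s : ℝ) ≠ 0 := by exact_mod_cast hs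
  by_cases h1 : (s : ℤ) ∣ x
  · rw [if_pos h1]
    obtain ⟨k, rfl⟩ := h1
    have h2 : ∀ c ∈ range s, e (c * (((s : ℤ) * k : ℤ) / s : ℝ)) = 1 := by
      intro c _
      have : ((c : ℝ) * ((((s : ℤ) * k : ℤ) : ℝ) / s)) = ((c * k : ℤ) : ℝ) := by
        push_cast
        field_simp
      rw [this, e_int]
    rw [Finset.sum_congr rfl h2]
    simp
  · rw [if_neg h1]
    have hne : e (x / s : ℝ) ≠ 1 := by
      intro h
      unfold e at h
      rw [Complex.exp_eq_one_iff] at h
      obtain ⟨n, hn⟩ := h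
      have h2 : (2 * Real.pi * (x / s) : ℝ) = n * (2 * Real.pi) := by
        have h3 : Complex.I * ((2 * Real.pi * (x / s) : ℝ) : ℂ) =
            Complex.I * ((n * (2 * Real.pi) : ℝ) : ℂ) := by
          rw [hn]
          push_cast
          ring
        exact_mod_cast mul_left_cancel₀ Complex.I_ne_zero h3
      have h3 : (x : ℝ) = n * s := by
        have hpi := Real.pi_pos
        have h4 : (x / s : ℝ) = n := by
          have : (2 * Real.pi) * (x / s : ℝ) = (2 * Real.pi) * n := by rw [h2]; ring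
          exact mul_left_cancel₀ (by positivity) this
        field_simp at h4
        linarith
      have h4 : x = n * s := by exact_mod_cast h3
      exact h1 ⟨n, by rw [h4]; ring⟩
    have h2 : (∑ c ∈ range s, e (c * (x / s : ℝ))) = ∑ c ∈ range s, e (x / s : ℝ) ^ c :=
      Finset.sum_congr rfl fun c _ => e_nat_mul c _
    have h3 : e (x / s : ℝ) ^ s = 1 := by
      rw [← e_nat_mul]
      have : (s : ℝ) * (x / s) = (x : ℝ) := by
        field_simp
      rw [this, e_int]
    rw [h2]
    have h4 := geom_sum_mul (e (x / s : ℝ)) s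
    rw [h3, sub_self] at h4
    exact (mul_eq_zero.mp h4).resolve_right (sub_ne_zero.mpr hne)

/-- PIECE [TB-F1] (about 80 lines). PROOF. `[(b, q) = 1] = ∑ c ∣ (b, q), μ c`, so the right side is
`∑ c ∣ q, μ c ∑ b' < q / c, e (x b' / (q / c))`, and the inner sum is `q / c` if `(q / c) ∣ x` and `0` otherwise; put `d = q / c`.
(Compare `ram_coprime_ind`, `ram_geom`, `ram_sum` in `Pool/Agent/Lib_MP_f1a94e_q/Ram.lean`.) -/
theorem ram_exp (q : ℕ) (hq : 0 < q) (x : ℤ) :
    (ram q x : ℂ) = ∑ b ∈ (range q).filter (fun b => b.Coprime q), e ((x : ℝ) * ((b : ℝ) / q)) := by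
  have hr : q ≠ 0 := hq.ne'
  rw [Finset.sum_filter]
  have h1 : ∀ b ∈ range q, (if b.Coprime q then e (x * (b / q : ℝ)) else 0) =
      ∑ d ∈ q.divisors, (ArithmeticFunction.moebius d : ℂ) *
        (if d ∣ b then e (x * (b / q : ℝ)) else 0) := by
    intro b _
    have h2 : (∑ d ∈ q.divisors, (ArithmeticFunction.moebius d : ℂ) *
        (if d ∣ b then e (x * (b / q : ℝ)) else 0)) =
        ((∑ d ∈ q.divisors, if d ∣ b then ArithmeticFunction.moebius d else 0 : ℤ) : ℂ) *
          e (x * (b / q : ℝ)) := by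
      push_cast
      rw [Finset.sum_mul]
      refine Finset.sum_congr rfl fun d _ => ?_
      by_cases h : d ∣ b <;> simp [h]
    rw [h2, RamExp_ind b q hr]
    by_cases h : b.Coprime q <;> simp [h]
  rw [Finset.sum_congr rfl h1, Finset.sum_comm]
  have h2 : ∀ d ∈ q.divisors, (∑ b ∈ range q, (ArithmeticFunction.moebius d : ℂ) *
      (if d ∣ b then e (x * (b / q : ℝ)) else 0)) =
      (ArithmeticFunction.moebius (q / (q / d)) : ℂ) *
        (if ((q / d : ℕ) : ℤ) ∣ x then ((q / d : ℕ) : ℂ) else 0) := by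
    intro d hd
    obtain ⟨s, hs⟩ := (Nat.mem_divisors.mp hd).1
    have hd0 : d ≠ 0 := by
      rintro rfl
      simp at hs
      exact hr hs
    have hs0 : s ≠ 0 := by
      rintro rfl
      simp at hs
      exact hr hs
    have hdR : (d : ℝ) ≠ 0 := by exact_mod_cast hd0
    have hsR : (s : ℝ) ≠ 0 := by exact_mod_cast hs0
    have e1 : q / d = s := by
      rw [hs]; exact Nat.mul_div_cancel_left s (Nat.pos_of_ne_zero hd0)
    have e2 : q / s = d := by
      rw [hs]; exact Nat.mul_div_cancel d (Nat.pos_of_ne_zero hs0)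
    have h3 : (∑ b ∈ range q, if d ∣ b then e (x * (b / q : ℝ)) else 0) =
        ∑ c ∈ range s, e (c * (x / s : ℝ)) := by
      rw [← Finset.sum_filter]
      symm
      refine Finset.sum_bij (fun c _ => d * c) ?_ ?_ ?_ ?_
      · intro c hc
        rw [Finset.mem_filter, Finset.mem_range]
        refine ⟨?_, dvd_mul_right d c⟩
        rw [hs]
        exact Nat.mul_lt_mul_of_pos_left (Finset.mem_range.mp hc) (Nat.pos_of_ne_zero hd0)
      · intro c _ c' _ h
        exact Nat.eq_of_mul_eq_mul_left (Nat.pos_of_ne_zero hd0) h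
      · intro b hb
        obtain ⟨hb1, c, hc⟩ := Finset.mem_filter.mp hb
        refine ⟨c, ?_, hc.symm⟩
        rw [Finset.mem_range] at hb1 ⊢
        rw [hc, hs] at hb1
        exact Nat.lt_of_mul_lt_mul_left hb1
      · intro c _
        congr 1
        rw [hs]
        push_cast
        field_simp
    rw [← Finset.mul_sum, h3, RamExp_geom s hs0 x, e1, e2]
  rw [Finset.sum_congr rfl h2]
  rw [Nat.sum_div_divisors q (fun s => (ArithmeticFunction.moebius (q / s) : ℂ) *
    (if (s : ℤ) ∣ x then (s : ℂ) else 0))]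
  rw [ram, Finset.sum_filter]
  push_cast
  refine Finset.sum_congr rfl fun d _ => ?_
  split_ifs
  · push_cast; ring
  · simp

end Pool.Agent.TB
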