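import Pool.Agent.Lib_MP_f1937f_tb.Ram
import Pool.Agent.Lib_MP_f1937f_tb.Tri

/-!
# The spike: definition
-/

set_option autoImplicit false

namespace Pool.Agent.TB

open Finset Pool.Agent.LibLS

/-- window lengths -/
noncomputable def Wi (R Y : ℝ) (i : ℕ) : ℕ := ⌊Y * √((8 : ℝ) ^ i) / R⌋₊

/-- the signed weights -/
noncomputable def nu (R Y : ℝ) (I : ℕ) (x : ℤ) : ℝ :=
  ∑ i ∈ range (I + 1), tri (Wi R Y i) x * ∑ q ∈ Ico (2 ^ i) (2 ^ (i + 1)), ram q x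

/-- conditions for the parameters -/
structure SpikeHyp (R Y : ℝ) (I : ℕ) : Prop where
  one_le : 1 ≤ R
  hY : 64 * R ^ 2 * (1 + Real.log R) ≤ Y
  hI : (8 : ℝ) ^ I ≤ R ^ 2
  hI' : R ^ 2 < (8 : ℝ) ^ (I + 1)

/-- PIECE [TB-H3] (about 100 lines, all three lemmas of this file). `exists_nat_pow_near` for `8`. -/
theorem spikeHyp_exists (R Y : ℝ) (hR : 1 ≤ R) (hY : 64 * R ^ 2 * (1 + Real.log R) ≤ Y) : ∃ I : ℕ, SpikeHyp R Y I := by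
  obtain ⟨I, h1, h2⟩ := exists_nat_pow_near (one_le_pow₀ hR : (1 : ℝ) ≤ R ^ 2)
    (by norm_num : (1 : ℝ) < 8)
  exact ⟨I, hR, hY, h1, h2⟩

/-- PROOF. `I log 8 ≤ 2 log R` and `log 8 = 3 log 2 ≥ 2`. -/
theorem SpikeHyp.I_le {R Y : ℝ} {I : ℕ} (h : SpikeHyp R Y I) : (I : ℝ) + 1 ≤ 1 + Real.log R := by
  have hR := h.one_le
  have h1 : Real.log ((8 : ℝ) ^ I) ≤ Real.log (R ^ 2) := Real.log_le_log (by positivity) h.hI
  rw [Real.log_pow, Real.log_pow] at h1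
  have h2 : Real.log 8 = 3 * Real.log 2 := by
    rw [show (8 : ℝ) = 2 ^ 3 by norm_num, Real.log_pow]
    norm_num
  have h3 := Real.log_two_gt_d9
  have h4 : (I : ℝ) * 2 ≤ I * Real.log 8 :=
    mul_le_mul_of_nonneg_left (by rw [h2]; linarith) (Nat.cast_nonneg I)
  push_cast at h1
  linarith

/-- PROOF. `√(8 ^ i) ≤ R`, so `Wi ≤ Y`. `Y ≥ 64 R ^ 2`, so `z = Y √(8 ^ i) / R ≥ 64 R √(8 ^ i) ≥ 64 * 4 ^ i`
(`4 ^ i = √(8 ^ i) √(2 ^ i) ≤ √(8 ^ i) R`); so `⌊z⌋ ≥ z / 2 ≥ 4 ^ (i + 1)` and `1 / ⌊z⌋ ≤ 2 / z`. -/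
theorem SpikeHyp.Wi_facts {R Y : ℝ} {I : ℕ} (h : SpikeHyp R Y I) (i : ℕ) (hi : i ≤ I) :
    √((8 : ℝ) ^ i) ≤ R ∧ 4 ^ (i + 1) ≤ Wi R Y i ∧ (Wi R Y i : ℝ) ≤ Y * √((8 : ℝ) ^ i) / R ∧ (Wi R Y i : ℝ) ≤ Y ∧
      1 / (Wi R Y i : ℝ) ≤ 2 * R / (Y * √((8 : ℝ) ^ i)) := by
  have hR := h.one_le
  have hR0 : 0 < R := by linarith
  have hlog : 0 ≤ Real.log R := Real.log_nonneg hR
  have hY : 64 * R ^ 2 ≤ Y := by
    have h1 : 64 * R ^ 2 * 1 ≤ 64 * R ^ 2 * (1 + Real.log R) :=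
      mul_le_mul_of_nonneg_left (by linarith) (by positivity)
    linarith [h.hY]
  have hY0 : 0 < Y := lt_of_lt_of_le (by positivity) hY
  have h8 : (8 : ℝ) ^ i ≤ R ^ 2 := (pow_le_pow_right₀ (by norm_num) hi).trans h.hI
  have hs : √((8 : ℝ) ^ i) ≤ R := Real.sqrt_le_iff.2 ⟨hR0.le, h8⟩
  have hs0 : 0 < √((8 : ℝ) ^ i) := Real.sqrt_pos.2 (by positivity)
  have hs2 : √((2 : ℝ) ^ i) ≤ R :=
    (Real.sqrt_le_sqrt (pow_le_pow_left₀ (by norm_num) (by norm_num) i)).trans hs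
  have h4 : (4 : ℝ) ^ i ≤ √((8 : ℝ) ^ i) * R := by
    have h5 : √((8 : ℝ) ^ i) * √((2 : ℝ) ^ i) = 4 ^ i := by
      rw [← Real.sqrt_mul (by positivity), ← mul_pow,
        show ((8 : ℝ) * 2) ^ i = (4 ^ i) ^ 2 by rw [← pow_mul, mul_comm i 2, pow_mul]; norm_num]
      exact Real.sqrt_sq (by positivity)
    rw [← h5]
    exact mul_le_mul_of_nonneg_left hs2 hs0.le
  have hz1 : 64 * (4 : ℝ) ^ i ≤ Y * √((8 : ℝ) ^ i) / R := by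
    rw [le_div_iff₀ hR0]
    calc 64 * (4 : ℝ) ^ i * R ≤ 64 * (√((8 : ℝ) ^ i) * R) * R := by gcongr
      _ = (64 * R ^ 2) * √((8 : ℝ) ^ i) := by ring
      _ ≤ Y * √((8 : ℝ) ^ i) := mul_le_mul_of_nonneg_right hY hs0.le
  have h4' : (1 : ℝ) ≤ 4 ^ i := one_le_pow₀ (by norm_num)
  have hz0 : 0 < Y * √((8 : ℝ) ^ i) / R := by positivity
  have hW : (Wi R Y i : ℝ) ≤ Y * √((8 : ℝ) ^ i) / R := Nat.floor_le hz0.le
  have hW2 : Y * √((8 : ℝ) ^ i) / R / 2 ≤ (Wi R Y i : ℝ) := by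
    have h5 : Y * √((8 : ℝ) ^ i) / R < (Wi R Y i : ℝ) + 1 := Nat.lt_floor_add_one _
    linarith
  refine ⟨hs, ?_, hW, hW.trans ?_, ?_⟩
  · refine Nat.le_floor ?_
    push_cast
    rw [pow_succ]
    linarith
  · rw [div_le_iff₀ hR0]
    exact mul_le_mul_of_nonneg_left hs hY0.le
  · calc 1 / (Wi R Y i : ℝ) ≤ 1 / (Y * √((8 : ℝ) ^ i) / R / 2) :=
        one_div_le_one_div_of_le (by positivity) hW2
      _ = 2 * R / (Y * √((8 : ℝ) ^ i)) := by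
        field_simp

end Pool.Agent.TB
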