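import Pool.Agent.Lib_MP_f1937f_tb.SpikeDef
import Pool.Agent.Lib_MP_f1937f_tb.RamBd

/-!
# The spike: size
-/

set_option autoImplicit false

namespace Pool.Agent.TB

open Finset Pool.Agent.LibLS

/-- PIECE [TB-H4] (about 120 lines, all three lemmas of this file). `tri W x = 0` for `|x| ≥ W`, `Wi ≤ Y`. -/
theorem nu_supp {R Y : ℝ} {I : ℕ} (h : SpikeHyp R Y I) (x : ℤ) (hx : Y < |(x : ℝ)|) : nu R Y I x = 0 := by
  unfold nu
  refine sum_eq_zero fun i hi => ?_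
  have hi' : i ≤ I := Nat.lt_succ_iff.1 (mem_range.1 hi)
  obtain ⟨_, h2, _, h4, _⟩ := h.Wi_facts i hi'
  have hW : 1 ≤ Wi R Y i := le_trans (Nat.one_le_pow _ _ (by norm_num)) h2
  have h5 : ((Wi R Y i : ℕ) : ℤ) ≤ |x| := by
    have h6 : ((Wi R Y i : ℕ) : ℝ) ≤ |(x : ℝ)| := h4.trans hx.le
    exact_mod_cast h6
  rw [(tri_facts (Wi R Y i) hW x).2.2.1 h5, zero_mul]

private theorem SpikeSize_Y {R Y : ℝ} {I : ℕ} (h : SpikeHyp R Y I) : 0 < Y := by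
  have hR := h.one_le
  have hlog : 0 ≤ Real.log R := Real.log_nonneg hR
  have h1 : 0 < 64 * R ^ 2 * (1 + Real.log R) := by positivity
  linarith [h.hY]

/-- termwise bound -/
private theorem SpikeSize_term {R Y : ℝ} {I : ℕ} (h : SpikeHyp R Y I) (x : ℤ) (B : ℕ → ℝ)
    (hB : ∀ i ≤ I, ∑ q ∈ Ico (2 ^ i) (2 ^ (i + 1)), |ram q x| ≤ B i) :
    |nu R Y I x| ≤ ∑ i ∈ range (I + 1), 2 * R / (Y * √((8 : ℝ) ^ i)) * B i := by
  unfold nu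
  refine (abs_sum_le_sum_abs _ _).trans (sum_le_sum fun i hi => ?_)
  have hi' : i ≤ I := Nat.lt_succ_iff.1 (mem_range.1 hi)
  obtain ⟨_, h2, _, _, h5⟩ := h.Wi_facts i hi'
  have hW : 1 ≤ Wi R Y i := le_trans (Nat.one_le_pow _ _ (by norm_num)) h2
  obtain ⟨t0, t1, _, _⟩ := tri_facts (Wi R Y i) hW x
  rw [abs_mul, abs_of_nonneg t0]
  have h6 : |∑ q ∈ Ico (2 ^ i) (2 ^ (i + 1)), ram q x| ≤ B i :=
    (abs_sum_le_sum_abs _ _).trans (hB i hi')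
  exact mul_le_mul (t1.trans h5) h6 (abs_nonneg _) (le_trans t0 (t1.trans h5))

/-- PROOF. `0 ≤ tri ≤ 1 / Wi ≤ 2 R / (Y √(8 ^ i))` (`tri_facts`, `Wi_facts`) and `ram_dyadic`:
`|nu x| ≤ ∑ i ≤ I, 2 R / (Y √(8 ^ i)) * 3 * 2 ^ i τ(|x|) = 6 (R / Y) τ ∑ i, 2 ^ i / √(8 ^ i)`, `2 ^ i / √(8 ^ i) = (1 / √2) ^ i ≤ (3 / 4) ^ i`, and the
geometric series has sum `≤ 4`. -/
theorem nu_size {R Y : ℝ} {I : ℕ} (h : SpikeHyp R Y I) (x : ℤ) (hx : x ≠ 0) :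
    |nu R Y I x| ≤ 24 * (R / Y) * (x.natAbs.divisors.card : ℝ) := by
  have hR : 0 < R := by linarith [h.one_le]
  have hY := SpikeSize_Y h
  set τ : ℝ := (x.natAbs.divisors.card : ℝ) with hτ
  have hτ0 : 0 ≤ τ := by rw [hτ]; exact Nat.cast_nonneg _
  refine (SpikeSize_term h x (fun i => 3 * 2 ^ i * τ) fun i _ => ram_dyadic i x hx).trans ?_
  have h1 : ∀ i ∈ range (I + 1), 2 * R / (Y * √((8 : ℝ) ^ i)) * (3 * 2 ^ i * τ) ≤
      6 * (R / Y) * τ * (3 / 4) ^ i := by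
    intro i _
    have hs0 : 0 < √((8 : ℝ) ^ i) := Real.sqrt_pos.2 (by positivity)
    have h2 : (2 : ℝ) ^ i ≤ √((8 : ℝ) ^ i) * (3 / 4) ^ i := by
      have h3 : ((2 : ℝ) ^ i) ^ 2 ≤ (√((8 : ℝ) ^ i) * (3 / 4) ^ i) ^ 2 := by
        rw [mul_pow, Real.sq_sqrt (by positivity), ← pow_mul, ← pow_mul, mul_comm i 2, pow_mul,
          pow_mul, ← mul_pow]
        exact pow_le_pow_left₀ (by norm_num) (by norm_num) i
      exact le_of_sq_le_sq h3 (by positivity)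
    calc 2 * R / (Y * √((8 : ℝ) ^ i)) * (3 * 2 ^ i * τ)
        = 6 * (R / Y) * τ * (2 ^ i / √((8 : ℝ) ^ i)) := by field_simp; ring
      _ ≤ 6 * (R / Y) * τ * (3 / 4) ^ i := by
        refine mul_le_mul_of_nonneg_left ?_ (by positivity)
        rw [div_le_iff₀ hs0]
        linarith
  refine (sum_le_sum h1).trans ?_
  rw [← mul_sum, geom_sum_eq (by norm_num)]
  have h4 : (0 : ℝ) ≤ (3 / 4) ^ (I + 1) := by positivity
  have h5 : (((3 / 4 : ℝ)) ^ (I + 1) - 1) / (3 / 4 - 1) ≤ 4 := by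
    rw [div_le_iff_of_neg (by norm_num)]
    linarith
  calc 6 * (R / Y) * τ * ((((3 / 4 : ℝ)) ^ (I + 1) - 1) / (3 / 4 - 1))
      ≤ 6 * (R / Y) * τ * 4 := mul_le_mul_of_nonneg_left h5 (by positivity)
    _ = 24 * (R / Y) * τ := by ring

/-- PROOF. `|ram q 0| ≤ φ(q) ≤ q < 2 ^ (i + 1)` and there are `2 ^ i` values of `q`:
`|nu 0| ≤ ∑ i ≤ I, 2 R / (Y √(8 ^ i)) * 2 ^ i * 2 ^ (i + 1) = 4 (R / Y) ∑ i, 4 ^ i / √(8 ^ i) ≤ 4 (R / Y) (I + 1) R`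
(`4 ^ i / √(8 ^ i) = √(2 ^ i) ≤ √(8 ^ i) ≤ R`), and `I + 1 ≤ 1 + log R`, `Y ≥ 64 R ^ 2 (1 + log R)`. -/
theorem nu_zero {R Y : ℝ} {I : ℕ} (h : SpikeHyp R Y I) : |nu R Y I 0| ≤ 1 / 2 := by
  have hR : 0 < R := by linarith [h.one_le]
  have hY := SpikeSize_Y h
  have hlog : 0 ≤ Real.log R := Real.log_nonneg h.one_le
  have hB : ∀ i ≤ I, ∑ q ∈ Ico (2 ^ i) (2 ^ (i + 1)), |ram q 0| ≤ (2 : ℝ) ^ i * 2 ^ (i + 1) := by
    intro i _
    have h1 : ∀ q ∈ Ico (2 ^ i) (2 ^ (i + 1)), |ram q 0| ≤ (2 : ℝ) ^ (i + 1) := by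
      intro q hq
      obtain ⟨h2, h3⟩ := mem_Ico.1 hq
      have hq0 : 0 < q := lt_of_lt_of_le (Nat.pos_of_ne_zero (pow_ne_zero i two_ne_zero)) h2
      refine (ram_le_totient q hq0 0).trans ?_
      have h4 : q.totient ≤ 2 ^ (i + 1) := (Nat.totient_le q).trans h3.le
      exact_mod_cast h4
    refine (sum_le_card_nsmul _ _ _ h1).trans (le_of_eq ?_)
    rw [Nat.card_Ico, nsmul_eq_mul]
    have h5 : 2 ^ (i + 1) - 2 ^ i = 2 ^ i := by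
      rw [pow_succ]
      omega
    rw [h5]
    push_cast
    ring
  refine (SpikeSize_term h 0 _ hB).trans ?_
  have h1 : ∀ i ∈ range (I + 1), 2 * R / (Y * √((8 : ℝ) ^ i)) * ((2 : ℝ) ^ i * 2 ^ (i + 1)) ≤
      4 * R ^ 2 / Y := by
    intro i hi
    have hi' : i ≤ I := Nat.lt_succ_iff.1 (mem_range.1 hi)
    obtain ⟨hs, _⟩ := h.Wi_facts i hi'
    have hs0 : 0 < √((8 : ℝ) ^ i) := Real.sqrt_pos.2 (by positivity)
    have hs2 : √((2 : ℝ) ^ i) ≤ R :=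
      (Real.sqrt_le_sqrt (pow_le_pow_left₀ (by norm_num) (by norm_num) i)).trans hs
    have h4 : (4 : ℝ) ^ i ≤ √((8 : ℝ) ^ i) * R := by
      have h5 : √((8 : ℝ) ^ i) * √((2 : ℝ) ^ i) = 4 ^ i := by
        rw [← Real.sqrt_mul (by positivity), ← mul_pow,
          show ((8 : ℝ) * 2) ^ i = (4 ^ i) ^ 2 by rw [← pow_mul, mul_comm i 2, pow_mul]; norm_num]
        exact Real.sqrt_sq (by positivity)
      rw [← h5]
      exact mul_le_mul_of_nonneg_left hs2 hs0.le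
    have h6 : (2 : ℝ) ^ i * 2 ^ (i + 1) = 2 * 4 ^ i := by
      rw [pow_succ, show (4 : ℝ) = 2 * 2 by norm_num, mul_pow]
      ring
    rw [h6, div_mul_eq_mul_div, div_le_div_iff₀ (by positivity) hY]
    calc 2 * R * (2 * 4 ^ i) * Y = 4 * R * Y * 4 ^ i := by ring
      _ ≤ 4 * R * Y * (√((8 : ℝ) ^ i) * R) := mul_le_mul_of_nonneg_left h4 (by positivity)
      _ = 4 * R ^ 2 * (Y * √((8 : ℝ) ^ i)) := by ring
  refine (sum_le_card_nsmul _ _ _ h1).trans ?_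
  rw [card_range, nsmul_eq_mul]
  push_cast
  have h2 : ((I : ℝ) + 1) * (4 * R ^ 2 / Y) ≤ (1 + Real.log R) * (4 * R ^ 2 / Y) :=
    mul_le_mul_of_nonneg_right h.I_le (by positivity)
  refine h2.trans ?_
  rw [mul_div_assoc', div_le_iff₀ hY]
  linarith [h.hY]

end Pool.Agent.TB
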