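import Pool.Agent.Lib_MP_f1937f_tb.Defs
import Pool.Agent.Lib_MP_c1fc80_nt.LargeSieve

/-!
# Inverse squares of spaced points
-/

set_option autoImplicit false

namespace Pool.Agent.TB

open Finset Pool.Agent.LibLS

theorem SumInv_tel (δ σ : ℝ) (hδ : 0 < δ) (hσ : 0 < σ) (N : ℕ) :
    ∑ n ∈ range (N + 1), 1 / (σ + n * δ) ^ 2 ≤
      1 / σ ^ 2 + 1 / (δ * σ) - 1 / (δ * (σ + N * δ)) := by
  induction N with
  | zero => simp
  | succ N ih =>
    rw [sum_range_succ]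
    have h1 : 0 < σ + N * δ := by positivity
    have h2 : 0 < σ + (N + 1 : ℕ) * δ := by positivity
    have h3 : 1 / (σ + (N + 1 : ℕ) * δ) ^ 2 ≤
        1 / (δ * (σ + N * δ)) - 1 / (δ * (σ + (N + 1 : ℕ) * δ)) := by
      have h4 : 1 / (δ * (σ + N * δ)) - 1 / (δ * (σ + (N + 1 : ℕ) * δ)) =
          1 / ((σ + N * δ) * (σ + (N + 1 : ℕ) * δ)) := by
        field_simp
        push_cast
        ring
      rw [h4]
      apply one_div_le_one_div_of_le (by positivity)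
      have h5 : σ + N * δ ≤ σ + (N + 1 : ℕ) * δ := by
        push_cast
        nlinarith
      nlinarith
    linarith

theorem SumInv_half {ι : Type*} (J : Finset ι) (t : ι → ℝ) (δ σ : ℝ) (hδ : 0 < δ) (hσ : 0 < σ)
    (hsp : ∀ i ∈ J, ∀ j ∈ J, i ≠ j → δ ≤ |t i - t j|) (hfar : ∀ j ∈ J, σ ≤ t j) :
    ∑ j ∈ J, 1 / (t j) ^ 2 ≤ 1 / σ ^ 2 + 1 / (δ * σ) := by
  classical
  have hfl : ∀ j ∈ J, (⌊(t j - σ) / δ⌋₊ : ℝ) ≤ (t j - σ) / δ := fun j hj =>
    Nat.floor_le (div_nonneg (sub_nonneg.2 (hfar j hj)) hδ.le)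
  have hfl' : ∀ j, (t j - σ) / δ < (⌊(t j - σ) / δ⌋₊ : ℝ) + 1 := fun j => Nat.lt_floor_add_one _
  have hinj : Set.InjOn (fun j => ⌊(t j - σ) / δ⌋₊) (J : Set ι) := by
    intro i hi j hj hij
    by_contra hne
    have h1 := hsp i hi j hj hne
    have h2 := hfl i hi
    have h3 := hfl j hj
    have h4 := hfl' i
    have h5 := hfl' j
    have hij' : ⌊(t i - σ) / δ⌋₊ = ⌊(t j - σ) / δ⌋₊ := hij
    rw [hij'] at h2 h4
    have h6 : |(t i - σ) / δ - (t j - σ) / δ| < 1 := by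
      rw [abs_lt]
      constructor <;> linarith
    have h7 : (t i - σ) / δ - (t j - σ) / δ = (t i - t j) / δ := by ring
    rw [h7, abs_div, abs_of_pos hδ, div_lt_one hδ] at h6
    linarith
  calc ∑ j ∈ J, 1 / (t j) ^ 2 ≤ ∑ j ∈ J, 1 / (σ + (⌊(t j - σ) / δ⌋₊ : ℕ) * δ) ^ 2 := by
        apply sum_le_sum
        intro j hj
        have h1 := hfl j hj
        rw [le_div_iff₀ hδ] at h1
        apply one_div_le_one_div_of_le (by positivity)
        have h2 : 0 ≤ (⌊(t j - σ) / δ⌋₊ : ℝ) * δ := by positivity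
        apply pow_le_pow_left₀ (by linarith)
        linarith
    _ = ∑ n ∈ J.image (fun j => ⌊(t j - σ) / δ⌋₊), 1 / (σ + n * δ) ^ 2 := by
        rw [sum_image hinj]
    _ ≤ ∑ n ∈ range ((J.image (fun j => ⌊(t j - σ) / δ⌋₊)).sup id + 1), 1 / (σ + n * δ) ^ 2 := by
        apply sum_le_sum_of_subset_of_nonneg
        · intro n hn
          rw [mem_range]
          exact Nat.lt_succ_of_le (le_sup (f := id) hn)
        · intro n _ _
          positivity
    _ ≤ _ := SumInv_tel δ σ hδ hσ _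
    _ ≤ 1 / σ ^ 2 + 1 / (δ * σ) := by
        have : 0 < 1 / (δ * (σ + ((J.image (fun j => ⌊(t j - σ) / δ⌋₊)).sup id : ℕ) * δ)) := by
          positivity
        linarith

/-- PIECE [TB-G1] (about 100 lines). PROOF. Put `t j = ξ j - round (ξ j)`, `|t j| ≤ 1 / 2`; by `hfar` `|t j| ≥ σ`, by `Spaced`
`|t j - t j'| ≥ δ` for `j ≠ j'`. Split into `t j > 0` and `t j < 0`. On the first set `n j = ⌊(t j - σ) / δ⌋₊` is injective
(two values in the same interval of length `δ` differ by less than `δ`) and `t j ≥ σ + n j δ`, so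
`∑ 1 / t j ^ 2 ≤ ∑_{n ≥ 0} 1 / (σ + n δ) ^ 2 ≤ 1 / σ ^ 2 + 1 / (δ σ)` (finite sums; for `n ≥ 1`
`1 / (σ + n δ) ^ 2 ≤ (1 / δ) (1 / (σ + (n - 1) δ) - 1 / (σ + n δ))`, telescoping). Same for the negative ones. -/
theorem sum_inv_sq {ι : Type*} (J : Finset ι) (ξ : ι → ℝ) (δ σ : ℝ) (hδ : 0 < δ) (hσ : 0 < σ)
    (hsp : Spaced J ξ δ) (hfar : ∀ j ∈ J, ∀ z : ℤ, σ ≤ |ξ j - z|) :
    ∑ j ∈ J, 1 / (ξ j - round (ξ j)) ^ 2 ≤ 2 * (1 / σ ^ 2 + 1 / (δ * σ)) := by
  classical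
  have hs : ∀ i ∈ J, ∀ j ∈ J, i ≠ j →
      δ ≤ |(ξ i - round (ξ i)) - (ξ j - round (ξ j))| := by
    intro i hi j hj hij
    have h := hsp i hi j hj hij (round (ξ i) - round (ξ j))
    have e : (ξ i - round (ξ i)) - (ξ j - round (ξ j)) =
        ξ i - ξ j - ((round (ξ i) - round (ξ j) : ℤ) : ℝ) := by
      push_cast
      ring
    rw [e]
    exact h
  have hpos := SumInv_half (J.filter fun j => 0 ≤ ξ j - round (ξ j))
    (fun j => ξ j - round (ξ j)) δ σ hδ hσ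
    (fun i hi j hj hij => hs i (mem_filter.1 hi).1 j (mem_filter.1 hj).1 hij)
    (fun j hj => by
      have h := hfar j (mem_filter.1 hj).1 (round (ξ j))
      rwa [abs_of_nonneg (mem_filter.1 hj).2] at h)
  have hneg := SumInv_half (J.filter fun j => ¬ 0 ≤ ξ j - round (ξ j))
    (fun j => -(ξ j - round (ξ j))) δ σ hδ hσ
    (fun i hi j hj hij => by
      have h := hs i (mem_filter.1 hi).1 j (mem_filter.1 hj).1 hij
      have e : -(ξ i - (round (ξ i) : ℝ)) - -(ξ j - (round (ξ j) : ℝ)) =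
          -((ξ i - round (ξ i)) - (ξ j - round (ξ j))) := by ring
      rw [e, abs_neg]
      exact h)
    (fun j hj => by
      have h := hfar j (mem_filter.1 hj).1 (round (ξ j))
      rwa [abs_of_neg (not_le.1 (mem_filter.1 hj).2)] at h)
  simp only [neg_sq] at hneg
  rw [← sum_filter_add_sum_filter_not J (fun j => 0 ≤ ξ j - round (ξ j))]
  linarith

end Pool.Agent.TB
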